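import Pool.Agent.Lib.DL.Blue

set_option autoImplicit false

namespace Pool.Agent.Lib.DL

open QuadraticAlgebra

namespace AR1p

variable (F : IQ)

theorem inert_dvd (p : ℕ) (hp : p.Prime) (h : F.inert p) (z : F.O) (hz : (p : ℤ) ∣ z.norm) :
    (p : F.O) ∣ z := by
  have hp' : Prime (p : ℤ) := Nat.prime_iff_prime_int.1 hp
  rw [norm_def] at hz
  have him : (p : ℤ) ∣ z.im := by
    by_contra hn
    obtain ⟨v, u, huv⟩ := (hp'.irreducible.coprime_iff_not_dvd).2 hn
    apply h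
    refine ⟨-(z.re * u), ?_⟩
    have e : (-(z.re * u)) ^ 2 - F.b * (-(z.re * u)) - F.a
        = u ^ 2 * (z.re * z.re + F.b * z.re * z.im - F.a * z.im * z.im)
          + p * (v * (F.b * z.re * u - F.a * (1 + u * z.im))) := by
      linear_combination (-(F.b * z.re * u - F.a * (1 + u * z.im))) * huv
    rw [e]
    exact dvd_add (hz.mul_left _) (dvd_mul_right _ _)
  have hre : (p : ℤ) ∣ z.re := by
    have h1 : (p : ℤ) ∣ z.re * z.re := by
      have e : z.re * z.re = (z.re * z.re + F.b * z.re * z.im - F.a * z.im * z.im)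
          - (F.b * z.re - F.a * z.im) * z.im := by ring
      rw [e]
      exact dvd_sub hz (him.mul_left _)
    rcases hp'.dvd_or_dvd h1 with h2 | h2 <;> exact h2
  have := (F.natCast_dvd_iff (n := (p : ℤ)) (z := z)).2 ⟨hre, him⟩
  simpa using this

theorem span_ne_bot {p : ℕ} (hp : p ≠ 0) : Ideal.span {(p : F.O)} ≠ ⊥ := by
  intro h
  have := F.absNorm_span_nat p
  rw [h, Ideal.absNorm_bot] at this
  exact pow_ne_zero 2 hp this.symm

theorem inert_prime (p : ℕ) (hp : p.Prime) (h : F.inert p) : Prime (Ideal.span {(p : F.O)}) := by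
  have hp' : Prime (p : ℤ) := Nat.prime_iff_prime_int.1 hp
  have h0 : (p : F.O) ≠ 0 := fun h0 =>
    span_ne_bot F hp.ne_zero (by rw [h0]; exact Ideal.span_singleton_eq_bot.2 rfl)
  rw [Ideal.prime_iff_isPrime (span_ne_bot F hp.ne_zero), Ideal.span_singleton_prime h0]
  refine ⟨h0, fun hu => ?_, fun z w hzw => ?_⟩
  · rw [F.isUnit_iff_norm, QuadraticAlgebra.norm_natCast] at hu
    have h2 : (2 : ℤ) ≤ p := by exact_mod_cast hp.two_le
    nlinarith
  · have h1 := map_dvd (QuadraticAlgebra.norm (R := ℤ) (a := F.a) (b := F.b)) hzw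
    rw [map_mul, QuadraticAlgebra.norm_natCast] at h1
    rcases hp'.dvd_or_dvd ((dvd_pow_self _ two_ne_zero).trans h1) with h2 | h2
    · exact Or.inl (inert_dvd F p hp h z h2)
    · exact Or.inr (inert_dvd F p hp h w h2)

theorem eq_of_dvd {P Q : Ideal F.O} (hP : Prime P) (hQ : Prime Q) (h : P ∣ Q) : P = Q :=
  associated_iff_eq.1 (hP.associated_of_dvd hQ h)

theorem root_mul (r : ℤ) :
    ((ω : F.O) - r) * (star (ω : F.O) - r) = ((r ^ 2 - F.b * r - F.a : ℤ) : F.O) := by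
  rw [sq]
  ext
  · simp; ring
  · simp

theorem root_mem {p : ℕ} {r : ℤ} (hr : (p : ℤ) ∣ r ^ 2 - F.b * r - F.a) {Q : Ideal F.O}
    (hQ : Prime Q) (hp : (p : F.O) ∈ Q) : (ω : F.O) - r ∈ Q ∨ star (ω : F.O) - r ∈ Q := by
  apply (Ideal.isPrime_of_prime hQ).mem_or_mem
  rw [root_mul]
  obtain ⟨c, hc⟩ := hr
  rw [hc]
  push_cast
  exact Q.mul_mem_right _ hp

theorem not_dvd1 {p : ℕ} (hp : p.Prime) (r : ℤ) : ¬ (p : F.O) ∣ (ω : F.O) - r := by
  intro h
  have h1 := ((F.natCast_dvd_iff (n := (p : ℤ)) (z := (ω : F.O) - r)).1 (by simpa using h)).2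
  have h2 : ((ω : F.O) - r).im = 1 := by simp
  rw [h2] at h1
  exact (Nat.prime_iff_prime_int.1 hp).not_dvd_one h1

theorem not_dvd2 {p : ℕ} (hp : p.Prime) (r : ℤ) : ¬ (p : F.O) ∣ star (ω : F.O) - r := by
  intro h
  have h1 :=
    ((F.natCast_dvd_iff (n := (p : ℤ)) (z := star (ω : F.O) - r)).1 (by simpa using h)).2
  have h2 : (star (ω : F.O) - r).im = -1 := by simp
  rw [h2, dvd_neg] at h1
  exact (Nat.prime_iff_prime_int.1 hp).not_dvd_one h1

theorem norm_cases {P : Ideal F.O} (hP : Prime P) :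
    Ideal.absNorm P = F.ell P ∨ P = Ideal.span {((F.ell P : ℕ) : F.O)} := by
  have hl := F.ell_prime hP
  obtain ⟨k, hk, he⟩ := (Nat.dvd_prime_pow hl).1 (F.absNorm_dvd_ell_sq hP)
  have h2 := F.two_le_absNorm hP
  interval_cases k
  · rw [pow_zero] at he; omega
  · left; rw [he, pow_one]
  · right
    obtain ⟨K, hK⟩ := F.dvd_span_iff.2 (F.ell_mem hP)
    have h1 := congrArg Ideal.absNorm hK
    rw [F.absNorm_span_nat, map_mul, he] at h1
    have h3 : Ideal.absNorm K = 1 := by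
      have := pow_pos hl.pos 2
      exact (Nat.eq_of_mul_eq_mul_left this (by rw [mul_one]; exact h1)).symm
    rw [Ideal.absNorm_eq_one_iff] at h3
    rw [hK, h3, Ideal.mul_top]

theorem norm_eq {P : Ideal F.O} (hP : Prime P) (h : ¬ F.inert (F.ell P)) :
    Ideal.absNorm P = F.ell P := by
  rcases norm_cases F hP with h1 | h1
  · exact h1
  · exfalso
    obtain ⟨r, hr⟩ := not_not.1 h
    have hl := F.ell_prime hP
    rcases root_mem F hr hP (F.ell_mem hP) with h2 | h2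
    · rw [h1, Ideal.mem_span_singleton] at h2
      exact not_dvd1 F hl r h2
    · rw [h1, Ideal.mem_span_singleton] at h2
      exact not_dvd2 F hl r h2

theorem ell_of_norm {P : Ideal F.O} (h : (Ideal.absNorm P).Prime) :
    F.ell P = Ideal.absNorm P := F.ell_eq_of_dvd (F.prime_of_absNorm h) h dvd_rfl

theorem not_inert {P : Ideal F.O} (h : (Ideal.absNorm P).Prime) :
    ¬ F.inert (Ideal.absNorm P) := by
  intro hi
  have h1 := eq_of_dvd F (F.prime_of_absNorm h) (inert_prime F _ h hi)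
    (F.dvd_span_iff.2 (Ideal.absNorm_mem P))
  have h2 := congrArg Ideal.absNorm h1
  rw [F.absNorm_span_nat] at h2
  have := h.two_le
  nlinarith

theorem eq_of_common {P Q : Ideal F.O} (hP : Prime P) (hQ : Prime Q) {p : ℕ} {z : F.O}
    (h : P * Q = Ideal.span {(p : F.O)}) (h1 : z ∈ P) (h2 : z ∈ Q) (hz : ¬ (p : F.O) ∣ z) :
    Q = P := by
  obtain ⟨K, hK⟩ := F.dvd_span_iff.2 h1
  have h3 := F.dvd_span_iff.2 h2
  rw [hK] at h3
  rcases hQ.dvd_or_dvd h3 with h4 | h4
  · exact eq_of_dvd F hQ hP h4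
  · exfalso
    apply hz
    rw [← Ideal.mem_span_singleton, ← F.dvd_span_iff, ← h, hK]
    exact mul_dvd_mul_left _ h4

theorem star_root (r : ℤ) : star ((ω : F.O) - r) = star (ω : F.O) - r := by simp

theorem star_root' (r : ℤ) : star (star (ω : F.O) - r) = (ω : F.O) - r := by simp

theorem both_mem {P : Ideal F.O} (hc : F.cj P = P) {r : ℤ}
    (h : (ω : F.O) - r ∈ P ∨ star (ω : F.O) - r ∈ P) :
    (ω : F.O) - r ∈ P ∧ star (ω : F.O) - r ∈ P := by
  rcases h with h | h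
  · refine ⟨h, ?_⟩
    rw [← hc, F.mem_cj, star_root']
    exact h
  · refine ⟨?_, h⟩
    rw [← hc, F.mem_cj, star_root]
    exact h

theorem cj_nat (p : ℕ) : F.cj (Ideal.span {(p : F.O)}) = Ideal.span {(p : F.O)} := by
  rw [F.cj_span, star_natCast]

theorem mul_cj_prime {P : Ideal F.O} (hP : Prime P) :
    P * F.cj P = Ideal.span {((Ideal.absNorm P : ℕ) : F.O)} := by
  rcases norm_cases F hP with h1 | h1
  · have hn : (Ideal.absNorm P).Prime := h1 ▸ F.ell_prime hP
    obtain ⟨b, -, hb, hb'⟩ := F.exists_compl hP.ne_zero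
    have hbp : Prime b := F.prime_of_absNorm (hb' ▸ hn)
    have h2 : F.cj P ∣ P * b := by
      rw [hb, ← cj_nat]
      exact F.cj_dvd (F.dvd_span_iff.2 (Ideal.absNorm_mem P))
    rcases (F.prime_cj hP).dvd_or_dvd h2 with h3 | h3
    · have hc := eq_of_dvd F (F.prime_cj hP) hP h3
      obtain ⟨r, hr⟩ := not_not.1 (not_inert F hn)
      obtain ⟨h4, h5⟩ := both_mem F hc (root_mem F hr hP (Ideal.absNorm_mem P))
      have h6 : b = P := by
        rcases root_mem F hr hbp (hb' ▸ Ideal.absNorm_mem b) with h7 | h7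
        · exact eq_of_common F hP hbp hb h4 h7 (not_dvd1 F hn r)
        · exact eq_of_common F hP hbp hb h5 h7 (not_dvd2 F hn r)
      rw [hc, ← hb, h6]
    · rw [eq_of_dvd F (F.prime_cj hP) hbp h3, hb]
  · generalize F.ell P = l at h1
    subst h1
    rw [cj_nat, F.absNorm_span_nat, Ideal.span_singleton_mul_span_singleton, sq, Nat.cast_mul]

theorem mul_cj (I : Ideal F.O) : I * F.cj I = Ideal.span {((Ideal.absNorm I : ℕ) : F.O)} := by
  induction I using UniqueFactorizationMonoid.induction_on_prime with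
  | h₁ => simp
  | h₂ I hI =>
    rw [Ideal.isUnit_iff.1 hI, F.cj_top]
    simp
  | h₃ I P _ hP ih =>
    rw [F.cj_mul, mul_mul_mul_comm, mul_cj_prime F hP, ih, map_mul, Nat.cast_mul,
      Ideal.span_singleton_mul_span_singleton]

theorem ram_root {p : ℕ} (hp : p.Prime) (h : F.ram p) :
    ∃ r : ℤ, (p : ℤ) ∣ r ^ 2 - F.b * r - F.a ∧ (p : ℤ) ∣ 2 * r - F.b := by
  have hp' : Prime (p : ℤ) := Nat.prime_iff_prime_int.1 hp
  unfold IQ.ram IQ.D at h
  rcases hp.eq_two_or_odd' with rfl | ⟨k, hk⟩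
  · rcases F.b_cases with hb | hb <;> rw [hb] at h ⊢
    · refine ⟨F.a, ?_, ?_⟩
      · have := Int.even_mul_pred_self F.a
        have e : F.a ^ 2 - 0 * F.a - F.a = F.a * (F.a - 1) := by ring
        rw [e]
        exact even_iff_two_dvd.1 this
      · simp
    · exfalso
      push_cast at h
      omega
  · have hk' : (p : ℤ) = 2 * k + 1 := by exact_mod_cast hk
    have h4 : ¬ (p : ℤ) ∣ 4 := by
      intro h4
      have h5 : (p : ℤ) ∣ 2 * 2 := by simpa using h4
      have h6 : (p : ℤ) ∣ 2 := by rcases hp'.dvd_or_dvd h5 with h | h <;> exact h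
      have h7 : p ∣ 2 := by exact_mod_cast h6
      have := (Nat.prime_dvd_prime_iff_eq hp Nat.prime_two).1 h7
      omega
    have h2 : (p : ℤ) ∣ 2 * (F.b * (k + 1)) - F.b := ⟨F.b, by rw [hk']; ring⟩
    refine ⟨F.b * (k + 1), ?_, h2⟩
    have e : 4 * ((F.b * (k + 1)) ^ 2 - F.b * (F.b * (k + 1)) - F.a)
        = (2 * (F.b * (k + 1)) - F.b) * (2 * (F.b * (k + 1)) - F.b) - (F.b ^ 2 + 4 * F.a) := by
      ring
    have h3 := dvd_sub (h2.mul_right (2 * (F.b * (k + 1)) - F.b)) h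
    rw [← e] at h3
    exact (hp'.dvd_or_dvd h3).resolve_left h4

theorem ram_not_inert (p : ℕ) (hp : p.Prime) (h : F.ram p) : ¬ F.inert p := by
  obtain ⟨r, hr, -⟩ := ram_root F hp h
  exact fun hi => hi ⟨r, hr⟩

theorem ex_norm (p : ℕ) (hp : p.Prime) (h : ¬ F.inert p) :
    ∃ P : Ideal F.O, Ideal.absNorm P = p := by
  obtain ⟨P, h1, h2, -⟩ := F.exists_prime_dvd (I := Ideal.span {(p : F.O)}) hp (by
    rw [F.absNorm_span_nat]; exact dvd_pow_self _ two_ne_zero)
  exact ⟨P, by rw [norm_eq F h1 (h2 ▸ h), h2]⟩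

theorem ram_ex (p : ℕ) (hp : p.Prime) (h : F.ram p) :
    ∃ P : Ideal F.O, Ideal.absNorm P = p ∧ F.cj P = P := by
  obtain ⟨P, rfl⟩ := ex_norm F p hp (ram_not_inert F p hp h)
  refine ⟨P, rfl, ?_⟩
  have hP := F.prime_of_absNorm hp
  obtain ⟨r, hr, c, hc⟩ := ram_root F hp h
  have h1 : ((ω : F.O) - r) + (star (ω : F.O) - r) ∈ P := by
    have e : ((ω : F.O) - r) + (star (ω : F.O) - r) = -((2 * r - F.b : ℤ) : F.O) := by
      ext
      · simp; ring
      · simp
    rw [e, hc]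
    push_cast
    exact P.neg_mem (P.mul_mem_right _ (Ideal.absNorm_mem P))
  have h2 : (ω : F.O) - r ∈ P ∧ star (ω : F.O) - r ∈ P := by
    rcases root_mem F hr hP (Ideal.absNorm_mem P) with h3 | h3
    · exact ⟨h3, (P.add_mem_iff_right h3).1 h1⟩
    · exact ⟨(P.add_mem_iff_left h3).1 h1, h3⟩
  refine eq_of_common F hP (F.prime_cj hP) (mul_cj F P) h2.1 ?_ (not_dvd1 F hp r)
  rw [F.mem_cj, star_root]
  exact h2.2

theorem split_ne (P : Ideal F.O) (hp : (Ideal.absNorm P).Prime)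
    (h : F.split (Ideal.absNorm P)) : F.cj P ≠ P := by
  intro hc
  have hP := F.prime_of_absNorm hp
  obtain ⟨r, hr⟩ := not_not.1 h.1
  obtain ⟨h1, h2⟩ := both_mem F hc (root_mem F hr hP (Ideal.absNorm_mem P))
  have h3 := P.mul_mem_right (((ω : F.O) - r) - (star (ω : F.O) - r)) (P.sub_mem h1 h2)
  have e : (((ω : F.O) - r) - (star (ω : F.O) - r)) * (((ω : F.O) - r) - (star (ω : F.O) - r))
      = ((F.D : ℤ) : F.O) := by
    rw [IQ.D, sq]
    ext
    · simp; ring
    · simp; ring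
  rw [e] at h3
  have h4 := F.ell_dvd_of_mem_int hP h3
  rw [ell_of_norm F hp] at h4
  exact h.2 h4

theorem norm_prime (P Q : Ideal F.O) (hp : (Ideal.absNorm P).Prime) (hQ : Prime Q)
    (h : Ideal.absNorm P ∣ Ideal.absNorm Q) : Q = P ∨ Q = F.cj P := by
  have hP := F.prime_of_absNorm hp
  have h1 := F.ell_mem hQ
  rw [F.ell_eq_of_dvd hQ hp h, ← F.dvd_span_iff, ← mul_cj] at h1
  rcases hQ.dvd_or_dvd h1 with h2 | h2
  · exact Or.inl (eq_of_dvd F hQ hP h2)
  · exact Or.inr (eq_of_dvd F hQ (F.prime_cj hP) h2)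

theorem prime_cases (P : Ideal F.O) (hP : Prime P) :
    ((Ideal.absNorm P).Prime ∧ ¬ F.inert (Ideal.absNorm P)) ∨
      ∃ p : ℕ, p.Prime ∧ F.inert p ∧ P = Ideal.span {(p : F.O)} := by
  by_cases h : F.inert (F.ell P)
  · exact Or.inr ⟨_, F.ell_prime hP, h, eq_of_dvd F hP (inert_prime F _ (F.ell_prime hP) h)
      (F.dvd_span_iff.2 (F.ell_mem hP))⟩
  · left
    rw [norm_eq F hP h]
    exact ⟨F.ell_prime hP, h⟩

end AR1p

theorem stAR1 : St_AR1 := fun F =>
  { mul_cj := AR1p.mul_cj F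
    ram_not_inert := AR1p.ram_not_inert F
    inert_dvd := AR1p.inert_dvd F
    inert_prime := AR1p.inert_prime F
    ram_ex := AR1p.ram_ex F
    split_ex := fun p hp h => AR1p.ex_norm F p hp h.1
    split_ne := AR1p.split_ne F
    norm_prime := AR1p.norm_prime F
    prime_cases := AR1p.prime_cases F }

end Pool.Agent.Lib.DL
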