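import Pool.Agent.Lib.DL.Blue

set_option autoImplicit false

namespace Pool.Agent.Lib.DL

open QuadraticAlgebra Finset

namespace AR2b

variable (F : IQ)

theorem sup_top {K : Ideal F.O} {m n : ℕ} (h : Nat.Coprime m n) (hn : (n : F.O) ∈ K) :
    K ⊔ Ideal.span {(m : F.O)} = ⊤ := by
  rw [Ideal.eq_top_iff_one]
  obtain ⟨a, b, hab⟩ := (Nat.isCoprime_iff_coprime.2 h).map (Int.castRingHom F.O)
  simp only [eq_intCast, Int.cast_natCast] at hab
  rw [← hab, add_comm]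
  exact Submodule.add_mem_sup (Ideal.mul_mem_left _ _ hn)
    (Ideal.mul_mem_left _ _ (Ideal.mem_span_singleton_self _))

theorem eq_sup {J K : Ideal F.O} {m n : ℕ} (h : Nat.Coprime m n) (hm : (m : F.O) ∈ J)
    (hn : (n : F.O) ∈ K) : J = J * K ⊔ Ideal.span {(m : F.O)} := by
  apply le_antisymm
  · calc J = J * (K ⊔ Ideal.span {(m : F.O)}) := by rw [sup_top F h hn, Ideal.mul_top]
      _ = J * K ⊔ J * Ideal.span {(m : F.O)} := Ideal.mul_sup _ _ _
      _ ≤ _ := sup_le_sup_left Ideal.mul_le_right _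
  · exact sup_le Ideal.mul_le_left ((Ideal.span_singleton_le_iff_mem _).2 hm)

theorem mem_of_norm {J : Ideal F.O} {m : ℕ} (h : Ideal.absNorm J = m) : (m : F.O) ∈ J :=
  h ▸ Ideal.absNorm_mem J

theorem ex_mul (m n : ℕ) (I : Ideal F.O) (h : Nat.Coprime m n) (hI : I ∈ F.idN (m * n)) :
    ∃ J ∈ F.idN m, ∃ K ∈ F.idN n, I = J * K := by
  obtain ⟨h0, hN⟩ := F.mem_idN.1 hI
  have hpos : 0 < m * n := hN ▸ F.absNorm_pos h0
  have hmn : ((m * n : ℕ) : F.O) ∈ I := mem_of_norm F hN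
  set J := I ⊔ Ideal.span {(m : F.O)} with hJ
  set K := I ⊔ Ideal.span {(n : F.O)} with hK
  have hm : (m : F.O) ∈ J := Ideal.mem_sup_right (Ideal.mem_span_singleton_self _)
  have hn : (n : F.O) ∈ K := Ideal.mem_sup_right (Ideal.mem_span_singleton_self _)
  have hJK : I = J * K := by
    apply le_antisymm
    · calc I = I * (K ⊔ Ideal.span {(m : F.O)}) := by rw [sup_top F h hn, Ideal.mul_top]
        _ = I * K ⊔ I * Ideal.span {(m : F.O)} := Ideal.mul_sup _ _ _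
        _ ≤ J * K := by
          refine sup_le (Ideal.mul_mono_left le_sup_left) ?_
          rw [mul_comm]
          exact Ideal.mul_mono le_sup_right le_sup_left
    · rw [hJ, hK, Ideal.sup_mul, Ideal.mul_sup (Ideal.span _)]
      refine sup_le Ideal.mul_le_left (sup_le Ideal.mul_le_right ?_)
      rw [Ideal.span_singleton_mul_span_singleton, Ideal.span_singleton_le_iff_mem]
      exact_mod_cast hmn
  have hp : Ideal.absNorm J * Ideal.absNorm K = m * n := by rw [← map_mul, ← hJK, hN]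
  have h1 : Ideal.absNorm J ∣ m :=
    (Nat.Coprime.coprime_dvd_left (F.absNorm_dvd_sq hm) (h.pow_left 2)).dvd_of_dvd_mul_right
      ⟨_, hp.symm⟩
  have h2 : Ideal.absNorm K ∣ n :=
    (Nat.Coprime.coprime_dvd_left (F.absNorm_dvd_sq hn) (h.symm.pow_left 2)).dvd_of_dvd_mul_left
      ⟨_, by rw [← hp, mul_comm]⟩
  have hm0 : 0 < m := Nat.pos_of_mul_pos_right hpos
  have hn0 : 0 < n := Nat.pos_of_mul_pos_left hpos
  have h3 := Nat.le_of_dvd hm0 h1
  have h4 := Nat.le_of_dvd hn0 h2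
  have h5 : Ideal.absNorm J = m := by
    by_contra hc
    have : Ideal.absNorm J * Ideal.absNorm K < m * n :=
      Nat.mul_lt_mul_of_lt_of_le (lt_of_le_of_ne h3 hc) h4 hn0
    omega
  have h6 : Ideal.absNorm K = n := by
    rw [h5] at hp
    exact Nat.eq_of_mul_eq_mul_left hm0 hp
  refine ⟨J, F.mem_idN.2 ⟨fun hb => ?_, h5⟩, K, F.mem_idN.2 ⟨fun hb => ?_, h6⟩, hJK⟩
  · exact h0 (by rw [hJK, hb, Ideal.bot_mul])
  · exact h0 (by rw [hJK, hb, Ideal.mul_bot])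

theorem sum_mul (β : Type) [AddCommMonoid β] (f : Ideal F.O → β) (m n : ℕ)
    (h : Nat.Coprime m n) :
    ∑ I ∈ F.idN (m * n), f I = ∑ J ∈ F.idN m, ∑ K ∈ F.idN n, f (J * K) := by
  rw [← sum_product']
  symm
  refine sum_bij (fun x _ => x.1 * x.2) (fun x hx => ?_) (fun x hx y hy hxy => ?_)
    (fun I hI => ?_) (fun _ _ => rfl)
  · obtain ⟨h1, h2⟩ := mem_product.1 hx
    obtain ⟨a1, a2⟩ := F.mem_idN.1 h1
    obtain ⟨b1, b2⟩ := F.mem_idN.1 h2
    exact F.mem_idN.2 ⟨mul_ne_zero a1 b1, by rw [map_mul, a2, b2]⟩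
  · obtain ⟨h1, h2⟩ := mem_product.1 hx
    obtain ⟨h3, h4⟩ := mem_product.1 hy
    obtain ⟨a1, a2⟩ := F.mem_idN.1 h1
    have e1 : x.1 = y.1 := by
      rw [eq_sup F h (mem_of_norm F a2) (mem_of_norm F (F.mem_idN.1 h2).2),
        eq_sup F h (mem_of_norm F (F.mem_idN.1 h3).2) (mem_of_norm F (F.mem_idN.1 h4).2)]
      exact congrArg (· ⊔ _) hxy
    refine Prod.ext e1 ?_
    have hxy' : x.1 * x.2 = x.1 * y.2 := by
      have : x.1 * x.2 = y.1 * y.2 := hxy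
      rw [this, e1]
    exact mul_left_cancel₀ a1 hxy'
  · obtain ⟨J, hJ, K, hK, rfl⟩ := ex_mul F m n I h hI
    exact ⟨(J, K), mem_product.2 ⟨hJ, hK⟩, rfl⟩

theorem rho_mul (m n : ℕ) (h : Nat.Coprime m n) : F.ρ (m * n) = F.ρ m * F.ρ n := by
  rw [IQ.ρ, card_eq_sum_ones, sum_mul F ℕ (fun _ => 1) m n h]
  simp [IQ.ρ]

theorem rho_of_unique {m : ℕ} {I : Ideal F.O} (h0 : I ≠ ⊥) (hI : Ideal.absNorm I = m)
    (h : ∀ J : Ideal F.O, J ≠ ⊥ → Ideal.absNorm J = m → J = I) : F.ρ m = 1 := by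
  refine card_eq_one.2 ⟨I, eq_singleton_iff_unique_mem.2 ⟨F.mem_idN.2 ⟨h0, hI⟩, fun J hJ => ?_⟩⟩
  exact h J (F.mem_idN.1 hJ).1 (F.mem_idN.1 hJ).2

theorem rho_one : F.ρ 1 = 1 :=
  rho_of_unique F (I := ⊤) (by simp) (by simp) (fun _ _ h => Ideal.absNorm_eq_one_iff.1 h)

theorem rho_zero : F.ρ 0 = 0 := by
  refine card_eq_zero.2 (eq_empty_of_forall_notMem (fun I hI => ?_))
  obtain ⟨h1, h2⟩ := F.mem_idN.1 hI
  exact (F.absNorm_pos h1).ne' h2

theorem shape (h1 : AR1 F) {P : Ideal F.O} {p : ℕ} (hp : p.Prime) (hP : Ideal.absNorm P = p) :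
    ∀ (k : ℕ) (I : Ideal F.O), Ideal.absNorm I = p ^ k →
      ∃ i ≤ k, I = P ^ i * F.cj P ^ (k - i) := by
  intro k
  induction k with
  | zero =>
    intro I hI
    exact ⟨0, le_rfl, by rw [Ideal.absNorm_eq_one_iff.1 (hI.trans (pow_zero p))]; simp⟩
  | succ k ih =>
    intro I hI
    obtain ⟨Q, hQ, hl, J, rfl⟩ := F.exists_prime_dvd (I := I) hp (hI ▸ dvd_pow_self p k.succ_ne_zero)
    have hd : Ideal.absNorm P ∣ Ideal.absNorm Q := by rw [hP, ← hl]; exact F.ell_dvd hQ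
    have hJ : Ideal.absNorm Q = p → Ideal.absNorm J = p ^ k := fun h => by
      rw [map_mul, h, pow_succ'] at hI
      exact Nat.eq_of_mul_eq_mul_left hp.pos hI
    rcases h1.norm_prime P Q (hP ▸ hp) hQ hd with rfl | rfl
    · obtain ⟨i, hi, rfl⟩ := ih J (hJ hP)
      exact ⟨i + 1, by omega, by rw [Nat.add_sub_add_right, pow_succ', mul_assoc]⟩
    · obtain ⟨i, hi, rfl⟩ := ih J (hJ (by rw [F.absNorm_cj, hP]))
      exact ⟨i, by omega, by rw [show k + 1 - i = k - i + 1 by omega, pow_succ]; ring⟩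

theorem ne_bot_of_norm {P : Ideal F.O} {p : ℕ} (hp : p ≠ 0) (hP : Ideal.absNorm P = p) :
    P ≠ ⊥ := fun h => hp (by rw [← hP, h, Ideal.absNorm_bot])

theorem rho_ram (h1 : AR1 F) (p k : ℕ) (hp : p.Prime) (hr : F.ram p) : F.ρ (p ^ k) = 1 := by
  obtain ⟨P, hP, hc⟩ := h1.ram_ex p hp hr
  refine rho_of_unique F (I := P ^ k) (pow_ne_zero _ (ne_bot_of_norm F hp.ne_zero hP))
    (by rw [map_pow, hP]) (fun J _ hJ => ?_)
  obtain ⟨i, hi, rfl⟩ := shape F h1 hp hP k J hJ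
  rw [hc, ← pow_add, Nat.add_sub_cancel' hi]

theorem rho_split (h1 : AR1 F) (p k : ℕ) (hp : p.Prime) (hs : F.split p) :
    F.ρ (p ^ k) = k + 1 := by
  classical
  obtain ⟨P, hP⟩ := h1.split_ex p hp hs
  have hpr : Prime P := F.prime_of_absNorm (hP ▸ hp)
  have hpc := F.prime_cj hpr
  have hne : F.cj P ≠ P := h1.split_ne P (hP ▸ hp) (hP ▸ hs)
  have e : F.idN (p ^ k) = (range (k + 1)).image (fun i => P ^ i * F.cj P ^ (k - i)) := by
    ext I
    rw [F.mem_idN, mem_image]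
    constructor
    · intro h
      obtain ⟨i, hi, rfl⟩ := shape F h1 hp hP k I h.2
      exact ⟨i, mem_range.2 (by omega), rfl⟩
    · rintro ⟨i, hi, rfl⟩
      have hi' := mem_range.1 hi
      refine ⟨mul_ne_zero (pow_ne_zero _ hpr.ne_zero) (pow_ne_zero _ hpc.ne_zero), ?_⟩
      rw [map_mul, map_pow, map_pow, F.absNorm_cj, hP, ← pow_add, Nat.add_sub_cancel' (by omega)]
  have key : ∀ i j : ℕ, i < j → P ^ i * F.cj P ^ (k - i) ≠ P ^ j * F.cj P ^ (k - j) := by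
    intro i j hij h
    obtain ⟨d, rfl⟩ := Nat.exists_eq_add_of_lt hij
    rw [add_assoc, pow_add, mul_assoc] at h
    have h2 := mul_left_cancel₀ (pow_ne_zero _ hpr.ne_zero) h
    have h3 : P ∣ F.cj P ^ (k - i) := by
      rw [h2, pow_succ', mul_assoc]
      exact dvd_mul_right _ _
    exact hne ((prime_dvd_prime_iff_eq hpr hpc).1 (hpr.dvd_of_dvd_pow h3)).symm
  rw [IQ.ρ, e, card_image_of_injective, card_range]
  intro i j h
  rcases lt_trichotomy i j with hij | hij | hij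
  · exact (key i j hij h).elim
  · exact hij
  · exact (key j i hij h.symm).elim

theorem shape_inert (h1 : AR1 F) {p : ℕ} (hp : p.Prime) (hi : F.inert p) (k : ℕ) :
    ∀ I : Ideal F.O, Ideal.absNorm I = p ^ k →
      ∃ j, k = 2 * j ∧ I = Ideal.span {(p : F.O)} ^ j := by
  induction k using Nat.strong_induction_on with
  | _ k ih =>
    intro I hI
    rcases Nat.eq_zero_or_pos k with rfl | hk
    · exact ⟨0, rfl, by rw [Ideal.absNorm_eq_one_iff.1 (hI.trans (pow_zero p))]; simp⟩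
    obtain ⟨Q, hQ, hl, J, rfl⟩ := F.exists_prime_dvd (I := I) hp (hI ▸ dvd_pow_self p hk.ne')
    have hd : p ∣ Ideal.absNorm Q := hl ▸ F.ell_dvd hQ
    rcases h1.prime_cases Q hQ with ⟨a1, a2⟩ | ⟨q, hq, -, rfl⟩
    · exact (a2 (((Nat.prime_dvd_prime_iff_eq hp a1).1 hd) ▸ hi)).elim
    rw [F.absNorm_span_nat] at hd
    obtain rfl := (Nat.prime_dvd_prime_iff_eq hp hq).1 (hp.dvd_of_dvd_pow hd)
    rw [map_mul, F.absNorm_span_nat] at hI
    have h2 : 2 ≤ k := (Nat.pow_dvd_pow_iff_le_right hp.one_lt).1 ⟨_, hI.symm⟩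
    obtain ⟨l, rfl⟩ := Nat.exists_eq_add_of_le h2
    rw [pow_add] at hI
    obtain ⟨j, rfl, rfl⟩ := ih l (by omega) J (Nat.eq_of_mul_eq_mul_left (pow_pos hp.pos 2) hI)
    exact ⟨j + 1, by ring, by rw [pow_succ']⟩

theorem rho_inert (h1 : AR1 F) (p k : ℕ) (hp : p.Prime) (hi : F.inert p) :
    F.ρ (p ^ k) = if Even k then 1 else 0 := by
  split_ifs with h
  · obtain ⟨j, rfl⟩ := h
    refine rho_of_unique F (I := Ideal.span {(p : F.O)} ^ j)
      (pow_ne_zero _ (h1.inert_prime p hp hi).ne_zero)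
      (by rw [map_pow, F.absNorm_span_nat, ← pow_mul, two_mul]) (fun J _ hJ => ?_)
    obtain ⟨i, e, rfl⟩ := shape_inert F h1 hp hi _ J hJ
    rw [show i = j by omega]
  · refine card_eq_zero.2 (eq_empty_of_forall_notMem (fun I hI => ?_))
    obtain ⟨j, rfl, -⟩ := shape_inert F h1 hp hi _ I (F.mem_idN.1 hI).2
    exact h (even_two_mul j)

theorem rho_prod {m : ℕ} (hm : m ≠ 0) :
    F.ρ m = ∏ p ∈ m.primeFactors, F.ρ (p ^ m.factorization p) :=
  Nat.multiplicative_factorization F.ρ (rho_mul F) (rho_one F) hm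

theorem rho_pp_ne (h1 : AR1 F) {p : ℕ} (k : ℕ) (hp : p.Prime) :
    F.ρ (p ^ k) ≠ 0 ↔ (F.inert p → Even k) := by
  by_cases hi : F.inert p
  · rw [rho_inert F h1 p k hp hi]
    by_cases h : Even k <;> simp [h, hi]
  · by_cases hr : F.ram p
    · simp [rho_ram F h1 p k hp hr, hi]
    · simp [rho_split F h1 p k hp ⟨hi, hr⟩, hi]

theorem rho_pp_le (h1 : AR1 F) {p : ℕ} (k : ℕ) (hp : p.Prime) : F.ρ (p ^ k) ≤ p ^ k := by
  have h0 : k + 1 ≤ p ^ k := Nat.lt_pow_self hp.one_lt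
  by_cases hi : F.inert p
  · rw [rho_inert F h1 p k hp hi]
    split_ifs <;> omega
  · by_cases hr : F.ram p
    · rw [rho_ram F h1 p k hp hr]; omega
    · rw [rho_split F h1 p k hp ⟨hi, hr⟩]; exact h0

theorem rho_pos (h1 : AR1 F) (m : ℕ) : 0 < F.ρ m ↔ F.M m := by
  rcases eq_or_ne m 0 with rfl | hm
  · simp [rho_zero, IQ.M, MM]
  rw [rho_prod F hm, Nat.pos_iff_ne_zero, prod_ne_zero_iff]
  constructor
  · intro h
    refine ⟨hm, fun p hp hi => ?_⟩
    by_cases hd : p ∣ m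
    · exact (rho_pp_ne F h1 _ hp).1 (h p (Nat.mem_primeFactors.2 ⟨hp, hd, hm⟩)) hi
    · rw [Nat.factorization_eq_zero_of_not_dvd hd]; exact Even.zero
  · intro h p hp
    have hp' := Nat.prime_of_mem_primeFactors hp
    exact (rho_pp_ne F h1 _ hp').2 (h.2 p hp')

theorem rho_le (h1 : AR1 F) (m : ℕ) : F.ρ m ≤ m := by
  rcases eq_or_ne m 0 with rfl | hm
  · rw [rho_zero]
  calc F.ρ m = _ := rho_prod F hm
    _ ≤ ∏ p ∈ m.primeFactors, p ^ m.factorization p :=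
      prod_le_prod' (fun p hp => rho_pp_le F h1 _ (Nat.prime_of_mem_primeFactors hp))
    _ = m := Nat.prod_factorization_pow_eq_self hm

theorem rho_ge (h1 : AR1 F) (m : ℕ) (S : Finset ℕ) (hm : F.M m)
    (hS : ∀ p ∈ S, p.Prime ∧ F.split p ∧ p ∣ m) : 2 ^ S.card ≤ F.ρ m := by
  have hsub : S ⊆ m.primeFactors := fun p hp =>
    Nat.mem_primeFactors.2 ⟨(hS p hp).1, (hS p hp).2.2, hm.1⟩
  calc 2 ^ S.card = ∏ _p ∈ S, 2 := by rw [prod_const]
    _ ≤ ∏ p ∈ S, F.ρ (p ^ m.factorization p) := by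
      refine prod_le_prod' (fun p hp => ?_)
      obtain ⟨a1, a2, a3⟩ := hS p hp
      rw [rho_split F h1 p _ a1 a2]
      have := a1.factorization_pos_of_dvd hm.1 a3
      omega
    _ ≤ ∏ p ∈ m.primeFactors, F.ρ (p ^ m.factorization p) := by
      refine prod_le_prod_of_subset_of_one_le' hsub (fun p hp _ => ?_)
      have hp' := Nat.prime_of_mem_primeFactors hp
      exact Nat.pos_of_ne_zero ((rho_pp_ne F h1 _ hp').2 (hm.2 p hp'))
    _ = F.ρ m := (rho_prod F hm.1).symm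

theorem idN_prime (h1 : AR1 F) (P : Ideal F.O) (hP : (Ideal.absNorm P).Prime) (I : Ideal F.O) :
    I ∈ F.idN (Ideal.absNorm P) ↔ I = P ∨ I = F.cj P := by
  rw [F.mem_idN]
  have h0 := ne_bot_of_norm F hP.ne_zero rfl
  constructor
  · rintro ⟨-, h⟩
    exact h1.norm_prime P I hP (F.prime_of_absNorm (h ▸ hP)) (h ▸ dvd_rfl)
  · rintro (rfl | rfl)
    · exact ⟨h0, rfl⟩
    · exact ⟨F.cj_ne_bot h0, F.absNorm_cj P⟩

theorem mem_elN_iff {m : ℕ} {z : F.O} : z ∈ F.elN m ↔ Ideal.absNorm (Ideal.span {z}) = m := by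
  rw [F.mem_elN, ← F.absNorm_span_int, Nat.cast_inj]

open Classical in
theorem fib {m : ℕ} (hm : m ≠ 0) {z₀ : F.O} (hz : Ideal.absNorm (Ideal.span {z₀}) = m) :
    ((F.elN m).filter (fun z => Ideal.span {z} = Ideal.span {z₀})).card = F.w := by
  refine F.card_gens (fun h => ?_) (fun z h => (mem_elN_iff F).2 (by rw [h, hz]))
  exact ne_bot_of_norm F hm hz (by rw [h, Ideal.span_singleton_eq_bot])

open Classical in
theorem card_fib {m : ℕ} (hm : m ≠ 0) : (F.elN m).card =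
    ∑ I ∈ F.idN m, ((F.elN m).filter (fun z => Ideal.span {z} = I)).card :=
  card_eq_sum_card_fiberwise (fun _ hz =>
    F.mem_idN.2 ⟨ne_bot_of_norm F hm ((mem_elN_iff F).1 hz), (mem_elN_iff F).1 hz⟩)

theorem card_elN (m : ℕ) (hm : m ≠ 0) : (F.elN m).card ≤ F.w * F.ρ m := by
  classical
  rw [card_fib F hm, mul_comm, IQ.ρ, ← smul_eq_mul, ← sum_const]
  refine sum_le_sum (fun I hI => ?_)
  by_cases h : ∃ z : F.O, Ideal.span {z} = I
  · obtain ⟨z, rfl⟩ := h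
    exact (fib F hm (F.mem_idN.1 hI).2).le
  · rw [filter_eq_empty_iff.2 (fun z _ hz => h ⟨z, hz⟩)]
    exact Nat.zero_le _

theorem card_elN_pid (hR : IsPrincipalIdealRing F.O) (m : ℕ) (hm : m ≠ 0) :
    (F.elN m).card = F.w * F.ρ m := by
  classical
  rw [card_fib F hm, mul_comm, IQ.ρ, ← smul_eq_mul, ← sum_const]
  refine sum_congr rfl (fun I hI => ?_)
  obtain ⟨z, rfl⟩ : ∃ z : F.O, I = Ideal.span {z} := (hR.principal I).principal
  exact fib F hm (F.mem_idN.1 hI).2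

end AR2b

theorem stAR2 (h1 : St_AR1) : St_AR2 := fun F =>
  ⟨AR2b.sum_mul F, AR2b.ex_mul F, AR2b.rho_mul F, AR2b.rho_one F, AR2b.rho_split F (h1 F),
    AR2b.rho_ram F (h1 F), AR2b.rho_inert F (h1 F), AR2b.rho_pos F (h1 F), AR2b.rho_le F (h1 F),
    AR2b.rho_ge F (h1 F), AR2b.idN_prime F (h1 F), AR2b.card_elN F, AR2b.card_elN_pid F⟩

end Pool.Agent.Lib.DL
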