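import Pool.Agent.Lib.MP_d48457_nt.Cube

set_option autoImplicit false

namespace Pool.Agent.Lib.DL

open QuadraticAlgebra Finset
open Pool.Agent.Lib.MP_d48457_nt (ind ind_pos ind_neg ind_nonneg ind_le_one ind_and ind_congr
  ind_mono sum_ind_eq_card)

theorem mertens_le (n : ℕ) (hn : 1 ≤ n) (S : Finset ℕ) (hS : ∀ l ∈ S, l.Prime ∧ l ≤ n) :
    ∑ l ∈ S, Real.log l / l ≤ Real.log n + Real.log 4 := by
  classical
  have hn' : (0 : ℝ) < n := by exact_mod_cast hn
  have h1 : ∀ m ∈ Icc 1 n, ∑ l ∈ S, (if l ∣ m then Real.log l else 0) ≤ Real.log n := by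
    intro m hm
    rw [mem_Icc] at hm
    rw [← sum_filter, ← Real.log_prod (fun l hl => by
      have := (hS l (mem_filter.1 hl).1).1.pos
      positivity)]
    have hd : ∏ l ∈ S.filter (· ∣ m), l ∣ m :=
      Finset.prod_primes_dvd m (fun l hl => (hS l (mem_filter.1 hl).1).1.prime)
        (fun l hl => (mem_filter.1 hl).2)
    have hle := Nat.le_of_dvd (by omega) hd
    have hpos : 0 < ∏ l ∈ S.filter (· ∣ m), l :=
      prod_pos (fun l hl => (hS l (mem_filter.1 hl).1).1.pos)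
    rw [← Nat.cast_prod]
    apply Real.log_le_log (by exact_mod_cast hpos)
    exact_mod_cast hle.trans hm.2
  have h2 : ∑ m ∈ Icc 1 n, ∑ l ∈ S, (if l ∣ m then Real.log l else 0) ≤ n * Real.log n := by
    refine (sum_le_sum h1).trans ?_
    simp
  rw [sum_comm] at h2
  have h3 : ∀ l ∈ S, Real.log l * (n / l - 1)
      ≤ ∑ m ∈ Icc 1 n, (if l ∣ m then Real.log l else 0) := by
    intro l hl
    have hp := (hS l hl).1
    rw [← sum_filter, sum_const, nsmul_eq_mul, mul_comm]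
    have hc : ((Icc 1 n).filter (l ∣ ·)).card = n / l := by
      rw [← Nat.card_multiples n l]
      have : Icc 1 n = Ioc 0 n := rfl
      rw [this, Nat.Ioc_filter_dvd_card_eq_div, Nat.card_multiples]
    rw [hc]
    apply mul_le_mul_of_nonneg_right _ (Real.log_nonneg (by exact_mod_cast hp.one_le))
    have hl0 : (0 : ℝ) < l := by exact_mod_cast hp.pos
    have := Nat.lt_div_mul_add (a := n) hp.pos
    have h4 : (n : ℝ) < (n / l : ℕ) * l + l := by exact_mod_cast this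
    rw [sub_le_iff_le_add, div_le_iff₀ hl0]
    linarith
  have h4 := (sum_le_sum h3).trans h2
  have h5 : ∑ l ∈ S, Real.log l ≤ Real.log 4 * n := by
    refine le_trans ?_ (Chebyshev.theta_le_log4_mul_x hn'.le)
    rw [Chebyshev.theta, Nat.floor_natCast]
    refine sum_le_sum_of_subset_of_nonneg ?_ (fun l _ _ => Real.log_natCast_nonneg l)
    intro l hl
    have := hS l hl
    simp only [mem_filter, mem_Ioc]
    exact ⟨⟨this.1.pos, this.2⟩, this.1⟩
  have h6 : ∑ l ∈ S, Real.log l * (n / l - 1)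
      = n * ∑ l ∈ S, Real.log l / l - ∑ l ∈ S, Real.log l := by
    rw [mul_sum, ← sum_sub_distrib]
    refine sum_congr rfl (fun l _ => by ring)
  rw [h6] at h4
  have : n * ∑ l ∈ S, Real.log l / l ≤ n * (Real.log n + Real.log 4) := by linarith
  exact le_of_mul_le_mul_left this hn'
/-- An imaginary quadratic maximal order. -/
structure IQ where
  a : ℤ
  b : ℤ
  d : ℤ
  hd : (b = 1 ∧ d = 4 * a + 1) ∨ (b = 0 ∧ d = a ∧ d % 4 ≠ 1)
  hneg : d < 0
  sqf : Squarefree d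
  [ded : IsDedekindDomain (QuadraticAlgebra ℤ a b)]
  fin : Finite (ClassGroup (QuadraticAlgebra ℤ a b))

namespace IQ

variable (F : IQ)

abbrev O := QuadraticAlgebra ℤ F.a F.b

instance : IsDedekindDomain F.O := F.ded

instance : Finite (ClassGroup F.O) := F.fin

/-- The discriminant. -/
def D : ℤ := F.b ^ 2 + 4 * F.a

theorem D_cases : (F.b = 1 ∧ F.D = F.d ∧ F.d % 4 = 1) ∨ (F.b = 0 ∧ F.D = 4 * F.d ∧ F.a = F.d ∧
    (F.d % 4 = 2 ∨ F.d % 4 = 3)) := by
  have h4 : ¬ (4 : ℤ) ∣ F.d := fun h => by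
    have := F.sqf 2 (by simpa using h)
    rw [Int.isUnit_iff] at this
    omega
  rcases F.hd with ⟨h1, h2⟩ | ⟨h1, h2, h3⟩
  · left; refine ⟨h1, ?_, by omega⟩; rw [D, h1, h2]; ring
  · right; refine ⟨h1, ?_, h2.symm, by omega⟩; rw [D, h1, h2]; ring

theorem D_le : F.D ≤ -3 := by
  have := F.hneg
  rcases F.D_cases with ⟨-, h, h'⟩ | ⟨-, h, -, h'⟩ <;> omega

theorem b_cases : F.b = 0 ∨ F.b = 1 := by
  rcases F.hd with h | h
  · exact Or.inr h.1
  · exact Or.inl h.1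

/-- The square root of the absolute discriminant. -/
noncomputable def δ : ℝ := Real.sqrt (-F.D)

theorem δ_sq : F.δ ^ 2 = -F.D :=
  Real.sq_sqrt (by have : (F.D : ℝ) ≤ -3 := by exact_mod_cast F.D_le
                   linarith)

theorem δ_sq' : F.δ ^ 2 = -(F.b ^ 2 + 4 * F.a) := by rw [δ_sq, D]; push_cast; ring

theorem δ_nonneg : 0 ≤ F.δ := Real.sqrt_nonneg _

theorem one_le_δ : 1 ≤ F.δ := by
  have h : (F.D : ℝ) ≤ -3 := by exact_mod_cast F.D_le
  have := F.δ_sq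
  have := F.δ_nonneg
  nlinarith

theorem δ_pos : 0 < F.δ := lt_of_lt_of_le one_pos F.one_le_δ

/-- The point of the plane with coordinates `x, y` in the basis `1, ω`. -/
noncomputable def pt (x y : ℝ) : ℂ := ⟨x + y * (F.b / 2), y * (F.δ / 2)⟩

/-- The norm form. -/
def Q (x y : ℝ) : ℝ := x ^ 2 + F.b * x * y - F.a * y ^ 2

theorem normSq_pt (x y : ℝ) : Complex.normSq (F.pt x y) = F.Q x y := by
  simp only [pt, Q, Complex.normSq_mk]
  linear_combination (y ^ 2 / 4) * F.δ_sq'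

theorem norm_pt_sq (x y : ℝ) : ‖F.pt x y‖ ^ 2 = F.Q x y := by
  rw [Complex.sq_norm, normSq_pt]

theorem four_Q (x y : ℝ) : 4 * F.Q x y = (2 * x + F.b * y) ^ 2 + F.δ ^ 2 * y ^ 2 := by
  rw [F.δ_sq', Q]; ring

theorem Q_nonneg (x y : ℝ) : 0 ≤ F.Q x y := by rw [← F.norm_pt_sq]; positivity

theorem sq_le_Q (x y : ℝ) : x ^ 2 ≤ 4 * F.Q x y ∧ y ^ 2 ≤ 4 * F.Q x y := by
  have h := F.four_Q x y
  have h3 : (3 : ℝ) ≤ F.δ ^ 2 := by
    have h : (F.D : ℝ) ≤ -3 := by exact_mod_cast F.D_le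
    rw [F.δ_sq]; linarith
  have h4 : 3 * y ^ 2 ≤ F.δ ^ 2 * y ^ 2 := by gcongr
  rcases F.b_cases with h1 | h1 <;> rw [h1] at h <;> push_cast at h <;> constructor <;>
    nlinarith [sq_nonneg (x + y), sq_nonneg (2 * x + y), sq_nonneg x, sq_nonneg y,
      sq_nonneg (x + 2 * y), sq_nonneg (3 * x + 2 * y)]

/-- The complex embedding. -/
noncomputable def σ : F.O →+* ℂ where
  toFun z := F.pt z.re z.im
  map_one' := by apply Complex.ext <;> simp [pt]
  map_mul' z w := by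
    apply Complex.ext
    · simp only [pt, re_mul, im_mul, Complex.mul_re]
      push_cast
      linear_combination ((z.im * w.im : ℝ) / 4) * F.δ_sq'
    · simp only [pt, re_mul, im_mul, Complex.mul_im]
      push_cast
      ring
  map_zero' := by apply Complex.ext <;> simp [pt]
  map_add' z w := by
    apply Complex.ext <;> simp only [pt, re_add, im_add, Complex.add_re, Complex.add_im] <;>
      push_cast <;> ring

theorem σ_apply (z : F.O) : F.σ z = F.pt z.re z.im := rfl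

theorem norm_eq_Q (z : F.O) : (z.norm : ℝ) = F.Q z.re z.im := by
  rw [norm_def, Q]; push_cast; ring

theorem norm_σ_sq (z : F.O) : ‖F.σ z‖ ^ 2 = (z.norm : ℝ) := by
  rw [σ_apply, norm_pt_sq, norm_eq_Q]

theorem σ_star (z : F.O) : F.σ (star z) = (starRingEnd ℂ) (F.σ z) := by
  apply Complex.ext
  · simp only [σ_apply, pt, re_star, im_star, Complex.conj_re]; push_cast; ring
  · simp only [σ_apply, pt, re_star, im_star, Complex.conj_im]; push_cast; ring

theorem norm_nonneg' (z : F.O) : 0 ≤ z.norm := by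
  have := F.Q_nonneg z.re z.im
  rw [← norm_eq_Q] at this
  exact_mod_cast this

theorem algebra_norm_eq (z : F.O) : Algebra.norm ℤ z = z.norm := by
  rw [Algebra.norm_apply, ← det_toLinearMap_eq_norm]
  congr 1

theorem absNorm_span (z : F.O) : Ideal.absNorm (Ideal.span {z}) = z.norm.natAbs := by
  rw [Ideal.absNorm_span_singleton, algebra_norm_eq]

theorem absNorm_span_int (z : F.O) : (Ideal.absNorm (Ideal.span {z}) : ℤ) = z.norm := by
  rw [absNorm_span, Int.natAbs_of_nonneg (F.norm_nonneg' z)]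

theorem absNorm_span_real (z : F.O) : (Ideal.absNorm (Ideal.span {z}) : ℝ) = z.norm := by
  exact_mod_cast F.absNorm_span_int z

theorem absNorm_span_nat (n : ℕ) : Ideal.absNorm (Ideal.span {(n : F.O)}) = n ^ 2 := by
  rw [absNorm_span, QuadraticAlgebra.norm_natCast]
  simp

theorem norm_ne_zero {z : F.O} (hz : z ≠ 0) : z.norm ≠ 0 := by
  intro h
  have h1 := algebraMap_norm_eq_mul_star z
  rw [h, map_zero] at h1
  rcases mul_eq_zero.1 h1.symm with h2 | h2
  · exact hz h2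
  · exact hz (star_eq_zero.1 h2)

theorem norm_pos' {z : F.O} (hz : z ≠ 0) : 0 < z.norm :=
  lt_of_le_of_ne (F.norm_nonneg' z) (F.norm_ne_zero hz).symm

theorem σ_ne_zero {z : F.O} (hz : z ≠ 0) : F.σ z ≠ 0 := by
  intro h
  have h1 := F.norm_σ_sq z
  rw [h] at h1
  have h2 := F.norm_pos' hz
  have : (0 : ℝ) < z.norm := by exact_mod_cast h2
  simp at h1
  linarith

theorem σ_injective : Function.Injective F.σ :=
  (injective_iff_map_eq_zero _).2 (fun _ h => by_contra fun h' => F.σ_ne_zero h' h)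

theorem mul_star_eq (z : F.O) : z * star z = ((z.norm : ℤ) : F.O) := by
  rw [← algebraMap_norm_eq_mul_star]; simp

/-- The elements with both coordinates of absolute value at most `R`. -/
noncomputable def box (R : ℝ) : Finset F.O :=
  (Icc (-⌊R⌋) ⌊R⌋ ×ˢ Icc (-⌊R⌋) ⌊R⌋).map
    ⟨fun p => ⟨p.1, p.2⟩, fun _ _ h => Prod.ext (congrArg QuadraticAlgebra.re h)
      (congrArg QuadraticAlgebra.im h)⟩

theorem mem_box {R : ℝ} {z : F.O} : z ∈ F.box R ↔ |(z.re : ℝ)| ≤ R ∧ |(z.im : ℝ)| ≤ R := by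
  have key : ∀ x : ℤ, (-⌊R⌋ ≤ x ∧ x ≤ ⌊R⌋) ↔ |(x : ℝ)| ≤ R := fun x => by
    rw [← abs_le, ← Int.cast_abs, Int.le_floor]
  simp only [box, mem_map, mem_product, mem_Icc, Function.Embedding.coeFn_mk, key]
  constructor
  · rintro ⟨p, h, rfl⟩; exact h
  · intro h; exact ⟨(z.re, z.im), h, rfl⟩

theorem card_box_le {R : ℝ} (hR : 0 ≤ R) : ((F.box R).card : ℝ) ≤ (2 * R + 1) ^ 2 := by
  rw [box, card_map, card_product, Int.card_Icc]
  have h1 : 0 ≤ ⌊R⌋ := Int.floor_nonneg.2 hR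
  have h2 : (((⌊R⌋ + 1 - -⌊R⌋).toNat : ℤ) : ℝ) = ((⌊R⌋ + 1 - -⌊R⌋ : ℤ) : ℝ) := by
    rw [Int.toNat_of_nonneg (by omega)]
  have h3 := Int.floor_le R
  push_cast at h2 ⊢
  rw [h2, sq]
  have h4 : (0 : ℝ) ≤ ⌊R⌋ := by exact_mod_cast h1
  apply mul_le_mul <;> linarith

theorem mem_box_of_norm_le {t : ℝ} {z : F.O} (h : (z.norm : ℝ) ≤ t) : z ∈ F.box (2 * √t) := by
  obtain ⟨h1, h2⟩ := F.sq_le_Q z.re z.im
  rw [← norm_eq_Q] at h1 h2
  have ht : 0 ≤ t := le_trans (by exact_mod_cast F.norm_nonneg' z) h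
  have h3 : (2 * √t) ^ 2 = 4 * t := by rw [mul_pow, Real.sq_sqrt ht]; norm_num
  exact F.mem_box.2 ⟨abs_le_of_sq_le_sq (by linarith) (by positivity),
    abs_le_of_sq_le_sq (by linarith) (by positivity)⟩

/-- The elements of norm at most `t`. -/
noncomputable def disc (t : ℝ) : Finset F.O := (F.box (2 * √t)).filter (fun z => (z.norm : ℝ) ≤ t)

theorem mem_disc {t : ℝ} {z : F.O} : z ∈ F.disc t ↔ (z.norm : ℝ) ≤ t := by
  rw [disc, mem_filter]
  exact ⟨fun h => h.2, fun h => ⟨F.mem_box_of_norm_le h, h⟩⟩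

theorem card_disc_le {t : ℝ} (ht : 1 ≤ t) : ((F.disc t).card : ℝ) ≤ 25 * t := by
  have h1 : ((F.disc t).card : ℝ) ≤ (F.box (2 * √t)).card := by
    exact_mod_cast card_filter_le _ _
  refine h1.trans ((F.card_box_le (by positivity)).trans ?_)
  have h2 : 1 ≤ √t := Real.one_le_sqrt.2 ht
  have h3 := Real.sq_sqrt (show 0 ≤ t by linarith)
  nlinarith

/-- The elements of norm `m`. -/
noncomputable def elN (m : ℕ) : Finset F.O := (F.disc m).filter (fun z => z.norm = m)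

theorem mem_elN {m : ℕ} {z : F.O} : z ∈ F.elN m ↔ z.norm = m := by
  rw [elN, mem_filter, mem_disc]
  exact ⟨fun h => h.2, fun h => ⟨by rw [h]; simp, h⟩⟩

theorem natCast_dvd_iff {n : ℤ} {z : F.O} : (n : F.O) ∣ z ↔ n ∣ z.re ∧ n ∣ z.im :=
  algebraMap_dvd_iff (r := n) (z := z)

theorem isUnit_iff_norm {z : F.O} : IsUnit z ↔ z.norm = 1 := by
  rw [isUnit_iff_norm_isUnit, Int.isUnit_iff]
  have := F.norm_nonneg' z
  omega

instance : Finite F.Oˣ := by
  refine Finite.of_injective (β := F.elN 1)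
    (fun γ => ⟨γ, F.mem_elN.2 (by simpa using F.isUnit_iff_norm.1 γ.isUnit)⟩) (fun γ γ' h => ?_)
  exact Units.ext (congrArg Subtype.val h)

/-- The number of units. -/
noncomputable def w : ℕ := Nat.card F.Oˣ

theorem w_pos : 0 < F.w := Nat.card_pos

open Classical in
theorem card_gens {z₀ : F.O} (hz : z₀ ≠ 0) {S : Finset F.O}
    (hS : ∀ z, Ideal.span {z} = Ideal.span {z₀} → z ∈ S) :
    (S.filter (fun z => Ideal.span {z} = Ideal.span {z₀})).card = F.w := by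
  have := Fintype.ofFinite F.Oˣ
  rw [w, Nat.card_eq_fintype_card, ← card_univ]
  symm
  refine card_bij (fun γ _ => z₀ * γ) (fun γ _ => ?_) (fun γ _ γ' _ h => ?_) (fun z hz' => ?_)
  · have := Ideal.span_singleton_mul_right_unit γ.isUnit z₀
    exact mem_filter.2 ⟨hS _ this, this⟩
  · exact Units.ext (mul_left_cancel₀ hz h)
  · obtain ⟨γ, h⟩ := Ideal.span_singleton_eq_span_singleton.1 (mem_filter.1 hz').2.symm
    exact ⟨γ, mem_univ _, h⟩

/-- The rational prime below a prime ideal. -/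
noncomputable def ell (P : Ideal F.O) : ℕ := (Ideal.absNorm P).minFac

theorem absNorm_pos {I : Ideal F.O} (hI : I ≠ ⊥) : 0 < Ideal.absNorm I :=
  Nat.pos_of_ne_zero (fun h => hI (Ideal.absNorm_eq_zero_iff.1 h))

theorem dvd_span_iff {I : Ideal F.O} {z : F.O} : I ∣ Ideal.span {z} ↔ z ∈ I := by
  rw [Ideal.dvd_iff_le, Ideal.span_singleton_le_iff_mem]

theorem absNorm_dvd_sq {I : Ideal F.O} {n : ℕ} (h : (n : F.O) ∈ I) : Ideal.absNorm I ∣ n ^ 2 := by
  rw [← F.absNorm_span_nat]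
  exact map_dvd Ideal.absNorm (F.dvd_span_iff.2 h)

theorem ell_spec {P : Ideal F.O} (hP : Prime P) :
    (F.ell P).Prime ∧ ((F.ell P : ℕ) : F.O) ∈ P ∧ F.ell P ∣ Ideal.absNorm P := by
  have := (Ideal.isPrime_of_prime hP).isMaximal hP.ne_zero
  obtain ⟨p, n, hn, hpP, hp, he⟩ := Ideal.exists_prime_and_absNorm_eq_pow P
  have : F.ell P = p := by rw [ell, he, hp.pow_minFac hn.ne']
  rw [this]
  exact ⟨hp, hpP, he ▸ dvd_pow_self p hn.ne'⟩

theorem ell_prime {P : Ideal F.O} (hP : Prime P) : (F.ell P).Prime := (F.ell_spec hP).1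

theorem ell_mem {P : Ideal F.O} (hP : Prime P) : ((F.ell P : ℕ) : F.O) ∈ P := (F.ell_spec hP).2.1

theorem ell_dvd {P : Ideal F.O} (hP : Prime P) : F.ell P ∣ Ideal.absNorm P :=
  (F.ell_spec hP).2.2

theorem absNorm_dvd_ell_sq {P : Ideal F.O} (hP : Prime P) : Ideal.absNorm P ∣ F.ell P ^ 2 :=
  F.absNorm_dvd_sq (F.ell_mem hP)

theorem ell_le {P : Ideal F.O} (hP : Prime P) : F.ell P ≤ Ideal.absNorm P :=
  Nat.le_of_dvd (F.absNorm_pos hP.ne_zero) (F.ell_dvd hP)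

theorem absNorm_le_ell_sq {P : Ideal F.O} (hP : Prime P) : Ideal.absNorm P ≤ F.ell P ^ 2 :=
  Nat.le_of_dvd (pow_pos (F.ell_prime hP).pos 2) (F.absNorm_dvd_ell_sq hP)

theorem two_le_absNorm {P : Ideal F.O} (hP : Prime P) : 2 ≤ Ideal.absNorm P :=
  (F.ell_prime hP).two_le.trans (F.ell_le hP)

theorem ell_eq_of_dvd {P : Ideal F.O} (hP : Prime P) {l : ℕ} (hl : l.Prime)
    (h : l ∣ Ideal.absNorm P) : F.ell P = l :=
  ((Nat.prime_dvd_prime_iff_eq hl (F.ell_prime hP)).1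
    (hl.dvd_of_dvd_pow (h.trans (F.absNorm_dvd_ell_sq hP)))).symm

theorem ell_dvd_of_mem {P : Ideal F.O} (hP : Prime P) {n : ℕ} (h : (n : F.O) ∈ P) :
    F.ell P ∣ n :=
  (F.ell_prime hP).dvd_of_dvd_pow ((F.ell_dvd hP).trans (F.absNorm_dvd_sq h))

theorem ell_dvd_of_mem_int {P : Ideal F.O} (hP : Prime P) {n : ℤ} (h : (n : F.O) ∈ P) :
    (F.ell P : ℤ) ∣ n := by
  rw [Int.natCast_dvd]
  apply F.ell_dvd_of_mem hP
  rcases Int.natAbs_eq n with h1 | h1
  · rw [h1] at h; simpa using h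
  · rw [h1] at h; simpa using h

theorem exists_prime_dvd {I : Ideal F.O} {l : ℕ} (hl : l.Prime)
    (h : l ∣ Ideal.absNorm I) : ∃ P : Ideal F.O, Prime P ∧ F.ell P = l ∧ P ∣ I := by
  obtain ⟨P, hP, h1, h2⟩ := Ideal.exists_isMaximal_dvd_of_dvd_absNorm' hl I h
  have hmem : (l : F.O) ∈ P := by
    have : (l : ℤ) ∈ P.under ℤ := by rw [h1]; exact Ideal.mem_span_singleton_self _
    simpa [Ideal.mem_comap] using this
  have hne : P ≠ ⊥ := by
    rintro rfl
    rw [Ideal.mem_bot] at hmem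
    exact hl.ne_zero (by exact_mod_cast hmem)
  have hpr : Prime P := Ideal.prime_of_isPrime hne hP.isPrime
  exact ⟨P, hpr, ((Nat.prime_dvd_prime_iff_eq (F.ell_prime hpr) hl).1
    (F.ell_dvd_of_mem hpr hmem)), h2⟩

theorem prod_dvd_iff {T : Finset (Ideal F.O)} (hT : ∀ P ∈ T, Prime P) {I : Ideal F.O} :
    ∏ P ∈ T, P ∣ I ↔ ∀ P ∈ T, P ∣ I := by
  constructor
  · intro h P hP
    exact (dvd_prod_of_mem (fun P : Ideal F.O => P) hP).trans h
  · intro h
    exact Finset.prod_primes_dvd I hT h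

theorem prod_ne_bot {T : Finset (Ideal F.O)} (hT : ∀ P ∈ T, Prime P) :
    ∏ P ∈ T, P ≠ ⊥ :=
  prod_ne_zero_iff.2 (fun P hP => (hT P hP).ne_zero)

theorem fiber_prod_dvd {T : Finset (Ideal F.O)} {l : ℕ} (hT : ∀ P ∈ T, Prime P ∧ F.ell P = l) :
    ∏ P ∈ T, Ideal.absNorm P ∣ l ^ 2 := by
  rw [← map_prod, ← F.absNorm_span_nat]
  refine map_dvd Ideal.absNorm ((F.prod_dvd_iff (fun P hP => (hT P hP).1)).2 (fun P hP => ?_))
  rw [F.dvd_span_iff, ← (hT P hP).2]
  exact F.ell_mem (hT P hP).1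

theorem fiber_log_le {T : Finset (Ideal F.O)} {l : ℕ} (hl : 0 < l)
    (hT : ∀ P ∈ T, Prime P ∧ F.ell P = l) :
    ∑ P ∈ T, Real.log (Ideal.absNorm P) ≤ 2 * Real.log l := by
  rw [← Real.log_prod (fun P hP => by
    have := F.absNorm_pos (hT P hP).1.ne_zero
    positivity), ← Nat.cast_prod]
  have h1 := Nat.le_of_dvd (pow_pos hl 2) (F.fiber_prod_dvd hT)
  have h2 : 0 < ∏ P ∈ T, Ideal.absNorm P :=
    prod_pos (fun P hP => F.absNorm_pos (hT P hP).1.ne_zero)
  have h3 : 2 * Real.log l = Real.log ((l ^ 2 : ℕ) : ℝ) := by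
    push_cast
    rw [Real.log_pow]
    norm_num
  rw [h3]
  exact Real.log_le_log (by exact_mod_cast h2) (by exact_mod_cast h1)

theorem fiber_card_le {T : Finset (Ideal F.O)} {l : ℕ}
    (hT : ∀ P ∈ T, Prime P ∧ F.ell P = l) : T.card ≤ 2 := by
  rcases T.eq_empty_or_nonempty with rfl | ⟨P₀, hP₀⟩
  · simp
  have hl : l.Prime := (hT P₀ hP₀).2 ▸ F.ell_prime (hT P₀ hP₀).1
  have h1 := Nat.le_of_dvd (pow_pos hl.pos 2) (F.fiber_prod_dvd hT)
  have h2 : l ^ T.card ≤ ∏ P ∈ T, Ideal.absNorm P :=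
    pow_card_le_prod T _ l (fun P hP => (hT P hP).2 ▸ F.ell_le (hT P hP).1)
  exact (Nat.pow_le_pow_iff_right hl.one_lt).1 (h2.trans h1)

theorem finite_PP (y : ℝ) : {P : Ideal F.O | Prime P ∧ (F.ell P : ℝ) < y}.Finite := by
  refine (Ideal.finite_setOfPred_absNorm_le (⌈y⌉₊ ^ 2)).subset ?_
  rintro P ⟨hP, h⟩
  have : F.ell P ≤ ⌈y⌉₊ := by
    have := h.le.trans (Nat.le_ceil y)
    exact_mod_cast this
  exact (F.absNorm_le_ell_sq hP).trans (Nat.pow_le_pow_left this 2)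

/-- The prime ideals above rational primes less than `y`. -/
noncomputable def PP (y : ℝ) : Finset (Ideal F.O) := (F.finite_PP y).toFinset

theorem mem_PP {y : ℝ} {P : Ideal F.O} : P ∈ F.PP y ↔ Prime P ∧ (F.ell P : ℝ) < y := by
  simp [PP]

theorem PP_prime {y : ℝ} {P : Ideal F.O} (h : P ∈ F.PP y) : Prime P := (F.mem_PP.1 h).1

theorem card_PP_le {y : ℝ} (hy : 0 ≤ y) : ((F.PP y).card : ℝ) ≤ 2 * (y + 1) := by
  classical
  have h1 : (F.PP y).card ≤ 2 * (range ⌈y⌉₊).card := by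
    refine card_le_mul_card_image_of_maps_to (f := F.ell) (fun P hP => ?_) 2 (fun l _ => ?_)
    · rw [mem_range]
      exact Nat.lt_ceil.2 (F.mem_PP.1 hP).2
    · exact F.fiber_card_le (l := l) (fun P hP =>
        ⟨F.PP_prime (mem_filter.1 hP).1, (mem_filter.1 hP).2⟩)
  rw [card_range] at h1
  have h2 : ((F.PP y).card : ℝ) ≤ 2 * (⌈y⌉₊ : ℝ) := by exact_mod_cast h1
  have h3 := Nat.ceil_lt_add_one hy
  linarith

theorem sum_log_div_le {y : ℝ} (hy : 2 ≤ y) :
    ∑ P ∈ F.PP y, Real.log (Ideal.absNorm P) / (Ideal.absNorm P : ℝ) ≤ 6 * Real.log y := by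
  classical
  have h1 : ∑ P ∈ F.PP y, Real.log (Ideal.absNorm P) / (Ideal.absNorm P : ℝ)
      ≤ ∑ P ∈ F.PP y, Real.log (Ideal.absNorm P) / (F.ell P : ℝ) := by
    refine sum_le_sum (fun P hP => ?_)
    have hp := F.PP_prime hP
    apply div_le_div_of_nonneg_left (Real.log_natCast_nonneg _)
    · exact_mod_cast (F.ell_prime hp).pos
    · exact_mod_cast F.ell_le hp
  refine h1.trans ?_
  rw [← sum_fiberwise_of_maps_to (g := F.ell) (t := (F.PP y).image F.ell)
    (fun P hP => mem_image_of_mem _ hP)]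
  have h2 : ∀ l ∈ (F.PP y).image F.ell,
      ∑ P ∈ F.PP y with F.ell P = l, Real.log (Ideal.absNorm P) / (F.ell P : ℝ)
        ≤ 2 * (Real.log l / l) := by
    intro l hl
    obtain ⟨P₀, hP₀, rfl⟩ := mem_image.1 hl
    have hl0 := (F.ell_prime (F.PP_prime hP₀)).pos
    rw [sum_congr rfl (g := fun P => Real.log (Ideal.absNorm P) / (F.ell P₀ : ℝ))
      (fun P hP => by rw [(mem_filter.1 hP).2]), ← sum_div, ← mul_div_assoc]
    apply div_le_div_of_nonneg_right _ (Nat.cast_nonneg _)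
    exact F.fiber_log_le hl0 (fun P hP => ⟨F.PP_prime (mem_filter.1 hP).1, (mem_filter.1 hP).2⟩)
  refine (sum_le_sum h2).trans ?_
  rw [← mul_sum]
  have hn : 1 ≤ ⌊y⌋₊ := Nat.le_floor (by push_cast; linarith)
  have h3 := mertens_le ⌊y⌋₊ hn ((F.PP y).image F.ell) (fun l hl => by
    obtain ⟨P₀, hP₀, rfl⟩ := mem_image.1 hl
    exact ⟨F.ell_prime (F.PP_prime hP₀), Nat.le_floor (F.mem_PP.1 hP₀).2.le⟩)
  have h4 : Real.log ⌊y⌋₊ ≤ Real.log y :=
    Real.log_le_log (by exact_mod_cast hn) (Nat.floor_le (by linarith))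
  have h5 : Real.log 4 ≤ 2 * Real.log y := by
    have : Real.log 4 = 2 * Real.log 2 := by
      rw [show (4 : ℝ) = 2 ^ 2 by norm_num, Real.log_pow]; norm_num
    rw [this]
    have := Real.log_le_log (by norm_num) hy
    linarith
  linarith

/-- The norm has no prime factor below `y`. -/
def rough (y : ℝ) (I : Ideal F.O) : Prop := ∀ l : ℕ, l.Prime → l ∣ Ideal.absNorm I → y ≤ l

theorem rough_iff {y : ℝ} {I : Ideal F.O} : F.rough y I ↔ ∀ P ∈ F.PP y, ¬ P ∣ I := by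
  constructor
  · intro h P hP hd
    obtain ⟨hp, hl⟩ := F.mem_PP.1 hP
    have := h _ (F.ell_prime hp) ((F.ell_dvd hp).trans (map_dvd Ideal.absNorm hd))
    linarith
  · intro h l hl hd
    obtain ⟨P, hP, h1, h2⟩ := F.exists_prime_dvd hl hd
    by_contra hc
    push Not at hc
    exact h P (F.mem_PP.2 ⟨hP, h1 ▸ hc⟩) h2

theorem rough.mono {F : IQ} {y y' : ℝ} {I : Ideal F.O} (h : F.rough y I) (hy : y' ≤ y) :
    F.rough y' I := fun l hl hd => hy.trans (h l hl hd)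

theorem rough.of_dvd {F : IQ} {y : ℝ} {I J : Ideal F.O} (h : F.rough y I) (hd : J ∣ I) :
    F.rough y J := fun l hl hd' => h l hl (hd'.trans (map_dvd Ideal.absNorm hd))

theorem rough.mul {F : IQ} {y : ℝ} {I J : Ideal F.O} (h : F.rough y I) (h' : F.rough y J) :
    F.rough y (I * J) := by
  intro l hl hd
  rw [map_mul] at hd
  rcases (Nat.Prime.dvd_mul hl).1 hd with h1 | h1
  · exact h l hl h1
  · exact h' l hl h1
open scoped nonZeroDivisors in
/-- The class of an ideal. -/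
noncomputable def cls (I : Ideal F.O) : ClassGroup F.O := by
  classical
  exact if h : I ≠ ⊥ then ClassGroup.mk0 ⟨I, mem_nonZeroDivisors_of_ne_zero h⟩ else 1

theorem exists_rep (C : ClassGroup F.O) : ∃ J : Ideal F.O, J ≠ ⊥ ∧ F.cls J = C⁻¹ := by
  obtain ⟨J, hJ⟩ := ClassGroup.mk0_surjective C⁻¹
  have h0 : (J : Ideal F.O) ≠ ⊥ := nonZeroDivisors.ne_zero J.2
  refine ⟨J, h0, ?_⟩
  rw [cls, dif_pos h0, ← hJ]

theorem cls_mul {I J : Ideal F.O} (hI : I ≠ ⊥) (hJ : J ≠ ⊥) :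
    F.cls (I * J) = F.cls I * F.cls J := by
  have h : I * J ≠ ⊥ := mul_ne_zero hI hJ
  rw [cls, cls, cls, dif_pos hI, dif_pos hJ, dif_pos h, ← map_mul]
  rfl

theorem cls_eq_one_iff {I : Ideal F.O} (hI : I ≠ ⊥) :
    F.cls I = 1 ↔ ∃ z : F.O, I = Ideal.span {z} := by
  rw [cls, dif_pos hI, ClassGroup.mk0_eq_one_iff]
  exact ⟨fun h => h.principal, fun ⟨z, hz⟩ => ⟨z, hz⟩⟩

/-- A nonzero ideal in the inverse class. -/
noncomputable def rep (C : ClassGroup F.O) : Ideal F.O := (F.exists_rep C).choose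

theorem rep_ne (C : ClassGroup F.O) : F.rep C ≠ ⊥ := (F.exists_rep C).choose_spec.1

theorem cls_rep (C : ClassGroup F.O) : F.cls (F.rep C) = C⁻¹ := (F.exists_rep C).choose_spec.2
/-- The norm of an ideal as a real number. -/
noncomputable def nrm (I : Ideal F.O) : ℝ := Ideal.absNorm I

theorem finite_idl (t : ℝ) : {I : Ideal F.O | I ≠ ⊥ ∧ F.nrm I ≤ t}.Finite := by
  refine (Ideal.finite_setOfPred_absNorm_le ⌊t⌋₊).subset ?_
  rintro I ⟨-, h⟩
  exact Nat.le_floor h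

/-- Nonzero ideals of norm at most `t`. -/
noncomputable def idl (t : ℝ) : Finset (Ideal F.O) := (F.finite_idl t).toFinset

theorem mem_idl {t : ℝ} {I : Ideal F.O} : I ∈ F.idl t ↔ I ≠ ⊥ ∧ F.nrm I ≤ t := by
  simp [idl]

theorem one_le_nrm {I : Ideal F.O} (h : I ≠ ⊥) : 1 ≤ F.nrm I := by
  unfold nrm
  exact_mod_cast F.absNorm_pos h

theorem nrm_nonneg (I : Ideal F.O) : 0 ≤ F.nrm I := Nat.cast_nonneg _

theorem nrm_mul (I J : Ideal F.O) : F.nrm (I * J) = F.nrm I * F.nrm J := by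
  simp [nrm]

theorem nrm_top : F.nrm ⊤ = 1 := by simp [nrm]

theorem nrm_span (z : F.O) : F.nrm (Ideal.span {z}) = z.norm := F.absNorm_span_real z

theorem nrm_le_of_dvd {I J : Ideal F.O} (hI : I ≠ ⊥) (h : J ∣ I) : F.nrm J ≤ F.nrm I := by
  unfold nrm
  exact_mod_cast Nat.le_of_dvd (F.absNorm_pos hI) (map_dvd Ideal.absNorm h)

open Classical in
/-- Prime divisors. -/
noncomputable def pf (I : Ideal F.O) : Finset (Ideal F.O) :=
  (F.idl (F.nrm I)).filter (fun P => Prime P ∧ P ∣ I)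

theorem mem_pf {I P : Ideal F.O} (hI : I ≠ ⊥) : P ∈ F.pf I ↔ Prime P ∧ P ∣ I := by
  classical
  rw [pf, mem_filter, F.mem_idl]
  exact ⟨fun h => h.2, fun h => ⟨⟨h.1.ne_zero, F.nrm_le_of_dvd hI h.2⟩, h⟩⟩

theorem exists_compl {c : Ideal F.O} (hc : c ≠ ⊥) : ∃ b : Ideal F.O, b ≠ ⊥ ∧
    c * b = Ideal.span {((Ideal.absNorm c : ℕ) : F.O)} ∧ Ideal.absNorm b = Ideal.absNorm c := by
  obtain ⟨b, hb⟩ := F.dvd_span_iff.2 (Ideal.absNorm_mem c)
  have h0 := F.absNorm_pos hc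
  have h1 := congrArg Ideal.absNorm hb
  rw [F.absNorm_span_nat, map_mul, sq] at h1
  have h2 := (Nat.eq_of_mul_eq_mul_left h0 h1).symm
  refine ⟨b, ?_, hb.symm, h2⟩
  rintro rfl
  simp at h2
  omega

noncomputable instance : Fintype (ClassGroup F.O) := Fintype.ofFinite _

theorem cls_span (z : F.O) : F.cls (Ideal.span {z}) = 1 := by
  by_cases hz : Ideal.span {z} = ⊥
  · simp [cls, hz]
  · exact (F.cls_eq_one_iff hz).2 ⟨z, rfl⟩

theorem exists_gen (I : Ideal F.O) : ∃ w : F.O, I ≠ ⊥ →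
    Ideal.span {w} = I * F.rep (F.cls I) := by
  by_cases hI : I = ⊥
  · exact ⟨0, fun h => (h hI).elim⟩
  have h0 := mul_ne_zero hI (F.rep_ne (F.cls I))
  obtain ⟨z, hz⟩ := (F.cls_eq_one_iff h0).1 (by
    rw [F.cls_mul hI (F.rep_ne _), cls_rep, mul_inv_cancel])
  exact ⟨z, fun _ => hz.symm⟩

/-- Sum of the norms of the class representatives. -/
noncomputable def cs : ℝ := ∑ C : ClassGroup F.O, F.nrm (F.rep C)

theorem nrm_rep_le (C : ClassGroup F.O) : F.nrm (F.rep C) ≤ F.cs :=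
  single_le_sum (f := fun C => F.nrm (F.rep C)) (fun _ _ => F.nrm_nonneg _) (mem_univ C)

theorem one_le_cs : 1 ≤ F.cs := (F.one_le_nrm (F.rep_ne 1)).trans (F.nrm_rep_le 1)

theorem card_cls_le : (Fintype.card (ClassGroup F.O) : ℝ) ≤ F.cs := by
  have := sum_le_sum (s := univ) (fun (C : ClassGroup F.O) _ => F.one_le_nrm (F.rep_ne C))
  simpa [cs] using this

/-- The constant in the ideal count. -/
noncomputable def c1 : ℝ := 25 * F.cs ^ 2

theorem one_le_c1 : 1 ≤ F.c1 := by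
  have h1 := F.one_le_cs
  unfold c1
  nlinarith

theorem card_idl_le {t : ℝ} (ht : 0 ≤ t) : ((F.idl t).card : ℝ) ≤ F.c1 * t := by
  classical
  have hc := F.one_le_c1
  rcases lt_or_ge t 1 with h | h
  · have : F.idl t = ∅ := by
      refine eq_empty_of_forall_notMem (fun I hI => ?_)
      obtain ⟨h0, h1⟩ := F.mem_idl.1 hI
      linarith [F.one_le_nrm h0]
    rw [this]; simp; positivity
  choose g hg using F.exists_gen
  have h3 := F.one_le_cs
  have h1 : (F.idl t).card ≤ ((univ : Finset (ClassGroup F.O)) ×ˢ F.disc (t * F.cs)).card := by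
    refine card_le_card_of_injOn (fun I => (F.cls I, g I)) (fun I hI => ?_) (fun I hI J hJ h => ?_)
    · obtain ⟨h0, h1⟩ := F.mem_idl.1 hI
      refine mem_coe.2 (mem_product.2 ⟨mem_univ _, F.mem_disc.2 ?_⟩)
      rw [← F.nrm_span, hg I h0, F.nrm_mul]
      exact mul_le_mul h1 (F.nrm_rep_le _) (F.nrm_nonneg _) ht
    · simp only [Prod.mk.injEq] at h
      have h1 := hg I (F.mem_idl.1 hI).1
      rw [h.2, hg J (F.mem_idl.1 hJ).1, h.1] at h1
      exact (mul_right_cancel₀ (F.rep_ne _) h1).symm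
  rw [card_product, card_univ] at h1
  have h2 : ((F.idl t).card : ℝ) ≤ Fintype.card (ClassGroup F.O) * (F.disc (t * F.cs)).card := by
    exact_mod_cast h1
  refine h2.trans ?_
  calc _ ≤ F.cs * (25 * (t * F.cs)) :=
        mul_le_mul F.card_cls_le (F.card_disc_le (by nlinarith)) (Nat.cast_nonneg _) (by linarith)
    _ = _ := by unfold c1; ring

/-- Ideals of given norm. -/
noncomputable def idN (n : ℕ) : Finset (Ideal F.O) := (F.idl n).filter (fun I => Ideal.absNorm I = n)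

theorem mem_idN {n : ℕ} {I : Ideal F.O} : I ∈ F.idN n ↔ I ≠ ⊥ ∧ Ideal.absNorm I = n := by
  rw [idN, mem_filter, F.mem_idl]
  exact ⟨fun h => ⟨h.1.1, h.2⟩, fun h => ⟨⟨h.1, by rw [nrm, h.2]⟩, h.2⟩⟩

end IQ

end Pool.Agent.Lib.DL
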