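import Pool.Agent.Lib.DL.Defs

set_option autoImplicit false

namespace Pool.Agent.Lib.DL

open QuadraticAlgebra Finset Filter Topology
open Pool.Agent.Lib.MP_d48457_nt (ind Ginf beta sa)

/-! Part A: arithmetic of the order -/

/-- Prime decomposition. -/
structure AR1 (F : IQ) : Prop where
  mul_cj : ∀ I : Ideal F.O, I * F.cj I = Ideal.span {((Ideal.absNorm I : ℕ) : F.O)}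
  ram_not_inert : ∀ p : ℕ, p.Prime → F.ram p → ¬ F.inert p
  inert_dvd : ∀ p : ℕ, p.Prime → F.inert p → ∀ z : F.O, (p : ℤ) ∣ z.norm → (p : F.O) ∣ z
  inert_prime : ∀ p : ℕ, p.Prime → F.inert p → Prime (Ideal.span {(p : F.O)})
  ram_ex : ∀ p : ℕ, p.Prime → F.ram p → ∃ P : Ideal F.O, Ideal.absNorm P = p ∧ F.cj P = P
  split_ex : ∀ p : ℕ, p.Prime → F.split p → ∃ P : Ideal F.O, Ideal.absNorm P = p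
  split_ne : ∀ P : Ideal F.O, (Ideal.absNorm P).Prime → F.split (Ideal.absNorm P) → F.cj P ≠ P
  norm_prime : ∀ P Q : Ideal F.O, (Ideal.absNorm P).Prime → Prime Q →
    Ideal.absNorm P ∣ Ideal.absNorm Q → Q = P ∨ Q = F.cj P
  prime_cases : ∀ P : Ideal F.O, Prime P → ((Ideal.absNorm P).Prime ∧ ¬ F.inert (Ideal.absNorm P)) ∨
    ∃ p : ℕ, p.Prime ∧ F.inert p ∧ P = Ideal.span {(p : F.O)}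

def St_AR1 : Prop := ∀ F : IQ, AR1 F

/-- Counting ideals of given norm. -/
structure AR2 (F : IQ) : Prop where
  sum_mul : ∀ (β : Type) [AddCommMonoid β] (f : Ideal F.O → β) (m n : ℕ), Nat.Coprime m n →
    ∑ I ∈ F.idN (m * n), f I = ∑ J ∈ F.idN m, ∑ K ∈ F.idN n, f (J * K)
  ex_mul : ∀ (m n : ℕ) (I : Ideal F.O), Nat.Coprime m n → I ∈ F.idN (m * n) →
    ∃ J ∈ F.idN m, ∃ K ∈ F.idN n, I = J * K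
  rho_mul : ∀ m n : ℕ, Nat.Coprime m n → F.ρ (m * n) = F.ρ m * F.ρ n
  rho_one : F.ρ 1 = 1
  rho_split : ∀ p k : ℕ, p.Prime → F.split p → F.ρ (p ^ k) = k + 1
  rho_ram : ∀ p k : ℕ, p.Prime → F.ram p → F.ρ (p ^ k) = 1
  rho_inert : ∀ p k : ℕ, p.Prime → F.inert p → F.ρ (p ^ k) = if Even k then 1 else 0
  rho_pos : ∀ m : ℕ, 0 < F.ρ m ↔ F.M m
  rho_le : ∀ m : ℕ, F.ρ m ≤ m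
  rho_ge : ∀ (m : ℕ) (S : Finset ℕ), F.M m → (∀ p ∈ S, p.Prime ∧ F.split p ∧ p ∣ m) →
    2 ^ S.card ≤ F.ρ m
  idN_prime : ∀ P : Ideal F.O, (Ideal.absNorm P).Prime → ∀ I : Ideal F.O,
    I ∈ F.idN (Ideal.absNorm P) ↔ I = P ∨ I = F.cj P
  card_elN : ∀ m : ℕ, m ≠ 0 → (F.elN m).card ≤ F.w * F.ρ m
  card_elN_pid : IsPrincipalIdealRing F.O → ∀ m : ℕ, m ≠ 0 → (F.elN m).card = F.w * F.ρ m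

def St_AR2 : Prop := ∀ F : IQ, AR2 F

/-- Invariant maps, coprime representatives, angles. -/
structure AR3 (F : IQ) : Prop where
  same_norm : ∀ (G : Type) [CommMonoid G] (Φ : Ideal F.O → G), Φ ⊤ = 1 →
    (∀ I J, I ≠ ⊥ → J ≠ ⊥ → Φ (I * J) = Φ I * Φ J) → (∀ I, I ≠ ⊥ → Φ (F.cj I) = Φ I) →
    ∀ I J, I ≠ ⊥ → J ≠ ⊥ → Ideal.absNorm I = Ideal.absNorm J → Φ I = Φ J
  cop_rep : ∀ (I : Ideal F.O) (W : ℕ), I ≠ ⊥ → W ≠ 0 →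
    ∃ (z : F.O) (J : Ideal F.O), F.cop W J ∧ Ideal.span {z} = I * J
  kzero : ∀ (q : ℕ) (k : ℤ), q ≠ 0 → k ≠ 0 →
    ∃ z : F.O, z ≠ 0 ∧ (q : F.O) ∣ z - 1 ∧ F.ang z ^ k ≠ F.ang (star z) ^ k

def St_AR3 : Prop := ∀ F : IQ, AR3 F

/-- The quadratic character. -/
structure CHI (F : IQ) : Prop where
  mul : ∀ m n : ℕ, m ≠ 0 → n ≠ 0 → F.chi (m * n) = F.chi m * F.chi n
  per : ∀ m n : ℕ, Odd m → m ≡ n [MOD 4 * F.Dn] → F.chi m = F.chi n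
  split_iff : ∀ p : ℕ, p.Prime → ¬ p ∣ 4 * F.Dn → (F.split p ↔ F.chi p = 1)
  of_M : ∀ m : ℕ, F.M m → Nat.Coprime m (4 * F.Dn) → F.chi m = 1
  neg : F.chi (4 * F.Dn - 1) = -1

def St_CHI : Prop := ∀ F : IQ, CHI F

def St_EXIQ : Prop := ∀ d : ℤ, d < 0 → Squarefree d → ∃ F : IQ, F.d = d

/-! Part B: the Landau constant -/

def St_AREA : Prop := ∀ (F : IQ) (t : ℝ), 0 ≤ t →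
  MeasureTheory.volume {p : ℝ × ℝ | F.Q p.1 p.2 < t} = ENNReal.ofReal (2 * Real.pi / F.δ * t)

def St_GAUSS : Prop := ∀ F : IQ,
  Tendsto (fun t : ℝ => ((F.disc t).card : ℝ) / t) atTop (𝓝 (2 * Real.pi / F.δ))

def St_KAR : Prop := ∀ (a : ℕ → ℝ) (C : ℝ), (∀ n, 0 ≤ a n) →
  (∀ σ : ℝ, 0 < σ → Summable (fun n : ℕ => a n / (n : ℝ) ^ σ)) →
  Tendsto (fun σ : ℝ => √σ * ∑' n : ℕ, a n / (n : ℝ) ^ σ) (𝓝[>] 0) (𝓝 C) →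
  Tendsto (fun x : ℝ => (∑ n ∈ Icc 1 ⌊x⌋₊, a n) / √(Real.log x)) atTop (𝓝 (2 * C / √Real.pi))

/-- `κ` is the residue of the Dedekind zeta function. -/
def IsRes (F : IQ) (κ : ℝ) : Prop :=
  (∀ σ : ℝ, 0 < σ → Summable (fun n : ℕ => (F.ρ n : ℝ) / (n : ℝ) ^ (1 + σ))) ∧
  Tendsto (fun σ : ℝ => σ * ∑' n : ℕ, (F.ρ n : ℝ) / (n : ℝ) ^ (1 + σ)) (𝓝[>] 0) (𝓝 κ)

def St_ZETA : Prop := ∀ F : IQ, ∃ κ : ℝ, IsRes F κ ∧ 2 * Real.pi / (F.w * F.δ) ≤ κ ∧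
  (IsPrincipalIdealRing F.O → κ = 2 * Real.pi / (F.w * F.δ))

def St_JSUM : Prop := ∀ F : IQ, Summable (fun n : ℕ => ind (F.jj n) / (n : ℝ)) ∧
  ∏ p ∈ F.Dn.primeFactors, (1 - 1 / (p : ℝ))⁻¹ ≤ F.JJ

def St_LAND : Prop := ∀ (F : IQ) (κ : ℝ), IsRes F κ → IsB F.inert √(κ * F.JJ / Real.pi)

def St_CONST1 : Prop := ∀ F : IQ, F.D ≠ -3 → 0.3119 ≤ F.ee

def St_CONST2 : Prop := ∀ F : IQ, F.D = -3 →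
  IsPrincipalIdealRing F.O ∧ F.t = 1 ∧ F.ee ≤ 0.3115

def St_EXPL : Prop := ∀ F : IQ, F.D = -3 → F.ee =
  √3 / 8 * ∏' p : Nat.Primes, (if (p : ℕ) % 3 = 2 then (1 - 1 / ((p : ℕ) : ℝ) ^ 2)⁻¹ else 1)

def St_WIRU : Prop := ∀ (E : ℕ → Prop) (B : ℝ), IsB E B →
  (∀ ε : ℝ, 0 < ε → ∀ᶠ y : ℝ in atTop,
    ∑ p ∈ Icc 1 ⌊y⌋₊, ind (p.Prime ∧ ¬ E p) * Real.log p ≤ (1 / 2 + ε) * y) →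
  ∀ ε : ℝ, 0 < ε → ∀ᶠ x : ℝ in atTop, SS E x ≤ (B + ε) * x / √(Real.log x)

def St_THETA : Prop := ∀ (F : IQ) (ε : ℝ), 0 < ε → ∀ᶠ y : ℝ in atTop,
  ∑ p ∈ Icc 1 ⌊y⌋₊, ind (p.Prime ∧ ¬ F.inert p) * Real.log p ≤ (1 / 2 + ε) * y

/-- Upper bound for the number of norms (from `St_WIRU` and `St_THETA`). -/
def St_WU : Prop := ∀ (F : IQ) (B : ℝ), IsB F.inert B →
  ∀ ε : ℝ, 0 < ε → ∀ᶠ x : ℝ in atTop, SS F.inert x ≤ (B + ε) * x / √(Real.log x)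

def St_TCOP : Prop := ∀ (E : ℕ → Prop) (q : ℕ) (x : ℝ), q ≠ 0 →
  TT E x ≤ (∏ p ∈ q.primeFactors, lf E p) * ∑ k ∈ Icc 1 ⌊x⌋₊, ind (MM E k ∧ Nat.Coprime k q) / k

def St_GLB : Prop := ∀ (F : IQ) (B : ℝ), IsB F.inert B → 0 < B → ∀ y : ℕ, ∃ c : ℝ, 0 < c ∧
  ∀ᶠ z : ℝ in atTop, ∀ S : Finset ℕ, (∀ p, p ∈ S ↔ p.Prime ∧ F.split p ∧ y < p ∧ (p : ℝ) ≤ z) →
    c * √(Real.log z) ≤ ∏ p ∈ S, (1 + 1 / ((p : ℝ) - 1))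

def St_WIRL : Prop := ∀ (F : IQ) (B : ℝ), IsB F.inert B → 0 < B → ∀ q : ℕ, q ≠ 0 → 4 * F.Dn ∣ q →
  ∀ α β ε : ℝ, 0 ≤ α → α < β → 0 < ε → ∀ᶠ X : ℝ in atTop, ∀ a : ℕ, Nat.Coprime a q → F.chi a = 1 →
    (1 - ε) * (β - α) * (2 * B * F.lam q) * X / √(Real.log X)
      ≤ ∑ m ∈ Icc 1 ⌊β * X⌋₊, ind (α * X < m ∧ F.M m ∧ m ≡ a [MOD q])

def St_SQF : Prop := ∀ (F : IQ) (B : ℝ), IsB F.inert B → ∀ ε : ℝ, 0 < ε → ∃ y : ℕ,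
  ∀ᶠ X : ℝ in atTop, ∑ m ∈ Icc 1 ⌊X⌋₊, ind (F.M m ∧ ∃ p : ℕ, p.Prime ∧ y < p ∧ p ^ 2 ∣ m)
    ≤ ε * X / √(Real.log X)

/-! Part C: equidistribution of the fibres -/

def St_DIV : Prop := ∀ (F : IQ) (v : Ideal F.O → ℝ) (δ : ℝ), (∀ I, 0 ≤ v I ∧ v I ≤ 2) → 0 < δ →
  F.Asym (fun I => (v I : ℂ)) δ → ∀ (A : ℝ) (y : ℕ), ∃ (S : Finset ℕ) (P : ℕ → Ideal F.O),
    (∀ p ∈ S, p.Prime ∧ F.split p ∧ y < p ∧ Ideal.absNorm (P p) = p ∧ 0 < v (P p)) ∧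
    A ≤ ∑ p ∈ S, v (P p) / p

def St_DIV1 : Prop := ∀ (F : IQ) (A : ℝ) (y : ℕ), ∃ (S : Finset ℕ) (π : ℕ → F.O),
  (∀ p ∈ S, p.Prime ∧ F.split p ∧ y < p ∧ (π p).norm = p) ∧ A ≤ ∑ p ∈ S, 1 / (p : ℝ)

def St_DIV2 : Prop := ∀ (F : IQ) (W : ℕ) (Ψ : Ideal F.O → ℂ), W ≠ 0 → F.Hk W Ψ →
  (∃ I, Ψ (F.cj I) ≠ Ψ I) → ∀ A : ℝ, ∃ S : Finset ℕ, (∀ p ∈ S, p.Prime ∧ F.split p) ∧
    A ≤ ∑ p ∈ S, (1 - ‖F.aa Ψ p‖ / 2) / p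

def St_HT : Prop := ∀ (E : ℕ → Prop) (B : ℝ), IsB E B → ∀ u : ℕ → ℝ,
  (∀ m, 0 ≤ u m ∧ u m ≤ ind (MM E m)) → (∀ m n, Nat.Coprime m n → u (m * n) = u m * u n) →
  (∀ A : ℝ, ∃ S : Finset ℕ, (∀ p ∈ S, p.Prime ∧ ¬ E p) ∧ A ≤ ∑ p ∈ S, (1 - u p) / p) →
  ∀ ε : ℝ, 0 < ε → ∀ᶠ X : ℝ in atTop, ∑ m ∈ Icc 1 ⌊X⌋₊, u m ≤ ε * X / √(Real.log X)

def St_PG : Prop := ∀ (F : IQ) (m : ℕ), F.M m → Nat.Coprime m F.Dn → (∃ s : ℤ, F.d ∣ m - s ^ 2) →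
  ∃ (β : F.O) (c : ℕ), c ≠ 0 ∧ β.norm = m * c ^ 2

def St_H90 : Prop := ∀ (F : IQ) (q : ℕ) (z : F.O) (s : ℕ), q ≠ 0 → Nat.Coprime s (q * F.Dn) →
  ((q * F.Dn : ℕ) : ℤ) ∣ z.norm - s ^ 2 →
  ∃ (β₁ β₂ : F.O) (I J : Ideal F.O), F.cop q I ∧ F.cop q J ∧ Ideal.span {β₁} = I * J ∧
    Ideal.span {β₂} = F.cj I * J ∧ (q : F.O) ∣ z * β₂ - s * β₁

def St_INV : Prop := ∀ (F : IQ) (q : ℕ) (Ψ : Ideal F.O → ℂ), q ≠ 0 → F.Hk q Ψ →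
  (∀ I, Ψ (F.cj I) = Ψ I) → ∀ I J : Ideal F.O, F.cop (q * F.Dn) I → F.cop (q * F.Dn) J →
  Ideal.absNorm I ≡ Ideal.absNorm J [MOD q * F.Dn] → Ψ I = Ψ J

def St_TRIG : Prop := ∀ α : ℝ, 0 < α → ∃ (N : ℕ) (a : ℤ → ℝ), 0 < a 0 ∧
  ∀ u : ℂ, ‖u‖ = 1 → (∑ k ∈ Icc (-(N : ℤ)) N, (a k : ℂ) * u ^ k).re ≤ ind (‖u - 1‖ < α)

def St_FPI : Prop := ∀ (F : IQ) (B : ℝ), IsB F.inert B → ∀ (q : ℕ) (α : ℝ), q ≠ 0 → 0 < α →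
  ∃ c : ℝ, 0 < c ∧ ∀ ε : ℝ, 0 < ε → ∀ᶠ X : ℝ in atTop, ∃ Bad : Finset ℕ,
    (Bad.card : ℝ) ≤ ε * X / √(Real.log X) ∧ ∀ (m : ℕ) (b : Ideal F.O) (u : ℂ), (m : ℝ) ≤ X →
      m ∉ Bad → F.cop (q * F.Dn) b → m ≡ Ideal.absNorm b [MOD q * F.Dn] → ‖u‖ = 1 →
      c * F.ρ m ≤ ∑ I ∈ F.idN m, ind (∃ z : F.O, Ideal.span {z} = I * F.cj b ∧
        (q : F.O) ∣ z - (Ideal.absNorm b : ℕ) ∧ ‖F.ang z - u‖ < α)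

def St_FPE : Prop := ∀ (F : IQ) (B : ℝ), IsB F.inert B → ∀ (q : ℕ) (α : ℝ), q ≠ 0 → 0 < α →
  ∃ c : ℝ, 0 < c ∧ ∀ ε : ℝ, 0 < ε → ∀ᶠ X : ℝ in atTop, ∃ Bad : Finset ℕ,
    (Bad.card : ℝ) ≤ ε * X / √(Real.log X) ∧ ∀ (w₀ : F.O) (m₁ b m : ℕ) (u : ℂ),
      w₀.norm = m₁ * b → m₁ ≠ 0 → Nat.Coprime m₁ b → Nat.Coprime b (q * F.Dn) → (m : ℝ) ≤ X →
      m ∉ Bad → m ≡ b [MOD q * F.Dn] → ‖u‖ = 1 →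
      c * F.ρ m ≤ ∑ w ∈ F.elN (m₁ * m), ind ((q : F.O) ∣ w - w₀ ∧ ‖F.ang w - u‖ < α)

/-! Part D: minor arcs -/

def St_FEJ : Prop := (∀ (L : ℕ) (u : ℂ), 0 < L → ‖u‖ = 1 →
    ‖∑ x ∈ Icc (-(2 * L : ℤ)) (2 * L), (fej L x : ℂ) * u ^ x‖ ≤ 4 * L ∧
    ‖∑ x ∈ Icc (-(2 * L : ℤ)) (2 * L), (fej L x : ℂ) * u ^ x‖ * (L * ‖u - 1‖ ^ 2) ≤ 4) ∧
  ∀ (u : ℂ) (n : ℕ), n ≠ 0 → u ^ n = 1 → u ≠ 1 → 4 ≤ n * ‖u - 1‖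

open Classical in
/-- The sieve weight times the Fejer weight. -/
noncomputable def IQ.nu (F : IQ) (I : Finset (Ideal F.O)) (R : ℝ) (L : ℕ) (z : F.O) : ℝ :=
  beta I F.nrm (sa I F.nrm R) (fun P => z ∈ P) ^ 2 * (fej L z.re * fej L z.im)

def St_SIEVE : Prop := ∀ (F : IQ) (I : Finset (Ideal F.O)) (R : ℝ) (L Q : ℕ)
  (ξ : AddChar F.O Circle), (∀ P ∈ I, (Ideal.absNorm P).Prime ∧ 4 ≤ Ideal.absNorm P) → 1 < R →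
  ∑ P ∈ I, Real.log (F.nrm P) / F.nrm P ≤ Real.log R / 2 → 0 < L → 0 < Q →
  ‖∑ z ∈ F.box (2 * L), (F.nu I R L z : ℂ) * ξ z‖ ≤ 64 * L ^ 2 / Ginf I F.nrm + 4 * R ^ 16 ∧
  (¬ F.Maj ξ Q.factorial (Q.factorial * Q / L) →
    ‖∑ z ∈ F.box (2 * L), (F.nu I R L z : ℂ) * ξ z‖
      ≤ 192 * L ^ 2 / (Q * Ginf I F.nrm) + 4 * R ^ 16)

def St_SWITCH : Prop := ∀ (F : IQ) (S J T : Finset ℕ) (π : ℕ → F.O) (P : ℕ → Ideal F.O)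
  (θ : AddChar F.O Circle) (Y A₁ A₂ : ℝ) (Bx : Finset F.O) (ν : Finset ℕ → F.O → ℝ),
  (∀ p ∈ S, p.Prime ∧ F.split p ∧ (π p).norm = p) →
  (∀ p ∈ J, p.Prime ∧ F.split p ∧ Ideal.absNorm (P p) = p) → T ⊆ S →
  (∀ s z, 0 ≤ ν s z) → F.disc Y ⊆ Bx → 0 ≤ A₂ →
  (∀ s ⊆ J, ∀ z ∈ F.disc Y, (∀ I ∈ F.sv S J π P s, z ∉ I) → 1 ≤ ν s z) →
  (∀ s ⊆ J, ∑ z ∈ Bx, ν s z ≤ A₁) →
  (∀ s ⊆ J, ∀ ε ⊆ T, ∀ ε' ⊆ T, ε ≠ ε' →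
    ‖∑ z ∈ Bx, (ν s z : ℂ) * θ ((F.sgp π T ε - F.sgp π T ε') * z)‖ ≤ A₂) →
  ∑ m ∈ Icc 1 ⌊Y⌋₊, ind ((∀ p ∈ S, ¬ p ∣ m) ∧ ∀ p ∈ J, ¬ p ^ 2 ∣ m) *
    ‖F.ah θ ((∏ p ∈ T, p) * m)‖ ^ 2 ≤ F.w * (A₁ / 2 ^ T.card + A₂)

/-- One value of the smooth part. -/
def St_MA1 : Prop := ∀ (F : IQ) (B : ℝ), IsB F.inert B → 0 < B → ∀ y : ℕ, 4 ≤ y → ∃ C₀ : ℝ, 0 < C₀ ∧
  ∀ (S : Finset ℕ) (π : ℕ → F.O), (∀ p ∈ S, p.Prime ∧ F.split p ∧ y < p ∧ (π p).norm = p) →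
  ∀ ε : ℝ, 0 < ε → ∃ (N : ℕ) (C : ℝ), N ≠ 0 ∧ 0 < C ∧ ∀ᶠ X : ℝ in atTop,
    ∀ θ : AddChar F.O Circle, ¬ F.Maj θ N (C / √X) → ∀ T ⊆ S,
      ∑ m ∈ Icc 1 ⌊X / ∏ p ∈ T, (p : ℝ)⌋₊, ind ((∀ p ∈ S, ¬ p ∣ m) ∧
        ∀ p : ℕ, p.Prime → y < p → ¬ p ^ 2 ∣ m) * ‖F.ah θ ((∏ p ∈ T, p) * m)‖ ^ 2
      ≤ (C₀ * (∏ p ∈ S, (1 - 1 / (p : ℝ))) / ∏ p ∈ T, (2 * (p : ℝ)) + ε) * X / √(Real.log X)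

def St_MA : Prop := ∀ (F : IQ) (B : ℝ), IsB F.inert B → 0 < B → ∀ ε : ℝ, 0 < ε →
  ∃ (N : ℕ) (C : ℝ), N ≠ 0 ∧ 0 < C ∧ ∀ᶠ X : ℝ in atTop, ∀ θ : AddChar F.O Circle,
    ¬ F.Maj θ N (C / √X) → ∑ m ∈ Icc 1 ⌊X⌋₊, ‖F.ah θ m‖ ^ 2 ≤ ε * X / √(Real.log X)

/-! Part E: regularity -/

def St_PLAN : Prop := ∀ (F : IQ) (L N : ℕ) (X η S₁ S₂ κ : ℝ) (g φ : F.O → ℝ), N ≠ 0 → 0 < η →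
  0 ≤ S₂ → 0 ≤ κ → (∀ x, |g x| ≤ 1) → (∀ x, |φ x| ≤ 1) →
  (∀ θ : AddChar F.O Circle, ∑ m ∈ Icc 1 ⌊X⌋₊, ‖F.ah θ m‖ ≤ S₁) →
  (∀ θ : AddChar F.O Circle, ¬ F.Maj θ N η → ∑ m ∈ Icc 1 ⌊X⌋₊, ‖F.ah θ m‖ ≤ S₂) →
  (∀ θ : AddChar F.O Circle, F.Maj θ N η → ‖∑ x ∈ F.sqr L, (φ x : ℂ) * θ x‖ ≤ κ * L ^ 2) →
  ∑ m ∈ Icc 1 ⌊X⌋₊, |F.AA L g φ m| ≤ S₂ * L ^ 2 + 64 * η ^ 2 * S₁ * κ * L ^ 4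

def St_UNIF : Prop := ∀ (F : IQ) (B : ℝ), IsB F.inert B → 0 < B → ∀ A ε : ℝ, 1 ≤ A → 0 < ε →
  ∃ N₀ M₀ : ℕ, N₀ ≠ 0 ∧ M₀ ≠ 0 ∧ ∀ᶠ L : ℕ in atTop, ∀ q s : ℕ, N₀ ∣ q → 0 < s → M₀ * s ≤ L →
    ∀ f : F.O → ℝ, (∀ x, 0 ≤ f x ∧ f x ≤ 1) →
      ∑ m ∈ Icc 1 ⌊A * (L : ℝ) ^ 2⌋₊, |F.AA L f f m -
        F.AA L (avg (F.sqr L) (F.cell q s) f) (avg (F.sqr L) (F.cell q s) f) m|
        ≤ ε * (L : ℝ) ^ 4 / √(Real.log ((L : ℝ) ^ 2))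

def St_REG : Prop := ∀ (α β : Type) (B : Finset α) (c : ℕ → α → β) (f : α → ℝ) (J : ℕ), 0 < J →
  (∀ i < J, ∀ x ∈ B, ∀ y ∈ B, c (i + 1) x = c (i + 1) y → c i x = c i y) →
  (∀ x, 0 ≤ f x ∧ f x ≤ 1) →
  ∃ i < J, ∑ x ∈ B, (avg B (c (i + 1)) f x - avg B (c i) f x) ^ 2 ≤ B.card / J

def St_GOOD : Prop := ∀ (F : IQ) (q M s : ℕ) (η μ τ : ℝ) (P : Finset F.O) (f' : F.O → ℝ),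
  q ≠ 0 → q ∣ s → 0 < η → 0 < μ → μ ≤ 1 → 2 * q ≤ μ * s → P ⊆ F.sqr (M * s) → (∀ x, 0 ≤ f' x) →
  ∑ x ∈ F.sqr (M * s), (f' x - avg (F.sqr (M * s)) (F.cell q s) (fun z => ind (z ∈ P)) x) ^ 2
    ≤ τ * ((M : ℝ) * s) ^ 2 →
  ∃ G ⊆ cells q M,
    P.card - (η + 64 * τ / (μ ^ 2 * η ^ 2)) * ((M : ℝ) * s) ^ 2 ≤ G.card * ((s : ℝ) / q) ^ 2 ∧
    ∀ C ∈ G, ∀ C' ∈ G, ∀ w : F.O, F.Rob q s μ C C' w →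
      μ ^ 2 * η ^ 2 / 32 * ((s : ℝ) / q) ^ 2
        ≤ ∑ x ∈ F.sqr (M * s), ∑ y ∈ F.sqr (M * s), f' x * f' y * ind (y - x = w)

/-! Part F: the adelic Brunn-Minkowski inequality -/

open Classical in
def St_LAYER : Prop := ∀ (X Y Z : Type) [Fintype X] [Fintype Y] [Fintype Z] (φ : X → Y → Z)
  (ν : Z → ℝ), (∀ z, 0 ≤ ν z) → (∀ (A : Finset X) (B : Finset Y), A.Nonempty → B.Nonempty →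
    (A.card : ℝ) / Fintype.card X * (B.card / Fintype.card Y) ≤ (∑ z ∈ image₂ φ A B, ν z) ^ 2) →
  FI φ ν

def St_TENS : Prop := ∀ (X₁ Y₁ Z₁ X₂ Y₂ Z₂ X Y Z : Type) [Fintype X₁] [Fintype Y₁] [Fintype Z₁]
  [Fintype X₂] [Fintype Y₂] [Fintype Z₂] [Fintype X] [Fintype Y] [Fintype Z]
  (φ₁ : X₁ → Y₁ → Z₁) (φ₂ : X₂ → Y₂ → Z₂) (φ : X → Y → Z) (ν₁ : Z₁ → ℝ) (ν₂ : Z₂ → ℝ)
  (eX : X ≃ X₁ × X₂) (eY : Y ≃ Y₁ × Y₂) (eZ : Z ≃ Z₁ × Z₂), (∀ z, 0 ≤ ν₁ z) → (∀ z, 0 ≤ ν₂ z) →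
  (∀ x y, eZ (φ x y) = (φ₁ (eX x).1 (eY y).1, φ₂ (eX x).2 (eY y).2)) → FI φ₁ ν₁ → FI φ₂ ν₂ →
  FI φ (fun z => ν₁ (eZ z).1 * ν₂ (eZ z).2)

open Classical in
def St_SPL : Prop := ∀ (F : IQ) (p k : ℕ) [NeZero (p ^ k)], p.Prime → F.split p →
  ∀ A B : Finset (ZMod (p ^ k) × ZMod (p ^ k)), A.Nonempty → B.Nonempty →
    A.card * B.card ≤ ((p ^ k) * (image₂ (fun x y => F.NQ (p ^ k) (y - x)) A B).card) ^ 2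

open Classical in
def St_LOCI : Prop := ∀ (F : IQ) (p k : ℕ) [NeZero (p ^ k)], p.Prime → F.inert p →
  ∀ a : ZMod (p ^ k), p * (univ.filter (fun x => F.NQ (p ^ k) x = a)).card ≤ (p + 1) * p ^ k

/-- Solutions of an Eisenstein form with unit value. -/
def St_LOCU : Prop := ∀ (p k : ℕ) (u β v a : ℤ), p.Prime → ¬ (p : ℤ) ∣ u → ¬ (p : ℤ) ∣ v →
  ¬ (p : ℤ) ∣ a → ((range (p ^ k) ×ˢ range (p ^ k)).filter (fun x : ℕ × ℕ =>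
    ((p : ℤ) ^ k) ∣ u * x.1 ^ 2 + p * β * x.1 * x.2 + p * v * x.2 ^ 2 - a)).card ≤ 2 * p ^ k

open Classical in
def St_LOCR : Prop := ∀ (F : IQ) (p k : ℕ) [NeZero (p ^ k)], p.Prime → F.ram p →
  ∀ a : ZMod (p ^ k), (univ.filter (fun x => F.NQ (p ^ k) x = a)).card ≤ 2 * p ^ k

def St_FIP : Prop := ∀ (F : IQ) (p k : ℕ) [NeZero (p ^ k)], p.Prime →
  ∃ ν : ZMod (p ^ k) → ℝ, (∀ a, 0 ≤ ν a ∧ ν a ≤ F.cp p / p ^ k) ∧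
    FI (fun x y : ZMod (p ^ k) × ZMod (p ^ k) => F.NQ (p ^ k) (y - x)) ν

def St_FIQ : Prop := ∀ (F : IQ) (Q : ℕ) [NeZero Q],
  ∃ ν : ZMod Q → ℝ, (∀ a, 0 ≤ ν a ∧ ν a ≤ (∏ p ∈ Q.primeFactors, F.cp p) / Q) ∧
    FI (fun x y : ZMod Q × ZMod Q => F.NQ Q (y - x)) ν

def St_ARCH : Prop := ∀ (F : IQ) (A A' : Finset (ℤ × ℤ)) (l τ : ℝ), 0 < l → l ≤ 1 → 0 < τ →
  ∃ J : Finset ℕ, (∀ j ∈ J, ∃ i ∈ A, ∃ i' ∈ A', ∃ x y : ℝ, |x - (i'.1 - i.1 : ℤ)| < l ∧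
      |y - (i'.2 - i.2 : ℤ)| < l ∧ j * τ ≤ F.Q x y ∧ F.Q x y < (j + 1) * τ) ∧
    16 * l ^ 4 * A.card * A'.card ≤ (J.card * τ * (2 * Real.pi / F.δ)) ^ 2

/-! Part G: assembly -/

def St_SEL : Prop := ∀ (F : IQ) (q M : ℕ) (l τ ε : ℝ), 1 < q → 0 < l → l ≤ 1 → 0 < τ → 0 < ε →
  ∃ k : ℕ, ∀ G ⊆ cells q M, ∃ (S : Finset ℕ) (w₀ : ℕ → F.O) (m₁ b : ℕ → ℕ) (J : ℕ → Finset ℕ),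
    (∀ a ∈ S, a < q ^ k ∧ (w₀ a).norm = m₁ a * b a ∧ m₁ a * b a ≡ a [MOD q ^ k] ∧
      m₁ a * q ^ 2 ∣ q ^ k ∧ Nat.Coprime (b a) q ∧ ∀ j ∈ J a, ∃ C ∈ G, ∃ C' ∈ G,
        (q : ℤ) ∣ (w₀ a).re - (C'.1.1 - C.1.1) ∧ (q : ℤ) ∣ (w₀ a).im - (C'.1.2 - C.1.2) ∧
        ∃ x y : ℝ, |x - (C'.2.1 - C.2.1 : ℤ)| < l ∧ |y - (C'.2.2 - C.2.2 : ℤ)| < l ∧
          j * τ ≤ F.Q x y ∧ F.Q x y < (j + 1) * τ) ∧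
    4 / Real.pi * (F.δ / 2) * (l ^ 2 * G.card / q ^ 2 - ε)
      ≤ (∏ p ∈ q.primeFactors, F.cp p) / q ^ k * ∑ a ∈ S, (J a).card * τ

def St_TGT : Prop := ∀ (F : IQ) (B : ℝ), IsB F.inert B → 0 < B → ∀ (q M : ℕ) (μ ε : ℝ), q ≠ 0 →
  4 * F.Dn ∣ q → 0 < μ → μ < 1 / 2 → 0 < ε → ∃ c : ℝ, 0 < c ∧ ∀ᶠ s : ℕ in atTop,
    ∀ G ⊆ cells q M, ∃ T : Finset ℕ, (∀ m ∈ T, F.M m ∧
        c * F.ρ m ≤ ∑ w ∈ F.elN m, ind (∃ C ∈ G, ∃ C' ∈ G, F.Rob q s μ C C' w)) ∧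
      F.cF B * ((1 - 2 * μ) ^ 2 * G.card / q ^ 2 - ε) * (s : ℝ) ^ 2 / √(Real.log ((s : ℝ) ^ 2))
        ≤ T.card

def St_CORE0 : Prop := ∀ (F : IQ) (B : ℝ), IsB F.inert B → 0 < B → ∀ ε : ℝ, 0 < ε →
  ∃ L₀ : ℕ, L₀ ≠ 0 ∧ ∀ᶠ l : ℕ in atTop, ∀ P ⊆ F.sqr (L₀ * l),
    F.cF B * (P.card - ε * ((L₀ : ℝ) * l) ^ 2) / √(Real.log (((L₀ : ℝ) * l) ^ 2)) ≤ F.nd P

def St_CORE : Prop := ∀ (F : IQ) (B : ℝ), IsB F.inert B → 0 < B → ∀ K ε : ℝ, 0 < ε →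
  ∀ᶠ n : ℕ in atTop, ∀ P : Finset F.O, P.card = n →
    (∀ x ∈ P, ∀ y ∈ P, ((x - y).norm : ℝ) ≤ K * n) →
    (F.cF B - ε) * n / √(Real.log n) ≤ F.nd P

def St_DISC : Prop := ∀ (F : IQ) (B : ℝ), IsB F.inert B → ∀ ε : ℝ, 0 < ε →
  ∀ᶠ n : ℕ in atTop, ∃ P : Finset F.O, P.card = n ∧
    (∀ x ∈ P, ∀ z : F.O, z.norm < x.norm → z ∈ P) ∧
    (F.nd P : ℝ) ≤ (4 / Real.pi * (F.δ / 2) * B + ε) * n / √(Real.log n)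

def St_DICH : Prop := ∀ τ : ℂ, τ.im ≠ 0 →
  (∀ (s : ℝ) (S : Finset (ℤ × ℤ)), (∀ p ∈ S, ‖(p.1 : ℂ) + p.2 * τ‖ = s) → S.card ≤ 4) ∨
  ∃ (F : IQ) (N : ℕ) (γ : F.O), N ≠ 0 ∧ F.σ γ = N * τ

def St_RED : Prop := ∀ (T : Finset ℂ) (u v : ℂ), LinearIndependent ℝ ![u, v] →
  ∃ (F : IQ) (c lam : ℝ), 0 < c ∧ 0 < lam ∧ ∀ P : Finset ℂ,
    (∀ z ∈ P, ∃ t ∈ T, ∃ a b : ℤ, z = t + a * u + b * v) → c * P.card ≤ DD P + 1 ∨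
      ∃ φ : ℂ → F.O, ∀ x ∈ P, ∀ y ∈ P, ((φ x - φ y).norm : ℝ) = lam * dist x y ^ 2

end Pool.Agent.Lib.DL
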