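import Pool.Agent.Lib.DL.Blue

set_option autoImplicit false

namespace Pool.Agent.Lib.DL

namespace CHIb

theorem Dn_pos (F : IQ) : 0 < F.Dn := by
  have := F.D_le
  exact Int.natAbs_pos.2 (by omega)

theorem D_eq (F : IQ) : F.D = -(F.Dn : ℤ) := by
  have := F.D_le
  show F.D = -((F.D.natAbs : ℕ) : ℤ)
  omega

theorem split_iff (F : IQ) (p : ℕ) (hp : p.Prime) (h : ¬ p ∣ 4 * F.Dn) :
    F.split p ↔ F.chi p = 1 := by
  have := Fact.mk hp
  have hram : ¬ F.ram p := fun hr =>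
    h (Dvd.dvd.mul_left (Int.natCast_dvd.1 hr) 4)
  have hD : ((F.D : ℤ) : ZMod p) ≠ 0 := fun h0 =>
    hram ((ZMod.intCast_zmod_eq_zero_iff_dvd _ _).1 h0)
  have h4 : ¬ p ∣ 4 := fun h' => h (Dvd.dvd.mul_right h' _)
  have h2 : (2 : ZMod p) ≠ 0 := fun h0 => by
    have : ((2 : ℕ) : ZMod p) = 0 := by exact_mod_cast h0
    rw [ZMod.natCast_eq_zero_iff] at this
    exact h4 (this.trans (by norm_num))
  have hDc : ((F.D : ℤ) : ZMod p) = (F.b : ZMod p) ^ 2 + 4 * (F.a : ZMod p) := by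
    rw [IQ.D]; push_cast; ring
  rw [IQ.chi, ← jacobiSym.legendreSym.to_jacobiSym, legendreSym.eq_one_iff p hD, IQ.split,
    IQ.inert, not_not]
  constructor
  · rintro ⟨⟨r, hr⟩, -⟩
    have h0 := (ZMod.intCast_zmod_eq_zero_iff_dvd _ p).2 hr
    push_cast at h0
    refine ⟨2 * (r : ZMod p) - F.b, ?_⟩
    rw [hDc]
    linear_combination (-4 : ZMod p) * h0
  · rintro ⟨s, hs⟩
    refine ⟨?_, hram⟩
    obtain ⟨r, hr⟩ := ZMod.intCast_surjective ((s + (F.b : ZMod p)) / 2)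
    refine ⟨r, (ZMod.intCast_zmod_eq_zero_iff_dvd _ p).1 ?_⟩
    push_cast
    have hr2 : 2 * (r : ZMod p) = s + (F.b : ZMod p) := by rw [hr]; field_simp
    have h44 : (2 * 2 : ZMod p) ≠ 0 := mul_ne_zero h2 h2
    apply mul_left_cancel₀ h44
    rw [hDc] at hs
    linear_combination (2 * (r : ZMod p) + s - (F.b : ZMod p)) * hr2 - hs

theorem M_left (F : IQ) {m n : ℕ} (hc : Nat.Coprime m n) (h : F.M (m * n)) : F.M m := by
  have hm : m ≠ 0 := left_ne_zero_of_mul h.1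
  have hn : n ≠ 0 := right_ne_zero_of_mul h.1
  refine ⟨hm, fun p hp hi => ?_⟩
  by_cases hd : p ∣ m
  · have h1 := h.2 p hp hi
    have h0 : n.factorization p = 0 := by
      apply Nat.factorization_eq_zero_of_not_dvd
      intro hd'
      exact hp.one_lt.ne' (Nat.eq_one_of_dvd_coprimes hc hd hd')
    rw [Nat.factorization_mul hm hn, Finsupp.add_apply, h0, add_zero] at h1
    exact h1
  · rw [Nat.factorization_eq_zero_of_not_dvd hd]
    exact ⟨0, rfl⟩

theorem mul (F : IQ) (m n : ℕ) (hm : m ≠ 0) (hn : n ≠ 0) : F.chi (m * n) = F.chi m * F.chi n :=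
  jacobiSym.mul_right' _ hm hn

theorem of_M (F : IQ) (m : ℕ) : F.M m → Nat.Coprime m (4 * F.Dn) → F.chi m = 1 := by
  induction m using Nat.recOnPosPrimePosCoprime with
  | zero => exact fun h => absurd rfl h.1
  | one => exact fun _ _ => jacobiSym.one_right _
  | prime_pow p k hp hk =>
    intro hM hc
    have hc1 : Nat.Coprime p (4 * F.Dn) := Nat.Coprime.coprime_dvd_left (dvd_pow_self p hk.ne') hc
    have hnd : ¬ p ∣ 4 * F.Dn := (Nat.Prime.coprime_iff_not_dvd hp).1 hc1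
    rw [IQ.chi, jacobiSym.pow_right]
    by_cases hi : F.inert p
    · have he := hM.2 p hp hi
      rw [hp.factorization_pow, Finsupp.single_eq_same] at he
      obtain ⟨j, rfl⟩ := he
      have hg : F.D.gcd p = 1 := by
        have : Nat.Coprime F.Dn p := (Nat.Coprime.coprime_dvd_right (Dvd.intro_left 4 rfl) hc1).symm
        simpa [Int.gcd] using this
      rw [← two_mul, pow_mul, jacobiSym.sq_one hg, one_pow]
    · have hram : ¬ F.ram p := fun hr =>
        hnd (Dvd.dvd.mul_left (Int.natCast_dvd.1 hr) 4)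
      have := (split_iff F p hp hnd).1 ⟨hi, hram⟩
      rw [IQ.chi] at this
      rw [this, one_pow]
  | coprime a b ha hb hab iha ihb =>
    intro hM hc
    rw [mul F a b (by omega) (by omega),
      iha (M_left F hab hM) (Nat.Coprime.coprime_mul_right hc),
      ihb (M_left F hab.symm (by rwa [mul_comm] at hM)) (Nat.Coprime.coprime_mul_left hc), mul_one]

theorem per (F : IQ) (m n : ℕ) (hm : Odd m) (h : m ≡ n [MOD 4 * F.Dn]) : F.chi m = F.chi n := by
  have h2 : m ≡ n [MOD 2] := h.of_dvd (Dvd.dvd.mul_right (by norm_num) _)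
  have hn : Odd n := by
    rw [Nat.odd_iff] at hm ⊢
    rw [← hm]; exact h2.symm
  rw [IQ.chi, IQ.chi, jacobiSym.mod_right _ hm, jacobiSym.mod_right _ hn]
  exact congrArg _ h

theorem neg (F : IQ) : F.chi (4 * F.Dn - 1) = -1 := by
  have hp := Dn_pos F
  obtain ⟨n, hn⟩ : ∃ n : ℕ, 4 * F.Dn = n + 1 := ⟨4 * F.Dn - 1, by omega⟩
  have h3 : n % 4 = 3 := by omega
  have ho : Odd n := by rw [Nat.odd_iff]; omega
  have hz : (4 * (F.Dn : ℤ)) = (n : ℤ) + 1 := by exact_mod_cast hn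
  have e1 : jacobiSym (4 * (F.Dn : ℤ)) n = 1 := by
    rw [hz, jacobiSym.mod_left' (a₂ := 1) (by rw [Int.add_emod_left]), jacobiSym.one_left]
  rw [jacobiSym.mul_left, jacobiSym.at_four ho, one_mul] at e1
  rw [show 4 * F.Dn - 1 = n by omega, IQ.chi, D_eq, neg_eq_neg_one_mul, jacobiSym.mul_left, e1,
    jacobiSym.at_neg_one ho, ZMod.χ₄_nat_three_mod_four h3, mul_one]

end CHIb

theorem stCHI : St_CHI := fun F =>
  ⟨CHIb.mul F, CHIb.per F, CHIb.split_iff F, CHIb.of_M F, CHIb.neg F⟩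

end Pool.Agent.Lib.DL
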