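import Pool.Agent.Lib.DL.EXPL

set_option autoImplicit false

namespace Pool.Agent.Lib.DL

open QuadraticAlgebra Finset Filter Topology
open Pool.Agent.Lib.MP_d48457_nt (ind ind_pos ind_neg ind_nonneg ind_le_one)

namespace CONST2

theorem nrm {F : IQ} (h : F.D = -3) (z : F.O) :
    z.norm = z.re ^ 2 + z.re * z.im + z.im ^ 2 := by
  have h1 := F.norm_eq_Q z
  have ha : (F.a : ℝ) = -1 := by exact_mod_cast (EXPL.ab h).1
  have hb : (F.b : ℝ) = 1 := by exact_mod_cast (EXPL.ab h).2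
  rw [IQ.Q, ha, hb] at h1
  have h2 : ((z.norm : ℤ) : ℝ) = ((z.re ^ 2 + z.re * z.im + z.im ^ 2 : ℤ) : ℝ) := by
    rw [h1]; push_cast; ring
  exact_mod_cast h2

theorem near (A N : ℤ) (hN : 0 < N) : ∃ q : ℤ, -N ≤ 2 * (A - q * N) ∧ 2 * (A - q * N) ≤ N := by
  refine ⟨(2 * A + N) / (2 * N), ?_, ?_⟩
  · have h1 := Int.mul_ediv_add_emod (2 * A + N) (2 * N)
    have h2 := Int.emod_nonneg (2 * A + N) (by omega : 2 * N ≠ 0)
    nlinarith
  · have h1 := Int.mul_ediv_add_emod (2 * A + N) (2 * N)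
    have h2 := Int.emod_lt_of_pos (2 * A + N) (by omega : 0 < 2 * N)
    nlinarith

theorem euclid {F : IQ} (h : F.D = -3) (x z : F.O) (hz : z ≠ 0) :
    ∃ q : F.O, (x - q * z).norm < z.norm := by
  have hN := F.norm_pos' hz
  obtain ⟨q1, a1, a2⟩ := near (x * star z).re z.norm hN
  obtain ⟨q2, b1, b2⟩ := near (x * star z).im z.norm hN
  refine ⟨⟨q1, q2⟩, ?_⟩
  have e1 : (x - (⟨q1, q2⟩ : F.O) * z) * star z =
      x * star z - (⟨q1, q2⟩ : F.O) * algebraMap ℤ F.O z.norm := by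
    rw [algebraMap_norm_eq_mul_star]; ring
  have e2 : (x - (⟨q1, q2⟩ : F.O) * z).norm * z.norm =
      (x * star z - (⟨q1, q2⟩ : F.O) * algebraMap ℤ F.O z.norm).norm := by
    rw [← e1, map_mul, QuadraticAlgebra.norm_star]
  have e3 : (x * star z - (⟨q1, q2⟩ : F.O) * algebraMap ℤ F.O z.norm).re
      = (x * star z).re - q1 * z.norm := by simp
  have e4 : (x * star z - (⟨q1, q2⟩ : F.O) * algebraMap ℤ F.O z.norm).im
      = (x * star z).im - q2 * z.norm := by simp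
  rw [nrm h (x * star z - _), e3, e4] at e2
  generalize (x * star z).re - q1 * z.norm = r at *
  generalize (x * star z).im - q2 * z.norm = s at *
  generalize (x - (⟨q1, q2⟩ : F.O) * z).norm = M at *
  generalize z.norm = N at *
  have c1 : 4 * r ^ 2 ≤ N ^ 2 := by nlinarith
  have c2 : 4 * s ^ 2 ≤ N ^ 2 := by nlinarith
  have c3 : 2 * (r * s) ≤ r ^ 2 + s ^ 2 := by nlinarith [sq_nonneg (r - s)]
  by_contra hc
  have c4 : N * N ≤ M * N := mul_le_mul_of_nonneg_right (not_lt.1 hc) hN.le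
  have c5 : 0 < N * N := mul_pos hN hN
  nlinarith

theorem pid {F : IQ} (h : F.D = -3) : IsPrincipalIdealRing F.O := by
  refine ⟨fun I => ?_⟩
  by_cases hI : I = ⊥
  · rw [hI]; infer_instance
  have hex : ∃ n : ℕ, ∃ z ∈ I, z ≠ 0 ∧ z.norm = n := by
    obtain ⟨z, hz, h0⟩ := (Submodule.ne_bot_iff I).1 hI
    exact ⟨z.norm.toNat, z, hz, h0, (Int.toNat_of_nonneg (F.norm_nonneg' z)).symm⟩
  classical
  obtain ⟨z, hz, h0, hn⟩ := Nat.find_spec hex
  refine ⟨z, le_antisymm (fun x hx => ?_) ((Submodule.span_singleton_le_iff_mem _ _).2 hz)⟩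
  obtain ⟨q, hq⟩ := euclid h x z h0
  have hm : x - q * z ∈ I := I.sub_mem hx (I.mul_mem_left q hz)
  by_cases h1 : x - q * z = 0
  · exact Submodule.mem_span_singleton.2 ⟨q, (sub_eq_zero.1 h1).symm⟩
  · have h2 := Int.toNat_of_nonneg (F.norm_nonneg' (x - q * z))
    have h3 := Nat.find_min' hex ⟨_, hm, h1, h2.symm⟩
    omega

theorem shape {F : IQ} (h : F.D = -3) {n : ℕ} (hn : F.jj n) :
    ∃ b : ℕ, ¬ 7 ∣ b ∧ (n = b ^ 2 ∨ n = 3 * b ^ 2) := by
  obtain ⟨a, b, hab, ha⟩ := Nat.sq_mul_squarefree n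
  obtain ⟨⟨h0, h1⟩, h2⟩ := hn
  have hb0 : b ^ 2 ≠ 0 := fun e => h0 (by rw [← hab, e, zero_mul])
  have h7 : Nat.Prime 7 := by norm_num
  have h3 : ∀ p : ℕ, p.Prime → p ∣ a → p = 3 := fun p hp hd => by
    by_contra hne
    refine h2 p hp (hab ▸ hd.mul_left _) ⟨fun hi => ?_, fun hr => hne ((EXPL.ram_iff h hp).1 hr)⟩
    have e := h1 p hp hi
    rw [← hab, Nat.factorization_mul hb0 ha.ne_zero, Nat.factorization_pow] at e
    have e1 : a.factorization p ≤ 1 := ha.natFactorization_le_one p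
    have e2 : 0 < a.factorization p := hp.factorization_pos_of_dvd ha.ne_zero hd
    simp only [Finsupp.add_apply, Finsupp.smul_apply, smul_eq_mul] at e
    obtain ⟨k, hk⟩ := e
    omega
  refine ⟨b, fun hd => ?_, ?_⟩
  · refine h2 7 h7 (hab ▸ (hd.trans (dvd_pow_self b two_ne_zero)).mul_right _)
      ⟨fun hi => ?_, fun hr => ?_⟩
    · exact absurd ((EXPL.inert_iff h h7).1 hi) (by norm_num)
    · exact absurd ((EXPL.ram_iff h h7).1 hr) (by norm_num)
  · have hs : a.primeFactors ⊆ {3} := fun p hp =>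
      mem_singleton.2 (h3 p (Nat.prime_of_mem_primeFactors hp) (Nat.dvd_of_mem_primeFactors hp))
    have hp := Nat.prod_primeFactors_of_squarefree ha
    rcases subset_singleton_iff.1 hs with e | e
    · rw [e, prod_empty] at hp
      left; rw [← hab, ← hp, mul_one]
    · rw [e, prod_singleton] at hp
      right; rw [← hab, ← hp, mul_comm]

theorem sum7 : HasSum (fun b : ℕ => ind (¬ 7 ∣ b) / (b : ℝ) ^ 2) (48 / 49 * (Real.pi ^ 2 / 6)) := by
  have hi : Function.Injective (fun b : ℕ => 7 * b) := fun a b e => by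
    simp only at e; omega
  have s1 : HasSum (fun b : ℕ => ind (7 ∣ b) / (b : ℝ) ^ 2) (1 / 49 * (Real.pi ^ 2 / 6)) := by
    refine (hi.hasSum_iff (fun x hx => ?_)).1 ?_
    · rw [ind_neg (fun ⟨c, hc⟩ => hx ⟨c, hc.symm⟩), zero_div]
    · have e : ((fun b : ℕ => ind (7 ∣ b) / (b : ℝ) ^ 2) ∘ fun b : ℕ => 7 * b)
          = fun b : ℕ => 1 / 49 * (1 / (b : ℝ) ^ 2) := by
        funext b
        simp only [Function.comp]
        rw [ind_pos (dvd_mul_right 7 b)]
        push_cast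
        rw [mul_pow, div_mul_div_comm]
        norm_num
      rw [e]
      exact hasSum_zeta_two.mul_left _
  have s2 := hasSum_zeta_two.sub s1
  have e : (fun b : ℕ => ind (¬ 7 ∣ b) / (b : ℝ) ^ 2)
      = fun b : ℕ => 1 / (b : ℝ) ^ 2 - ind (7 ∣ b) / (b : ℝ) ^ 2 := by
    funext b
    by_cases hb : 7 ∣ b
    · rw [ind_neg (not_not.2 hb), ind_pos hb]; simp
    · rw [ind_pos hb, ind_neg hb]; simp
  have e2 : 48 / 49 * (Real.pi ^ 2 / 6) = Real.pi ^ 2 / 6 - 1 / 49 * (Real.pi ^ 2 / 6) := by ring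
  rw [e, e2]
  exact s2

theorem ext_nonneg (g : ℕ → ℕ) (f : ℕ → ℝ) (hf : ∀ b, 0 ≤ f b) (n : ℕ) :
    0 ≤ Function.extend g f 0 n := by
  classical
  rw [Function.extend_def]
  split_ifs
  exacts [hf _, le_rfl]

theorem jj_le {F : IQ} (h : F.D = -3) (hs : Summable (fun n : ℕ => ind (F.jj n) / (n : ℝ))) :
    F.JJ ≤ 4 / 3 * (48 / 49 * (Real.pi ^ 2 / 6)) := by
  have i1 : Function.Injective (fun b : ℕ => b ^ 2) := Nat.pow_left_injective two_ne_zero
  have i3 : Function.Injective (fun b : ℕ => 3 * b ^ 2) := fun a b e =>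
    i1 (by simp only at e ⊢; omega)
  have s1 := (hasSum_extend_zero i1).2 sum7
  have s3 := (hasSum_extend_zero i3).2 (sum7.mul_left (1 / 3))
  have n1 := ext_nonneg (fun b : ℕ => b ^ 2) (fun b : ℕ => ind (¬ 7 ∣ b) / (b : ℝ) ^ 2)
    (fun b => div_nonneg (ind_nonneg _) (by positivity))
  have n3 := ext_nonneg (fun b : ℕ => 3 * b ^ 2)
    (fun b : ℕ => 1 / 3 * (ind (¬ 7 ∣ b) / (b : ℝ) ^ 2))
    (fun b => mul_nonneg (by norm_num) (div_nonneg (ind_nonneg _) (by positivity)))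
  have key := hasSum_le (fun n => ?_) hs.hasSum (s1.add s3)
  · rw [IQ.JJ]; linarith
  · by_cases hn : F.jj n
    · obtain ⟨b, hb, e | e⟩ := shape h hn
      · have e1 := i1.extend_apply (fun b : ℕ => ind (¬ 7 ∣ b) / (b : ℝ) ^ 2) 0 b
        have e2 := n3 n
        rw [ind_pos hn]
        rw [ind_pos hb] at e1
        subst e
        rw [e1]
        push_cast
        linarith
      · have e1 := i3.extend_apply (fun b : ℕ => 1 / 3 * (ind (¬ 7 ∣ b) / (b : ℝ) ^ 2)) 0 b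
        have e2 := n1 n
        rw [ind_pos hn]
        rw [ind_pos hb] at e1
        subst e
        rw [e1]
        push_cast
        rw [div_mul_div_comm, one_mul]
        linarith
    · rw [ind_neg hn, zero_div]
      exact add_nonneg (n1 n) (n3 n)

end CONST2

theorem stCONST2 (hJ : St_JSUM) : St_CONST2 := by
  intro F h
  refine ⟨CONST2.pid h, EXPL.tt h, ?_⟩
  have h1 := CONST2.jj_le h (hJ F).1
  have h2 : Real.pi < 3.1416 := Real.pi_lt_d4
  have h3 : Real.pi ^ 2 ≤ 3.1416 ^ 2 := pow_le_pow_left₀ Real.pi_pos.le h2.le 2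
  have h4 : √3 ≤ 1.7321 := by
    rw [Real.sqrt_le_left (by norm_num)]; norm_num
  have h5 : F.JJ ≤ 2.149 := by linarith
  have h6 : √3 * F.JJ ≤ 1.7321 * 2.149 :=
    le_trans (mul_le_mul_of_nonneg_left h5 (Real.sqrt_nonneg 3))
      (mul_le_mul_of_nonneg_right h4 (by norm_num))
  rw [IQ.ee, EXPL.del h, EXPL.ww h, EXPL.tt h]
  push_cast
  rw [div_le_iff₀ (by norm_num)]
  linarith

end Pool.Agent.Lib.DL
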