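import Pool.Agent.Lib.DL.Blue

set_option autoImplicit false

namespace Pool.Agent.Lib.DL

open QuadraticAlgebra Finset Filter Topology

namespace CORE

theorem mem_sq (F : IQ) (L : ℕ) (z : F.O) (h1 : 0 ≤ z.re) (h2 : z.re < L) (h3 : 0 ≤ z.im)
    (h4 : z.im < L) : z ∈ F.sqr L := by
  unfold IQ.sqr
  refine Finset.mem_map.2 ⟨(z.re, z.im), ?_, rfl⟩
  simp only [mem_product, mem_Ico]
  exact ⟨⟨h1, h2⟩, h3, h4⟩

theorem nd_shift (F : IQ) (P : Finset F.O) (t : F.O) :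
    F.nd (P.map ⟨fun z => z + t, add_left_injective t⟩) = F.nd P := by
  unfold IQ.nd
  refine congrArg Finset.card ?_
  ext m
  simp only [mem_image, mem_offDiag, Finset.mem_map, Function.Embedding.coeFn_mk]
  constructor
  · rintro ⟨⟨p, q⟩, ⟨⟨x, hx, rfl⟩, ⟨y, hy, rfl⟩, hne⟩, rfl⟩
    refine ⟨(x, y), ⟨hx, hy, fun h => hne (by simp only at h; rw [h])⟩, ?_⟩
    simp only [add_sub_add_right_eq_sub]
  · rintro ⟨⟨x, y⟩, ⟨hx, hy, hne⟩, rfl⟩
    refine ⟨(x + t, y + t), ⟨⟨x, hx, rfl⟩, ⟨y, hy, rfl⟩, fun h => hne (add_right_cancel h)⟩, ?_⟩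
    simp only [add_sub_add_right_eq_sub]

theorem coord (F : IQ) (z : F.O) (t : ℝ) (R : ℕ) (hz : (z.norm : ℝ) ≤ t) (hR : 2 * √t ≤ R) :
    |z.re| ≤ R ∧ |z.im| ≤ R := by
  obtain ⟨h1, h2⟩ := F.sq_le_Q z.re z.im
  rw [← F.norm_eq_Q] at h1 h2
  have ht : 0 ≤ t := le_trans (by exact_mod_cast F.norm_nonneg' z) hz
  have h3 : (2 * √t) ^ 2 = 4 * t := by rw [mul_pow, Real.sq_sqrt ht]; norm_num
  have a1 : |(z.re : ℝ)| ≤ 2 * √t := abs_le_of_sq_le_sq (by linarith) (by positivity)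
  have a2 : |(z.im : ℝ)| ≤ 2 * √t := abs_le_of_sq_le_sq (by linarith) (by positivity)
  constructor
  · have : |(z.re : ℝ)| ≤ R := a1.trans hR
    exact_mod_cast this
  · have : |(z.im : ℝ)| ≤ R := a2.trans hR
    exact_mod_cast this

end CORE

theorem stCORE (h : St_CORE0) : St_CORE := by
  intro F B hB hB0 K ε hε
  set c := F.cF B with hc
  have hc0 : 0 < c := by
    have := F.δ_pos
    have := Real.pi_pos
    rw [hc]; unfold IQ.cF; positivity
  by_cases hce : c - ε ≤ 0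
  · refine Eventually.of_forall fun n P _ _ => ?_
    refine le_trans ?_ (Nat.cast_nonneg _)
    exact div_nonpos_of_nonpos_of_nonneg (mul_nonpos_of_nonpos_of_nonneg hce (Nat.cast_nonneg _))
      (Real.sqrt_nonneg _)
  have hce' : 0 < c - ε := not_le.1 hce
  set K' := max K 1 with hK'
  have hK1 : 1 ≤ K' := le_max_right _ _
  set C := 25 * K' with hC
  have hC0 : 0 < C := by rw [hC]; linarith
  obtain ⟨L₀, hL₀, hev⟩ := h F B hB hB0 (ε / (2 * c * C)) (by positivity)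
  obtain ⟨l₀, hl₀⟩ := eventually_atTop.1 hev
  set r := (c - ε / 2) / (c - ε) with hr
  have hr1 : 1 < r := by rw [hr, one_lt_div hce']; linarith
  have hr2 : 0 < r ^ 2 - 1 := by nlinarith
  have e1 : ∀ᶠ n : ℕ in atTop, ((L₀ : ℝ) * l₀ + L₀ + 3) ≤ √(n : ℝ) :=
    (Real.tendsto_sqrt_atTop.comp tendsto_natCast_atTop_atTop).eventually_ge_atTop _
  have e2 : ∀ᶠ n : ℕ in atTop, Real.log C / (r ^ 2 - 1) ≤ Real.log n :=
    (Real.tendsto_log_atTop.comp tendsto_natCast_atTop_atTop).eventually_ge_atTop _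
  filter_upwards [e1, e2, eventually_ge_atTop 2] with n h1 h2 hn2 P hP hd
  have hn : (2 : ℝ) ≤ n := by exact_mod_cast hn2
  obtain ⟨x₀, hx₀⟩ : P.Nonempty := Finset.card_pos.1 (by omega)
  set R : ℕ := ⌈2 * √(K' * n)⌉₊ with hR
  have hR1 : 2 * √(K' * n) ≤ R := Nat.le_ceil _
  have hR2 : (R : ℝ) < 2 * √(K' * n) + 1 := Nat.ceil_lt_add_one (by positivity)
  have hs : √(n : ℝ) ≤ √(K' * n) := Real.sqrt_le_sqrt (by nlinarith)
  set l : ℕ := (2 * R + 1) / L₀ + 1 with hl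
  have hL0 : 0 < L₀ := Nat.pos_of_ne_zero hL₀
  have hL1 : 2 * R + 1 < L₀ * l := by
    rw [hl]; exact Nat.lt_mul_div_succ _ hL0
  have hL2 : L₀ * l ≤ 2 * R + 1 + L₀ := by
    rw [hl, Nat.mul_add, Nat.mul_one]
    have := Nat.mul_div_le (2 * R + 1) L₀
    omega
  have hp0 : (0 : ℝ) ≤ (L₀ : ℝ) * l₀ := by positivity
  have hp1 : (0 : ℝ) ≤ (L₀ : ℝ) := by positivity
  have hll : l₀ ≤ l := by
    have a1 : (L₀ : ℝ) * l₀ ≤ (2 * R + 1 : ℕ) := by
      push_cast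
      have := Real.sqrt_nonneg (K' * n)
      linarith
    have a2 : L₀ * l₀ ≤ 2 * R + 1 := by exact_mod_cast a1
    have a3 : L₀ * l₀ < L₀ * l := lt_of_le_of_lt a2 hL1
    exact (Nat.lt_of_mul_lt_mul_left a3).le
  set t : F.O := -x₀ + ⟨R, R⟩ with ht
  have hsub : P.map ⟨fun z => z + t, add_left_injective t⟩ ⊆ F.sqr (L₀ * l) := by
    intro z hz
    obtain ⟨x, hx, rfl⟩ := Finset.mem_map.1 hz
    have hxn : ((x - x₀).norm : ℝ) ≤ K' * n :=
      (hd x hx x₀ hx₀).trans (mul_le_mul_of_nonneg_right (le_max_left _ _) (Nat.cast_nonneg _))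
    obtain ⟨b1, b2⟩ := CORE.coord F (x - x₀) _ R hxn hR1
    have c1 : (x + t).re = (x - x₀).re + R := by simp [ht]; ring
    have c2 : (x + t).im = (x - x₀).im + R := by simp [ht]; ring
    have c3 : (2 * R + 1 : ℤ) < ((L₀ * l : ℕ) : ℤ) := by exact_mod_cast hL1
    rw [abs_le] at b1 b2
    show x + t ∈ _
    refine CORE.mem_sq F _ _ ?_ ?_ ?_ ?_ <;> omega
  have key := hl₀ l hll _ hsub
  rw [CORE.nd_shift, Finset.card_map, hP] at key
  refine le_trans ?_ key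
  set L : ℝ := (L₀ : ℝ) * l with hLdef
  have hLr : L ≤ 5 * √(K' * n) := by
    have : ((L₀ * l : ℕ) : ℝ) ≤ (2 * R + 1 + L₀ : ℕ) := by exact_mod_cast hL2
    push_cast at this
    linarith
  have hL3 : 2 ≤ L := by
    have a1 : ((2 * R + 1 : ℕ) : ℝ) < (L₀ * l : ℕ) := by exact_mod_cast hL1
    push_cast at a1
    have := Real.sqrt_nonneg (K' * n)
    linarith
  have hLsq : L ^ 2 ≤ C * n := by
    have a1 : L ^ 2 ≤ (5 * √(K' * n)) ^ 2 := by gcongr
    rw [mul_pow 5, Real.sq_sqrt (by positivity)] at a1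
    rw [hC]; linarith
  have hlogn : 0 < Real.log n := Real.log_pos (by linarith)
  have hlogL : 0 < Real.log (L ^ 2) := Real.log_pos (by nlinarith)
  have hlog : Real.log (L ^ 2) ≤ r ^ 2 * Real.log n := by
    have a1 : Real.log (L ^ 2) ≤ Real.log (C * n) := Real.log_le_log (by positivity) hLsq
    rw [Real.log_mul hC0.ne' (by positivity)] at a1
    rw [div_le_iff₀ hr2] at h2
    linarith
  have hsq : √(Real.log (L ^ 2)) ≤ r * √(Real.log n) := by
    have a1 := Real.sqrt_le_sqrt hlog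
    rwa [Real.sqrt_mul (by positivity), Real.sqrt_sq (by linarith)] at a1
  have hnum : (c - ε / 2) * n ≤ c * (n - ε / (2 * c * C) * L ^ 2) := by
    have a1 : c * (ε / (2 * c * C) * L ^ 2) = ε / (2 * C) * L ^ 2 := by field_simp
    have a2 : ε / (2 * C) * L ^ 2 ≤ ε / (2 * C) * (C * n) := by gcongr
    have a3 : ε / (2 * C) * (C * n) = ε / 2 * n := by field_simp
    nlinarith
  have hs1 : 0 < √(Real.log n) := Real.sqrt_pos.2 hlogn
  have hs2 : 0 < √(Real.log (L ^ 2)) := Real.sqrt_pos.2 hlogL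
  calc (c - ε) * n / √(Real.log n) = (c - ε / 2) * n / (r * √(Real.log n)) := by
        have h9 : c - ε / 2 = r * (c - ε) := by rw [hr, div_mul_cancel₀ _ hce'.ne']
        have h8 : r ≠ 0 := by linarith
        rw [h9, mul_assoc r, mul_div_mul_left _ _ h8]
    _ ≤ (c - ε / 2) * n / √(Real.log (L ^ 2)) := by
        refine div_le_div_of_nonneg_left ?_ hs2 hsq
        exact mul_nonneg (by linarith) (by linarith)
    _ ≤ _ := div_le_div_of_nonneg_right hnum hs2.le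

end Pool.Agent.Lib.DL
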