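import Pool.Agent.Lib.DL.Blue

set_option autoImplicit false

namespace Pool.Agent.Lib.DL

open QuadraticAlgebra Finset Filter Topology
open Pool.Agent.Lib.MP_d48457_nt (ind ind_pos ind_neg ind_nonneg ind_le_one)

namespace CORE0

theorem avg_nonneg {α β : Type} (B : Finset α) (c : α → β) (f : α → ℝ) (hf : ∀ x, 0 ≤ f x)
    (x : α) : 0 ≤ avg B c f x := by
  unfold avg
  exact div_nonneg (sum_nonneg fun y _ => hf y) (Nat.cast_nonneg _)

theorem ind_norm (F : IQ) (z : F.O) (m : ℕ) :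
    ind (z.norm = m) = ∑ w ∈ F.elN m, ind (z = w) := by
  by_cases h : z.norm = m
  · rw [ind_pos h, sum_eq_single z, ind_pos rfl]
    · intro w _ hw
      exact ind_neg (fun e => hw e.symm)
    · intro hz
      exact absurd (F.mem_elN.2 h) hz
  · rw [ind_neg h]
    refine (sum_eq_zero fun w hw => ind_neg ?_).symm
    rintro rfl
    exact h (F.mem_elN.1 hw)

theorem AA_eq (F : IQ) (L : ℕ) (f : F.O → ℝ) (m : ℕ) :
    F.AA L f f m = (∑ w ∈ F.elN m, ∑ x ∈ F.sqr L, ∑ y ∈ F.sqr L, f x * f y * ind (y - x = w))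
      / F.ρ m := by
  unfold IQ.AA
  have : ∑ x ∈ F.sqr L, ∑ y ∈ F.sqr L, f x * f y * ind ((y - x).norm = m)
      = ∑ w ∈ F.elN m, ∑ x ∈ F.sqr L, ∑ y ∈ F.sqr L, f x * f y * ind (y - x = w) := by
    rw [sum_comm (s := F.elN m)]
    refine sum_congr rfl fun x _ => ?_
    rw [sum_comm (s := F.elN m)]
    refine sum_congr rfl fun y _ => ?_
    rw [ind_norm, mul_sum]
  rw [this]

theorem AA_ge (F : IQ) (L : ℕ) (f : F.O → ℝ) (hf : ∀ x, 0 ≤ f x) (m : ℕ) (hρ : 0 < F.ρ m)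
    (R : F.O → Prop) (k c : ℝ) (hk : 0 ≤ k)
    (hR : ∀ w, R w → k ≤ ∑ x ∈ F.sqr L, ∑ y ∈ F.sqr L, f x * f y * ind (y - x = w))
    (hc : c * F.ρ m ≤ ∑ w ∈ F.elN m, ind (R w)) : c * k ≤ F.AA L f f m := by
  have hρ' : (0 : ℝ) < F.ρ m := by exact_mod_cast hρ
  rw [AA_eq, le_div_iff₀ hρ']
  calc c * k * F.ρ m = c * F.ρ m * k := by ring
    _ ≤ (∑ w ∈ F.elN m, ind (R w)) * k := mul_le_mul_of_nonneg_right hc hk
    _ = ∑ w ∈ F.elN m, ind (R w) * k := by rw [sum_mul]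
    _ ≤ _ := by
      refine sum_le_sum fun w _ => ?_
      by_cases h : R w
      · rw [ind_pos h, one_mul]; exact hR w h
      · rw [ind_neg h, zero_mul]
        exact sum_nonneg fun x _ => sum_nonneg fun y _ =>
          mul_nonneg (mul_nonneg (hf x) (hf y)) (ind_nonneg _)

theorem ex_of_AA (F : IQ) (L : ℕ) (f : F.O → ℝ) (m : ℕ) (h : F.AA L f f m ≠ 0) :
    ∃ x ∈ F.sqr L, ∃ y ∈ F.sqr L, f x ≠ 0 ∧ f y ≠ 0 ∧ (y - x).norm = m := by
  by_contra hn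
  apply h
  unfold IQ.AA
  rw [sum_eq_zero, zero_div]
  intro x hx
  refine sum_eq_zero fun y hy => ?_
  by_cases h1 : f x = 0
  · rw [h1, zero_mul, zero_mul]
  by_cases h2 : f y = 0
  · rw [h2, mul_zero, zero_mul]
  rw [ind_neg (fun e => hn ⟨x, hx, y, hy, h1, h2, e⟩), mul_zero]

theorem norm_le (F : IQ) (L : ℕ) {x y : F.O} (hx : x ∈ F.sqr L) (hy : y ∈ F.sqr L) :
    ((y - x).norm : ℝ) ≤ (1 + |(F.a : ℝ)| + |(F.b : ℝ)|) * (L : ℝ) ^ 2 := by
  rw [F.mem_sqr] at hx hy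
  rw [F.norm_eq_Q, IQ.Q]
  have h1 : |(((y - x).re : ℤ) : ℝ)| ≤ L := by
    have : |(y - x).re| ≤ (L : ℤ) := by
      rw [re_sub, abs_le]; constructor <;> omega
    exact_mod_cast this
  have h2 : |(((y - x).im : ℤ) : ℝ)| ≤ L := by
    have : |(y - x).im| ≤ (L : ℤ) := by
      rw [im_sub, abs_le]; constructor <;> omega
    exact_mod_cast this
  generalize (((y - x).re : ℤ) : ℝ) = u at *
  generalize (((y - x).im : ℤ) : ℝ) = v at *
  have hL : (0 : ℝ) ≤ L := Nat.cast_nonneg _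
  have e1 : u ^ 2 ≤ (L : ℝ) ^ 2 := by rw [← sq_abs u]; gcongr
  have e2 : v ^ 2 ≤ (L : ℝ) ^ 2 := by rw [← sq_abs v]; gcongr
  have e3 : |u * v| ≤ (L : ℝ) ^ 2 := by
    rw [abs_mul, sq]; exact mul_le_mul h1 h2 (abs_nonneg _) hL
  have e4 : (F.b : ℝ) * u * v ≤ |(F.b : ℝ)| * (L : ℝ) ^ 2 := by
    calc (F.b : ℝ) * u * v = F.b * (u * v) := by ring
      _ ≤ |(F.b : ℝ) * (u * v)| := le_abs_self _
      _ = |(F.b : ℝ)| * |u * v| := abs_mul _ _
      _ ≤ _ := mul_le_mul_of_nonneg_left e3 (abs_nonneg _)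
  have e5 : -(F.a : ℝ) * v ^ 2 ≤ |(F.a : ℝ)| * (L : ℝ) ^ 2 :=
    mul_le_mul (neg_le_abs _) e2 (sq_nonneg _) (abs_nonneg _)
  linarith

/-- Markov step: few elements of `T` are missed by the differences of `P`. -/
theorem markov (F : IQ) (L : ℕ) (P : Finset F.O) (f' : F.O → ℝ) (T : Finset ℕ) (k E : ℝ)
    (hk : 0 < k) (hT : ∀ m ∈ T, m ≠ 0 ∧ k ≤ F.AA L f' f' m)
    (hE : ∑ m ∈ Icc 1 ⌊(1 + |(F.a : ℝ)| + |(F.b : ℝ)|) * (L : ℝ) ^ 2⌋₊,
      |F.AA L (fun z => ind (z ∈ P)) (fun z => ind (z ∈ P)) m - F.AA L f' f' m| ≤ k * E) :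
    (T.card : ℝ) ≤ F.nd P + E := by
  classical
  set f : F.O → ℝ := fun z => ind (z ∈ P) with hf
  set T0 := T.filter (fun m => F.AA L f f m = 0) with hT0
  set T1 := T.filter (fun m => ¬ F.AA L f f m = 0) with hT1
  have hc : T0.card + T1.card = T.card := card_filter_add_card_filter_not _
  have h1 : T1.card ≤ F.nd P := by
    unfold IQ.nd
    refine card_le_card_of_injOn (fun m : ℕ => (m : ℤ)) ?_ (fun a _ b _ h => Nat.cast_injective (R := ℤ) h)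
    intro m hm
    rw [mem_coe, hT1, mem_filter] at hm
    obtain ⟨x, -, y, -, hx, hy, e⟩ := ex_of_AA F L f m hm.2
    have hxP : x ∈ P := by_contra fun h => hx (ind_neg h)
    have hyP : y ∈ P := by_contra fun h => hy (ind_neg h)
    rw [mem_coe, mem_image]
    refine ⟨(y, x), mem_offDiag.2 ⟨hyP, hxP, ?_⟩, e⟩
    intro h
    have h' : y = x := h
    rw [h', sub_self, QuadraticAlgebra.norm_zero] at e
    exact (hT m hm.1).1 (by exact_mod_cast e.symm)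
  have h0 : (T0.card : ℝ) * k ≤ k * E := by
    refine le_trans ?_ hE
    have hsub : T0 ⊆ Icc 1 ⌊(1 + |(F.a : ℝ)| + |(F.b : ℝ)|) * (L : ℝ) ^ 2⌋₊ := by
      intro m hm
      rw [hT0, mem_filter] at hm
      obtain ⟨hm0, hm1⟩ := hT m hm.1
      obtain ⟨x, hx, y, hy, -, -, e⟩ := ex_of_AA F L f' m (hk.trans_le hm1).ne'
      rw [mem_Icc]
      refine ⟨Nat.one_le_iff_ne_zero.2 hm0, Nat.le_floor ?_⟩
      have := norm_le F L hx hy
      rw [e] at this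
      exact_mod_cast this
    refine le_trans ?_ (sum_le_sum_of_subset_of_nonneg hsub fun _ _ _ => abs_nonneg _)
    rw [← nsmul_eq_mul, ← sum_const]
    refine sum_le_sum fun m hm => ?_
    rw [hT0, mem_filter] at hm
    rw [hm.2, zero_sub, abs_neg]
    exact (hT m hm.1).2.trans (le_abs_self _)
  have h2 : (T0.card : ℝ) ≤ E := by
    rw [mul_comm] at h0
    exact le_of_mul_le_mul_left h0 hk
  have h3 : (T.card : ℝ) = T0.card + T1.card := by exact_mod_cast hc.symm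
  have h4 : (T1.card : ℝ) ≤ F.nd P := by exact_mod_cast h1
  linarith

theorem cF_pos (F : IQ) {B : ℝ} (hB : 0 < B) : 0 < F.cF B := by
  unfold IQ.cF
  have := F.δ_pos
  have := Real.pi_pos
  positivity

/-- One level of the energy increment. -/
theorem step (h2 : St_AR2) (hU : St_UNIF) (hG : St_GOOD) (hT : St_TGT) (F : IQ) (B : ℝ)
    (hB : IsB F.inert B) (hB0 : 0 < B) (e μ τ : ℝ) (he : 0 < e) (hμ : 0 < μ) (hμ1 : μ < 1 / 2)
    (hμe : 4 * μ ≤ e) (hτ0 : 0 ≤ τ) (hτ : 64 * τ / (μ ^ 2 * e ^ 2) ≤ e) (q M : ℕ) :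
    ∃ N₀ M₀ : ℕ, N₀ ≠ 0 ∧ M₀ ≠ 0 ∧ (q ≠ 0 → M ≠ 0 → 4 * F.Dn ∣ q → ∀ᶠ s' : ℕ in atTop,
      ∀ L s : ℕ, s = M₀ * s' → L = M * s → q ∣ s → ∀ P ⊆ F.sqr L,
        ∑ x ∈ F.sqr L, (avg (F.sqr L) (F.cell (q * N₀) s') (fun z => ind (z ∈ P)) x -
          avg (F.sqr L) (F.cell q s) (fun z => ind (z ∈ P)) x) ^ 2 ≤ τ * (L : ℝ) ^ 2 →
        F.cF B * (P.card - 5 * e * (L : ℝ) ^ 2) / √(Real.log ((L : ℝ) ^ 2)) ≤ F.nd P) := by
  by_cases hq : q ≠ 0 ∧ M ≠ 0 ∧ 4 * F.Dn ∣ q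
  swap
  · exact ⟨1, 1, one_ne_zero, one_ne_zero, fun a b c => absurd ⟨a, b, c⟩ hq⟩
  obtain ⟨hq, hM, hD⟩ := hq
  have hK := cF_pos F hB0
  set K := F.cF B with hKdef
  obtain ⟨c, hc, hT'⟩ := hT F B hB hB0 q M μ e hq hD hμ hμ1 he
  have hq' : (0 : ℝ) < q := by exact_mod_cast Nat.pos_of_ne_zero hq
  have hM' : (0 : ℝ) < M := by exact_mod_cast Nat.pos_of_ne_zero hM
  set κ : ℝ := c * (μ ^ 2 * e ^ 2 / 32) / ((q : ℝ) ^ 2 * (M : ℝ) ^ 2) with hκ
  have hκ0 : 0 < κ := by positivity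
  have hA : (1 : ℝ) ≤ 1 + |(F.a : ℝ)| + |(F.b : ℝ)| := by
    have := abs_nonneg (F.a : ℝ)
    have := abs_nonneg (F.b : ℝ)
    linarith
  obtain ⟨N₀, M₀, hN₀, hM₀, hU'⟩ := hU F B hB hB0 _ (κ * (K * e)) hA (by positivity)
  refine ⟨N₀, M₀, hN₀, hM₀, fun _ _ _ => ?_⟩
  have t1 : Tendsto (fun s' : ℕ => M₀ * s') atTop atTop :=
    tendsto_atTop_mono (fun s' => Nat.le_mul_of_pos_left s' (Nat.pos_of_ne_zero hM₀)) tendsto_id
  have t2 : Tendsto (fun s' : ℕ => M * (M₀ * s')) atTop atTop :=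
    tendsto_atTop_mono (fun s' => Nat.le_mul_of_pos_left _ (Nat.pos_of_ne_zero hM)) t1
  have t3 : ∀ᶠ s : ℕ in atTop, 2 * (q : ℝ) ≤ μ * s :=
    (tendsto_natCast_atTop_atTop.const_mul_atTop hμ).eventually_ge_atTop _
  filter_upwards [t1.eventually hT', t2.eventually hU', t1.eventually t3,
    t1.eventually (eventually_ge_atTop 2), eventually_gt_atTop 0] with s' a1 a2 a3 a4 a5
  intro L s hs hL hqs P hP hreg
  rw [← hs] at a1 a2 a3 a4
  rw [← hL] at a2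
  have hsL : s ≤ L := by rw [hL]; exact Nat.le_mul_of_pos_left _ (Nat.pos_of_ne_zero hM)
  have hLr : (L : ℝ) = M * s := by rw [hL]; push_cast; ring
  have hf : ∀ x : F.O, 0 ≤ ind (x ∈ P) ∧ ind (x ∈ P) ≤ 1 := fun x => ⟨ind_nonneg _, ind_le_one _⟩
  set f' := avg (F.sqr L) (F.cell (q * N₀) s') (fun z => ind (z ∈ P)) with hf'
  have hf'0 : ∀ x, 0 ≤ f' x := avg_nonneg _ _ _ (fun x => (hf x).1)
  have b2 := a2 (q * N₀) s' (Dvd.intro_left _ rfl) a5 (hs ▸ hsL) _ hf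
  obtain ⟨G, hGs, g1, g2⟩ := hG F q M s e μ τ P f' hq hqs he hμ (by linarith) a3 (hL ▸ hP) hf'0
    (by rw [← hL, ← hLr]; exact hreg)
  rw [← hL] at g2
  rw [← hLr] at g1
  obtain ⟨T, t4, t5⟩ := a1 G hGs
  have hs2 : (2 : ℝ) ≤ s := by exact_mod_cast a4
  have hsL' : (s : ℝ) ≤ L := by exact_mod_cast hsL
  have hL0 : (0 : ℝ) < L := by linarith
  have hl1 : 0 < Real.log ((s : ℝ) ^ 2) := Real.log_pos (by nlinarith)
  have hl2 : Real.log ((s : ℝ) ^ 2) ≤ Real.log ((L : ℝ) ^ 2) :=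
    Real.log_le_log (by positivity) (by gcongr)
  have hr1 : 0 < √(Real.log ((s : ℝ) ^ 2)) := Real.sqrt_pos.2 hl1
  have hr2 : √(Real.log ((s : ℝ) ^ 2)) ≤ √(Real.log ((L : ℝ) ^ 2)) := Real.sqrt_le_sqrt hl2
  have hr3 : 0 < √(Real.log ((L : ℝ) ^ 2)) := hr1.trans_le hr2
  have hm := markov F L P f' T (κ * (L : ℝ) ^ 2) (K * e * (L : ℝ) ^ 2 / √(Real.log ((L : ℝ) ^ 2)))
    (by positivity) (fun m hm => by
      obtain ⟨u1, u2⟩ := t4 m hm
      refine ⟨u1.1, ?_⟩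
      have := AA_ge F L f' hf'0 m (((h2 F).rho_pos m).2 u1) _
        (μ ^ 2 * e ^ 2 / 32 * ((s : ℝ) / q) ^ 2) c (by positivity)
        (fun w hw => by
          obtain ⟨C, hC, C', hC', hw⟩ := hw
          exact g2 C hC C' hC' w hw) u2
      refine le_trans (le_of_eq ?_) this
      rw [hκ, hLr]
      field_simp)
    (b2.trans (le_of_eq (by ring)))
  set r := √(Real.log ((L : ℝ) ^ 2)) with hr
  set X := ((1 - 2 * μ) ^ 2 * G.card / q ^ 2 - e) * (s : ℝ) ^ 2 with hX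
  have k1 : K * X / r ≤ T.card := by
    rcases le_total 0 X with h | h
    · rw [mul_assoc] at t5
      exact le_trans (div_le_div_of_nonneg_left (mul_nonneg hK.le h) hr1 hr2) t5
    · exact le_trans (div_nonpos_of_nonpos_of_nonneg (mul_nonpos_of_nonneg_of_nonpos hK.le h)
        hr3.le) (Nat.cast_nonneg _)
  have hPL : (P.card : ℝ) ≤ (L : ℝ) ^ 2 := by
    have := card_le_card hP
    rw [F.card_sqr] at this
    exact_mod_cast this
  have k2 : P.card - 4 * e * (L : ℝ) ^ 2 ≤ X := by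
    have u0 : 0 ≤ (1 - 2 * μ) ^ 2 := sq_nonneg _
    have u1 : (1 - 2 * μ) ^ 2 ≤ 1 := by nlinarith
    have u2 : 1 - e ≤ (1 - 2 * μ) ^ 2 := by nlinarith
    have v0 : 0 ≤ 64 * τ / (μ ^ 2 * e ^ 2) := by positivity
    have hX' : X = (1 - 2 * μ) ^ 2 * (G.card * ((s : ℝ) / q) ^ 2) - e * (s : ℝ) ^ 2 := by
      rw [hX]; field_simp
    have w1 : (s : ℝ) ^ 2 ≤ (L : ℝ) ^ 2 := by gcongr
    have w2 := mul_le_mul_of_nonneg_left g1 u0
    have w3 : e * (s : ℝ) ^ 2 ≤ e * (L : ℝ) ^ 2 := by gcongr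
    have hP0 : (0 : ℝ) ≤ P.card := Nat.cast_nonneg _
    have w4 : (1 - e) * P.card ≤ (1 - 2 * μ) ^ 2 * P.card := by gcongr
    have w5 : e * P.card ≤ e * (L : ℝ) ^ 2 := by gcongr
    have w6 : (e + 64 * τ / (μ ^ 2 * e ^ 2)) * (L : ℝ) ^ 2 ≤ (e + e) * (L : ℝ) ^ 2 := by gcongr
    have w7 : (1 - 2 * μ) ^ 2 * ((e + 64 * τ / (μ ^ 2 * e ^ 2)) * (L : ℝ) ^ 2)
        ≤ 1 * ((e + 64 * τ / (μ ^ 2 * e ^ 2)) * (L : ℝ) ^ 2) := by gcongr
    rw [hX']
    nlinarith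
  have k3 : K * (P.card - 4 * e * (L : ℝ) ^ 2) / r ≤ K * X / r := by gcongr
  have k4 : K * (P.card - 5 * e * (L : ℝ) ^ 2) / r
      = K * (P.card - 4 * e * (L : ℝ) ^ 2) / r - K * e * (L : ℝ) ^ 2 / r := by ring
  linarith

theorem cell_refine (F : IQ) (q N s M : ℕ) (x y : F.O)
    (h : F.cell (q * N) s x = F.cell (q * N) s y) : F.cell q (M * s) x = F.cell q (M * s) y := by
  unfold IQ.cell at *
  simp only [Prod.mk.injEq] at h ⊢
  obtain ⟨⟨h1, h2⟩, h3, h4⟩ := h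
  have hd : (q : ℤ) ∣ ((q * N : ℕ) : ℤ) := by push_cast; exact Dvd.intro _ rfl
  have hs : (0 : ℤ) ≤ s := Nat.cast_nonneg _
  have e : ((M * s : ℕ) : ℤ) = s * M := by push_cast; ring
  refine ⟨⟨?_, ?_⟩, ?_, ?_⟩
  · rw [← Int.emod_emod_of_dvd x.re hd, h1, Int.emod_emod_of_dvd _ hd]
  · rw [← Int.emod_emod_of_dvd x.im hd, h2, Int.emod_emod_of_dvd _ hd]
  · rw [e, ← Int.ediv_ediv_of_nonneg hs, h3, Int.ediv_ediv_of_nonneg hs]
  · rw [e, ← Int.ediv_ediv_of_nonneg hs, h4, Int.ediv_ediv_of_nonneg hs]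

end CORE0

open CORE0 in
theorem stCORE0 (h2 : St_AR2) (hU : St_UNIF) (hR : St_REG) (hG : St_GOOD) (hT : St_TGT) :
    St_CORE0 := by
  intro F B hB hB0 ε hε
  set e : ℝ := ε / 5 with he
  have he0 : 0 < e := by positivity
  set μ : ℝ := min (e / 4) (1 / 4) with hμ
  have hμ0 : 0 < μ := lt_min (by positivity) (by norm_num)
  have hμ1 : μ < 1 / 2 := (min_le_right _ _).trans_lt (by norm_num)
  have hμ2 : 4 * μ ≤ e := by have : μ ≤ e / 4 := min_le_left _ _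
                             linarith
  obtain ⟨J, hJ⟩ := exists_nat_gt (64 / (μ ^ 2 * e ^ 3))
  have hJr : (0 : ℝ) < J := lt_trans (by positivity) hJ
  have hJ0 : 0 < J := by exact_mod_cast hJr
  have hτ : 64 * (1 / (J : ℝ)) / (μ ^ 2 * e ^ 2) ≤ e := by
    rw [div_lt_iff₀ (by positivity)] at hJ
    rw [div_le_iff₀ (by positivity), mul_one_div, div_le_iff₀ hJr]
    nlinarith
  choose N₀ M₀ hN₀ hM₀ hst using step h2 hU hG hT F B hB hB0 e μ (1 / J) he0 hμ0 hμ1 hμ2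
    (by positivity) hτ
  let sq : ℕ → ℕ × ℕ := fun i => Nat.rec (4 * F.Dn, 1)
    (fun _ p => (p.1 * N₀ p.1 p.2, p.2 * M₀ p.1 p.2)) i
  set q : ℕ → ℕ := fun i => (sq i).1 with hq
  set M : ℕ → ℕ := fun i => (sq i).2 with hM
  have q0 : q 0 = 4 * F.Dn := rfl
  have M0 : M 0 = 1 := rfl
  have qs : ∀ i, q (i + 1) = q i * N₀ (q i) (M i) := fun _ => rfl
  have Ms : ∀ i, M (i + 1) = M i * M₀ (q i) (M i) := fun _ => rfl
  clear_value q M
  have hD : F.Dn ≠ 0 := by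
    have := F.D_le
    intro h
    rw [Int.natAbs_eq_zero] at h
    omega
  have qne : ∀ i, q i ≠ 0 := fun i => by
    induction i with
    | zero => rw [q0]; omega
    | succ i ih => rw [qs]; exact mul_ne_zero ih (hN₀ _ _)
  have Mne : ∀ i, M i ≠ 0 := fun i => by
    induction i with
    | zero => rw [M0]; exact one_ne_zero
    | succ i ih => rw [Ms]; exact mul_ne_zero ih (hM₀ _ _)
  have qd : ∀ i j, i ≤ j → q i ∣ q j := fun i j h => by
    induction h with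
    | refl => exact dvd_rfl
    | step _ ih => rw [qs]; exact ih.mul_right _
  have Md : ∀ i j, i ≤ j → M i ∣ M j := fun i j h => by
    induction h with
    | refl => exact dvd_rfl
    | step _ ih => rw [Ms]; exact ih.mul_right _
  have ex : ∀ i, ∃ D : ℕ, i ≤ J → M J = M i * D := fun i => by
    by_cases h : i ≤ J
    · obtain ⟨D, hD⟩ := Md i J h
      exact ⟨D, fun _ => hD⟩
    · exact ⟨0, fun h' => absurd h' h⟩
  choose D hDe using ex
  have Dne : ∀ i, i ≤ J → D i ≠ 0 := fun i h h0 => Mne J (by rw [hDe i h, h0, mul_zero])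
  have Ds : ∀ i < J, D i = M₀ (q i) (M i) * D (i + 1) := fun i h => by
    have e1 := hDe i h.le
    rw [hDe (i + 1) h, Ms, mul_assoc] at e1
    exact (Nat.eq_of_mul_eq_mul_left (Nat.pos_of_ne_zero (Mne i)) e1).symm
  refine ⟨q J * M J, mul_ne_zero (qne J) (Mne J), ?_⟩
  have tt : ∀ i < J, Tendsto (fun l : ℕ => D (i + 1) * (q J * l)) atTop atTop := fun i h =>
    tendsto_atTop_mono (fun l => (Nat.le_mul_of_pos_left l (Nat.pos_of_ne_zero (qne J))).trans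
      (Nat.le_mul_of_pos_left _ (Nat.pos_of_ne_zero (Dne _ h)))) tendsto_id
  have all := (eventually_all_finset (range J)).2 fun i hi => (tt i (mem_range.1 hi)).eventually
    (hst (q i) (M i) (qne i) (Mne i) (q0 ▸ qd 0 i (Nat.zero_le _)))
  filter_upwards [all] with l hl P hP
  set L := q J * M J * l with hL
  have ss : ∀ i < J, D i * (q J * l) = M₀ (q i) (M i) * (D (i + 1) * (q J * l)) := fun i h => by
    rw [Ds i h, mul_assoc]
  obtain ⟨i, hi, hreg⟩ := hR F.O Cell (F.sqr L) (fun i => F.cell (q i) (D i * (q J * l)))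
    (fun z => ind (z ∈ P)) J hJ0 (fun i h x _ y _ hxy => by
      rw [ss i h]
      rw [qs] at hxy
      exact cell_refine F _ _ _ _ x y hxy) (fun x => ⟨ind_nonneg _, ind_le_one _⟩)
  have key := hl i (mem_range.2 hi) L (D i * (q J * l)) (ss i hi)
    (by rw [hL, hDe i hi.le]; ring)
    (((qd i J hi.le).mul_right l).mul_left _) P hP (by
      rw [qs, F.card_sqr] at hreg
      refine hreg.trans (le_of_eq ?_)
      push_cast
      ring)
  have e1 : ((q J * M J : ℕ) : ℝ) * l = L := by rw [hL]; push_cast; ring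
  have e2 : 5 * e = ε := by rw [he]; ring
  rw [e1, ← e2]
  exact key

end Pool.Agent.Lib.DL
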