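import Pool.Agent.Lib.DL.Blue

set_option autoImplicit false

namespace Pool.Agent.Lib.DL

open QuadraticAlgebra Finset Filter Topology
open Pool.Agent.Lib.MP_d48457_nt (ind ind_pos ind_neg ind_nonneg ind_le_one ind_and ind_congr
  ind_mono sum_ind_eq_card)

namespace DISC

theorem ex_low (F : IQ) (n : ℕ) : ∃ P : Finset F.O, P.card = n ∧
    ∀ x ∈ P, ∀ z : F.O, z.norm < x.norm → z ∈ P := by
  classical
  have hinf : Infinite F.O := Infinite.of_injective (fun k : ℤ => (⟨k, 0⟩ : F.O))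
    (fun _ _ h => congrArg QuadraticAlgebra.re h)
  induction n with
  | zero => exact ⟨∅, card_empty, fun x hx => absurd hx (notMem_empty x)⟩
  | succ n ih =>
    obtain ⟨P, hP, hlow⟩ := ih
    have hex : ∃ m : ℕ, ∃ z : F.O, z ∉ P ∧ z.norm.toNat = m := by
      obtain ⟨z, hz⟩ := Infinite.exists_notMem_finset P
      exact ⟨_, z, hz, rfl⟩
    obtain ⟨z, hz, hm⟩ := Nat.find_spec hex
    refine ⟨insert z P, by rw [card_insert_of_notMem hz, hP], fun x hx w hw => ?_⟩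
    rcases mem_insert.1 hx with rfl | hx
    · by_contra hcon
      have h1 : w ∉ P := fun h => hcon (mem_insert_of_mem h)
      have h2 := Nat.find_min' hex ⟨w, h1, rfl⟩
      have h3 := F.norm_nonneg' w
      omega
    · exact mem_insert_of_mem (hlow x hx w hw)

theorem norm_sub_le (F : IQ) {t : ℝ} {x y : F.O} (hx : (x.norm : ℝ) ≤ t) (hy : (y.norm : ℝ) ≤ t) :
    ((x - y).norm : ℝ) ≤ 4 * t := by
  rw [← F.norm_σ_sq] at hx hy ⊢
  rw [map_sub]
  have h1 := _root_.norm_sub_le (F.σ x) (F.σ y)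
  have h2 := norm_nonneg (F.σ x - F.σ y)
  have h3 := norm_nonneg (F.σ x)
  have h4 := norm_nonneg (F.σ y)
  nlinarith [sq_nonneg (‖F.σ x‖ - ‖F.σ y‖)]

theorem nd_le (F : IQ) (h2 : AR2 F) {t : ℝ} {P : Finset F.O} (hP : ∀ x ∈ P, (x.norm : ℝ) ≤ t) :
    (F.nd P : ℝ) ≤ SS F.inert (4 * t) := by
  classical
  unfold SS IQ.nd
  rw [sum_ind_eq_card]
  refine Nat.cast_le.2 (card_le_card_of_injOn (fun m : ℤ => m.natAbs) ?_ ?_)
  · intro m hm
    obtain ⟨p, hp, rfl⟩ := mem_image.1 (mem_coe.1 hm)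
    obtain ⟨hp1, hp2, hne⟩ := mem_offDiag.1 hp
    have h0 : p.1 - p.2 ≠ 0 := sub_ne_zero.2 hne
    have h3 := F.norm_pos' h0
    have h4 := norm_sub_le F (hP _ hp1) (hP _ hp2)
    beta_reduce
    refine mem_coe.2 (mem_filter.2 ⟨mem_Icc.2 ⟨by omega, Nat.le_floor ?_⟩, ?_⟩)
    · rw [← F.absNorm_span, F.absNorm_span_real]
      exact h4
    · have h5 : (p.1 - p.2).norm.natAbs ≠ 0 := by omega
      have h6 := h2.card_elN _ h5
      have h7 : p.1 - p.2 ∈ F.elN (p.1 - p.2).norm.natAbs :=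
        F.mem_elN.2 (Int.natAbs_of_nonneg h3.le).symm
      have h8 := card_pos.2 ⟨_, h7⟩
      exact (h2.rho_pos _).1 (Nat.pos_of_mul_pos_left (lt_of_lt_of_le h8 h6))
  · intro m hm m' hm' h
    obtain ⟨p, _, rfl⟩ := mem_image.1 (mem_coe.1 hm)
    obtain ⟨p', _, rfl⟩ := mem_image.1 (mem_coe.1 hm')
    have h3 := F.norm_nonneg' (p.1 - p.2)
    have h4 := F.norm_nonneg' (p'.1 - p'.2)
    simp only at h
    omega

end DISC

open DISC in
theorem stDISC (h2 : St_AR2) (hW : St_WU) (hG : St_GAUSS) : St_DISC := by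
  intro F B hB ε hε
  have hB0 : 0 ≤ B := by
    have h1 : 0 ≤ 2 * B := ge_of_tendsto' hB (fun x => div_nonneg
      (sum_nonneg (fun m _ => div_nonneg (ind_nonneg _) (Nat.cast_nonneg _))) (Real.sqrt_nonneg _))
    linarith
  have hδ := F.δ_pos
  have hπ := Real.pi_pos
  obtain ⟨d, hd⟩ : ∃ d : ℝ, d = F.δ / (2 * Real.pi) := ⟨_, rfl⟩
  have hd4 : 1 ≤ 4 * d := by
    have h3 : (3 : ℝ) ≤ F.δ ^ 2 := by
      have h : (F.D : ℝ) ≤ -3 := by exact_mod_cast F.D_le
      rw [F.δ_sq]; linarith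
    have h4 : (1.6 : ℝ) ≤ F.δ := by
      by_contra h
      have := not_le.1 h
      nlinarith
    have h5 := Real.pi_lt_d2
    rw [hd, ← mul_div_assoc, le_div_iff₀ (by positivity)]
    linarith
  have hd0 : 0 < d := by linarith
  obtain ⟨e, he⟩ : ∃ e : ℝ, e = min 1 (ε / (4 * B + 4 * d + 4)) := ⟨_, rfl⟩
  have hA : 0 < 4 * B + 4 * d + 4 := by linarith
  have he0 : 0 < e := he ▸ lt_min one_pos (div_pos hε hA)
  have he1 : e ≤ 1 := he ▸ min_le_left _ _
  have he2 : e * (4 * B + 4 * d + 4) ≤ ε := by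
    rw [← le_div_iff₀ hA, he]; exact min_le_right _ _
  have hκ : 0 < d + e := by linarith
  have hT : Tendsto (fun n : ℕ => (d + e) * (n : ℝ)) atTop atTop :=
    tendsto_natCast_atTop_atTop.const_mul_atTop hκ
  have hT4 : Tendsto (fun n : ℕ => 4 * ((d + e) * (n : ℝ))) atTop atTop :=
    hT.const_mul_atTop (by norm_num)
  have hlt : (d + e)⁻¹ < 2 * Real.pi / F.δ := by
    have h1 : 2 * Real.pi / F.δ = d⁻¹ := by rw [hd, inv_div]
    rw [h1]
    exact inv_strictAnti₀ hd0 (by linarith)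
  filter_upwards [hT.eventually ((hG F).eventually_const_lt hlt),
    hT4.eventually (hW F B hB e he0), eventually_gt_atTop 1] with n hn1 hn2 hn3
  obtain ⟨P, hP, hlow⟩ := ex_low F n
  refine ⟨P, hP, hlow, ?_⟩
  have hn : (1 : ℝ) < n := by exact_mod_cast hn3
  have hn0 : (0 : ℝ) < n := by linarith
  have h3 : (n : ℝ) < (F.disc ((d + e) * n)).card := by
    rw [lt_div_iff₀ (by positivity), ← mul_assoc, inv_mul_cancel₀ hκ.ne', one_mul] at hn1
    exact hn1
  have h4 : ∀ x ∈ P, (x.norm : ℝ) ≤ (d + e) * n := by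
    intro x hx
    by_contra hcon
    have h5 : F.disc ((d + e) * n) ⊆ P := by
      intro z hz
      refine hlow x hx z ?_
      exact_mod_cast lt_of_le_of_lt (F.mem_disc.1 hz) (not_le.1 hcon)
    have h6 := card_le_card h5
    rw [hP] at h6
    exact absurd h3 (not_lt.2 (by exact_mod_cast h6))
  refine (nd_le F (h2 F) h4).trans (hn2.trans ?_)
  have hl : 0 < √(Real.log n) := Real.sqrt_pos.2 (Real.log_pos hn)
  have hl2 : √(Real.log n) ≤ √(Real.log (4 * ((d + e) * n))) :=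
    Real.sqrt_le_sqrt (Real.log_le_log hn0 (by nlinarith))
  have h5 : 4 / Real.pi * (F.δ / 2) = 4 * d := by rw [hd]; field_simp
  rw [h5]
  refine div_le_div₀ (by positivity) ?_ hl hl2
  have h6 : (B + e) * (4 * (d + e)) ≤ 4 * d * B + ε := by nlinarith
  calc (B + e) * (4 * ((d + e) * n)) = (B + e) * (4 * (d + e)) * n := by ring
    _ ≤ (4 * d * B + ε) * n := mul_le_mul_of_nonneg_right h6 hn0.le

end Pool.Agent.Lib.DL
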