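import Pool.Agent.Lib.DL.Blue

set_option autoImplicit false

namespace Pool.Agent.Lib.DL

open QuadraticAlgebra Finset Filter Topology
open Pool.Agent.Lib.MP_d48457_nt (ind ind_pos ind_neg ind_nonneg ind_le_one)

theorem stDIV1 (h : St_DIV) : St_DIV1 := by
  intro F A y
  have hd : 0 < F.d0 1 := by
    refine lt_of_lt_of_le ?_ (F.le_d0 1)
    have : 0 < Nat.card (ClassGroup F.O)ˣ := Nat.card_pos
    positivity
  have hv : ∀ I : Ideal F.O, 0 ≤ ind (F.cop 1 I) * ind (F.cls I = 1) ∧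
      ind (F.cop 1 I) * ind (F.cls I = 1) ≤ 1 := fun I =>
    ⟨mul_nonneg (ind_nonneg _) (ind_nonneg _),
      mul_le_one₀ (ind_le_one _) (ind_nonneg _) (ind_le_one _)⟩
  obtain ⟨S, P, h1, h2⟩ := h F (fun I => ind (F.cop 1 I) * ind (F.cls I = 1)) (F.d0 1)
    (fun I => ⟨(hv I).1, (hv I).2.trans one_le_two⟩) hd
    ((F.asym_pr one_ne_zero (F.hk0 1)).congr (fun I => by simp [IQ.Psi0]) rfl) A y
  have key : ∀ p : ℕ, ∃ z : F.O, p ∈ S → z.norm = p := by
    intro p
    by_cases hp : p ∈ S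
    · obtain ⟨-, -, -, hn, hpos⟩ := h1 p hp
      have hc : F.cop 1 (P p) := by
        by_contra hc
        simp [ind_neg hc] at hpos
      have hcl : F.cls (P p) = 1 := by
        by_contra hc
        simp [ind_neg hc] at hpos
      obtain ⟨z, hz⟩ := (F.cls_eq_one_iff hc.1).1 hcl
      exact ⟨z, fun _ => by rw [← F.absNorm_span_int, ← hz, hn]⟩
    · exact ⟨0, fun h => absurd h hp⟩
  choose π hπ using key
  refine ⟨S, π, fun p hp => ⟨(h1 p hp).1, (h1 p hp).2.1, (h1 p hp).2.2.1, hπ p hp⟩,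
    h2.trans (sum_le_sum fun p _ => ?_)⟩
  exact div_le_div_of_nonneg_right (hv _).2 (Nat.cast_nonneg _)

namespace IQ

theorem cop_cj_iff (F : IQ) {W : ℕ} {I : Ideal F.O} : F.cop W (F.cj I) ↔ F.cop W I :=
  ⟨fun h => by simpa only [cj_cj] using F.cop_cj h, F.cop_cj⟩

theorem Hk.cj {F : IQ} {W : ℕ} {Ψ : Ideal F.O → ℂ} (h : F.Hk W Ψ) :
    F.Hk W (fun I => Ψ (F.cj I)) := by
  obtain ⟨c, k, hc⟩ := h.form
  refine ⟨fun I J => by rw [cj_mul, h.mul], by rw [cj_top, h.one],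
    fun I hI => h.nrm1 _ (F.cop_cj hI), fun I hI => h.zero _ (fun h' => hI (F.cop_cj_iff.1 h')),
    fun x => c (Ideal.Quotient.mk _ (star x.out)), -k, fun z hz => ?_⟩
  have e : Ideal.Quotient.mk (Ideal.span {(W : F.O)})
      (star (Ideal.Quotient.mk (Ideal.span {(W : F.O)}) z).out) =
      Ideal.Quotient.mk (Ideal.span {(W : F.O)}) (star z) := by
    have h1 := Ideal.Quotient.eq.1 (Ideal.Quotient.mk_out
      (Ideal.Quotient.mk (Ideal.span {(W : F.O)}) z))
    rw [Ideal.Quotient.eq, ← star_sub]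
    rw [Ideal.mem_span_singleton] at h1 ⊢
    obtain ⟨u, hu⟩ := h1
    exact ⟨star u, by rw [hu, star_mul, star_natCast, mul_comm]⟩
  have hz' : star z ≠ 0 := star_ne_zero.2 hz
  beta_reduce
  rw [cj_span, hc _ hz', e, ang_star, ← Complex.inv_eq_conj (F.norm_ang hz), inv_zpow, zpow_neg]

end IQ

theorem norm_add_unit {a b : ℂ} (ha : ‖a‖ = 1) (hb : ‖b‖ = 1) :
    (1 - (a * (starRingEnd ℂ) b).re) / 4 ≤ 1 - ‖a + b‖ / 2 := by
  have h1 : ‖a + b‖ ^ 2 = 2 + 2 * (a * (starRingEnd ℂ) b).re := by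
    rw [Complex.sq_norm, Complex.normSq_add, ← Complex.sq_norm, ← Complex.sq_norm, ha, hb]
    ring
  nlinarith [sq_nonneg (‖a + b‖ - 2)]

theorem stDIV2 (h1 : St_AR1) (h2 : St_AR2) (h : St_DIV) : St_DIV2 := by
  intro F W Ψ hW hΨ hne A
  have hη := hΨ.mul' hΨ.cj.conj
  set η : Ideal F.O → ℂ := fun I => Ψ I * (starRingEnd ℂ) (Ψ (F.cj I)) with hηd
  have hq : ¬ ∀ q, F.cop W q → η q = 1 := by
    intro H
    obtain ⟨I, hI⟩ := hne
    by_cases hc : F.cop W I
    · have e := H I hc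
      have hn := hΨ.nrm1 _ (F.cop_cj hc)
      have h0 : Ψ (F.cj I) ≠ 0 := by rw [← norm_ne_zero_iff, hn]; exact one_ne_zero
      simp only [hηd] at e
      rw [← Complex.inv_eq_conj hn, mul_inv_eq_one₀ h0] at e
      exact hI e.symm
    · exact hI ((hΨ.zero _ (fun h' => hc (F.cop_cj_iff.1 h'))).trans (hΨ.zero _ hc).symm)
  have hq' : ¬ ∀ q, F.cop W q → (starRingEnd ℂ) (η q) = 1 := fun H => hq fun q hq => by
    have := congrArg (starRingEnd ℂ) (H q hq)
    simpa using this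
  have a0 := (F.hk0 W).asym hW
  have a1 := hη.asym hW
  have a2 := hη.conj.asym hW
  rw [ind_pos (fun q hq => by simp [IQ.Psi0, ind_pos hq])] at a0
  rw [ind_neg hq] at a1
  rw [ind_neg hq'] at a2
  have hv : ∀ I, 0 ≤ ind (F.cop W I) - (η I).re ∧ ind (F.cop W I) - (η I).re ≤ 2 := by
    intro I
    have e := abs_le.1 ((Complex.abs_re_le_norm (η I)).trans (hη.norm_le I))
    have := ind_le_one (F.cop W I)
    constructor <;> linarith [e.1, e.2]
  obtain ⟨S, P, g1, g2⟩ := h F (fun I => ind (F.cop W I) - (η I).re) 1 hv one_pos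
    (((a0.add (a1.const_mul (-1 / 2))).add (a2.const_mul (-1 / 2))).congr (fun I => by
      simp only [IQ.Psi0]
      push_cast
      rw [Complex.re_eq_add_conj]
      ring) (by simp)) (4 * A) 0
  refine ⟨S, fun p hp => ⟨(g1 p hp).1, (g1 p hp).2.1⟩, ?_⟩
  have key : ∀ p ∈ S, (ind (F.cop W (P p)) - (η (P p)).re) / p ≤
      4 * ((1 - ‖F.aa Ψ p‖ / 2) / p) := by
    intro p hp
    obtain ⟨hpp, hs, -, hn, hpos⟩ := g1 p hp
    have hc : F.cop W (P p) := by
      by_contra hc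
      simp [ind_neg hc, hη.zero _ hc] at hpos
    have hpr : (Ideal.absNorm (P p)).Prime := by rwa [hn]
    have hne' : F.cj (P p) ≠ P p := (h1 F).split_ne _ hpr (by rwa [hn])
    have e : F.aa Ψ p = Ψ (P p) + Ψ (F.cj (P p)) := by
      classical
      rw [F.aa_apply, ← sum_pair hne'.symm]
      refine sum_congr (Finset.ext fun I => ?_) fun _ _ => rfl
      rw [← hn, (h2 F).idN_prime _ hpr, hn, mem_insert, mem_singleton]
    have := norm_add_unit (hΨ.nrm1 _ hc) (hΨ.nrm1 _ (F.cop_cj hc))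
    rw [e, ind_pos hc, ← mul_div_assoc]
    refine div_le_div_of_nonneg_right ?_ (Nat.cast_nonneg _)
    simp only [hηd]
    linarith
  have := g2.trans (sum_le_sum key)
  rw [← mul_sum] at this
  linarith

end Pool.Agent.Lib.DL
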