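import Pool.Agent.Lib.DL.Hecke3
import Pool.Agent.Lib.MP_229ad9_gt.PL

set_option autoImplicit false

namespace Pool.Agent.Lib.DL

open QuadraticAlgebra Finset Filter Topology
open Pool.Agent.Lib.MP_d48457_nt (ind ind_pos ind_neg ind_nonneg ind_le_one ind_and ind_congr
  ind_mono sum_ind_eq_card)

/-- Positive integers in which every prime with property `E` occurs to an even power. -/
def MM (E : ℕ → Prop) (m : ℕ) : Prop := m ≠ 0 ∧ ∀ p : ℕ, p.Prime → E p → Even (m.factorization p)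

/-- The counting function of `MM E`. -/
noncomputable def SS (E : ℕ → Prop) (x : ℝ) : ℝ := ∑ m ∈ Icc 1 ⌊x⌋₊, ind (MM E m)

/-- The logarithmic counting function of `MM E`. -/
noncomputable def TT (E : ℕ → Prop) (x : ℝ) : ℝ := ∑ m ∈ Icc 1 ⌊x⌋₊, ind (MM E m) / m

/-- `B` is the Landau constant of `MM E`. -/
def IsB (E : ℕ → Prop) (B : ℝ) : Prop :=
  Tendsto (fun x : ℝ => TT E x / √(Real.log x)) atTop (𝓝 (2 * B))

open Classical in
/-- The local Euler factor at `s = 1`. -/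
noncomputable def lf (E : ℕ → Prop) (p : ℕ) : ℝ :=
  if E p then (1 - 1 / (p : ℝ) ^ 2)⁻¹ else (1 - 1 / (p : ℝ))⁻¹

open Classical in
/-- The average of `f` over the fibre of `c` through `x`, inside `B`. -/
noncomputable def avg {α β : Type} (B : Finset α) (c : α → β) (f : α → ℝ) (x : α) : ℝ :=
  (∑ y ∈ B.filter (fun y => c y = c x), f y) / (B.filter (fun y => c y = c x)).card

/-- The functional Brunn-Minkowski inequality for a two variable map. -/
def FI {X Y Z : Type} [Fintype X] [Fintype Y] [Fintype Z] (φ : X → Y → Z) (ν : Z → ℝ) : Prop :=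
  ∀ (f : X → ℝ) (g : Y → ℝ) (h : Z → ℝ), (∀ x, 0 ≤ f x) → (∀ y, 0 ≤ g y) → (∀ z, 0 ≤ h z) →
    (∀ x y, f x * g y ≤ h (φ x y) ^ 2) →
    (∑ x, f x) / Fintype.card X * ((∑ y, g y) / Fintype.card Y) ≤ (∑ z, ν z * h z) ^ 2

/-- The Fejer weight, at least one for `|x| ≤ L` and zero for `2 L ≤ |x|`. -/
noncomputable def fej (L : ℕ) (x : ℤ) : ℝ := max (2 - |(x : ℝ)| / L) 0

/-- The number of distinct distances of a finite planar set. -/
noncomputable def DD (P : Finset ℂ) : ℕ :=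
  {d : ℝ | ∃ p ∈ P, ∃ q ∈ P, p ≠ q ∧ d = dist p q}.ncard

/-- Cells: two residues and two interval indices. -/
abbrev Cell := (ℤ × ℤ) × ℤ × ℤ

/-- All cells of modulus `q` in a square cut into `M × M` pieces. -/
noncomputable def cells (q M : ℕ) : Finset Cell :=
  (Ico (0 : ℤ) q ×ˢ Ico (0 : ℤ) q) ×ˢ (Ico (0 : ℤ) M ×ˢ Ico (0 : ℤ) M)

namespace IQ

variable (F : IQ)

/-- The minimal polynomial of `ω` has no root modulo `p`. -/
def inert (p : ℕ) : Prop := ¬ ∃ r : ℤ, (p : ℤ) ∣ r ^ 2 - F.b * r - F.a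

/-- `p` divides the discriminant. -/
def ram (p : ℕ) : Prop := (p : ℤ) ∣ F.D

/-- Neither inert nor ramified. -/
def split (p : ℕ) : Prop := ¬ F.inert p ∧ ¬ F.ram p

/-- The number of ideals of norm `m`. -/
noncomputable def ρ (m : ℕ) : ℕ := (F.idN m).card

/-- The norms of ideals. -/
abbrev M (m : ℕ) : Prop := MM F.inert m

/-- The absolute discriminant. -/
abbrev Dn : ℕ := F.D.natAbs

/-- The number of ramified primes. -/
def t : ℕ := F.Dn.primeFactors.card

/-- The conjugate ideal. -/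
def cj (I : Ideal F.O) : Ideal F.O := I.map (starRingEnd F.O)

/-- The quadratic character (on odd arguments). -/
def chi (n : ℕ) : ℤ := jacobiSym F.D n

/-- Norms of ideals with no split prime factor. -/
def jj (n : ℕ) : Prop := F.M n ∧ ∀ p : ℕ, p.Prime → p ∣ n → ¬ F.split p

/-- The correction factor. -/
noncomputable def JJ : ℝ := ∑' n : ℕ, ind (F.jj n) / n

/-- The quantity that is compared between fields. -/
noncomputable def ee : ℝ := 2 * F.δ * F.JJ / (F.w * 4 ^ F.t)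

/-- The constant of the lower bound. -/
noncomputable def cF (B : ℝ) : ℝ := 4 / Real.pi * (F.δ / 2) * (2 * B / 2 ^ F.t)

open Classical in
/-- The maximal local density of the norm form. -/
noncomputable def cp (p : ℕ) : ℝ := if F.inert p then 1 + 1 / (p : ℝ) else if F.ram p then 2 else 1

open Classical in
/-- The density of one residue class. -/
noncomputable def lam (q : ℕ) : ℝ :=
  (∏ p ∈ q.primeFactors.filter F.inert, (1 + 1 / (p : ℝ))) / q

/-- The norm form modulo `Q`. -/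
def NQ (Q : ℕ) (x : ZMod Q × ZMod Q) : ZMod Q :=
  x.1 ^ 2 + (F.b : ZMod Q) * x.1 * x.2 - (F.a : ZMod Q) * x.2 ^ 2

/-- The normalised exponential sum over the elements of norm `m`. -/
noncomputable def ah (θ : AddChar F.O Circle) (m : ℕ) : ℂ := (∑ w ∈ F.elN m, (θ w : ℂ)) / F.ρ m

/-- Major arcs. -/
def Maj (θ : AddChar F.O Circle) (N : ℕ) (η : ℝ) : Prop :=
  ‖(θ (N : F.O) : ℂ) - 1‖ ≤ η ∧ ‖(θ ((N : F.O) * ω) : ℂ) - 1‖ ≤ η

/-- The square `[0, L) × [0, L)`. -/
noncomputable def sqr (L : ℕ) : Finset F.O :=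
  (Ico (0 : ℤ) L ×ˢ Ico (0 : ℤ) L).map
    ⟨fun p => ⟨p.1, p.2⟩, fun _ _ h => Prod.ext (congrArg QuadraticAlgebra.re h)
      (congrArg QuadraticAlgebra.im h)⟩

/-- The cell of a point: residues modulo `q` and intervals of length `s`. -/
def cell (q s : ℕ) (z : F.O) : Cell := ((z.re % q, z.im % q), (z.re / s, z.im / s))

/-- The normalised count of pairs at squared distance `m`. -/
noncomputable def AA (L : ℕ) (φ ψ : F.O → ℝ) (m : ℕ) : ℝ :=
  (∑ x ∈ F.sqr L, ∑ y ∈ F.sqr L, φ x * ψ y * ind ((y - x).norm = m)) / F.ρ m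

/-- `w` is a robust difference of the cells `C`, `C'`. -/
def Rob (q s : ℕ) (μ : ℝ) (C C' : Cell) (w : F.O) : Prop :=
  (q : ℤ) ∣ w.re - (C'.1.1 - C.1.1) ∧ (q : ℤ) ∣ w.im - (C'.1.2 - C.1.2) ∧
    |(w.re : ℝ) - s * (C'.2.1 - C.2.1 : ℤ)| ≤ (1 - μ) * s ∧
    |(w.im : ℝ) - s * (C'.2.2 - C.2.2 : ℤ)| ≤ (1 - μ) * s

/-- The number of distinct norms of differences. -/
noncomputable def nd (P : Finset F.O) : ℕ := (P.offDiag.image (fun p => (p.1 - p.2).norm)).card

/-- A signed product of conjugate elements. -/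
noncomputable def sgp (π : ℕ → F.O) (T ε : Finset ℕ) : F.O :=
  (∏ p ∈ ε, π p) * ∏ p ∈ T \ ε, star (π p)

open Classical in
/-- The sieving primes attached to a choice of signs. -/
noncomputable def sv (S J : Finset ℕ) (π : ℕ → F.O) (P : ℕ → Ideal F.O) (s : Finset ℕ) :
    Finset (Ideal F.O) :=
  (S.image (fun p => Ideal.span {π p}) ∪ S.image (fun p => Ideal.span {star (π p)})) ∪
    (s.image P ∪ (J \ s).image (fun p => F.cj (P p)))

theorem mem_sqr {L : ℕ} {z : F.O} :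
    z ∈ F.sqr L ↔ (0 ≤ z.re ∧ z.re < L) ∧ 0 ≤ z.im ∧ z.im < L := by
  simp only [sqr, Finset.mem_map, mem_product, mem_Ico, Function.Embedding.coeFn_mk]
  constructor
  · rintro ⟨p, h, rfl⟩; exact h
  · intro h; exact ⟨(z.re, z.im), h, rfl⟩

theorem card_sqr (L : ℕ) : (F.sqr L).card = L ^ 2 := by
  simp [sqr, sq]

theorem cj_mul (I J : Ideal F.O) : F.cj (I * J) = F.cj I * F.cj J := Ideal.map_mul _ _ _

theorem cj_span (z : F.O) : F.cj (Ideal.span {z}) = Ideal.span {star z} := by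
  rw [cj, Ideal.map_span, Set.image_singleton]; rfl

theorem cj_top : F.cj ⊤ = ⊤ := Ideal.map_top _

theorem cj_cj (I : Ideal F.O) : F.cj (F.cj I) = I := by
  rw [cj, cj, Ideal.map_map]
  have : (starRingEnd F.O).comp (starRingEnd F.O) = RingHom.id _ :=
    RingHom.ext (fun z => star_star z)
  rw [this, Ideal.map_id]

theorem mem_cj {I : Ideal F.O} {z : F.O} : z ∈ F.cj I ↔ star z ∈ I := by
  constructor
  · intro h
    have := Ideal.mem_map_of_mem (starRingEnd F.O) h
    change _ ∈ F.cj (F.cj I) at this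
    rwa [cj_cj] at this
  · intro h
    have := Ideal.mem_map_of_mem (starRingEnd F.O) h
    rwa [show (starRingEnd F.O) (star z) = z from star_star z] at this

theorem cj_injective : Function.Injective F.cj := Function.LeftInverse.injective F.cj_cj

theorem cj_bot : F.cj ⊥ = ⊥ := Ideal.map_bot

theorem cj_ne_bot {I : Ideal F.O} (h : I ≠ ⊥) : F.cj I ≠ ⊥ := fun h' =>
  h (F.cj_injective (h'.trans F.cj_bot.symm))

theorem cj_pow (I : Ideal F.O) (k : ℕ) : F.cj (I ^ k) = F.cj I ^ k := Ideal.map_pow _ _ _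

theorem cj_dvd {I J : Ideal F.O} (h : I ∣ J) : F.cj I ∣ F.cj J := by
  obtain ⟨K, rfl⟩ := h
  exact ⟨_, F.cj_mul _ _⟩

theorem absNorm_cj (I : Ideal F.O) : Ideal.absNorm (F.cj I) = Ideal.absNorm I := by
  have e : (F.O ⧸ I) ≃+* (F.O ⧸ F.cj I) :=
    Ideal.quotientEquiv I (F.cj I) (starRingAut (R := F.O)) rfl
  rw [Ideal.absNorm_apply, Ideal.absNorm_apply, Submodule.cardQuot_apply, Submodule.cardQuot_apply]
  exact (Nat.card_congr e.toEquiv).symm

theorem prime_cj {P : Ideal F.O} (h : Prime P) : Prime (F.cj P) := by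
  refine ⟨F.cj_ne_bot h.ne_zero, fun hu => h.not_isUnit ?_, fun I J hd => ?_⟩
  · rw [Ideal.isUnit_iff] at hu ⊢
    exact F.cj_injective (hu.trans F.cj_top.symm)
  · have := F.cj_dvd hd
    rw [cj_cj, cj_mul] at this
    rcases h.dvd_or_dvd this with h1 | h1
    · left; simpa only [cj_cj] using F.cj_dvd h1
    · right; simpa only [cj_cj] using F.cj_dvd h1

theorem cop_cj {W : ℕ} {I : Ideal F.O} (h : F.cop W I) : F.cop W (F.cj I) :=
  ⟨F.cj_ne_bot h.1, by rw [absNorm_cj]; exact h.2⟩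

theorem prime_of_absNorm {P : Ideal F.O} (h : (Ideal.absNorm P).Prime) : Prime P :=
  (Ideal.irreducible_of_irreducible_absNorm ((Nat.irreducible_iff_nat_prime _).2 h)).prime

theorem norm_zpow_sub_one {u : ℂ} (hu : ‖u‖ = 1) (k : ℤ) : ‖u ^ k - 1‖ ≤ |(k : ℝ)| * ‖u - 1‖ := by
  have h0 : u ≠ 0 := by rw [← norm_ne_zero_iff, hu]; exact one_ne_zero
  have key : ∀ n : ℕ, ‖u ^ n - 1‖ ≤ n * ‖u - 1‖ := by
    intro n
    induction n with
    | zero => simp
    | succ n ih =>
      rw [show u ^ (n + 1) - 1 = u * (u ^ n - 1) + (u - 1) by ring]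
      refine (norm_add_le _ _).trans ?_
      rw [norm_mul, hu, one_mul]
      push_cast
      linarith
  rcases Int.eq_nat_or_neg k with ⟨n, rfl | rfl⟩
  · simpa using key n
  · have h1 : u ^ n ≠ 0 := pow_ne_zero _ h0
    rw [zpow_neg, zpow_natCast, show (u ^ n)⁻¹ - 1 = -(u ^ n)⁻¹ * (u ^ n - 1) by field_simp; ring,
      norm_mul, _root_.norm_neg, norm_inv, norm_pow, hu]
    simpa using key n

theorem Maj.mul {F : IQ} {θ : AddChar F.O Circle} {N : ℕ} {η : ℝ} (h : F.Maj θ N η) (z : F.O) :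
    ‖(θ ((N : F.O) * z) : ℂ) - 1‖ ≤ (|(z.re : ℝ)| + |(z.im : ℝ)|) * η := by
  have e : (N : F.O) * z = z.re • (N : F.O) + z.im • ((N : F.O) * ω) := by
    ext <;> simp <;> ring
  rw [e, AddChar.map_add_eq_mul, AddChar.map_zsmul_eq_zpow, AddChar.map_zsmul_eq_zpow,
    Circle.coe_mul, Circle.coe_zpow, Circle.coe_zpow]
  have h1 := norm_zpow_sub_one (Circle.norm_coe (θ (N : F.O))) z.re
  have h2 := norm_zpow_sub_one (Circle.norm_coe (θ ((N : F.O) * ω))) z.im
  have h3 : ‖((θ (N : F.O) : Circle) : ℂ) ^ z.re‖ = 1 := by rw [norm_zpow, Circle.norm_coe, one_zpow]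
  set A := ((θ (N : F.O) : Circle) : ℂ) ^ z.re
  set B := ((θ ((N : F.O) * ω) : Circle) : ℂ) ^ z.im
  rw [show A * B - 1 = A * (B - 1) + (A - 1) by ring]
  refine (norm_add_le _ _).trans ?_
  rw [norm_mul, h3, one_mul]
  have h4 := mul_le_mul_of_nonneg_left h.1 (abs_nonneg (z.re : ℝ))
  have h5 := mul_le_mul_of_nonneg_left h.2 (abs_nonneg (z.im : ℝ))
  linarith

end IQ

end Pool.Agent.Lib.DL
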