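import Pool.Agent.Lib.DL.Blue

set_option autoImplicit false

namespace Pool.Agent.Lib.DL

open QuadraticAlgebra

namespace EXIQp

theorem ded_of {a b : ℤ} (hneg : b ^ 2 + 4 * a < 0)
    (H : ∀ (x y : ℚ) (T N : ℤ), T = 2 * x + b * y → N = x * x + b * x * y - a * y * y →
      ∃ x' y' : ℤ, x' = x ∧ y' = y) : ∃ _ : IsDedekindDomain (QuadraticAlgebra ℤ a b),
        Finite (ClassGroup (QuadraticAlgebra ℤ a b)) := by
  have : Fact (∀ r : ℚ, r ^ 2 ≠ a + b * r) := ⟨fun r hr => by
    have h1 : ((b : ℚ) ^ 2 + 4 * a) < 0 := by exact_mod_cast hneg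
    have h2 : (2 * r - b) ^ 2 = (b : ℚ) ^ 2 + 4 * a := by linear_combination 4 * hr
    have := sq_nonneg (2 * r - b)
    linarith⟩
  let φ : QuadraticAlgebra ℤ a b →+* QuadraticAlgebra ℚ a b :=
    { toFun := fun z => ⟨z.re, z.im⟩
      map_one' := by ext <;> simp
      map_mul' := fun z w => by ext <;> simp
      map_zero' := by ext <;> simp
      map_add' := fun z w => by ext <;> simp }
  have hφ : Function.Injective φ := fun z w h => QuadraticAlgebra.ext
    (Int.cast_injective (α := ℚ) (congrArg QuadraticAlgebra.re h))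
    (Int.cast_injective (α := ℚ) (congrArg QuadraticAlgebra.im h))
  have : IsDomain (QuadraticAlgebra ℤ a b) := hφ.isDomain φ
  let := φ.toAlgebra
  have : IsScalarTower ℤ (QuadraticAlgebra ℤ a b) (QuadraticAlgebra ℚ a b) :=
    IsScalarTower.of_algebraMap_eq' (Subsingleton.elim _ _)
  have : IsIntegralClosure (QuadraticAlgebra ℤ a b) ℤ (QuadraticAlgebra ℚ a b) := by
    refine ⟨hφ, fun {z} => ⟨fun hz => ?_, ?_⟩⟩
    · have h1 : IsIntegral ℤ (star z) := hz.map (starRingEnd _).toIntAlgHom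
      have h2 := hz.add h1
      have h3 := hz.mul h1
      rw [← algebraMap_trace_eq_add_star, isIntegral_algebraMap_iff algebraMap_injective,
        IsIntegrallyClosed.isIntegral_iff] at h2
      rw [← algebraMap_norm_eq_mul_star, isIntegral_algebraMap_iff algebraMap_injective,
        IsIntegrallyClosed.isIntegral_iff] at h3
      obtain ⟨T, hT⟩ := h2
      obtain ⟨N, hN⟩ := h3
      obtain ⟨x, y, hx, hy⟩ := H z.re z.im T N hT hN
      exact ⟨⟨x, y⟩, QuadraticAlgebra.ext hx hy⟩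
    · rintro ⟨w, rfl⟩
      exact (Algebra.IsIntegral.isIntegral w).algebraMap
  have h1 :=
    IsIntegralClosure.isDedekindDomain ℤ ℚ (QuadraticAlgebra ℚ a b) (QuadraticAlgebra ℤ a b)
  have := ClassGroup.fintypeOfAdmissibleOfFinite (S := QuadraticAlgebra ℤ a b) ℚ
    (QuadraticAlgebra ℚ a b) AbsoluteValue.absIsAdmissible
  exact ⟨h1, inferInstance⟩

theorem int_of_squarefree {d : ℤ} (hd : Squarefree d) {q : ℚ} {n : ℤ} (h : d * q ^ 2 = n) :
    ∃ m : ℤ, (m : ℚ) = q := by
  have h1 : d * q.num ^ 2 = n * q.den ^ 2 := by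
    have h2 : (d : ℚ) * q.num ^ 2 = n * q.den ^ 2 := by
      rw [← h, ← Rat.mul_den_eq_num]; ring
    exact_mod_cast h2
  have h2 : q.den ^ 2 ∣ d.natAbs * q.num.natAbs ^ 2 := by
    rw [← Int.natAbs_pow, ← Int.natAbs_mul, h1, Int.natAbs_mul, Int.natAbs_pow,
      Int.natAbs_natCast]
    exact dvd_mul_left _ _
  have h3 := Int.squarefree_natAbs.2 hd q.den (by
    rw [← sq]; exact (Nat.Coprime.pow 2 2 q.reduced.symm).dvd_of_dvd_mul_right h2)
  exact ⟨q.num, Rat.coe_int_num_of_den_eq_one (Nat.isUnit_iff.1 h3)⟩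

end EXIQp

open EXIQp in
theorem stEXIQ : St_EXIQ := by
  intro d hneg h2
  have h4 : ¬ (4 : ℤ) ∣ d := fun h => by
    have := h2 2 (by simpa using h)
    rw [Int.isUnit_iff] at this
    omega
  by_cases h5 : d % 4 = 1
  · obtain ⟨a, ha⟩ : ∃ a : ℤ, d = 1 ^ 2 + 4 * a := ⟨d / 4, by omega⟩
    obtain ⟨a1, a2⟩ := ded_of (a := a) (b := 1) (by omega) (fun x y T N hT hN => by
        have b1 : (d : ℚ) = 1 ^ 2 + 4 * a := by exact_mod_cast ha
        have b2 : (d : ℚ) * y ^ 2 = (T ^ 2 - 4 * N : ℤ) := by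
          push_cast at hT hN ⊢
          rw [b1, hT, hN]; ring
        obtain ⟨m, rfl⟩ := int_of_squarefree h2 b2
        have b3 : d * m ^ 2 = T ^ 2 - 4 * N := by exact_mod_cast b2
        obtain ⟨c, hc⟩ : Even (T - m) := by
          have b4 : Even (T ^ 2 - m ^ 2) := ⟨2 * (N + a * m ^ 2), by
            rw [ha] at b3; linear_combination -b3⟩
          simpa [parity_simps] using b4
        refine ⟨c, m, ?_, rfl⟩
        have b5 : (T : ℚ) - m = c + c := by exact_mod_cast hc
        push_cast at hT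
        linarith)
    exact ⟨⟨a, 1, d, Or.inl ⟨rfl, by omega⟩, hneg, h2, a2⟩, rfl⟩
  · obtain ⟨a1, a2⟩ := ded_of (a := d) (b := 0) (by omega) (fun x y T N hT hN => by
        have b2 : (d : ℚ) * (2 * y) ^ 2 = (T ^ 2 - 4 * N : ℤ) := by
          push_cast at hT hN ⊢
          rw [hT, hN]; ring
        obtain ⟨m, hm⟩ := int_of_squarefree h2 b2
        rw [← hm] at b2
        have b3 : d * m ^ 2 = T ^ 2 - 4 * N := by exact_mod_cast b2
        have b4 : Even T ∧ Even m := by
          obtain ⟨e, he⟩ : ∃ e : ℤ, d = 4 * e + 2 ∨ d = 4 * e + 3 := ⟨d / 4, by omega⟩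
          rcases Int.even_or_odd' T with ⟨u, rfl | rfl⟩ <;>
          rcases Int.even_or_odd' m with ⟨v, rfl | rfl⟩ <;>
          rcases he with he | he <;> rw [he] at b3 <;>
          first
          | exact ⟨even_two_mul _, even_two_mul _⟩
          | (exfalso; ring_nf at b3; omega)
        obtain ⟨⟨u, hu⟩, v, hv⟩ := b4
        have b5 : (T : ℚ) = u + u := by exact_mod_cast hu
        have b6 : (m : ℚ) = v + v := by exact_mod_cast hv
        push_cast at hT
        exact ⟨u, v, by linarith, by linarith⟩)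
    exact ⟨⟨d, 0, d, Or.inr ⟨rfl, rfl, h5⟩, hneg, h2, a2⟩, rfl⟩

end Pool.Agent.Lib.DL
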