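import Pool.Agent.Lib.DL.Blue

set_option autoImplicit false

namespace Pool.Agent.Lib.DL

open QuadraticAlgebra Finset Filter Topology
open Pool.Agent.Lib.MP_d48457_nt (ind ind_pos ind_neg ind_nonneg ind_le_one ind_and ind_congr)

namespace EXPL

theorem ab {F : IQ} (h : F.D = -3) : F.a = -1 ∧ F.b = 1 := by
  have h1 : F.D = F.b ^ 2 + 4 * F.a := rfl
  rcases F.b_cases with h2 | h2 <;> rw [h2] at h1 <;> omega

theorem del {F : IQ} (h : F.D = -3) : F.δ = √3 := by
  rw [IQ.δ, h]; norm_num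

theorem tt {F : IQ} (h : F.D = -3) : F.t = 1 := by
  rw [IQ.t, IQ.Dn, h]
  have : (-3 : ℤ).natAbs = 3 := rfl
  rw [this, Nat.prime_three.primeFactors, card_singleton]

theorem w_eq (F : IQ) : F.w = (F.elN 1).card := by
  have := Fintype.ofFinite F.Oˣ
  rw [IQ.w, Nat.card_eq_fintype_card, ← card_univ]
  refine card_bij (fun γ _ => (γ : F.O)) (fun γ _ => ?_) (fun γ _ γ' _ h => Units.ext h)
    (fun z hz => ?_)
  · exact F.mem_elN.2 (by simpa using F.isUnit_iff_norm.1 γ.isUnit)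
  · obtain ⟨γ, hγ⟩ := F.isUnit_iff_norm.2 (by simpa using F.mem_elN.1 hz)
    exact ⟨γ, mem_univ _, hγ⟩

theorem ww {F : IQ} (h : F.D = -3) : F.w = 6 := by
  have hn : ∀ z : F.O, z.norm = z.re ^ 2 + z.re * z.im + z.im ^ 2 := fun z => by
    have h1 := F.norm_eq_Q z
    have ha : (F.a : ℝ) = -1 := by exact_mod_cast (ab h).1
    have hb : (F.b : ℝ) = 1 := by exact_mod_cast (ab h).2
    rw [IQ.Q, ha, hb] at h1
    have h2 : ((z.norm : ℤ) : ℝ) = ((z.re ^ 2 + z.re * z.im + z.im ^ 2 : ℤ) : ℝ) := by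
      rw [h1]; push_cast; ring
    exact_mod_cast h2
  have hc : ({(1, 0), (-1, 0), (0, 1), (0, -1), (1, -1), (-1, 1)} : Finset (ℤ × ℤ)).card = 6 := by
    decide
  rw [w_eq, ← hc]
  refine card_bij (fun z _ => (z.re, z.im)) (fun z hz => ?_) (fun z _ z' _ e => ?_)
    (fun p hp => ?_)
  · have h1 := F.mem_elN.1 hz
    rw [hn] at h1
    simp only [Nat.cast_one] at h1
    have hx : z.re ≤ 1 ∧ -1 ≤ z.re := by constructor <;> nlinarith [sq_nonneg (z.re + 2 * z.im)]
    have hy : z.im ≤ 1 ∧ -1 ≤ z.im := by constructor <;> nlinarith [sq_nonneg (2 * z.re + z.im)]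
    obtain ⟨hx1, hx2⟩ := hx
    obtain ⟨hy1, hy2⟩ := hy
    generalize z.re = x at *
    generalize z.im = y at *
    interval_cases x <;> interval_cases y <;> simp_all
  · exact QuadraticAlgebra.ext (congrArg Prod.fst e) (congrArg Prod.snd e)
  · refine ⟨⟨p.1, p.2⟩, F.mem_elN.2 ?_, rfl⟩
    rw [hn]
    simp only [mem_insert, mem_singleton] at hp
    rcases hp with rfl | rfl | rfl | rfl | rfl | rfl <;> norm_num

theorem root_iff {p : ℕ} (hp : p.Prime) :
    (∃ r : ℤ, (p : ℤ) ∣ r ^ 2 - 1 * r - -1) ↔ p % 3 ≠ 2 := by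
  have := Fact.mk hp
  constructor
  · rintro ⟨r, hr⟩ h2
    have h0 : ((r ^ 2 - 1 * r - -1 : ℤ) : ZMod p) = 0 := (ZMod.intCast_zmod_eq_zero_iff_dvd _ _).2 hr
    push_cast at h0
    set u : ZMod p := -(r : ZMod p) with hu
    have h1 : u ^ 2 + u + 1 = 0 := by rw [hu]; linear_combination h0
    have h3 : u ^ 3 = 1 := by linear_combination (u - 1) * h1
    have hu0 : u ≠ 0 := by
      rintro h
      rw [h] at h3
      norm_num at h3
    have h4 := ZMod.pow_card_sub_one_eq_one hu0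
    have h5 : p - 1 = 3 * (p / 3) + 1 := by omega
    rw [h5, pow_succ, pow_mul, h3, one_pow, one_mul] at h4
    rw [h4] at h1
    have h6 : ((3 : ℕ) : ZMod p) = 0 := by push_cast; linear_combination h1
    have h7 := (ZMod.natCast_eq_zero_iff _ _).1 h6
    have h8 := (Nat.prime_dvd_prime_iff_eq hp Nat.prime_three).1 h7
    omega
  · intro h2
    by_cases h3 : p % 3 = 0
    · have h8 := (Nat.prime_dvd_prime_iff_eq Nat.prime_three hp).1 (Nat.dvd_of_mod_eq_zero h3)
      exact ⟨2, by rw [← h8]; norm_num⟩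
    · have : Fact (Nat.Prime 3) := ⟨Nat.prime_three⟩
      have hd : 3 ∣ Fintype.card (ZMod p)ˣ := by
        rw [ZMod.card_units]; omega
      obtain ⟨u, hu⟩ := exists_prime_orderOf_dvd_card 3 hd
      have h4 : (u : ZMod p) ^ 3 = 1 := by
        rw [← Units.val_pow_eq_pow_val, ← hu, pow_orderOf_eq_one, Units.val_one]
      have h5 : (u : ZMod p) ≠ 1 := fun e => by
        have : u = 1 := Units.ext e
        rw [this, orderOf_one] at hu
        omega
      have h6 : (u : ZMod p) ^ 2 + u + 1 = 0 := by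
        have : ((u : ZMod p) - 1) * ((u : ZMod p) ^ 2 + u + 1) = 0 := by linear_combination h4
        exact (mul_eq_zero.1 this).resolve_left (sub_ne_zero.2 h5)
      obtain ⟨r, hr⟩ := ZMod.intCast_surjective (-(u : ZMod p))
      refine ⟨r, (ZMod.intCast_zmod_eq_zero_iff_dvd _ _).1 ?_⟩
      push_cast
      rw [hr]
      linear_combination h6

theorem inert_iff {F : IQ} (h : F.D = -3) {p : ℕ} (hp : p.Prime) : F.inert p ↔ p % 3 = 2 := by
  rw [IQ.inert, (ab h).1, (ab h).2, root_iff hp, not_not]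

theorem ram_iff {F : IQ} (h : F.D = -3) {p : ℕ} (hp : p.Prime) : F.ram p ↔ p = 3 := by
  rw [IQ.ram, h, Int.dvd_neg]
  have : ((p : ℤ) ∣ 3) ↔ p ∣ 3 := by exact_mod_cast Int.natCast_dvd_natCast (m := p) (n := 3)
  rw [this, Nat.prime_dvd_prime_iff_eq hp Nat.prime_three]

theorem jj_mul (F : IQ) {m n : ℕ} (h : Nat.Coprime m n) : F.jj (m * n) ↔ F.jj m ∧ F.jj n := by
  have key : ∀ {m n : ℕ}, Nat.Coprime m n → F.jj (m * n) → F.jj m := by
    rintro m n h ⟨⟨h0, h1⟩, h2⟩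
    refine ⟨⟨left_ne_zero_of_mul h0, fun p hp hi => ?_⟩,
      fun p hp hd => h2 p hp (hd.mul_right _)⟩
    by_cases hd : p ∣ m
    · have := h1 p hp hi
      rwa [Nat.factorization_eq_of_coprime_left h
        (Nat.mem_primeFactorsList_iff_dvd (left_ne_zero_of_mul h0) hp |>.2 hd)] at this
    · rw [Nat.factorization_eq_zero_of_not_dvd hd]; exact Even.zero
  refine ⟨fun hj => ⟨key h hj, key h.symm (by rwa [mul_comm])⟩, ?_⟩
  rintro ⟨⟨⟨a0, a1⟩, a2⟩, ⟨⟨b0, b1⟩, b2⟩⟩
  refine ⟨⟨mul_ne_zero a0 b0, fun p hp hi => ?_⟩, fun p hp hd => ?_⟩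
  · rw [Nat.factorization_mul a0 b0]
    exact (a1 p hp hi).add (b1 p hp hi)
  · rcases (Nat.Prime.dvd_mul hp).1 hd with h | h
    exacts [a2 p hp h, b2 p hp h]

theorem jj_pow (F : IQ) {p : ℕ} (hp : p.Prime) (e : ℕ) :
    F.jj (p ^ e) ↔ (F.inert p → Even e) ∧ (F.split p → e = 0) := by
  constructor
  · rintro ⟨⟨-, h1⟩, h2⟩
    refine ⟨fun hi => ?_, fun hs => by_contra fun he => h2 p hp (dvd_pow_self p he) hs⟩
    have := h1 p hp hi
    rwa [hp.factorization_pow, Finsupp.single_eq_same] at this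
  · rintro ⟨h1, h2⟩
    refine ⟨⟨pow_ne_zero _ hp.ne_zero, fun q hq hi => ?_⟩, fun q hq hd hs => ?_⟩
    · rw [hp.factorization_pow]
      by_cases e' : p = q
      · subst e'; rw [Finsupp.single_eq_same]; exact h1 hi
      · rw [Finsupp.single_eq_of_ne (Ne.symm e')]; exact Even.zero
    · have e' := (Nat.prime_dvd_prime_iff_eq hq hp).1 (hq.dvd_of_dvd_pow hd)
      subst e'
      rw [h2 hs, pow_zero] at hd
      exact hq.one_lt.ne' (Nat.dvd_one.1 hd)

theorem loc {F : IQ} (h : F.D = -3) {p : ℕ} (hp : p.Prime) :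
    (∑' e : ℕ, ind (F.jj (p ^ e)) / ((p ^ e : ℕ) : ℝ)) * (if p = 3 then 2 / 3 else 1) =
      if p % 3 = 2 then (1 - 1 / (p : ℝ) ^ 2)⁻¹ else 1 := by
  have hi := inert_iff h hp
  have hr := ram_iff h hp
  have h2 : (2 : ℝ) ≤ p := by exact_mod_cast hp.two_le
  by_cases h3 : p = 3
  · subst h3
    have e : ∀ e : ℕ, ind (F.jj (3 ^ e)) / ((3 ^ e : ℕ) : ℝ) = (1 / 3 : ℝ) ^ e := fun e => by
      rw [ind_pos ((jj_pow F hp e).2 ⟨fun a => absurd (hi.1 a) (by norm_num),
        fun a => absurd (hr.2 rfl) a.2⟩)]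
      push_cast
      rw [one_div_pow]
    rw [tsum_congr e, tsum_geometric_of_lt_one (by norm_num) (by norm_num)]
    norm_num
  rw [if_neg h3, mul_one]
  by_cases h4 : p % 3 = 2
  · rw [if_pos h4]
    have hj : ∀ e : ℕ, F.jj (p ^ e) ↔ Even e := fun e => by
      rw [jj_pow F hp]
      exact ⟨fun a => a.1 (hi.2 h4), fun a => ⟨fun _ => a, fun b => absurd (hi.2 h4) b.1⟩⟩
    have h5 : 1 / (p : ℝ) ^ 2 < 1 := by
      rw [div_lt_one (by positivity)]; nlinarith
    have s1 : HasSum (fun k : ℕ => ind (F.jj (p ^ (2 * k))) / ((p ^ (2 * k) : ℕ) : ℝ))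
        (1 - 1 / (p : ℝ) ^ 2)⁻¹ := by
      have := hasSum_geometric_of_lt_one (r := 1 / (p : ℝ) ^ 2) (by positivity) h5
      have e : ∀ k : ℕ, ind (F.jj (p ^ (2 * k))) / ((p ^ (2 * k) : ℕ) : ℝ)
          = (1 / (p : ℝ) ^ 2) ^ k := fun k => by
        rw [ind_pos ((hj _).2 (even_two_mul k))]
        push_cast
        rw [one_div_pow, ← pow_mul]
      simpa only [e] using this
    have s2 : HasSum (fun k : ℕ => ind (F.jj (p ^ (2 * k + 1))) / ((p ^ (2 * k + 1) : ℕ) : ℝ))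
        0 := by
      have e : ∀ k : ℕ, ind (F.jj (p ^ (2 * k + 1))) / ((p ^ (2 * k + 1) : ℕ) : ℝ) = 0 :=
        fun k => by
          rw [ind_neg (fun a => (Nat.not_even_iff_odd.2 (odd_two_mul_add_one k)) ((hj _).1 a)),
            zero_div]
      simpa only [e] using hasSum_zero
    have := (HasSum.even_add_odd (f := fun e : ℕ => ind (F.jj (p ^ e)) / ((p ^ e : ℕ) : ℝ))
      s1 s2).tsum_eq
    rw [this, add_zero]
  · rw [if_neg h4]
    have hs : F.split p := ⟨fun a => h4 (hi.1 a), fun a => h3 (hr.1 a)⟩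
    rw [tsum_eq_single 0 (fun e he => by
      rw [ind_neg (fun a => he (((jj_pow F hp e).1 a).2 hs)), zero_div])]
    rw [ind_pos ((jj_pow F hp 0).2 ⟨fun _ => Even.zero, fun _ => rfl⟩)]
    simp

end EXPL

open EXPL in
theorem stEXPL (hJ : St_JSUM) : St_EXPL := by
  intro F h
  have hE := EulerProduct.eulerProduct_hasProd (f := fun n : ℕ => ind (F.jj n) / (n : ℝ))
    (by
      have := (jj_pow F Nat.prime_two 0).2 ⟨fun _ => Even.zero, fun _ => rfl⟩
      rw [pow_zero] at this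
      simp [ind_pos this])
    (fun {m n} hc => by
      rw [ind_congr (jj_mul F hc), ind_and]
      push_cast
      rw [div_mul_div_comm])
    ((hJ F).1.norm) (by simp)
  have hc : HasProd (fun p : Nat.Primes => if (p : ℕ) = 3 then (2 / 3 : ℝ) else 1) (2 / 3) := by
    have := hasProd_single (f := fun p : Nat.Primes => if (p : ℕ) = 3 then (2 / 3 : ℝ) else 1)
      (⟨3, Nat.prime_three⟩ : Nat.Primes) (fun b hb => if_neg (fun e => hb (Subtype.ext e)))
    simpa using this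
  have h3 := (hE.mul hc).tprod_eq
  rw [tprod_congr (fun p : Nat.Primes => loc h p.2)] at h3
  rw [h3, IQ.ee, del h, ww h, tt h, IQ.JJ]
  push_cast
  ring

end Pool.Agent.Lib.DL
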