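import Pool.Agent.Lib.DL.Blue

set_option autoImplicit false

namespace Pool.Agent.Lib.DL

open Finset

namespace FIP

/-- The layer statement with an arbitrary decidability instance. -/
theorem layer (hL : St_LAYER) {X Y Z : Type} [Fintype X] [Fintype Y] [Fintype Z]
    [inst : DecidableEq Z] (φ : X → Y → Z) (ν : Z → ℝ) (h0 : ∀ z, 0 ≤ ν z)
    (h : ∀ (A : Finset X) (B : Finset Y), A.Nonempty → B.Nonempty →
      (A.card : ℝ) / Fintype.card X * (B.card / Fintype.card Y) ≤
        (∑ z ∈ image₂ φ A B, ν z) ^ 2) : FI φ ν := by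
  have e : inst = fun a b => Classical.propDecidable (a = b) := Subsingleton.elim _ _
  subst e
  exact hL X Y Z φ ν h0 h

/-- Pushing forward the counting measure along a difference map. -/
theorem push {X Z : Type} [AddCommGroup X] [Fintype X] [DecidableEq X] [DecidableEq Z]
    (N : X → Z) (A B : Finset X)
    (hA : A.Nonempty) (hB : B.Nonempty) :
    A.card * B.card ≤ (∑ z ∈ image₂ (fun x y => N (y - x)) A B,
      (univ.filter (fun x => N x = z)).card) ^ 2 := by
  obtain ⟨x₀, hx⟩ := hA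
  obtain ⟨y₀, hy⟩ := hB
  have key : ∀ S : Finset X, (∀ s ∈ S, N s ∈ image₂ (fun x y => N (y - x)) A B) →
      S.card ≤ ∑ z ∈ image₂ (fun x y => N (y - x)) A B,
        (univ.filter (fun x => N x = z)).card := by
    intro S hS
    rw [card_eq_sum_card_fiberwise hS]
    exact sum_le_sum fun z _ => card_le_card (filter_subset_filter _ (subset_univ _))
  have h1 := key (B.image fun y => y - x₀) (by
    intro s hs
    obtain ⟨y, hy', rfl⟩ := mem_image.1 hs
    exact mem_image₂.2 ⟨x₀, hx, y, hy', rfl⟩)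
  have h2 := key (A.image fun x => y₀ - x) (by
    intro s hs
    obtain ⟨x, hx', rfl⟩ := mem_image.1 hs
    exact mem_image₂.2 ⟨x, hx', y₀, hy, rfl⟩)
  rw [card_image_of_injective _ (sub_left_injective)] at h1
  rw [card_image_of_injective _ (sub_right_injective)] at h2
  rw [sq]
  exact Nat.mul_le_mul h2 h1

end FIP

open Classical in
theorem stFIP (hL : St_LAYER) (hS : St_SPL) (hI : St_LOCI) (hR : St_LOCR) : St_FIP := by
  intro F p k _ hp
  have hq : (0 : ℝ) < (p : ℝ) ^ k := pow_pos (Nat.cast_pos.2 hp.pos) _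
  have hp0 : (0 : ℝ) < p := Nat.cast_pos.2 hp.pos
  have hc : (Fintype.card (ZMod (p ^ k) × ZMod (p ^ k)) : ℝ) = (p : ℝ) ^ k * (p : ℝ) ^ k := by
    rw [Fintype.card_prod, ZMod.card]; push_cast; rfl
  have gen : FI (fun x y : ZMod (p ^ k) × ZMod (p ^ k) => F.NQ (p ^ k) (y - x))
      (fun a => ((univ.filter (fun x => F.NQ (p ^ k) x = a)).card : ℝ) /
        ((p : ℝ) ^ k * (p : ℝ) ^ k)) := by
    refine FIP.layer hL _ _ (fun z => by positivity) fun A B hA hB => ?_
    have h := FIP.push (F.NQ (p ^ k)) A B hA hB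
    have h' : (A.card : ℝ) * B.card ≤ (∑ z ∈ image₂ (fun x y => F.NQ (p ^ k) (y - x)) A B,
        ((univ.filter (fun x => F.NQ (p ^ k) x = z)).card : ℝ)) ^ 2 := by
      exact_mod_cast h
    rw [hc, ← sum_div, div_mul_div_comm, div_pow, sq ((p : ℝ) ^ k * (p : ℝ) ^ k)]
    exact div_le_div_of_nonneg_right h' (by positivity)
  by_cases hi : F.inert p
  · refine ⟨_, fun a => ⟨by positivity, ?_⟩, gen⟩
    have h : (p : ℝ) * (univ.filter (fun x => F.NQ (p ^ k) x = a)).card ≤
        ((p : ℝ) + 1) * (p : ℝ) ^ k := by exact_mod_cast hI F p k hp hi a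
    rw [IQ.cp, if_pos hi, div_le_div_iff₀ (by positivity) hq]
    have e : (1 + 1 / (p : ℝ)) * ((p : ℝ) ^ k * (p : ℝ) ^ k) =
        ((p : ℝ) + 1) * (p : ℝ) ^ k / p * (p : ℝ) ^ k := by field_simp
    rw [e]
    refine mul_le_mul_of_nonneg_right ?_ hq.le
    rw [le_div_iff₀ hp0]
    linarith
  by_cases hr : F.ram p
  · refine ⟨_, fun a => ⟨by positivity, ?_⟩, gen⟩
    have h : ((univ.filter (fun x => F.NQ (p ^ k) x = a)).card : ℝ) ≤ 2 * (p : ℝ) ^ k := by
      exact_mod_cast hR F p k hp hr a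
    rw [IQ.cp, if_neg hi, if_pos hr, div_le_div_iff₀ (by positivity) hq, ← mul_assoc]
    exact mul_le_mul_of_nonneg_right h hq.le
  · refine ⟨fun _ => 1 / (p : ℝ) ^ k, fun a => ⟨by positivity, ?_⟩, ?_⟩
    · rw [IQ.cp, if_neg hi, if_neg hr]
    refine FIP.layer hL _ _ (fun z => by positivity) fun A B hA hB => ?_
    have h := hS F p k hp ⟨hi, hr⟩ A B hA hB
    have h' : (A.card : ℝ) * B.card ≤ ((p : ℝ) ^ k *
        (image₂ (fun x y => F.NQ (p ^ k) (y - x)) A B).card) ^ 2 := by exact_mod_cast h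
    rw [hc, sum_const, nsmul_eq_mul, div_mul_div_comm, div_le_iff₀ (by positivity)]
    refine h'.trans_eq ?_
    field_simp

end Pool.Agent.Lib.DL
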