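import Pool.Agent.Lib.DL.Blue

set_option autoImplicit false

namespace Pool.Agent.Lib.DL

open Finset

namespace FIQ

theorem one (F : IQ) : FI (fun x y : ZMod 1 × ZMod 1 => F.NQ 1 (y - x)) (fun _ => 1) := by
  intro f g h _ _ _ H
  have := H 0 0
  beta_reduce at this
  rw [Fintype.sum_subsingleton f 0, Fintype.sum_subsingleton g 0,
    Fintype.sum_subsingleton _ (F.NQ 1 (0 - 0))]
  simpa using this

theorem map_NQ (F : IQ) {m n : ℕ} (e : ZMod m →+* ZMod n) (x y : ZMod m × ZMod m) :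
    e (F.NQ m (y - x)) = F.NQ n ((e y.1, e y.2) - (e x.1, e x.2)) := by
  simp [IQ.NQ]

end FIQ

theorem stFIQ (hP : St_FIP) (hT : St_TENS) : St_FIQ := by
  intro F Q
  induction Q using Nat.recOnPosPrimePosCoprime with
  | prime_pow p n hp hn =>
    intro _
    rw [Nat.primeFactors_prime_pow hn.ne' hp, prod_singleton, Nat.cast_pow]
    exact hP F p n hp
  | zero =>
    intro h
    exact absurd rfl h.ne
  | one =>
    intro _
    exact ⟨fun _ => 1, fun _ => by simp, FIQ.one F⟩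
  | coprime a b ha hb hab iha ihb =>
    intro _
    have : NeZero a := ⟨by omega⟩
    have : NeZero b := ⟨by omega⟩
    obtain ⟨ν₁, h1, k1⟩ := iha
    obtain ⟨ν₂, h2, k2⟩ := ihb
    let e := ZMod.chineseRemainder hab
    let eX : ZMod (a * b) × ZMod (a * b) ≃ (ZMod a × ZMod a) × (ZMod b × ZMod b) :=
      (e.toEquiv.prodCongr e.toEquiv).trans (Equiv.prodProdProdComm _ _ _ _)
    refine ⟨fun z => ν₁ (e z).1 * ν₂ (e z).2, fun z => ⟨mul_nonneg (h1 _).1 (h2 _).1, ?_⟩, ?_⟩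
    · rw [hab.primeFactors_mul, prod_union hab.disjoint_primeFactors, Nat.cast_mul,
        ← div_mul_div_comm]
      exact mul_le_mul (h1 _).2 (h2 _).2 (h2 _).1 ((h1 (e z).1).1.trans (h1 _).2)
    · refine hT _ _ _ _ _ _ _ _ _ _ _ _ ν₁ ν₂ eX eX e.toEquiv (fun z => (h1 z).1)
        (fun z => (h2 z).1) (fun x y => Prod.ext ?_ ?_) k1 k2
      · exact FIQ.map_NQ F ((RingHom.fst _ _).comp e.toRingHom) x y
      · exact FIQ.map_NQ F ((RingHom.snd _ _).comp e.toRingHom) x y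

end Pool.Agent.Lib.DL
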