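import Pool.Agent.Lib.DL.Blue

set_option autoImplicit false

namespace Pool.Agent.Lib.DL

open QuadraticAlgebra Finset Filter Topology

theorem DD_eq_nd (F : IQ) {P : Finset ℂ} {φ : ℂ → F.O} {lam : ℝ} (hl : 0 < lam)
    (h : ∀ x ∈ P, ∀ y ∈ P, ((φ x - φ y).norm : ℝ) = lam * dist x y ^ 2) :
    (P.image φ).card = P.card ∧ DD P = F.nd (P.image φ) := by
  have hinj : Set.InjOn φ P := by
    intro x hx y hy e
    have h1 := h x hx y hy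
    rw [e, sub_self, QuadraticAlgebra.norm_zero, Int.cast_zero] at h1
    have h2 : dist x y ^ 2 = 0 := by
      rcases mul_eq_zero.1 h1.symm with h3 | h3
      · exact absurd h3 hl.ne'
      · exact h3
    exact dist_eq_zero.1 (pow_eq_zero_iff two_ne_zero |>.1 h2)
  refine ⟨card_image_of_injOn hinj, ?_⟩
  let g : ℤ → ℝ := fun m => √((m : ℝ) / lam)
  have hg : ∀ x ∈ P, ∀ y ∈ P, g (φ x - φ y).norm = dist x y := fun x hx y hy => by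
    simp only [g]
    rw [h x hx y hy, mul_div_cancel_left₀ _ hl.ne', Real.sqrt_sq dist_nonneg]
  have e : {d : ℝ | ∃ p ∈ P, ∃ q ∈ P, p ≠ q ∧ d = dist p q}
      = g '' ((P.image φ).offDiag.image (fun p => (p.1 - p.2).norm) : Finset ℤ) := by
    ext d
    simp only [Set.mem_ofPred_eq, Set.mem_image, mem_coe, mem_image, mem_offDiag]
    constructor
    · rintro ⟨p, hp, q, hq, hne, rfl⟩
      exact ⟨_, ⟨(φ p, φ q), ⟨⟨p, hp, rfl⟩, ⟨q, hq, rfl⟩, fun e => hne (hinj hp hq e)⟩, rfl⟩,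
        hg p hp q hq⟩
    · rintro ⟨_, ⟨⟨_, _⟩, ⟨⟨p, hp, rfl⟩, ⟨q, hq, rfl⟩, hne⟩, rfl⟩, rfl⟩
      exact ⟨p, hp, q, hq, fun e => hne (by rw [e]), hg p hp q hq⟩
  rw [DD, e, Set.InjOn.ncard_image, Set.ncard_coe_finset, IQ.nd]
  intro m hm m' hm' e
  simp only [mem_coe, mem_image, mem_offDiag] at hm hm'
  obtain ⟨p, -, rfl⟩ := hm
  obtain ⟨p', -, rfl⟩ := hm'
  have h1 : (0 : ℝ) ≤ (p.1 - p.2).norm := by exact_mod_cast F.norm_nonneg' _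
  have h2 : (0 : ℝ) ≤ (p'.1 - p'.2).norm := by exact_mod_cast F.norm_nonneg' _
  have h3 := (Real.sqrt_inj (by positivity) (by positivity)).1 e
  rw [div_left_inj' hl.ne'] at h3
  exact_mod_cast h3

theorem DD_image (F : IQ) (P : Finset F.O) :
    (P.image F.σ).card = P.card ∧ DD (P.image F.σ) = F.nd P := by
  refine ⟨card_image_of_injective _ F.σ_injective, ?_⟩
  have h := DD_eq_nd F (P := P.image F.σ) (φ := Function.invFun F.σ) (lam := 1) one_pos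
    (fun x hx y hy => by
      obtain ⟨x, -, rfl⟩ := mem_image.1 hx
      obtain ⟨y, -, rfl⟩ := mem_image.1 hy
      rw [Function.leftInverse_invFun F.σ_injective, Function.leftInverse_invFun F.σ_injective,
        one_mul, dist_eq_norm, ← map_sub, F.norm_σ_sq])
  rw [h.2, image_image]
  congr 1
  rw [(Function.leftInverse_invFun F.σ_injective).comp_eq_id, image_id]

theorem hex_ab {F : IQ} (h : F.D = -3) : F.a = -1 ∧ F.b = 1 := by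
  have h1 : F.D = F.b ^ 2 + 4 * F.a := rfl
  rcases F.b_cases with h2 | h2 <;> rw [h2] at h1 <;> omega

theorem hex_δ {F : IQ} (h : F.D = -3) : F.δ = √3 := by
  rw [IQ.δ, h]; norm_num

theorem hex_σ {F : IQ} (h : F.D = -3) (z : F.O) :
    F.σ z = (z.re : ℂ) + (z.im : ℂ) * ((1 / 2 : ℂ) + ((√3 / 2 : ℝ) : ℂ) * Complex.I) := by
  apply Complex.ext <;> simp [IQ.σ_apply, IQ.pt, hex_δ h, (hex_ab h).2]

theorem hex_inert {F F' : IQ} (h : F.D = -3) (h' : F'.D = -3) : F.inert = F'.inert := by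
  funext p
  simp only [IQ.inert, (hex_ab h).1, (hex_ab h).2, (hex_ab h').1, (hex_ab h').2]

/-- The analytic input in one statement. -/
theorem exists_const (hZ : St_ZETA) (hJ : St_JSUM) (hL : St_LAND) (F : IQ) :
    ∃ B : ℝ, 0 < B ∧ IsB F.inert B ∧ 16 / Real.pi ^ 2 * F.ee ≤ F.cF B ^ 2 ∧
      (IsPrincipalIdealRing F.O → F.cF B ^ 2 = 16 / Real.pi ^ 2 * F.ee) := by
  obtain ⟨κ, h1, h2, h3⟩ := hZ F
  have hπ := Real.pi_pos
  have hδ := F.δ_pos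
  have hw : (0 : ℝ) < F.w := by exact_mod_cast F.w_pos
  have hκ : 0 < κ := lt_of_lt_of_le (by positivity) h2
  have hJ1 : 0 < F.JJ := lt_of_lt_of_le (prod_pos (fun p hp => by
    have : (2 : ℝ) ≤ p := by exact_mod_cast (Nat.prime_of_mem_primeFactors hp).two_le
    have : 1 / (p : ℝ) ≤ 1 / 2 := one_div_le_one_div_of_le (by norm_num) this
    exact inv_pos.2 (by linarith))) (hJ F).2
  have e : F.cF √(κ * F.JJ / Real.pi) ^ 2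
      = κ * (16 / Real.pi ^ 2 * (F.δ ^ 2 * F.JJ / (Real.pi * 4 ^ F.t))) := by
    rw [IQ.cF, mul_pow, div_pow (2 * _), mul_pow 2, Real.sq_sqrt (by positivity), ← pow_mul,
      mul_comm F.t 2, pow_mul]
    field_simp
    norm_num
    ring
  have e2 : 16 / Real.pi ^ 2 * F.ee = 2 * Real.pi / (F.w * F.δ) *
      (16 / Real.pi ^ 2 * (F.δ ^ 2 * F.JJ / (Real.pi * 4 ^ F.t))) := by
    rw [IQ.ee]; field_simp
  refine ⟨_, Real.sqrt_pos.2 (by positivity), hL F κ h1, ?_, fun hp => ?_⟩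
  · rw [e, e2]; exact mul_le_mul_of_nonneg_right h2 (by positivity)
  · rw [e, e2, h3 hp]

theorem cF_pos (F : IQ) {B : ℝ} (hB : 0 < B) : 0 < F.cF B := by
  have := F.δ_pos
  have := Real.pi_pos
  unfold IQ.cF
  positivity

theorem ev_lin {c C : ℝ} (hc : 0 < c) :
    ∀ᶠ n : ℕ in atTop, C * n / √(Real.log n) + 1 ≤ c * n := by
  have h1 : Tendsto (fun n : ℕ => √(Real.log n)) atTop atTop :=
    Real.tendsto_sqrt_atTop.comp (Real.tendsto_log_atTop.comp tendsto_natCast_atTop_atTop)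
  filter_upwards [h1.eventually_ge_atTop (2 * |C| / c), h1.eventually_gt_atTop 0,
    (tendsto_natCast_atTop_atTop (R := ℝ)).eventually_ge_atTop (2 / c)] with n h2 h3 h4
  rw [div_le_iff₀ hc] at h2 h4
  have h5 : C * n / √(Real.log n) ≤ c / 2 * n := by
    rw [div_le_iff₀ h3]
    have := le_abs_self C
    have : (0 : ℝ) ≤ n := Nat.cast_nonneg n
    nlinarith
  linarith

/-- The lower bound for subsets of a periodic set. -/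
theorem lower (hR : St_RED) (hC : St_CORE) (T : Finset ℂ) (u v : ℂ)
    (huv : LinearIndependent ℝ ![u, v]) : ∃ F : IQ, ∀ B : ℝ, IsB F.inert B → 0 < B →
      ∀ K C ε : ℝ, 0 < ε → ∀ᶠ n : ℕ in atTop, ∀ Q : Finset ℂ, Q.card = n →
        (∀ z ∈ Q, ∃ t ∈ T, ∃ a b : ℤ, z = t + a * u + b * v) →
        (∀ z ∈ Q, ∀ z' ∈ Q, dist z z' ≤ K * √n) → C * n / √(Real.log n) ≤ DD Q ∨
          ((F.cF B - ε) * n / √(Real.log n) ≤ DD Q ∧
            ∃ P : Finset F.O, P.card = n ∧ F.nd P = DD Q) := by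
  obtain ⟨F, c, lam, hc, hl, h⟩ := hR T u v huv
  refine ⟨F, fun B hB hB0 K C ε hε => ?_⟩
  filter_upwards [ev_lin (C := C) hc, hC F B hB hB0 (lam * K ^ 2) ε hε] with n h1 h2 Q hQ hT hK
  rcases h Q hT with h3 | ⟨φ, h3⟩
  · left; rw [hQ] at h3; linarith
  · right
    obtain ⟨h4, h5⟩ := DD_eq_nd F hl h3
    refine ⟨?_, _, h4.trans hQ, h5.symm⟩
    rw [h5]
    refine h2 _ (h4.trans hQ) (fun x hx y hy => ?_)
    obtain ⟨x, hx', rfl⟩ := mem_image.1 hx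
    obtain ⟨y, hy', rfl⟩ := mem_image.1 hy
    rw [h3 x hx' y hy', mul_assoc]
    refine mul_le_mul_of_nonneg_left ?_ hl.le
    have h6 := pow_le_pow_left₀ dist_nonneg (hK x hx' y hy') 2
    rwa [mul_pow, Real.sq_sqrt (Nat.cast_nonneg n)] at h6

theorem hex_data (hE : St_EXIQ) (hZ : St_ZETA) (hJ : St_JSUM) (hL : St_LAND) (h1 : St_CONST1)
    (h2 : St_CONST2) : ∃ (F₀ : IQ) (B₀ : ℝ), F₀.D = -3 ∧ 0 < B₀ ∧ IsB F₀.inert B₀ ∧
      F₀.cF B₀ = 4 / Real.pi * (F₀.δ / 2) * B₀ ∧ F₀.cF B₀ ^ 2 = 16 / Real.pi ^ 2 * F₀.ee ∧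
      ∀ F : IQ, ∃ B, 0 < B ∧ IsB F.inert B ∧
        ((F.D = -3 ∧ F.cF B = F₀.cF B₀) ∨ F₀.cF B₀ < F.cF B) := by
  obtain ⟨F₀, hF₀⟩ := hE (-3) (by norm_num) (by
    rw [← Int.squarefree_natAbs]; exact Nat.prime_three.prime.squarefree)
  have hD : F₀.D = -3 := by
    rcases F₀.D_cases with ⟨-, h, -⟩ | ⟨-, -, -, h⟩
    · rw [h, hF₀]
    · rw [hF₀] at h; omega
  obtain ⟨B₀, a1, a2, -, a4⟩ := exists_const hZ hJ hL F₀
  obtain ⟨b1, b2, b3⟩ := h2 F₀ hD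
  refine ⟨F₀, B₀, hD, a1, a2, by rw [IQ.cF, b2]; ring, a4 b1, fun F => ?_⟩
  by_cases hF : F.D = -3
  · refine ⟨B₀, a1, hex_inert hD hF ▸ a2, Or.inl ⟨hF, ?_⟩⟩
    rw [IQ.cF, IQ.cF, b2, (h2 F hF).2.1, hex_δ hF, hex_δ hD]
  · obtain ⟨B, c1, c2, c3, -⟩ := exists_const hZ hJ hL F
    refine ⟨B, c1, c2, Or.inr ?_⟩
    refine lt_of_pow_lt_pow_left₀ 2 (cF_pos F c1).le ?_
    rw [a4 b1]
    refine lt_of_lt_of_le ?_ c3
    have := h1 F hF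
    have hπ := Real.pi_pos
    exact mul_lt_mul_of_pos_left (by linarith) (by positivity)

theorem finalA (hE : St_EXIQ) (hZ : St_ZETA) (hJ : St_JSUM) (hL : St_LAND) (h1 : St_CONST1)
    (h2 : St_CONST2) (hR : St_RED) (hC : St_CORE) (hD : St_DISC)
    (T : Finset ℂ) (u v : ℂ) (huv : LinearIndependent ℝ ![u, v]) (K : ℝ) :
    ∃ n₀ : ℕ, ∀ n : ℕ, n₀ ≤ n → ∃ P : Finset ℂ, P.card = n ∧
      (∀ p ∈ P, ∃ a b : ℤ,
        p = (a : ℂ) + (b : ℂ) * ((1 / 2 : ℂ) + ((Real.sqrt 3 / 2 : ℝ) : ℂ) * Complex.I)) ∧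
      ∀ Q : Finset ℂ, Q.card = n → (∀ z ∈ Q, ∃ t ∈ T, ∃ a b : ℤ, z = t + a * u + b * v) →
        (∀ z ∈ Q, ∀ z' ∈ Q, dist z z' ≤ K * √n) → DD P ≤ DD Q := by
  classical
  obtain ⟨F₀, B₀, a1, a2, a3, a4, -, a5⟩ := hex_data hE hZ hJ hL h1 h2
  obtain ⟨F, hF⟩ := lower hR hC T u v huv
  obtain ⟨B, b1, b2, b3⟩ := a5 F
  obtain ⟨ε, hε, hε'⟩ : ∃ ε : ℝ, 0 < ε ∧ (F.D = -3 ∨ F₀.cF B₀ + ε ≤ F.cF B - ε) := by
    rcases b3 with b3 | b3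
    · exact ⟨1, one_pos, Or.inl b3.1⟩
    · exact ⟨(F.cF B - F₀.cF B₀) / 2, by linarith, Or.inr (by linarith)⟩
  rw [← eventually_atTop]
  filter_upwards [hF B b2 b1 K (F₀.cF B₀ + ε) ε hε, hD F₀ B₀ a3 ε hε] with n c1 c2
  obtain ⟨P₀, d1, -, d3⟩ := c2
  rw [← a4] at d3
  have hex : ∀ (G : IQ), G.D = -3 → ∀ P : Finset G.O, P.card = n → ∃ P' : Finset ℂ,
      (P'.card = n ∧ ∀ p ∈ P', ∃ a b : ℤ,
        p = (a : ℂ) + (b : ℂ) * ((1 / 2 : ℂ) + ((Real.sqrt 3 / 2 : ℝ) : ℂ) * Complex.I)) ∧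
      DD P' = G.nd P := fun G hG P hP =>
    ⟨P.image G.σ, ⟨(DD_image G P).1.trans hP, fun p hp => by
      obtain ⟨z, -, rfl⟩ := mem_image.1 hp
      exact ⟨z.re, z.im, hex_σ hG z⟩⟩, (DD_image G P).2⟩
  obtain ⟨P₁, e1, e2⟩ := hex F₀ a1 P₀ d1
  obtain ⟨P, f1, f2⟩ := (measure DD).wf.has_min {P' : Finset ℂ | P'.card = n ∧ ∀ p ∈ P', ∃ a b : ℤ,
    p = (a : ℂ) + (b : ℂ) * ((1 / 2 : ℂ) + ((Real.sqrt 3 / 2 : ℝ) : ℂ) * Complex.I)} ⟨P₁, e1⟩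
  have f3 : ∀ P', (P'.card = n ∧ ∀ p ∈ P', ∃ a b : ℤ,
      p = (a : ℂ) + (b : ℂ) * ((1 / 2 : ℂ) + ((Real.sqrt 3 / 2 : ℝ) : ℂ) * Complex.I)) →
      DD P ≤ DD P' := fun P' hP' => not_lt.1 (f2 P' hP')
  have f4 : (DD P : ℝ) ≤ (F₀.cF B₀ + ε) * n / √(Real.log n) := by
    refine le_trans ?_ d3
    rw [← e2]
    exact_mod_cast f3 P₁ e1
  refine ⟨P, f1.1, f1.2, fun Q g1 g2 g3 => ?_⟩
  rcases c1 Q g1 g2 g3 with g4 | ⟨g4, P', g5, g6⟩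
  · exact_mod_cast f4.trans g4
  rcases hε' with g7 | g7
  · obtain ⟨P'', k1, k2⟩ := hex F g7 P' g5
    rw [← g6, ← k2]
    exact f3 P'' k1
  · have : (F₀.cF B₀ + ε) * n / √(Real.log n) ≤ (F.cF B - ε) * n / √(Real.log n) := by
      gcongr
    exact_mod_cast f4.trans (this.trans g4)

theorem finalB (hE : St_EXIQ) (hZ : St_ZETA) (hJ : St_JSUM) (hL : St_LAND) (h1 : St_CONST1)
    (h2 : St_CONST2) (hR : St_RED) (hC : St_CORE) (hD : St_DISC) :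
    ∃ c : ℝ, 0 < c ∧ (∃ F : IQ, F.D = -3 ∧ c ^ 2 = 16 / Real.pi ^ 2 * F.ee) ∧
      (∀ ε : ℝ, 0 < ε → ∀ᶠ n : ℕ in atTop, ∃ P : Finset ℂ, P.card = n ∧
      (∀ p ∈ P, ∃ a b : ℤ,
        p = (a : ℂ) + (b : ℂ) * ((1 / 2 : ℂ) + ((Real.sqrt 3 / 2 : ℝ) : ℂ) * Complex.I)) ∧
      (∀ p ∈ P, ∀ a b : ℤ,
        ‖(a : ℂ) + (b : ℂ) * ((1 / 2 : ℂ) + ((Real.sqrt 3 / 2 : ℝ) : ℂ) * Complex.I)‖ < ‖p‖ →
        (a : ℂ) + (b : ℂ) * ((1 / 2 : ℂ) + ((Real.sqrt 3 / 2 : ℝ) : ℂ) * Complex.I) ∈ P) ∧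
      (DD P : ℝ) ≤ (c + ε) * n / √(Real.log n)) ∧
    ∀ (T : Finset ℂ) (u v : ℂ), LinearIndependent ℝ ![u, v] → ∀ K ε : ℝ, 0 < ε →
      ∀ᶠ n : ℕ in atTop, ∀ Q : Finset ℂ, Q.card = n →
        (∀ z ∈ Q, ∃ t ∈ T, ∃ a b : ℤ, z = t + a * u + b * v) →
        (∀ z ∈ Q, ∀ z' ∈ Q, dist z z' ≤ K * √n) → (c - ε) * n / √(Real.log n) ≤ DD Q := by
  classical
  obtain ⟨F₀, B₀, a1, a2, a3, a4, a6, a5⟩ := hex_data hE hZ hJ hL h1 h2
  refine ⟨F₀.cF B₀, cF_pos F₀ a2, ⟨F₀, a1, a6⟩, fun ε hε => ?_, fun T u v huv K ε hε => ?_⟩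
  · filter_upwards [hD F₀ B₀ a3 ε hε] with n ⟨P, d1, d2, d3⟩
    refine ⟨P.image F₀.σ, (DD_image F₀ P).1.trans d1, fun p hp => ?_, fun p hp a b h => ?_, ?_⟩
    · obtain ⟨z, -, rfl⟩ := mem_image.1 hp
      exact ⟨z.re, z.im, hex_σ a1 z⟩
    · obtain ⟨z, hz, rfl⟩ := mem_image.1 hp
      have e := hex_σ a1 ⟨a, b⟩
      simp only at e
      rw [← e] at h ⊢
      refine mem_image_of_mem _ (d2 z hz _ ?_)
      have h3 := pow_lt_pow_left₀ h (norm_nonneg _) two_ne_zero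
      rw [F₀.norm_σ_sq, F₀.norm_σ_sq] at h3
      exact_mod_cast h3
    · rw [(DD_image F₀ P).2, a4]; exact d3
  · obtain ⟨F, hF⟩ := lower hR hC T u v huv
    obtain ⟨B, b1, b2, b3⟩ := a5 F
    filter_upwards [hF B b2 b1 K (F₀.cF B₀ - ε) ε hε] with n c1 Q g1 g2 g3
    rcases c1 Q g1 g2 g3 with g4 | ⟨g4, -⟩
    · exact g4
    · refine le_trans ?_ g4
      have : F₀.cF B₀ ≤ F.cF B := by
        rcases b3 with b3 | b3
        · exact b3.2.ge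
        · exact b3.le
      gcongr

end Pool.Agent.Lib.DL
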