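import Pool.Agent.Lib.DL.Blue

set_option autoImplicit false

namespace Pool.Agent.Lib.DL

open QuadraticAlgebra Finset Filter Topology
open Pool.Agent.Lib.MP_d48457_nt (ind ind_pos ind_neg ind_nonneg ind_le_one)

namespace GLB

theorem tele (N : ℕ) :
    ∏ n ∈ Icc 2 (N + 1), (1 - 1 / (n : ℝ) ^ 2)⁻¹ = 2 * ((N : ℝ) + 1) / ((N : ℝ) + 2) := by
  induction N with
  | zero => simp
  | succ N ih =>
    rw [Finset.prod_Icc_succ_top (by omega), ih]
    have h1 : (0 : ℝ) < (N : ℝ) + 1 := by positivity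
    have h2 : (0 : ℝ) < (N : ℝ) + 2 := by positivity
    have h3 : (0 : ℝ) < (N : ℝ) + 3 := by positivity
    have e : (1 - 1 / (((N + 1 + 1 : ℕ) : ℝ)) ^ 2) = ((N : ℝ) + 1) * ((N : ℝ) + 3) / ((N : ℝ) + 2) ^ 2 := by
      push_cast
      have : ((N : ℝ) + 1 + 1) = (N : ℝ) + 2 := by ring
      rw [this]; field_simp; ring
    rw [e]
    push_cast
    have : ((N : ℝ) + 1 + 2) = (N : ℝ) + 3 := by ring
    rw [this]; field_simp; ring

theorem one_le_sq {n : ℕ} (hn : 2 ≤ n) : 1 ≤ (1 - 1 / (n : ℝ) ^ 2)⁻¹ := by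
  have h2 : (2 : ℝ) ≤ n := by exact_mod_cast hn
  have h4 : (4 : ℝ) ≤ (n : ℝ) ^ 2 := by nlinarith
  have hp : 0 < 1 / (n : ℝ) ^ 2 := by positivity
  have hl : 1 / (n : ℝ) ^ 2 ≤ 1 / 4 := one_div_le_one_div_of_le (by norm_num) h4
  exact (one_le_inv₀ (by linarith)).2 (by linarith)

theorem prod_sq_le (P : Finset ℕ) (N : ℕ) (hP : ∀ p ∈ P, 2 ≤ p ∧ p ≤ N) :
    ∏ n ∈ P, (1 - 1 / (n : ℝ) ^ 2)⁻¹ ≤ 2 := by
  have hs : P ⊆ Icc 2 (N + 1) := fun p hp => mem_Icc.2 ⟨(hP p hp).1, by have := (hP p hp).2; omega⟩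
  have h1 : ∏ n ∈ P, (1 - 1 / (n : ℝ) ^ 2)⁻¹ ≤ ∏ n ∈ Icc 2 (N + 1), (1 - 1 / (n : ℝ) ^ 2)⁻¹ := by
    rw [← Finset.prod_sdiff hs]
    have h0 : 0 ≤ ∏ n ∈ P, (1 - 1 / (n : ℝ) ^ 2)⁻¹ :=
      Finset.prod_nonneg fun p hp => zero_le_one.trans (one_le_sq (hP p hp).1)
    have h2 : 1 ≤ ∏ n ∈ Icc 2 (N + 1) \ P, (1 - 1 / (n : ℝ) ^ 2)⁻¹ := by
      calc (1 : ℝ) = ∏ _n ∈ Icc 2 (N + 1) \ P, (1 : ℝ) := by simp
        _ ≤ _ := Finset.prod_le_prod (fun _ _ => zero_le_one)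
            fun p hp => one_le_sq (mem_Icc.1 (mem_sdiff.1 hp).1).1
    nlinarith
  rw [tele] at h1
  refine h1.trans ?_
  have h2 : (0 : ℝ) < (N : ℝ) + 2 := by positivity
  rw [div_le_iff₀ h2]; linarith

theorem inv_le_two {p : ℕ} (hp : 2 ≤ p) : (1 - 1 / (p : ℝ))⁻¹ ≤ 2 := by
  have h2 : (2 : ℝ) ≤ p := by exact_mod_cast hp
  have hl : 1 / (p : ℝ) ≤ 1 / 2 := one_div_le_one_div_of_le (by norm_num) h2
  rw [inv_le_comm₀ (by linarith) (by norm_num)]
  linarith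

theorem lf_nonneg (E : ℕ → Prop) {p : ℕ} (hp : 2 ≤ p) : 0 ≤ lf E p := by
  unfold lf
  split_ifs
  · exact zero_le_one.trans (one_le_sq hp)
  · have h2 : (2 : ℝ) ≤ p := by exact_mod_cast hp
    have hl : 1 / (p : ℝ) ≤ 1 / 2 := one_div_le_one_div_of_le (by norm_num) h2
    exact inv_nonneg.2 (by linarith)

theorem sum_le_one (E : ℕ → Prop) (N : ℕ) :
    ∑ k ∈ Icc 1 N, ind (MM E k ∧ Nat.Coprime k (primorial N)) / (k : ℝ) ≤ 1 := by
  have h : ∀ k ∈ Icc 1 N, ind (MM E k ∧ Nat.Coprime k (primorial N)) / (k : ℝ)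
      ≤ if k = 1 then 1 else 0 := by
    intro k hk
    split_ifs with h1
    · subst h1; simpa using ind_le_one _
    · rw [ind_neg, zero_div]
      rintro ⟨-, hc⟩
      have hp := Nat.minFac_prime h1
      have hk1 := mem_Icc.1 hk
      have hle : k.minFac ≤ N := (Nat.minFac_le (by omega)).trans hk1.2
      have hd : k.minFac ∣ Nat.gcd k (primorial N) :=
        Nat.dvd_gcd (Nat.minFac_dvd k) (hp.dvd_primorial_iff.2 hle)
      rw [hc] at hd
      exact hp.one_lt.ne' (Nat.dvd_one.1 hd)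
  refine (Finset.sum_le_sum h).trans ?_
  rw [Finset.sum_ite_eq']
  split_ifs <;> norm_num

end GLB

open GLB in
theorem stGLB (h : St_TCOP) : St_GLB := by
  classical
  intro F B hB hB0 y
  set K : ℕ := y + F.D.natAbs + 1 with hK
  refine ⟨B / (2 ^ K * 2), by positivity, ?_⟩
  have h1 : ∀ᶠ z : ℝ in atTop, B < TT F.inert z / √(Real.log z) :=
    hB.eventually (lt_mem_nhds (by linarith))
  filter_upwards [h1, eventually_gt_atTop (1 : ℝ)] with z hz hz1 S hS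
  have hlog : 0 < √(Real.log z) := Real.sqrt_pos.2 (Real.log_pos hz1)
  rw [lt_div_iff₀ hlog] at hz
  set N := ⌊z⌋₊ with hN
  have hT := h F.inert (primorial N) z (primorial_ne_zero N)
  set P := (primorial N).primeFactors with hP
  have hPm : ∀ p, p ∈ P ↔ p.Prime ∧ p ≤ N := by
    intro p
    rw [hP, Nat.mem_primeFactors]
    constructor
    · rintro ⟨a, b, -⟩; exact ⟨a, a.dvd_primorial_iff.1 b⟩
    · rintro ⟨a, b⟩; exact ⟨a, a.dvd_primorial_iff.2 b, primorial_ne_zero N⟩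
  have hSP : S ⊆ P := by
    intro p hp
    obtain ⟨a, -, -, d⟩ := (hS p).1 hp
    exact (hPm p).2 ⟨a, Nat.le_floor d⟩
  have hl0 : 0 ≤ ∏ p ∈ P, lf F.inert p :=
    Finset.prod_nonneg fun p hp => lf_nonneg _ ((hPm p).1 hp).1.two_le
  have hT2 : TT F.inert z ≤ ∏ p ∈ P, lf F.inert p := by
    refine hT.trans ?_
    have := sum_le_one F.inert N
    nlinarith
  have eS : ∏ p ∈ S, lf F.inert p = ∏ p ∈ S, (1 + 1 / ((p : ℝ) - 1)) := by
    refine Finset.prod_congr rfl fun p hp => ?_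
    obtain ⟨a, b, -, -⟩ := (hS p).1 hp
    have h2 : (2 : ℝ) ≤ p := by exact_mod_cast a.two_le
    unfold lf
    rw [if_neg b.1]
    have : (p : ℝ) - 1 ≠ 0 := by linarith
    have : (p : ℝ) ≠ 0 := by linarith
    field_simp
    ring
  have hR : ∏ p ∈ P \ S, lf F.inert p ≤ 2 ^ K * 2 := by
    have hb : ∏ p ∈ P \ S, lf F.inert p
        ≤ ∏ p ∈ P \ S, ((if p < K then (2 : ℝ) else 1) * (1 - 1 / (p : ℝ) ^ 2)⁻¹) := by
      refine Finset.prod_le_prod (fun p hp => lf_nonneg _ ((hPm p).1 (mem_sdiff.1 hp).1).1.two_le) ?_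
      intro p hp
      obtain ⟨hp1, hp2⟩ := mem_sdiff.1 hp
      obtain ⟨a, b⟩ := (hPm p).1 hp1
      have hq := one_le_sq a.two_le
      unfold lf
      by_cases hi : F.inert p
      · rw [if_pos hi]
        split_ifs <;> linarith
      · rw [if_neg hi]
        have hlt : p < K := by
          by_contra hc
          apply hp2
          refine (hS p).2 ⟨a, ⟨hi, fun hr => ?_⟩, by omega, ?_⟩
          · have hD : F.D ≠ 0 := by have := F.D_le; omega
            have h3 : p ∣ F.D.natAbs := Int.natCast_dvd.1 hr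
            have := Nat.le_of_dvd (Int.natAbs_pos.2 hD) h3
            omega
          · exact (Nat.cast_le.2 b).trans (Nat.floor_le (by linarith))
        rw [if_pos hlt]
        have := inv_le_two a.two_le
        linarith
    refine hb.trans ?_
    rw [Finset.prod_mul_distrib]
    have h2 : ∏ p ∈ P \ S, (1 - 1 / (p : ℝ) ^ 2)⁻¹ ≤ 2 :=
      prod_sq_le _ N fun p hp => ⟨((hPm p).1 (mem_sdiff.1 hp).1).1.two_le, ((hPm p).1 (mem_sdiff.1 hp).1).2⟩
    have h3 : ∏ p ∈ P \ S, (if p < K then (2 : ℝ) else 1) ≤ 2 ^ K := by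
      rw [Finset.prod_ite, Finset.prod_const, Finset.prod_const_one, mul_one]
      refine pow_le_pow_right₀ (by norm_num) ?_
      calc ((P \ S).filter (fun p => p < K)).card ≤ (range K).card :=
            Finset.card_le_card fun p hp => mem_range.2 (mem_filter.1 hp).2
        _ = K := card_range K
    have h4 : 0 ≤ ∏ p ∈ P \ S, (1 - 1 / (p : ℝ) ^ 2)⁻¹ :=
      Finset.prod_nonneg fun p hp =>
        zero_le_one.trans (one_le_sq ((hPm p).1 (mem_sdiff.1 hp).1).1.two_le)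
    exact mul_le_mul h3 h2 h4 (by positivity)
  have hS0 : 0 ≤ ∏ p ∈ S, (1 + 1 / ((p : ℝ) - 1)) := by
    rw [← eS]
    exact Finset.prod_nonneg fun p hp => lf_nonneg _ ((hPm p).1 (hSP hp)).1.two_le
  rw [← Finset.prod_sdiff hSP, eS] at hT2
  have hK0 : (0 : ℝ) < 2 ^ K * 2 := by positivity
  rw [div_mul_eq_mul_div, div_le_iff₀ hK0]
  have := mul_le_mul_of_nonneg_right hR hS0
  nlinarith

end Pool.Agent.Lib.DL
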