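import Pool.Agent.Lib.DL.Blue

set_option autoImplicit false

namespace Pool.Agent.Lib.DL

open Finset Filter Topology ArithmeticFunction
open Pool.Agent.Lib.MP_d48457_nt (ind ind_pos ind_neg ind_nonneg ind_le_one ind_mono)

namespace HT

/-- The von Mangoldt function on non-primes. -/
noncomputable def L2 (n : ℕ) : ℝ := if n.Prime then 0 else vonMangoldt n

theorem L2_nonneg (n : ℕ) : 0 ≤ L2 n := by
  unfold L2; split_ifs
  · exact le_rfl
  · exact vonMangoldt_nonneg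

theorem L2_summable : Summable fun n : ℕ => L2 n / n := by
  have h := vonMangoldt.summable_residueClass_non_primes_div (q := 1) (0 : ZMod 1)
  refine h.congr fun n => ?_
  unfold L2
  have : n ∈ {n : ℕ | (n : ZMod 1) = 0} := Subsingleton.elim _ _
  simp only [vonMangoldt.residueClass, Set.indicator_of_mem this]

theorem swap_le (g : ℕ → ℕ → ℝ) (hg : ∀ d k, 0 ≤ g d k) (N : ℕ) :
    ∑ m ∈ Icc 1 N, ∑ d ∈ m.divisors, g d (m / d) ≤
      ∑ k ∈ Icc 1 N, ∑ d ∈ Icc 1 (N / k), g d k := by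
  rw [sum_sigma', sum_sigma']
  let φ : (Σ _ : ℕ, ℕ) → (Σ _ : ℕ, ℕ) := fun x => ⟨x.1 / x.2, x.2⟩
  have hinj : Set.InjOn φ ((Icc 1 N).sigma fun m => m.divisors : Finset (Σ _ : ℕ, ℕ)) := by
    rintro ⟨m, d⟩ h1 ⟨m', d'⟩ h2 h
    simp only [coe_sigma, Set.mem_sigma_iff, mem_coe, Nat.mem_divisors] at h1 h2
    simp only [φ, Sigma.mk.injEq, heq_eq_eq] at h
    obtain ⟨h3, rfl⟩ := h
    have e1 := Nat.div_mul_cancel h1.2.1
    have e2 := Nat.div_mul_cancel h2.2.1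
    have : m = m' := by rw [← e1, ← e2, h3]
    subst this; rfl
  have := sum_image (f := fun y : (Σ _ : ℕ, ℕ) => g y.2 y.1) hinj
  simp only [φ] at this
  rw [← this]
  refine sum_le_sum_of_subset_of_nonneg ?_ fun y _ _ => hg _ _
  intro y hy
  obtain ⟨⟨m, d⟩, hx, rfl⟩ := mem_image.1 hy
  simp only [mem_sigma, mem_Icc, Nat.mem_divisors] at hx ⊢
  obtain ⟨⟨h1, h2⟩, ⟨c, rfl⟩, h0⟩ := hx
  have hd : 0 < d := Nat.pos_of_ne_zero (by rintro rfl; simp at h0)
  have hc : 0 < c := Nat.pos_of_ne_zero (by rintro rfl; simp at h0)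
  rw [Nat.mul_div_cancel_left _ hd]
  refine ⟨⟨hc, (Nat.le_mul_of_pos_left c hd).trans h2⟩, hd, ?_⟩
  exact (Nat.le_div_iff_mul_le hc).2 h2

theorem point (u : ℕ → ℝ) (h0 : ∀ m, 0 ≤ u m) (h1 : ∀ m, u m ≤ 1)
    (hm : ∀ m n, Nat.Coprime m n → u (m * n) = u m * u n) (m : ℕ) (hm0 : m ≠ 0) :
    u m * Real.log m ≤ ∑ d ∈ m.divisors, (vonMangoldt d * u (m / d) + 2 * L2 d) := by
  classical
  have key : ∀ d ∈ m.divisors, u m * vonMangoldt d ≤ vonMangoldt d * u (m / d) + L2 d +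
      (if d.Prime ∧ d ^ 2 ∣ m then L2 (d ^ 2) else 0) := by
    intro d hd
    have hdm := Nat.dvd_of_mem_divisors hd
    have hL : (0 : ℝ) ≤ vonMangoldt d := vonMangoldt_nonneg
    have ha : 0 ≤ vonMangoldt d * u (m / d) := mul_nonneg hL (h0 _)
    have hb : u m * vonMangoldt d ≤ vonMangoldt d := by nlinarith [h1 m, h0 m]
    by_cases hp : d.Prime
    · by_cases h2 : d ^ 2 ∣ m
      · rw [if_pos ⟨hp, h2⟩]
        have : L2 (d ^ 2) = vonMangoldt d := by
          unfold L2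
          rw [if_neg (Nat.Prime.not_prime_pow (by norm_num)), vonMangoldt_apply_pow (by norm_num)]
        linarith [L2_nonneg d]
      · rw [if_neg (fun h => h2 h.2)]
        obtain ⟨c, rfl⟩ := hdm
        have hc : Nat.Coprime d c := (Nat.Prime.coprime_iff_not_dvd hp).2 fun h =>
          h2 (by rw [sq]; exact Nat.mul_dvd_mul_left d h)
        rw [Nat.mul_div_cancel_left _ hp.pos, hm d c hc]
        have : u d * u c ≤ u c := by nlinarith [h1 d, h0 c]
        nlinarith [L2_nonneg d]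
    · rw [if_neg (fun h => hp h.1)]
      have : L2 d = vonMangoldt d := by unfold L2; rw [if_neg hp]
      linarith
  have sq : ∑ d ∈ m.divisors, (if d.Prime ∧ d ^ 2 ∣ m then L2 (d ^ 2) else 0) ≤
      ∑ d ∈ m.divisors, L2 d := by
    rw [← sum_filter, ← sum_image (f := L2) (g := fun d => d ^ 2)
      (fun a _ b _ h => Nat.pow_left_injective (by norm_num) h)]
    refine sum_le_sum_of_subset_of_nonneg ?_ fun y _ _ => L2_nonneg _
    intro y hy
    obtain ⟨d, hd, rfl⟩ := mem_image.1 hy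
    exact Nat.mem_divisors.2 ⟨(mem_filter.1 hd).2.2, hm0⟩
  rw [← vonMangoldt_sum, mul_sum]
  refine (sum_le_sum key).trans ?_
  simp only [sum_add_distrib, ← mul_sum]
  linarith

theorem part1 : ∃ K C : ℝ, 0 < K ∧ 0 < C ∧ ∀ u : ℕ → ℝ, (∀ m, 0 ≤ u m) → (∀ m, u m ≤ 1) →
    (∀ m n, Nat.Coprime m n → u (m * n) = u m * u n) → ∀ X : ℝ, 1 ≤ X →
    (∑ m ∈ Icc 1 ⌊X⌋₊, u m) * Real.log X ≤ K * X * ∑ m ∈ Icc 1 ⌊X⌋₊, u m / m + C * X := by
  set C0 := ∑' n : ℕ, L2 n / n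
  have hC0 : 0 ≤ C0 := tsum_nonneg fun n => div_nonneg (L2_nonneg n) (Nat.cast_nonneg n)
  have hl4 : 0 < Real.log 4 := Real.log_pos (by norm_num)
  refine ⟨Real.log 4 + 5, 2 * C0 + 1, by linarith, by linarith, fun u h0 h1 hm X hX => ?_⟩
  set N := ⌊X⌋₊
  have hN : (N : ℝ) ≤ X := Nat.floor_le (by linarith)
  have hX0 : 0 < X := by linarith
  have a1 : ∑ m ∈ Icc 1 N, ∑ d ∈ m.divisors, vonMangoldt d * u (m / d) ≤
      (Real.log 4 + 4) * X * ∑ m ∈ Icc 1 N, u m / m := by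
    refine (swap_le (fun d k => vonMangoldt d * u k)
      (fun d k => mul_nonneg vonMangoldt_nonneg (h0 k)) N).trans ?_
    rw [mul_sum]
    refine sum_le_sum fun k hk => ?_
    have hk0 : (0 : ℝ) < k := by exact_mod_cast (mem_Icc.1 hk).1
    rw [← sum_mul]
    have e : ∑ d ∈ Icc 1 (N / k), vonMangoldt d = Chebyshev.psi ((N / k : ℕ) : ℝ) := by
      rw [Chebyshev.psi, Nat.floor_natCast]; rfl
    have h2 := Chebyshev.psi_le_const_mul_self (x := ((N / k : ℕ) : ℝ)) (Nat.cast_nonneg _)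
    have h3 : ((N / k : ℕ) : ℝ) ≤ X / k :=
      Nat.cast_div_le.trans (div_le_div_of_nonneg_right hN hk0.le)
    rw [e]
    calc _ ≤ (Real.log 4 + 4) * (X / k) * u k :=
          mul_le_mul_of_nonneg_right (h2.trans (mul_le_mul_of_nonneg_left h3 (by linarith))) (h0 k)
      _ = _ := by ring
  have a2 : ∑ m ∈ Icc 1 N, ∑ d ∈ m.divisors, L2 d ≤ C0 * X := by
    have e : ∀ m ∈ Icc 1 N, ∑ d ∈ m.divisors, L2 d = ∑ d ∈ m.divisors, L2 (m / d) :=
      fun m _ => (Nat.sum_div_divisors m L2).symm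
    rw [sum_congr rfl e]
    refine (swap_le (fun _ k => L2 k) (fun _ k => L2_nonneg k) N).trans ?_
    have : ∑ k ∈ Icc 1 N, L2 k / k ≤ C0 :=
      L2_summable.sum_le_tsum _ fun n _ => div_nonneg (L2_nonneg n) (Nat.cast_nonneg n)
    refine le_trans ?_ (mul_le_mul_of_nonneg_right this hX0.le)
    rw [sum_mul]
    refine sum_le_sum fun k hk => ?_
    have hk0 : (0 : ℝ) < k := by exact_mod_cast (mem_Icc.1 hk).1
    have h3 : ((N / k : ℕ) : ℝ) ≤ X / k :=
      Nat.cast_div_le.trans (div_le_div_of_nonneg_right hN hk0.le)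
    rw [sum_const, Nat.card_Icc, Nat.add_sub_cancel, nsmul_eq_mul]
    calc _ ≤ X / k * L2 k := mul_le_mul_of_nonneg_right h3 (L2_nonneg k)
      _ = _ := by ring
  have a3 : ∀ m ∈ Icc 1 N, u m * Real.log X ≤ X * (u m / m) +
      ∑ d ∈ m.divisors, (vonMangoldt d * u (m / d) + 2 * L2 d) := by
    intro m hmm
    have hm1 := (mem_Icc.1 hmm).1
    have hk0 : (0 : ℝ) < m := by exact_mod_cast hm1
    have h2 := point u h0 h1 hm m (by omega)
    have h3 : Real.log X - Real.log m ≤ X / m := by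
      rw [← Real.log_div hX0.ne' hk0.ne']
      linarith [Real.log_le_sub_one_of_pos (div_pos hX0 hk0)]
    have h4 := mul_le_mul_of_nonneg_left h3 (h0 m)
    have e : u m * (X / m) = X * (u m / m) := by ring
    nlinarith
  rw [sum_mul]
  refine (sum_le_sum a3).trans ?_
  simp only [sum_add_distrib, ← mul_sum]
  nlinarith

open Classical in
/-- Logarithmic sum over integers free of the primes in `S`. -/
noncomputable def LS (f : ℕ → ℝ) (S : Finset ℕ) (N : ℕ) : ℝ :=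
  ∑ k ∈ (Icc 1 N).filter (fun k => ∀ p ∈ S, ¬ p ∣ k), f k / k

theorem LS_nonneg {f : ℕ → ℝ} (h : ∀ m, 0 ≤ f m) (S : Finset ℕ) (N : ℕ) : 0 ≤ LS f S N :=
  sum_nonneg fun k _ => div_nonneg (h k) (Nat.cast_nonneg k)

theorem LS_empty (f : ℕ → ℝ) (N : ℕ) : LS f ∅ N = ∑ k ∈ Icc 1 N, f k / k := by
  simp [LS]

theorem geom (u : ℕ → ℝ) (h1 : ∀ m, u m ≤ 1) {p : ℕ} (hp : p.Prime) (n : ℕ) :
    ∑ j ∈ range (n + 2), u (p ^ j) / (p : ℝ) ^ j ≤ 1 + u p / p + 2 / (p : ℝ) ^ 2 - 2 / (p : ℝ) ^ (n + 2) := by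
  have hp2 : (2 : ℝ) ≤ p := by exact_mod_cast hp.two_le
  induction n with
  | zero => simp [sum_range_succ, h1 1]
  | succ n ih =>
    rw [show n + 1 + 2 = (n + 2) + 1 by ring, sum_range_succ]
    have hq : (0 : ℝ) < (p : ℝ) ^ (n + 2) := by positivity
    have h2 : u (p ^ (n + 2)) / (p : ℝ) ^ (n + 2) ≤ 1 / (p : ℝ) ^ (n + 2) :=
      div_le_div_of_nonneg_right (h1 _) hq.le
    have h3 : 2 / (p : ℝ) ^ (n + 2 + 1) ≤ 1 / (p : ℝ) ^ (n + 2) := by
      rw [div_le_div_iff₀ (by positivity) hq, pow_succ (p : ℝ) (n + 2)]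
      nlinarith
    have h4 : 2 / (p : ℝ) ^ (n + 2) = 2 * (1 / (p : ℝ) ^ (n + 2)) := by ring
    linarith

theorem stepA (u : ℕ → ℝ) (h0 : ∀ m, 0 ≤ u m) (h1 : ∀ m, u m ≤ 1)
    (hm : ∀ m n, Nat.Coprime m n → u (m * n) = u m * u n) {p : ℕ} (hp : p.Prime) (S : Finset ℕ)
    (N : ℕ) : LS u S N ≤ (1 + u p / p + 2 / (p : ℝ) ^ 2) * LS u (insert p S) N := by
  classical
  let φ : ℕ → ℕ × ℕ := fun k => (k.factorization p, ordCompl[p] k)
  let G : ℕ × ℕ → ℝ := fun y => u (p ^ y.1) / (p : ℝ) ^ y.1 * (u y.2 / y.2)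
  have hG : ∀ y, 0 ≤ G y := fun y =>
    mul_nonneg (div_nonneg (h0 _) (by positivity)) (div_nonneg (h0 _) (Nat.cast_nonneg _))
  have hinj : Function.Injective φ := by
    intro a b h
    simp only [φ, Prod.mk.injEq] at h
    rw [← Nat.ordProj_mul_ordCompl_eq_self a p, ← Nat.ordProj_mul_ordCompl_eq_self b p, h.2, h.1]
  have e : LS u S N = ∑ y ∈ ((Icc 1 N).filter (fun k => ∀ q ∈ S, ¬ q ∣ k)).image φ, G y := by
    rw [sum_image fun a _ b _ h => hinj h, LS]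
    refine sum_congr (by congr) fun k hk => ?_
    have hk0 : k ≠ 0 := by have := (mem_Icc.1 (mem_filter.1 hk).1).1; omega
    have e1 := Nat.ordProj_mul_ordCompl_eq_self k p
    have hc : Nat.Coprime (p ^ k.factorization p) (ordCompl[p] k) :=
      (Nat.coprime_ordCompl hp hk0).pow_left _
    simp only [G, φ]
    rw [div_mul_div_comm, ← hm _ _ hc, e1]
    congr 1
    exact_mod_cast e1.symm
  have hs : ((Icc 1 N).filter (fun k => ∀ q ∈ S, ¬ q ∣ k)).image φ ⊆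
      range (N + 2) ×ˢ (Icc 1 N).filter (fun k => ∀ q ∈ insert p S, ¬ q ∣ k) := by
    intro y hy
    obtain ⟨k, hk, rfl⟩ := mem_image.1 hy
    obtain ⟨hk1, hk2⟩ := mem_filter.1 hk
    obtain ⟨hk3, hk4⟩ := mem_Icc.1 hk1
    have hk0 : k ≠ 0 := by omega
    simp only [φ, mem_product, mem_range, mem_filter, mem_Icc, mem_insert]
    refine ⟨?_, ⟨Nat.ordCompl_pos p hk0, (Nat.ordCompl_le k p).trans hk4⟩, ?_⟩
    · have := Nat.factorization_lt p hk0; omega
    · rintro q (rfl | hq)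
      · exact Nat.not_dvd_ordCompl hp hk0
      · exact fun h => hk2 q hq (h.trans (Nat.ordCompl_dvd k p))
  rw [e]
  refine (sum_le_sum_of_subset_of_nonneg hs fun y _ _ => hG y).trans ?_
  rw [sum_product]
  simp only [G, ← mul_sum]
  rw [← sum_mul]
  have e2 : ∑ k ∈ (Icc 1 N).filter (fun k => ∀ q ∈ insert p S, ¬ q ∣ k), u k / k =
      LS u (insert p S) N := by rw [LS]
  rw [e2]
  refine mul_le_mul_of_nonneg_right ((geom u h1 hp N).trans ?_) (LS_nonneg h0 _ _)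
  have : (0 : ℝ) ≤ 2 / (p : ℝ) ^ (N + 2) := by positivity
  linarith

theorem stepB (t : ℕ → ℝ) (h0 : ∀ m, 0 ≤ t m) {p : ℕ} (hp : p.Prime)
    (ht : ∀ k, t k ≤ t (p * k)) (S : Finset ℕ) (hS : ∀ q ∈ S, q.Prime) (hpS : p ∉ S) (N : ℕ) :
    (1 + 1 / (p : ℝ)) * LS t (insert p S) N ≤ LS t S (p * N) := by
  classical
  set A := (Icc 1 N).filter (fun k => ∀ q ∈ insert p S, ¬ q ∣ k) with hA
  have e : LS t (insert p S) N = ∑ k ∈ A, t k / k := by
    rw [LS]
  have hd : Disjoint A (A.image (p * ·)) := by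
    rw [disjoint_left]
    intro a ha hb
    obtain ⟨b, _, rfl⟩ := mem_image.1 hb
    exact (mem_filter.1 ha).2 p (mem_insert_self _ _) (dvd_mul_right _ _)
  have hs : A ∪ A.image (p * ·) ⊆ (Icc 1 (p * N)).filter (fun k => ∀ q ∈ S, ¬ q ∣ k) := by
    intro a ha
    rcases mem_union.1 ha with ha | ha
    · obtain ⟨h1, h2⟩ := mem_filter.1 ha
      obtain ⟨h3, h4⟩ := mem_Icc.1 h1
      exact mem_filter.2 ⟨mem_Icc.2 ⟨h3, h4.trans (Nat.le_mul_of_pos_left N hp.pos)⟩,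
        fun q hq => h2 q (mem_insert_of_mem hq)⟩
    · obtain ⟨b, hb, rfl⟩ := mem_image.1 ha
      obtain ⟨h1, h2⟩ := mem_filter.1 hb
      obtain ⟨h3, h4⟩ := mem_Icc.1 h1
      refine mem_filter.2 ⟨mem_Icc.2 ⟨Nat.mul_pos hp.pos h3, Nat.mul_le_mul_left p h4⟩,
        fun q hq h => ?_⟩
      rcases (Nat.Prime.dvd_mul (hS q hq)).1 h with h | h
      · exact hpS ((Nat.prime_dvd_prime_iff_eq (hS q hq) hp).1 h ▸ hq)
      · exact h2 q (mem_insert_of_mem hq) h
  have h2 : ∑ k ∈ A ∪ A.image (p * ·), t k / k ≤ LS t S (p * N) := by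
    refine (sum_le_sum_of_subset_of_nonneg hs
      fun k _ _ => div_nonneg (h0 k) (Nat.cast_nonneg k)).trans (le_of_eq ?_)
    rw [LS]
  rw [sum_union hd, sum_image fun a _ b _ h => Nat.eq_of_mul_eq_mul_left hp.pos h] at h2
  have h3 : 1 / (p : ℝ) * ∑ k ∈ A, t k / k ≤ ∑ k ∈ A, t (p * k) / ((p * k : ℕ) : ℝ) := by
    rw [mul_sum]
    refine sum_le_sum fun k _ => ?_
    rw [div_mul_div_comm, one_mul, Nat.cast_mul]
    exact div_le_div_of_nonneg_right (ht k) (by positivity)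
  rw [e]
  linarith

theorem ratio {x : ℝ} (h1 : x ≤ 1) {p : ℝ} (hp : 2 ≤ p) :
    1 + x / p + 2 / p ^ 2 ≤ Real.exp (-((1 - x) / p) / 2 + 2 * (1 / p ^ 2)) * (1 + 1 / p) := by
  have hp0 : 0 < p := by linarith
  refine le_trans ?_ (mul_le_mul_of_nonneg_right (Real.add_one_le_exp _) (by positivity))
  have hr : 1 / p ≤ 1 := by rw [div_le_one hp0]; linarith
  have hr0 : 0 < 1 / p := by positivity
  have e1 : x / p = x * (1 / p) := by ring
  have e2 : 2 / p ^ 2 = 2 * (1 / p) ^ 2 := by ring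
  have e3 : (1 - x) / p = (1 - x) * (1 / p) := by ring
  have e4 : 1 / p ^ 2 = (1 / p) ^ 2 := by ring
  rw [e1, e2, e3, e4]
  generalize 1 / p = r at *
  have : 0 ≤ (1 - x) * r * (1 - r) := mul_nonneg (mul_nonneg (by linarith) hr0.le) (by linarith)
  nlinarith [pow_pos hr0 3]

theorem part2 (u t : ℕ → ℝ) (h0 : ∀ m, 0 ≤ u m) (h1 : ∀ m, u m ≤ 1) (hut : ∀ m, u m ≤ t m)
    (hm : ∀ m n, Nat.Coprime m n → u (m * n) = u m * u n) (S : Finset ℕ)
    (hS : ∀ p ∈ S, p.Prime ∧ ∀ k, t k ≤ t (p * k)) (N : ℕ) :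
    ∑ k ∈ Icc 1 N, u k / k ≤ Real.exp (∑ p ∈ S, (-((1 - u p) / p) / 2 + 2 * (1 / (p : ℝ) ^ 2))) *
      ∑ k ∈ Icc 1 ((∏ p ∈ S, p) * N), t k / k := by
  classical
  have ht0 : ∀ m, 0 ≤ t m := fun m => (h0 m).trans (hut m)
  have hA : LS u ∅ N ≤ (∏ p ∈ S, (1 + u p / p + 2 / (p : ℝ) ^ 2)) * LS u S N := by
    induction S using Finset.induction_on with
    | empty => simp
    | insert p S hp ih =>
      rw [prod_insert hp]
      refine (ih fun q hq => hS q (mem_insert_of_mem hq)).trans ?_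
      rw [mul_comm (1 + u p / p + 2 / (p : ℝ) ^ 2), mul_assoc]
      refine mul_le_mul_of_nonneg_left (stepA u h0 h1 hm (hS p (mem_insert_self _ _)).1 S N) ?_
      exact prod_nonneg fun q _ => by have := h0 q; positivity
  have hB : ∀ N, (∏ p ∈ S, (1 + 1 / (p : ℝ))) * LS t S N ≤ LS t ∅ ((∏ p ∈ S, p) * N) := by
    clear hA
    induction S using Finset.induction_on with
    | empty => simp
    | insert p S hp ih =>
      intro N
      have hp' := hS p (mem_insert_self _ _)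
      rw [prod_insert hp, prod_insert hp, mul_comm p, mul_assoc (∏ q ∈ S, q),
        mul_comm (1 + 1 / (p : ℝ)), mul_assoc]
      refine le_trans ?_ (ih (fun q hq => hS q (mem_insert_of_mem hq)) (p * N))
      refine mul_le_mul_of_nonneg_left (stepB t ht0 hp'.1 hp'.2 S
        (fun q hq => (hS q (mem_insert_of_mem hq)).1) hp N) ?_
      exact prod_nonneg fun q _ => by positivity
  have hC : LS u S N ≤ LS t S N :=
    sum_le_sum fun k _ => div_le_div_of_nonneg_right (hut k) (Nat.cast_nonneg k)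
  have hD : ∏ p ∈ S, (1 + u p / p + 2 / (p : ℝ) ^ 2) ≤
      Real.exp (∑ p ∈ S, (-((1 - u p) / p) / 2 + 2 * (1 / (p : ℝ) ^ 2))) *
        ∏ p ∈ S, (1 + 1 / (p : ℝ)) := by
    rw [Real.exp_sum, ← prod_mul_distrib]
    refine prod_le_prod (fun q _ => by have := h0 q; positivity) fun q hq => ?_
    exact ratio (h1 q) (by exact_mod_cast (hS q hq).1.two_le)
  rw [← LS_empty, ← LS_empty]
  refine hA.trans ((mul_le_mul hD hC (LS_nonneg h0 _ _) ?_).trans ?_)
  · exact mul_nonneg (Real.exp_pos _).le (prod_nonneg fun q _ => by positivity)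
  · rw [mul_assoc]
    exact mul_le_mul_of_nonneg_left (hB N) (Real.exp_pos _).le

theorem MM_mul {E : ℕ → Prop} {p : ℕ} (hp : p.Prime) (hE : ¬ E p) {k : ℕ} (h : MM E k) :
    MM E (p * k) := by
  refine ⟨mul_ne_zero hp.ne_zero h.1, fun q hq hEq => ?_⟩
  have hne : p ≠ q := fun e => hE (e ▸ hEq)
  rw [Nat.factorization_mul hp.ne_zero h.1, hp.factorization, Finsupp.add_apply,
    Finsupp.single_eq_of_ne hne.symm, zero_add]
  exact h.2 q hq hEq

end HT

open HT in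
theorem stHT : St_HT := by
  intro E B hB u hu hm hA ε hε
  have h0 : ∀ m, 0 ≤ u m := fun m => (hu m).1
  have h1 : ∀ m, u m ≤ 1 := fun m => (hu m).2.trans (ind_le_one _)
  obtain ⟨K, C, hK, hC, hP⟩ := part1
  have hsum : Summable fun n : ℕ => 1 / (n : ℝ) ^ 2 := Real.summable_one_div_nat_pow.2 one_lt_two
  set C1 := ∑' n : ℕ, 1 / (n : ℝ) ^ 2
  set D := 2 * (2 * |B| + 1) with hD
  have hD0 : 0 < D := by positivity
  set η := ε / (2 * K * D) with hη
  have hη0 : 0 < η := by positivity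
  obtain ⟨S, hS, hSA⟩ := hA (2 * (2 * C1 - Real.log η))
  set c := ∏ p ∈ S, p
  have hc : 0 < c := prod_pos fun p hp => (hS p hp).1.pos
  have hc1 : (1 : ℝ) ≤ c := by exact_mod_cast hc
  have hexp : Real.exp (∑ p ∈ S, (-((1 - u p) / p) / 2 + 2 * (1 / (p : ℝ) ^ 2))) ≤ η := by
    rw [← Real.exp_log hη0]
    refine Real.exp_le_exp.2 ?_
    have : ∑ p ∈ S, 1 / (p : ℝ) ^ 2 ≤ C1 := hsum.sum_le_tsum _ fun n _ => by positivity
    rw [sum_add_distrib, ← mul_sum, ← sum_div, sum_neg_distrib]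
    linarith
  have ev1 : ∀ᶠ X : ℝ in atTop, TT E (c * X) / √(Real.log (c * X)) < 2 * B + 1 :=
    (tendsto_id.const_mul_atTop (by linarith : (0 : ℝ) < c)).eventually
      (hB.eventually (gt_mem_nhds (by linarith)))
  have ev2 : ∀ᶠ X : ℝ in atTop, 2 * C / ε ≤ √(Real.log X) :=
    (Real.tendsto_sqrt_atTop.comp Real.tendsto_log_atTop).eventually_ge_atTop _
  filter_upwards [ev1, ev2, eventually_ge_atTop (c : ℝ), eventually_ge_atTop (2 : ℝ)]
    with X e1 e2 e3 e4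
  have hX0 : 0 < X := by linarith
  have hl : 0 < Real.log X := Real.log_pos (by linarith)
  set s := √(Real.log X) with hs
  have hs0 : 0 < s := Real.sqrt_pos.2 hl
  have hss : s * s = Real.log X := Real.mul_self_sqrt hl.le
  have hcX : 1 < c * X := by nlinarith
  have hs2 : √(Real.log (c * X)) ≤ 2 * s := by
    rw [Real.sqrt_le_left (by positivity), Real.log_mul (by linarith) hX0.ne']
    have := Real.log_le_log (by linarith) e3
    nlinarith
  have hT : TT E (c * X) ≤ D * s := by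
    rw [div_lt_iff₀ (Real.sqrt_pos.2 (Real.log_pos hcX))] at e1
    have h3 : 2 * B + 1 ≤ 2 * |B| + 1 := by linarith [le_abs_self B]
    calc _ ≤ (2 * B + 1) * √(Real.log (c * X)) := e1.le
      _ ≤ (2 * |B| + 1) * (2 * s) := mul_le_mul h3 hs2 (Real.sqrt_nonneg _) (by positivity)
      _ = _ := by rw [hD]; ring
  have hL := part2 u (fun m => ind (MM E m)) h0 h1 (fun m => (hu m).2) hm S
    (fun p hp => ⟨(hS p hp).1, fun k => ind_mono (MM_mul (hS p hp).1 (hS p hp).2)⟩) ⌊X⌋₊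
  have hT2 : ∑ k ∈ Icc 1 (c * ⌊X⌋₊), ind (MM E k) / (k : ℝ) ≤ TT E (c * X) := by
    refine sum_le_sum_of_subset_of_nonneg (Icc_subset_Icc_right (Nat.le_floor ?_))
      fun k _ _ => div_nonneg (ind_nonneg _) (Nat.cast_nonneg k)
    push_cast
    exact mul_le_mul_of_nonneg_left (Nat.floor_le hX0.le) (by linarith)
  have hL2 : ∑ k ∈ Icc 1 ⌊X⌋₊, u k / k ≤ η * (D * s) :=
    hL.trans (mul_le_mul hexp (hT2.trans hT)
      (sum_nonneg fun k _ => div_nonneg (ind_nonneg _) (Nat.cast_nonneg k)) hη0.le)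
  have hU := hP u h0 h1 hm X (by linarith)
  have h5 : K * X * ∑ k ∈ Icc 1 ⌊X⌋₊, u k / k ≤ ε / 2 * X * s := by
    refine (mul_le_mul_of_nonneg_left hL2 (by positivity)).trans (le_of_eq ?_)
    rw [hη]; field_simp
  have h6 : C * X ≤ ε / 2 * X * s := by
    rw [div_le_iff₀ hε] at e2
    nlinarith
  rw [le_div_iff₀ hs0]
  refine le_of_mul_le_mul_right ?_ hs0
  rw [mul_assoc, hss]
  linarith

end Pool.Agent.Lib.DL
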