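import Pool.Agent.Lib.DL.Riem
import Pool.Agent.Lib.MP_d48457_nt.LData

set_option autoImplicit false

namespace Pool.Agent.Lib.DL

open QuadraticAlgebra Finset Filter Topology
open Pool.Agent.Lib.MP_d48457_nt (ind ind_pos ind_neg ind_nonneg ind_le_one ind_and ind_congr
  ind_mono sum_ind_eq_card Bp)

namespace IQ

variable (F : IQ)

/-- The direction of an element. -/
noncomputable def ang (z : F.O) : ℂ := F.σ z / ‖F.σ z‖

theorem ang_mul (z w : F.O) : F.ang (z * w) = F.ang z * F.ang w := by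
  simp only [ang, map_mul, norm_mul]
  push_cast
  rw [mul_div_mul_comm]

theorem ang_one : F.ang 1 = 1 := by simp [ang]

theorem norm_ang {z : F.O} (hz : z ≠ 0) : ‖F.ang z‖ = 1 := by
  rw [ang, norm_div, Complex.norm_real, norm_norm, div_self (norm_ne_zero_iff.2 (F.σ_ne_zero hz))]

theorem ang_ne_zero {z : F.O} (hz : z ≠ 0) : F.ang z ≠ 0 := by
  rw [← norm_ne_zero_iff, F.norm_ang hz]; exact one_ne_zero

theorem ang_star (z : F.O) : F.ang (star z) = (starRingEnd ℂ) (F.ang z) := by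
  simp [ang, F.σ_star]

theorem ang_natCast {n : ℕ} (hn : n ≠ 0) : F.ang (n : F.O) = 1 := by
  simp [ang, hn]

theorem pt_div (x y T : ℝ) : F.pt (x / T) (y / T) = F.pt x y / T := by
  apply Complex.ext
  · rw [Complex.div_ofReal_re]; simp only [pt]; ring
  · rw [Complex.div_ofReal_im]; simp only [pt]; ring

theorem contDiff_pt : ContDiff ℝ 2 (fun p : ℝ × ℝ => F.pt p.1 p.2) := by
  have : (fun p : ℝ × ℝ => F.pt p.1 p.2) = fun p : ℝ × ℝ =>
      Complex.ofRealCLM (p.1 + p.2 * (F.b / 2)) + Complex.ofRealCLM (p.2 * (F.δ / 2)) * Complex.I := by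
    funext p
    apply Complex.ext <;> simp [pt]
  rw [this]
  fun_prop

open Classical in
/-- The kernel in the plane. -/
noncomputable def ker (β : ℝ → ℝ) (k : ℤ) (p : ℝ × ℝ) : ℂ :=
  if 0 < F.Q p.1 p.2 then (β (-Real.log (F.Q p.1 p.2)) : ℝ) * (F.pt p.1 p.2 / ‖F.pt p.1 p.2‖) ^ k
  else 0

theorem ker_supp {η : ℝ} {k : ℤ} {β : ℝ → ℝ} (h : Bp η β) {p : ℝ × ℝ}
    (hp : F.ker β k p ≠ 0) : Real.exp (-η) < F.Q p.1 p.2 ∧ F.Q p.1 p.2 < Real.exp η := by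
  unfold ker at hp
  split_ifs at hp with h1
  · have a1 := (h.supp _).1 (Complex.ofReal_ne_zero.1 (left_ne_zero_of_mul hp))
    rwa [abs_neg, abs_lt, Real.lt_log_iff_exp_lt h1, Real.log_lt_iff_lt_exp h1] at a1
  · exact (hp rfl).elim

theorem ker_contDiff {η : ℝ} {k : ℤ} {β : ℝ → ℝ} (h : Bp η β) : ContDiff ℝ 2 (F.ker β k) := by
  refine contDiff_iff_contDiffAt.2 (fun p => ?_)
  have hQ : ContDiff ℝ 2 (fun q : ℝ × ℝ => F.Q q.1 q.2) := by unfold Q; fun_prop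
  by_cases hp : 0 < F.Q p.1 p.2
  · have h1 : ContDiffAt ℝ 2 (fun q : ℝ × ℝ => Real.log (F.Q q.1 q.2)) p :=
      hQ.contDiffAt.log hp.ne'
    have h3 : ∀ {f : ℝ × ℝ → ℝ}, ContDiffAt ℝ 2 f p → ContDiffAt ℝ 2 (fun q => (f q : ℂ)) p :=
      fun hf => Complex.ofRealCLM.contDiff.contDiffAt.comp p hf
    have h0 : F.pt p.1 p.2 ≠ 0 := by
      intro h0
      rw [← F.norm_pt_sq, h0] at hp
      simp at hp
    have h2 : ContDiffAt ℝ 2 (fun q : ℝ × ℝ => F.pt q.1 q.2 / (‖F.pt q.1 q.2‖ : ℝ)) p := by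
      simp only [div_eq_mul_inv]
      refine F.contDiff_pt.contDiffAt.mul ?_
      have := h3 ((F.contDiff_pt.contDiffAt.norm ℝ h0).inv (norm_ne_zero_iff.2 h0))
      simpa using this
    have h4 : F.pt p.1 p.2 / (‖F.pt p.1 p.2‖ : ℝ) ≠ 0 :=
      div_ne_zero h0 (by exact_mod_cast norm_ne_zero_iff.2 h0)
    have h5 : ContDiffAt ℝ 2 (fun q : ℝ × ℝ => (F.pt q.1 q.2 / (‖F.pt q.1 q.2‖ : ℝ)) ^ k) p := by
      rcases Int.eq_nat_or_neg k with ⟨n, rfl | rfl⟩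
      · simpa only [zpow_natCast] using h2.pow n
      · simp only [zpow_neg, zpow_natCast]
        exact (h2.pow n).inv (pow_ne_zero _ h4)
    refine ((h3 (h.cd.contDiffAt.comp p h1.neg)).mul h5).congr_of_eventuallyEq ?_
    filter_upwards [hQ.continuous.continuousAt.eventually (lt_mem_nhds hp)] with q a1
    exact if_pos a1
  · refine (contDiffAt_const (c := (0 : ℂ))).congr_of_eventuallyEq ?_
    have he := Real.exp_pos (-η)
    filter_upwards [hQ.continuous.continuousAt.eventually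
      (gt_mem_nhds ((not_lt.1 hp).trans_lt he))] with q a1
    by_contra a2
    linarith [(F.ker_supp h a2).1]

/-- Ideals prime to the modulus. -/
def cop (W : ℕ) (I : Ideal F.O) : Prop := I ≠ ⊥ ∧ Nat.Coprime (Ideal.absNorm I) W

theorem cop_mul {W : ℕ} {I J : Ideal F.O} : F.cop W (I * J) ↔ F.cop W I ∧ F.cop W J := by
  simp only [cop, map_mul, Nat.coprime_mul_iff_left, ← Ideal.zero_eq_bot, mul_ne_zero_iff]
  tauto

theorem cop_top (W : ℕ) : F.cop W ⊤ := ⟨by simp, by simp⟩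

theorem abs_le_of_Q {η x y : ℝ} (hη : 0 < η) (h : F.Q x y < Real.exp η) :
    |x| ≤ 2 * Real.exp η ∧ |y| ≤ 2 * Real.exp η := by
  obtain ⟨h1, h2⟩ := F.sq_le_Q x y
  have h3 : 1 ≤ Real.exp η := Real.one_le_exp hη.le
  exact ⟨abs_le_of_sq_le_sq (by nlinarith) (by positivity),
    abs_le_of_sq_le_sq (by nlinarith) (by positivity)⟩

theorem Q_div (z : F.O) (T : ℝ) : F.Q (z.re / T) (z.im / T) = z.norm / T ^ 2 := by
  rw [norm_eq_Q, Q, Q]; ring

theorem la_hecke {η : ℝ} {k : ℤ} {β : ℝ → ℝ} (h : Bp η β) {W : ℕ} (hW : W ≠ 0)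
    (c : F.O ⧸ Ideal.span {(W : F.O)} → ℂ) :
    ∃ A : ℂ, ∀ a : Ideal F.O, F.cop W a → F.LA (2 * Real.exp η)
      (fun T z => ind (z ∈ a ∧ z ≠ 0) * (c (Ideal.Quotient.mk _ z) * F.ang z ^ k)
        * (β (Real.log (T ^ 2 * (F.nrm (Ideal.span {z}))⁻¹)) : ℝ))
      (A / Ideal.absNorm a) := by
  obtain ⟨A, hA⟩ := F.la_ideal (H := F.ker β k) (F.ker_contDiff h) (R := 2 * Real.exp η)
    (fun p hp => F.abs_le_of_Q h.pos (F.ker_supp h hp).2) hW c
  refine ⟨A, fun a ha => (hA a ha.1 ha.2).congr (fun T z hT => ?_) rfl⟩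
  have hT0 : 0 < T := by linarith
  by_cases hz : z = 0
  · subst hz
    rw [ind_neg (q := _ ∧ (0 : F.O) ≠ 0) (fun h => h.2 rfl)]
    simp [ker, Q]
  have a1 : (0 : ℝ) < z.norm := by exact_mod_cast F.norm_pos' hz
  have hT' : (T : ℂ) ≠ 0 := by exact_mod_cast hT0.ne'
  rw [ker]
  simp only [F.Q_div, F.pt_div]
  rw [if_pos (by positivity), ind_and, ind_pos hz, F.nrm_span, ← Real.log_inv, inv_div,
    div_eq_mul_inv (T ^ 2), norm_div, Complex.norm_real, Real.norm_of_nonneg hT0.le,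
    Complex.ofReal_div, div_div_div_cancel_right₀ hT', ← σ_apply, ang]
  push_cast
  ring

theorem mem_box_of_ne {η T : ℝ} {β : ℝ → ℝ} (h : Bp η β) (hT : 0 < T) {z : F.O} (hz : z ≠ 0)
    (h0 : β (Real.log (T ^ 2 * (F.nrm (Ideal.span {z}))⁻¹)) ≠ 0) :
    z ∈ F.box (2 * Real.exp η * T) := by
  have a1 : (0 : ℝ) < z.norm := by exact_mod_cast F.norm_pos' hz
  have a2 := (abs_lt.1 ((h.supp _).1 h0)).1
  rw [F.nrm_span, ← div_eq_mul_inv, ← inv_div, Real.log_inv, neg_lt_neg_iff,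
    Real.log_lt_iff_lt_exp (by positivity), ← F.Q_div] at a2
  obtain ⟨b1, b2⟩ := F.abs_le_of_Q h.pos a2
  rw [abs_div, abs_of_pos hT, div_le_iff₀ hT] at b1 b2
  exact F.mem_box.2 ⟨b1, b2⟩

/-- Hecke characters. -/
structure Hk (W : ℕ) (Ψ : Ideal F.O → ℂ) : Prop where
  mul : ∀ I J, Ψ (I * J) = Ψ I * Ψ J
  one : Ψ ⊤ = 1
  nrm1 : ∀ I, F.cop W I → ‖Ψ I‖ = 1
  zero : ∀ I, ¬ F.cop W I → Ψ I = 0
  form : ∃ (c : F.O ⧸ Ideal.span {(W : F.O)} → ℂ) (k : ℤ), ∀ z, z ≠ 0 →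
    Ψ (Ideal.span {z}) = c (Ideal.Quotient.mk _ z) * F.ang z ^ k

theorem nrm_le_of_ne {η X : ℝ} {β : ℝ → ℝ} (h : Bp η β) (hX : 0 < X) {I : Ideal F.O}
    (h0 : β (Real.log (X * (F.nrm I)⁻¹)) ≠ 0) : F.nrm I ≤ Real.exp η * X :=
  (not_le.1 (fun h1 => h0 (h.term_zero hX h1))).le

theorem theta_cls {η : ℝ} {β : ℝ → ℝ} (h : Bp η β) {W : ℕ} (hW : W ≠ 0) {Ψ : Ideal F.O → ℂ}
    (hΨ : F.Hk W Ψ) (D : ClassGroup F.O) : ∃ κ : ℂ, ∀ q, F.cop W q → ∃ C : ℝ, ∀ X : ℝ, 1 ≤ X →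
      ‖∑ I ∈ F.idl (Real.exp η * X), ind (F.cls I = D ∧ q ∣ I) * Ψ I *
        β (Real.log (X * (F.nrm I)⁻¹)) - κ * X / Ideal.absNorm q‖ ≤ C := by
  classical
  by_cases hD : ∃ I, F.cop W I ∧ F.cls I = D
  swap
  · refine ⟨0, fun q _ => ⟨0, fun X _ => ?_⟩⟩
    rw [sum_eq_zero (fun I _ => ?_)]
    · simp
    · by_cases h1 : F.cop W I
      · rw [ind_neg (q := _ ∧ _) (fun h2 => hD ⟨I, h1, h2.1⟩)]; simp
      · rw [hΨ.zero I h1]; simp
  obtain ⟨I₀, hI₀, rfl⟩ := hD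
  obtain ⟨b, hb, hcb, hbc⟩ := F.exists_compl hI₀.1
  have hbc' : F.cop W b := ⟨hb, hbc ▸ hI₀.2⟩
  have hcl : ∀ I, I ≠ ⊥ → (F.cls I = F.cls I₀ ↔ ∃ z, I * b = Ideal.span {z}) := by
    intro I hI
    have h1 := (F.cls_eq_one_iff (mul_ne_zero hI₀.1 hb)).2 ⟨_, hcb⟩
    rw [← F.cls_eq_one_iff (mul_ne_zero hI hb), F.cls_mul hI hb, ← h1, F.cls_mul hI₀.1 hb,
      mul_left_inj]
  obtain ⟨c, k, hc⟩ := hΨ.form
  obtain ⟨A, hA⟩ := F.la_hecke (k := k) h hW c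
  have hν : (F.w : ℂ) ≠ 0 := by exact_mod_cast F.w_pos.ne'
  have hΨb : Ψ b ≠ 0 := by rw [← norm_ne_zero_iff, hΨ.nrm1 b hbc']; exact one_ne_zero
  refine ⟨A / (Ψ b * (F.w : ℂ)), fun q hq => ?_⟩
  obtain ⟨C, hC⟩ := hA (q * b) (F.cop_mul.2 ⟨hq, hbc'⟩)
  refine ⟨C / ‖Ψ b * (F.w : ℂ)‖, fun X hX => ?_⟩
  have hb1 := F.one_le_nrm hb
  have hX0 : 0 < X := by linarith
  have hT2 : √(F.nrm b * X) ^ 2 = F.nrm b * X := Real.sq_sqrt (by positivity)
  have hT1 : 1 ≤ √(F.nrm b * X) := Real.one_le_sqrt.2 (one_le_mul_of_one_le_of_one_le hb1 hX)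
  have key := hC _ hT1
  set T := √(F.nrm b * X)
  set B := F.box (2 * Real.exp η * T)
  have hw : ∀ {I : Ideal F.O} {z : F.O}, Ideal.span {z} = I * b →
      T ^ 2 * (F.nrm (Ideal.span {z}))⁻¹ = X * (F.nrm I)⁻¹ := by
    intro I z hz
    rw [hz, hT2, F.nrm_mul, mul_inv]
    field_simp
  have e1 : ∑ z ∈ B, ind (z ∈ q * b ∧ z ≠ 0) * (c (Ideal.Quotient.mk _ z) * F.ang z ^ k) *
      (β (Real.log (T ^ 2 * (F.nrm (Ideal.span {z}))⁻¹)) : ℝ)
      = (Ψ b * (F.w : ℂ)) * ∑ I ∈ F.idl (Real.exp η * X), ind (F.cls I = F.cls I₀ ∧ q ∣ I)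
        * Ψ I * β (Real.log (X * (F.nrm I)⁻¹)) := by
    have e2 : ∀ I ∈ F.idl (Real.exp η * X), (Ψ b * (F.w : ℂ)) *
        (ind (F.cls I = F.cls I₀ ∧ q ∣ I) * Ψ I * β (Real.log (X * (F.nrm I)⁻¹)))
        = ∑ z ∈ B, ind (q ∣ I) * Ψ (I * b) * β (Real.log (X * (F.nrm I)⁻¹)) *
          (ind (Ideal.span {z} = I * b) : ℝ) := by
      intro I hI
      have hI0 := (F.mem_idl.1 hI).1
      rw [← mul_sum, ← Complex.ofReal_sum]
      by_cases h1 : F.cls I = F.cls I₀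
      · by_cases h2 : β (Real.log (X * (F.nrm I)⁻¹)) = 0
        · simp [h2]
        obtain ⟨z₀, hz₀⟩ := (hcl I hI0).1 h1
        have hne : ∀ z, Ideal.span {z} = Ideal.span {z₀} → z ≠ 0 := by
          rintro z h3 rfl
          rw [← hz₀, Ideal.span_singleton_zero] at h3
          exact mul_ne_zero hI0 hb h3.symm
        rw [hΨ.mul, hz₀, sum_ind_eq_card, F.card_gens (hne _ rfl) (fun z h3 => F.mem_box_of_ne h
          (by linarith) (hne z h3) (by rw [hw (h3.trans hz₀.symm)]; exact h2)), ind_and,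
          ind_pos h1]
        push_cast
        ring
      · rw [ind_neg (q := _ ∧ _) (fun h => h1 h.1), sum_eq_zero (fun z _ => by
          rw [ind_neg (fun h => h1 ((hcl I hI0).2 ⟨z, h.symm⟩))])]
        simp
    rw [mul_sum, sum_congr rfl e2, sum_comm]
    refine sum_congr rfl (fun z _ => ?_)
    by_cases h1 : z ∈ q * b ∧ z ≠ 0
    · obtain ⟨J, hJ⟩ := F.dvd_span_iff.2 h1.1
      have hJ' : Ideal.span {z} = q * J * b := by rw [hJ]; ring
      have hne : q * J ≠ ⊥ := fun h => h1.2 (by simpa [h] using hJ')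
      rw [sum_eq_single (q * J) (fun I _ hI => ?_) (fun hI => ?_), ind_pos h1, ← hc z h1.2,
        ind_pos (dvd_mul_right _ _), ← hJ', ind_pos rfl, hw hJ']
      · push_cast; ring
      · rw [ind_neg (q := _ = _) (fun h => hI (mul_right_cancel₀ hb (h.symm.trans hJ')))]; simp
      · have : β (Real.log (X * (F.nrm (q * J))⁻¹)) = 0 := by
          by_contra h2
          exact hI (F.mem_idl.2 ⟨hne, F.nrm_le_of_ne h hX0 h2⟩)
        simp [this]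
    · rw [ind_neg h1, sum_eq_zero (fun I hI => ?_)]
      · simp
      by_cases h2 : q ∣ I
      · rw [ind_neg (q := Ideal.span {z} = I * b) (fun h => h1 ⟨F.dvd_span_iff.1
          (by rw [h]; exact mul_dvd_mul_right h2 b), ?_⟩)]
        · simp
        · rintro rfl
          rw [Ideal.span_singleton_zero] at h
          exact mul_ne_zero (F.mem_idl.1 hI).1 hb h.symm
      · rw [ind_neg h2]; simp
  rw [e1] at key
  have hne := mul_ne_zero hΨb hν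
  rw [le_div_iff₀ (norm_pos_iff.2 hne), ← norm_mul]
  refine le_trans (le_of_eq ?_) key
  congr 1
  have h1 : ((T : ℂ)) ^ 2 = (Ideal.absNorm b : ℂ) * X := by exact_mod_cast hT2
  have h2 : (Ideal.absNorm b : ℂ) ≠ 0 := by exact_mod_cast (F.absNorm_pos hb).ne'
  rw [h1, map_mul]
  push_cast
  field_simp

theorem theta {η : ℝ} {β : ℝ → ℝ} (h : Bp η β) {W : ℕ} (hW : W ≠ 0) {Ψ : Ideal F.O → ℂ}
    (hΨ : F.Hk W Ψ) : ∃ (κ : ℂ) (C : ℝ), ((∃ q, F.cop W q ∧ Ψ q ≠ 1) → κ = 0) ∧ ∀ X : ℝ, 1 ≤ X →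
      ‖∑ I ∈ F.idl (Real.exp η * X), Ψ I * β (Real.log (X * (F.nrm I)⁻¹)) - κ * X‖ ≤ C := by
  classical
  choose κ hκ using F.theta_cls h hW hΨ
  have key : ∀ q, F.cop W q → ∃ C : ℝ, ∀ X : ℝ, 1 ≤ X →
      ‖∑ I ∈ F.idl (Real.exp η * X), ind (q ∣ I) * Ψ I *
        β (Real.log (X * (F.nrm I)⁻¹)) - (∑ D, κ D) * X / Ideal.absNorm q‖ ≤ C := by
    intro q hq
    choose C hC using fun D => hκ D q hq
    refine ⟨∑ D, C D, fun X hX => le_trans (le_of_eq ?_) ((norm_sum_le _ _).trans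
      (sum_le_sum (fun D _ => hC D X hX)))⟩
    rw [sum_sub_distrib, sum_comm, ← sum_div, ← sum_mul]
    congr 2
    refine sum_congr rfl (fun I _ => ?_)
    rw [sum_eq_single (F.cls I) (fun D _ hD => by
      rw [ind_neg (q := _ ∧ _) (fun h => hD h.1.symm)]; simp) (fun h => (h (mem_univ _)).elim),
      ind_and, ind_pos rfl, one_mul]
  obtain ⟨C, hC⟩ := key ⊤ (F.cop_top W)
  simp only [← Ideal.one_eq_top, one_dvd, ind_pos, map_one, Nat.cast_one, div_one,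
    Complex.ofReal_one, one_mul] at hC
  refine ⟨_, C, ?_, hC⟩
  rintro ⟨q, hq, hq1⟩
  obtain ⟨C', hC'⟩ := key q hq
  have hq2 := F.one_le_nrm hq.1
  have hb : ∀ Y : ℝ, 1 ≤ Y → ‖(∑ D, κ D) * (1 - Ψ q)‖ * Y ≤ C' + C := by
    intro Y hY
    have h1 := hC' (F.nrm q * Y) (one_le_mul_of_one_le_of_one_le hq2 hY)
    have h2 := hC Y hY
    have e1 : ∑ I ∈ F.idl (Real.exp η * (F.nrm q * Y)), ind (q ∣ I) * Ψ I *
        β (Real.log (F.nrm q * Y * (F.nrm I)⁻¹))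
        = Ψ q * ∑ I ∈ F.idl (Real.exp η * Y), Ψ I * β (Real.log (Y * (F.nrm I)⁻¹)) := by
      rw [mul_sum]
      symm
      refine sum_of_injOn (fun J => q * J) (fun a _ b _ h => mul_left_cancel₀ hq.1 h)
        (fun J hJ => ?_) (fun I hI hI' => ?_) (fun J _ => ?_)
      · obtain ⟨a1, a2⟩ := F.mem_idl.1 hJ
        refine F.mem_idl.2 ⟨mul_ne_zero hq.1 a1, ?_⟩
        rw [F.nrm_mul, mul_left_comm]
        gcongr
      · rw [ind_neg]
        · simp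
        rintro ⟨J, rfl⟩
        obtain ⟨a1, a2⟩ := F.mem_idl.1 hI
        refine hI' ⟨J, F.mem_idl.2 ⟨right_ne_zero_of_mul a1, ?_⟩, rfl⟩
        rw [F.nrm_mul, mul_left_comm] at a2
        exact le_of_mul_le_mul_left a2 (by linarith)
      · rw [ind_pos (dvd_mul_right _ _), hΨ.mul, F.nrm_mul, show F.nrm q * Y *
          (F.nrm q * F.nrm J)⁻¹ = Y * (F.nrm J)⁻¹ by rw [mul_inv]; field_simp]
        push_cast
        ring
    rw [e1] at h1
    have h3 : (Ideal.absNorm q : ℂ) ≠ 0 := by exact_mod_cast (F.absNorm_pos hq.1).ne'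
    have h4 : (∑ D, κ D) * ((F.nrm q * Y : ℝ) : ℂ) / Ideal.absNorm q = (∑ D, κ D) * Y := by
      unfold nrm; push_cast; field_simp
    rw [h4] at h1
    set S := ∑ I ∈ F.idl (Real.exp η * Y), Ψ I * β (Real.log (Y * (F.nrm I)⁻¹))
    set k := ∑ D, κ D
    have h5 : k * (1 - Ψ q) * Y = Ψ q * (S - k * Y) - (Ψ q * S - k * Y) := by ring
    have h6 := norm_sub_le (Ψ q * (S - k * Y)) (Ψ q * S - k * Y)
    rw [← h5, norm_mul, norm_mul (Ψ q), hΨ.nrm1 q hq, Complex.norm_real, Real.norm_eq_abs,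
      abs_of_pos (by linarith)] at h6
    linarith
  by_contra h0
  have h1 := norm_pos_iff.2 (mul_ne_zero h0 (sub_ne_zero.2 hq1.symm))
  have h2 := hb 1 le_rfl
  have h3 := hb ((C' + C) / ‖(∑ D, κ D) * (1 - Ψ q)‖ + 1) (by
    have : 0 ≤ (C' + C) / ‖(∑ D, κ D) * (1 - Ψ q)‖ := div_nonneg (by linarith) h1.le
    linarith)
  rw [mul_add, mul_div_cancel₀ _ h1.ne'] at h3
  linarith

end IQ

end Pool.Agent.Lib.DL
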