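import Pool.Agent.Lib.DL.Hecke1

set_option autoImplicit false

namespace Pool.Agent.Lib.DL

open QuadraticAlgebra Finset Filter Topology UniqueFactorizationMonoid
open scoped ComplexOrder
open Pool.Agent.Lib.MP_d48457_nt (ind ind_pos ind_neg ind_nonneg ind_le_one ind_and ind_congr
  ind_mono sum_ind_eq_card Bp LD LB ext_glue nonvan nonvan_real no_ext' wi_zero)

namespace IQ

variable (F : IQ)

open Classical in
/-- Prime powers of given norm. -/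
noncomputable def ppN (d : ℕ) : Finset (Ideal F.O × ℕ) :=
  (F.idl d ×ˢ Icc 1 d).filter fun x => Prime x.1 ∧ Ideal.absNorm x.1 ^ x.2 = d

theorem mem_ppN {d : ℕ} {x : Ideal F.O × ℕ} :
    x ∈ F.ppN d ↔ Prime x.1 ∧ 1 ≤ x.2 ∧ Ideal.absNorm x.1 ^ x.2 = d := by
  classical
  simp only [ppN, mem_filter, mem_product, F.mem_idl, mem_Icc]
  constructor
  · tauto
  · rintro ⟨h1, h3, h4⟩
    have h5 := F.two_le_absNorm h1
    refine ⟨⟨⟨h1.ne_zero, ?_⟩, h3, ?_⟩, h1, h4⟩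
    · rw [← h4, nrm]; exact_mod_cast Nat.le_self_pow (by omega) _
    · rw [← h4]; exact (Nat.lt_pow_self (by omega)).le

/-- Coefficients of the L-series. -/
noncomputable def aa (w : Ideal F.O → ℂ) : ArithmeticFunction ℂ :=
  ⟨fun n => ∑ I ∈ F.idN n, w I, sum_eq_zero (fun I hI => by
    obtain ⟨h1, h2⟩ := F.mem_idN.1 hI
    exact absurd h2 (F.absNorm_pos h1).ne')⟩

/-- Coefficients of the logarithmic derivative. -/
noncomputable def bb (w : Ideal F.O → ℂ) : ArithmeticFunction ℂ :=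
  ⟨fun n => ∑ x ∈ F.ppN n, w (x.1 ^ x.2) * Real.log (Ideal.absNorm x.1),
    sum_eq_zero (fun x hx => by
      obtain ⟨h1, -, h2⟩ := F.mem_ppN.1 hx
      exact absurd h2 (pow_pos (F.absNorm_pos h1.ne_zero) _).ne')⟩

theorem aa_apply (w : Ideal F.O → ℂ) (n : ℕ) : F.aa w n = ∑ I ∈ F.idN n, w I := rfl

theorem bb_apply (w : Ideal F.O → ℂ) (n : ℕ) :
    F.bb w n = ∑ x ∈ F.ppN n, w (x.1 ^ x.2) * Real.log (Ideal.absNorm x.1) := rfl

open Classical in
theorem log_absNorm_eq {I : Ideal F.O} (hI0 : I ≠ ⊥) :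
    Real.log (Ideal.absNorm I) = ∑ x ∈ (F.pf I ×ˢ Icc 1 (Ideal.absNorm I)).filter
      (fun x => x.1 ^ x.2 ∣ I), Real.log (Ideal.absNorm x.1) := by
  rw [sum_filter, sum_product]
  have h1 : ∀ P ∈ F.pf I, (∑ k ∈ Icc 1 (Ideal.absNorm I),
      if P ^ k ∣ I then Real.log (Ideal.absNorm P) else 0)
      = (normalizedFactors I).count P * Real.log (Ideal.absNorm P) := by
    intro P hP
    have hP1 := ((F.mem_pf hI0).1 hP).1
    have hiff : ∀ k, P ^ k ∣ I ↔ k ≤ (normalizedFactors I).count P := by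
      intro k
      rw [pow_dvd_iff_le_emultiplicity, emultiplicity_eq_count_normalizedFactors hP1.irreducible
        hI0, normalize_eq, Nat.cast_le]
    have hle : (normalizedFactors I).count P ≤ Ideal.absNorm I := by
      have h2 := map_dvd Ideal.absNorm ((hiff _).mpr le_rfl)
      rw [map_pow] at h2
      have h3 := Nat.le_of_dvd (F.absNorm_pos hI0) h2
      have h4 := F.two_le_absNorm hP1
      exact (Nat.lt_pow_self (by omega)).le.trans h3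
    rw [← sum_filter, sum_const, nsmul_eq_mul]
    congr 2
    have : (Icc 1 (Ideal.absNorm I)).filter (fun k => P ^ k ∣ I)
        = Icc 1 ((normalizedFactors I).count P) := by
      ext k
      simp only [mem_filter, mem_Icc, hiff]
      omega
    rw [this]; simp
  rw [sum_congr rfl h1]
  have hsub : (normalizedFactors I).toFinset ⊆ F.pf I := fun P hP =>
    (F.mem_pf hI0).2 ⟨prime_of_normalized_factor P (Multiset.mem_toFinset.1 hP),
      dvd_of_mem_normalizedFactors (Multiset.mem_toFinset.1 hP)⟩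
  rw [← sum_subset hsub (fun P _ hP => by
    rw [Multiset.mem_toFinset] at hP
    rw [Multiset.count_eq_zero_of_notMem hP]; simp)]
  conv_lhs => rw [← Ideal.prod_normalizedFactors_eq_self hI0,
    prod_multiset_count, map_prod, Nat.cast_prod]
  rw [Real.log_prod]
  · simp
  · intro P hP
    have := F.two_le_absNorm ((F.mem_pf hI0).1 (hsub hP)).1
    rw [map_pow]
    positivity

theorem conv_eq {w : Ideal F.O → ℂ} (hw : ∀ I J, w (I * J) = w I * w J) (n : ℕ) :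
    (Real.log n : ℂ) * F.aa w n = (F.bb w * F.aa w) n := by
  classical
  have h1 : (Real.log n : ℂ) * F.aa w n = ∑ I ∈ F.idN n, ∑ x ∈ (F.pf I ×ˢ Icc 1 n).filter
      (fun x => x.1 ^ x.2 ∣ I), w I * Real.log (Ideal.absNorm x.1) := by
    rw [aa_apply, mul_sum]
    refine sum_congr rfl (fun I hI => ?_)
    obtain ⟨a1, rfl⟩ := F.mem_idN.1 hI
    rw [← mul_sum, ← Complex.ofReal_sum, ← F.log_absNorm_eq a1, mul_comm]
  have h2 : ∀ p : ℕ × ℕ, F.bb w p.1 * F.aa w p.2 = ∑ y ∈ F.ppN p.1 ×ˢ F.idN p.2,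
      w (y.1.1 ^ y.1.2 * y.2) * Real.log (Ideal.absNorm y.1.1) := by
    intro p
    rw [sum_product, bb_apply, aa_apply, sum_mul_sum]
    exact sum_congr rfl fun x _ => sum_congr rfl fun J _ => by rw [hw]; ring
  rw [ArithmeticFunction.mul_apply]
  simp only [h2]
  rw [h1, sum_sigma', sum_sigma']
  symm
  refine sum_bij (fun y _ => ⟨y.2.1.1 ^ y.2.1.2 * y.2.2, y.2.1⟩) ?_ ?_ ?_ ?_
  · rintro ⟨⟨d, e⟩, ⟨P, k⟩, J⟩ hy
    simp only [mem_sigma, Nat.mem_divisorsAntidiagonal, mem_product, mem_ppN, mem_idN] at hy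
    obtain ⟨⟨hde, hn⟩, ⟨hP1, hk, hPk⟩, hJ0, hJ⟩ := hy
    have h5 := F.two_le_absNorm hP1
    have hdn : d ≤ n := Nat.le_of_dvd (Nat.pos_of_ne_zero hn) ⟨e, hde.symm⟩
    have hne : P ^ k * J ≠ ⊥ := mul_ne_zero (pow_ne_zero _ hP1.ne_zero) hJ0
    simp only [mem_sigma, mem_idN, mem_filter, mem_product, F.mem_pf hne, mem_Icc, map_mul, map_pow]
    exact ⟨⟨hne, by rw [hPk, hJ, hde]⟩, ⟨⟨hP1, (dvd_pow_self P (by omega)).mul_right _⟩, hk,
      (Nat.lt_pow_self (by omega)).le.trans (hPk.le.trans hdn)⟩, dvd_mul_right _ _⟩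
  · rintro ⟨⟨d, e⟩, ⟨P, k⟩, J⟩ hy ⟨⟨d', e'⟩, ⟨P', k'⟩, J'⟩ hy' h
    simp only [mem_sigma, Nat.mem_divisorsAntidiagonal, mem_product, mem_ppN, mem_idN] at hy hy'
    simp only [Sigma.mk.injEq, heq_eq_eq, Prod.mk.injEq] at h
    obtain ⟨h1, rfl, rfl⟩ := h
    have := mul_left_cancel₀ (pow_ne_zero k hy.2.1.1.ne_zero) h1
    subst this
    have hd : d = d' := hy.2.1.2.2.symm.trans hy'.2.1.2.2
    have he : e = e' := hy.2.2.2.symm.trans hy'.2.2.2
    subst hd he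
    rfl
  · rintro ⟨I, P, k⟩ hx
    simp only [mem_sigma, mem_idN, mem_filter, mem_product, mem_Icc] at hx
    obtain ⟨⟨hI0, hI⟩, ⟨hP, hk, -⟩, J, hJ⟩ := hx
    refine ⟨⟨(Ideal.absNorm P ^ k, Ideal.absNorm J), (P, k), J⟩, ?_, ?_⟩
    · simp only [mem_sigma, Nat.mem_divisorsAntidiagonal, mem_product, mem_ppN, mem_idN]
      refine ⟨⟨?_, hI ▸ (F.absNorm_pos hI0).ne'⟩, ⟨((F.mem_pf hI0).1 hP).1, hk, trivial⟩,
        right_ne_zero_of_mul (hJ ▸ hI0), trivial⟩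
      rw [← hI, hJ, map_mul, map_pow]
    · simp [hJ]
  · intro y _
    rfl

open ArithmeticFunction in
theorem Lam_le (d : ℕ) : ∑ x ∈ F.ppN d, Real.log (Ideal.absNorm x.1) ≤ 2 * vonMangoldt d := by
  classical
  rcases (F.ppN d).eq_empty_or_nonempty with h | ⟨x0, hx0⟩
  · rw [h, sum_empty]
    exact mul_nonneg (by norm_num) vonMangoldt_nonneg
  have key : ∀ x ∈ F.ppN d, F.ell x.1 = d.minFac ∧ IsPrimePow d := by
    intro x hx
    obtain ⟨h1, h3, h4⟩ := F.mem_ppN.1 hx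
    have h2 := F.two_le_absNorm h1
    obtain ⟨i, -, hi⟩ := (Nat.dvd_prime_pow (F.ell_prime h1)).1 (F.absNorm_dvd_ell_sq h1)
    rw [hi, ← pow_mul] at h4
    have hne : i * x.2 ≠ 0 := Nat.mul_ne_zero (by rintro rfl; rw [pow_zero] at hi; omega) (by omega)
    rw [← h4, (F.ell_prime h1).pow_minFac hne]
    exact ⟨rfl, (F.ell_prime h1).isPrimePow.pow hne⟩
  rw [vonMangoldt_apply, if_pos (key x0 hx0).2]
  have hinj : Set.InjOn Prod.fst (F.ppN d : Set (Ideal F.O × ℕ)) := by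
    rintro ⟨P, k⟩ hx ⟨P', k'⟩ hx' (rfl : P = P')
    obtain ⟨h1, -, h4⟩ := F.mem_ppN.1 hx
    obtain ⟨-, -, h4'⟩ := F.mem_ppN.1 hx'
    have := Nat.pow_right_injective (F.two_le_absNorm h1) (h4.trans h4'.symm)
    simp only at this
    rw [this]
  rw [← sum_image (f := fun P : Ideal F.O => Real.log (Ideal.absNorm P)) hinj]
  refine F.fiber_log_le (Nat.minFac_pos d) (fun P hP => ?_)
  obtain ⟨x, hx, rfl⟩ := mem_image.1 hP
  exact ⟨(F.mem_ppN.1 hx).1, (key x hx).1⟩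

theorem norm_bb_le {w : Ideal F.O → ℂ} {v : Ideal F.O → ℝ} (h : ∀ I, ‖w I‖ ≤ v I) (n : ℕ) :
    ‖F.bb w n‖ ≤ ∑ x ∈ F.ppN n, v (x.1 ^ x.2) * Real.log (Ideal.absNorm x.1) :=
  (norm_sum_le _ _).trans (sum_le_sum (fun x _ => by
    rw [norm_mul, Complex.norm_real, Real.norm_of_nonneg (Real.log_natCast_nonneg _)]
    exact mul_le_mul_of_nonneg_right (h _) (Real.log_natCast_nonneg _)))

theorem sum_norm_bb_le {w : Ideal F.O → ℂ} (h : ∀ I, ‖w I‖ ≤ 1) (n : ℕ) :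
    ∑ k ∈ Icc 1 n, ‖F.bb w k‖ ≤ 2 * (Real.log 4 + 4) * n := by
  refine (sum_le_sum (fun k _ => (F.norm_bb_le h k).trans (by
    simpa only [one_mul] using F.Lam_le k))).trans ?_
  rw [← mul_sum, mul_assoc]
  refine mul_le_mul_of_nonneg_left ?_ (by norm_num)
  have := Chebyshev.psi_le_const_mul_self (x := n) (Nat.cast_nonneg n)
  rw [Chebyshev.psi, Nat.floor_natCast] at this
  exact this

theorem sum_norm_aa_le {w : Ideal F.O → ℂ} (h : ∀ I, ‖w I‖ ≤ 1) (n : ℕ) :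
    ∑ k ∈ Icc 1 n, ‖F.aa w k‖ ≤ F.c1 * n := by
  refine le_trans ?_ (F.card_idl_le (Nat.cast_nonneg n))
  rw [card_eq_sum_card_fiberwise (f := fun I => Ideal.absNorm I) (t := Icc 1 n) (fun I hI => by
    obtain ⟨h1, h2⟩ := F.mem_idl.1 hI
    exact mem_coe.2 (mem_Icc.2 ⟨F.absNorm_pos h1, by unfold nrm at h2; exact_mod_cast h2⟩))]
  push_cast
  refine sum_le_sum (fun k hk => (norm_sum_le _ _).trans ((sum_le_card_nsmul _ _ 1
    (fun I _ => h I)).trans ?_))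
  rw [nsmul_eq_mul, mul_one]
  exact_mod_cast card_le_card (fun I hI => by
    obtain ⟨h1, h2⟩ := F.mem_idN.1 hI
    exact mem_filter.2 ⟨F.mem_idl.2 ⟨h1, by
      rw [nrm, h2]; exact_mod_cast (mem_Icc.1 hk).2⟩, h2⟩)

theorem _root_.Pool.Agent.Lib.DL.summable_of_lin {f : ℕ → ℂ} {C : ℝ}
    (h : ∀ n : ℕ, ∑ k ∈ Icc 1 n, ‖f k‖ ≤ C * n) (s : ℂ) (hs : 1 < s.re) : LSeriesSummable f s := by
  refine LSeriesSummable_of_sum_norm_bigO (r := 1) (Asymptotics.IsBigO.of_bound C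
    (Eventually.of_forall fun n => ?_)) zero_le_one hs
  rw [Real.rpow_one, Real.norm_of_nonneg (sum_nonneg (fun k _ => norm_nonneg _)),
    Real.norm_of_nonneg (Nat.cast_nonneg n)]
  exact h n

theorem tsum_aa {η X : ℝ} {β : ℝ → ℝ} (h : Bp η β) (hX : 0 < X) (w : Ideal F.O → ℂ) :
    ∑' m : ℕ, F.aa w m * β (Real.log (X * (m : ℝ)⁻¹))
      = ∑ I ∈ F.idl (Real.exp η * X), w I * β (Real.log (X * (F.nrm I)⁻¹)) := by
  obtain ⟨N, hN⟩ := exists_nat_gt (Real.exp η * X)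
  rw [h.tsum_eq _ hX hN.le, ← sum_fiberwise_of_maps_to (g := fun I => Ideal.absNorm I)
    (t := range N) (fun I hI => mem_range.2 (by
      have := (F.mem_idl.1 hI).2.trans_lt hN
      unfold nrm at this; exact_mod_cast this))]
  refine sum_congr rfl (fun m _ => ?_)
  rw [sum_congr rfl (g := fun I => w I * β (Real.log (X * (m : ℝ)⁻¹))) (fun I hI => by
    rw [nrm, (mem_filter.1 hI).2]), ← sum_mul]
  by_cases h0 : β (Real.log (X * (m : ℝ)⁻¹)) = 0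
  · simp [h0]
  rw [aa_apply]
  congr 2
  ext I
  rw [F.mem_idN, mem_filter, F.mem_idl]
  exact ⟨fun a => ⟨⟨a.1, F.nrm_le_of_ne h hX (by rwa [nrm, a.2])⟩, a.2⟩, fun a => ⟨a.1.1, a.2⟩⟩

variable {F}

theorem Hk.norm_le {W : ℕ} {Ψ : Ideal F.O → ℂ} (h : F.Hk W Ψ) (I : Ideal F.O) :
    ‖Ψ I‖ ≤ ind (F.cop W I) := by
  by_cases h1 : F.cop W I
  · rw [h.nrm1 I h1, ind_pos h1]
  · rw [h.zero I h1, ind_neg h1, _root_.norm_zero]

theorem Hk.norm_le_one {W : ℕ} {Ψ : Ideal F.O → ℂ} (h : F.Hk W Ψ) (I : Ideal F.O) : ‖Ψ I‖ ≤ 1 :=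
  (h.norm_le I).trans (ind_le_one _)

theorem Hk.ld {W : ℕ} (hW : W ≠ 0) {Ψ : Ideal F.O → ℂ} (h : F.Hk W Ψ) :
    ∃ H, LD 1 (F.aa Ψ) (F.bb Ψ) H ∧ ((∃ q, F.cop W q ∧ Ψ q ≠ 1) → H 1 = 0) := by
  have h1 := summable_of_lin (F.sum_norm_aa_le h.norm_le_one)
  obtain ⟨H, a1, a2, a3⟩ := ext_glue (F.aa Ψ) (F.aa Ψ).map_zero h1 (∃ q, F.cop W q ∧ Ψ q ≠ 1)
    (fun η β hβ => by
      obtain ⟨κ, C, b1, b2⟩ := F.theta hβ hW h
      exact ⟨κ, C, b1, fun X hX => by rw [F.tsum_aa hβ (by linarith)]; exact b2 X hX⟩)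
  refine ⟨H, ⟨h1, summable_of_lin (F.sum_norm_bb_le h.norm_le_one), F.conv_eq h.mul, ?_, a1,
    fun s hs => by rw [a3 s hs, pow_one]⟩, a2⟩
  rw [aa_apply, sum_eq_single_of_mem ⊤ (F.mem_idN.2 ⟨by simp, by simp⟩) (fun I hI h =>
    absurd (Ideal.absNorm_eq_one_iff.1 (F.mem_idN.1 hI).2) h), h.one]

theorem Hk.mul' {W : ℕ} {Ψ Φ : Ideal F.O → ℂ} (h : F.Hk W Ψ) (h' : F.Hk W Φ) :
    F.Hk W (fun I => Ψ I * Φ I) := by
  obtain ⟨c, k, hc⟩ := h.form
  obtain ⟨c', k', hc'⟩ := h'.form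
  refine ⟨fun I J => by rw [h.mul, h'.mul]; ring, by rw [h.one, h'.one, mul_one], fun I hI => by
    rw [norm_mul, h.nrm1 I hI, h'.nrm1 I hI, mul_one], fun I hI => by rw [h.zero I hI, zero_mul],
    fun x => c x * c' x, k + k', fun z hz => ?_⟩
  rw [hc z hz, hc' z hz, zpow_add₀ (F.ang_ne_zero hz)]
  ring

theorem Hk.conj {W : ℕ} {Ψ : Ideal F.O → ℂ} (h : F.Hk W Ψ) :
    F.Hk W (fun I => (starRingEnd ℂ) (Ψ I)) := by
  obtain ⟨c, k, hc⟩ := h.form
  refine ⟨fun I J => by rw [h.mul, map_mul], by rw [h.one, map_one], fun I hI => by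
    rw [Complex.norm_conj, h.nrm1 I hI], fun I hI => by rw [h.zero I hI, map_zero],
    fun x => (starRingEnd ℂ) (c x), -k, fun z hz => ?_⟩
  rw [hc z hz, map_mul, map_zpow₀, ← Complex.inv_eq_conj (F.norm_ang hz), inv_zpow']

variable (F)

theorem isUnit_cl {W : ℕ} {z : F.O} (hz : z ≠ 0) :
    IsUnit (Ideal.Quotient.mk (Ideal.span {(W : F.O)}) z) ↔ F.cop W (Ideal.span {z}) := by
  rw [cop, F.absNorm_span]
  simp only [Ne, Ideal.span_singleton_eq_bot]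
  have key : IsUnit (Ideal.Quotient.mk (Ideal.span {(W : F.O)}) z) ↔
      Nat.Coprime z.norm.natAbs W := by
    rw [isUnit_iff_exists_inv, ← Int.natAbs_natCast W, ← Int.isCoprime_iff_nat_coprime,
      Int.natAbs_natCast]
    constructor
    · rintro ⟨b, hb⟩
      obtain ⟨b, rfl⟩ := Ideal.Quotient.mk_surjective b
      rw [← map_mul, ← map_one (Ideal.Quotient.mk _), Ideal.Quotient.eq,
        Ideal.mem_span_singleton] at hb
      obtain ⟨v, hv⟩ := hb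
      have h1 := congrArg QuadraticAlgebra.norm (eq_add_of_sub_eq hv)
      rw [map_mul, norm_def ((W : F.O) * v + 1)] at h1
      simp only [re_add, im_add, re_mul, im_mul, re_natCast, im_natCast, re_one, im_one] at h1
      exact ⟨b.norm, -(2 * v.re + W * v.re * v.re + F.b * v.im + W * F.b * v.re * v.im
        - F.a * W * v.im * v.im), by linear_combination h1⟩
    · rintro ⟨a, b, hab⟩
      refine ⟨Ideal.Quotient.mk _ (a * star z), ?_⟩
      rw [← map_mul, ← map_one (Ideal.Quotient.mk _), Ideal.Quotient.eq, Ideal.mem_span_singleton]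
      refine ⟨-b, ?_⟩
      have h1 := congrArg (Int.cast : ℤ → F.O) hab
      have h2 : ((z.norm : ℤ) : F.O) = z * star z := by
        rw [← algebraMap_norm_eq_mul_star]; simp
      push_cast at h1
      linear_combination h1 - (a : F.O) * h2
  rw [key]
  exact ⟨fun h => ⟨hz, h⟩, fun h => h.2⟩

/-- The trivial character. -/
noncomputable def Psi0 (W : ℕ) (I : Ideal F.O) : ℂ := ind (F.cop W I)

theorem hk0 (W : ℕ) : F.Hk W (F.Psi0 W) :=
  ⟨fun I J => by simp only [Psi0, ind_congr F.cop_mul, ind_and, Complex.ofReal_mul],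
    by simp [Psi0, ind_pos (F.cop_top W)], fun I hI => by simp [Psi0, ind_pos hI],
    fun I hI => by simp [Psi0, ind_neg hI], fun x => ind (IsUnit x), 0, fun z hz => by
      simp [Psi0, ind_congr (F.isUnit_cl hz)]⟩

theorem bb_nonneg {w : Ideal F.O → ℂ} (h : ∀ I, 0 ≤ w I) (n : ℕ) : 0 ≤ F.bb w n :=
  sum_nonneg (fun _ _ => mul_nonneg (h _) (by exact_mod_cast Real.log_natCast_nonneg _))

theorem lb_bb {W : ℕ} {w : Ideal F.O → ℂ} (h : ∀ I, 0 ≤ w I)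
    (h1 : ∀ I, F.cop W I → 1 ≤ w (I ^ 2)) : LB W (F.bb w) := by
  intro l hl hlW
  obtain ⟨P, a1, a2, -⟩ := F.exists_prime_dvd (I := Ideal.span {(l : F.O)}) hl (by
    rw [F.absNorm_span_nat]; exact dvd_pow_self _ (by norm_num))
  have a3 := F.two_le_absNorm a1
  have a4 := F.absNorm_dvd_ell_sq a1
  refine ⟨Ideal.absNorm P ^ 2, by nlinarith, ?_, ?_, ?_⟩
  · rw [Nat.pow_minFac (by norm_num)]; exact a2
  · have := F.absNorm_le_ell_sq a1
    rw [a2] at this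
    calc _ ≤ (l ^ 2) ^ 2 := by gcongr
      _ = _ := by ring
  · have hc : F.cop W P := ⟨a1.ne_zero, Nat.Coprime.coprime_dvd_left a4 (by
      rw [a2]; exact Nat.Coprime.pow_left _ ((Nat.Prime.coprime_iff_not_dvd hl).2 hlW))⟩
    have b1 := single_le_sum (f := fun x : Ideal F.O × ℕ => w (x.1 ^ x.2) *
      Real.log (Ideal.absNorm x.1)) (s := F.ppN (Ideal.absNorm P ^ 2)) (fun _ _ =>
      mul_nonneg (h _) (by exact_mod_cast Real.log_natCast_nonneg _)) (a := (P, 2))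
      (F.mem_ppN.2 ⟨a1, by norm_num, rfl⟩)
    have b2 := (Complex.le_def.1 b1).1
    have b3 := (Complex.le_def.1 (h1 P hc)).1
    rw [Complex.re_mul_ofReal] at b2
    rw [Complex.one_re] at b3
    have b4 := Real.log_natCast_nonneg (Ideal.absNorm P)
    rw [bb_apply, Nat.cast_pow, Real.log_pow, Nat.cast_ofNat]
    nlinarith

variable {F}

theorem Hk.tfo {W : ℕ} {Ψ : Ideal F.O → ℂ} (h : F.Hk W Ψ) (n : ℕ) (w : ℂ) (hw : ‖w‖ = 1) :
    0 ≤ (3 * F.bb (F.Psi0 W) n + 4 * F.bb Ψ n * w + F.bb (fun I => Ψ I * Ψ I) n * w ^ 2).re := by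
  simp only [bb_apply, mul_sum, sum_mul, ← sum_add_distrib, Complex.re_sum]
  refine sum_nonneg (fun x _ => ?_)
  set J := x.1 ^ x.2
  rw [show 3 * (F.Psi0 W J * Real.log (Ideal.absNorm x.1)) + 4 * (Ψ J * Real.log (Ideal.absNorm x.1))
    * w + Ψ J * Ψ J * Real.log (Ideal.absNorm x.1) * w ^ 2 = (3 * F.Psi0 W J + 4 * (Ψ J * w)
    + (Ψ J * w) * (Ψ J * w)) * Real.log (Ideal.absNorm x.1) by ring, Complex.re_mul_ofReal]
  refine mul_nonneg ?_ (Real.log_natCast_nonneg _)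
  by_cases hJ : F.cop W J
  · have h1 : ‖Ψ J * w‖ = 1 := by rw [norm_mul, h.nrm1 J hJ, hw, mul_one]
    generalize Ψ J * w = v at h1
    have h5 := Complex.sq_norm v
    rw [h1, Complex.normSq_apply] at h5
    simp only [Psi0, ind_pos hJ, Complex.add_re, Complex.mul_re, Complex.re_ofNat,
      Complex.im_ofNat, Complex.ofReal_re, Complex.ofReal_im]
    nlinarith [sq_nonneg (1 + v.re)]
  · simp [Psi0, ind_neg hJ, h.zero J hJ]

theorem Hk.ld0 {W : ℕ} (hW : W ≠ 0) {Ψ : Ideal F.O → ℂ} (h : F.Hk W Ψ)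
    (hq : ∃ q, F.cop W q ∧ Ψ q ≠ 1) : ∃ G : ℂ → ℂ, ContinuousOn G {s | 1 ≤ s.re} ∧
      ∀ s : ℂ, 1 < s.re → G s = LSeries (F.bb Ψ) s := by
  obtain ⟨H₀, h₀, -⟩ := (F.hk0 W).ld hW
  obtain ⟨H₁, h₁, a₁⟩ := h.ld hW
  obtain ⟨H₂, h₂, a₂⟩ := (h.mul' h).ld hW
  have h₁' := h₁.drop (a₁ hq)
  suffices hs : ∀ t : ℝ, dslope H₁ 1 (1 + t * Complex.I) ≠ 0 by simpa using h₁'.cont hs
  intro t
  by_cases ht : t = 0
  swap
  · exact nonvan h₀ h₁' h₂ h.tfo (fun h => absurd h ht)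
  by_cases h2 : ∃ q, F.cop W q ∧ Ψ q * Ψ q ≠ 1
  · exact nonvan h₀ h₁' (h₂.drop (a₂ h2)) h.tfo (fun _ => ⟨rfl, rfl⟩)
  push Not at h2
  have e : F.bb (F.Psi0 W) + F.bb Ψ = F.bb (fun I => F.Psi0 W I + Ψ I) := by
    ext n
    simp only [ArithmeticFunction.add_apply, bb_apply, ← sum_add_distrib, add_mul]
  have h3 : ∀ I, 0 ≤ F.Psi0 W I + Ψ I := by
    intro I
    by_cases hI : F.cop W I
    · rcases mul_self_eq_one_iff.1 (h2 I hI) with h4 | h4
      · rw [Psi0, ind_pos hI, h4]; exact add_nonneg zero_le_one zero_le_one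
      · simp [Psi0, ind_pos hI, h4]
    · simp [Psi0, ind_neg hI, h.zero I hI]
  rw [ht, Complex.ofReal_zero, zero_mul, add_zero]
  refine nonvan_real h₀ h₁' (by rw [e]; exact F.bb_nonneg h3) hW (by
    rw [e]
    refine F.lb_bb h3 (fun I hI => ?_)
    rw [sq, h.mul, h2 I hI, Psi0, ind_pos (F.cop_mul.2 ⟨hI, hI⟩)]
    simp)

theorem ld_triv {W : ℕ} (hW : W ≠ 0) : ∃ G : ℂ → ℂ, ContinuousOn G {s | 1 ≤ s.re} ∧
      ∀ s : ℂ, 1 < s.re → G s = LSeries (F.bb (F.Psi0 W)) s - 1 / (s - 1) := by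
  obtain ⟨H₀, h₀, -⟩ := (F.hk0 W).ld hW
  obtain ⟨H₂, h₂, -⟩ := ((F.hk0 W).mul' (F.hk0 W)).ld hW
  suffices hs : ∀ t : ℝ, H₀ (1 + t * Complex.I) ≠ 0 by simpa using h₀.cont hs
  intro t
  by_cases ht : t = 0
  swap
  · exact nonvan h₀ h₀ h₂ (F.hk0 W).tfo (fun h => absurd h ht)
  rw [ht, Complex.ofReal_zero, zero_mul, add_zero]
  intro h0
  have h3 : ∀ I, 0 ≤ F.Psi0 W I := fun I => by unfold Psi0; exact_mod_cast ind_nonneg _
  refine no_ext' (h₀.drop h0) (F.bb_nonneg h3) hW (F.lb_bb h3 (fun I hI => ?_))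
  rw [sq, Psi0, ind_pos (F.cop_mul.2 ⟨hI, hI⟩)]
  simp

variable (F)

/-- Mean value over prime powers. -/
def Asym (w : Ideal F.O → ℂ) (δ : ℂ) : Prop :=
  Tendsto (fun x : ℝ => (∑ k ∈ Icc 1 ⌊x⌋₊, F.bb w k) / x) atTop (𝓝 δ)

variable {F}

theorem Hk.asym {W : ℕ} (hW : W ≠ 0) {Ψ : Ideal F.O → ℂ} (h : F.Hk W Ψ) :
    F.Asym Ψ (ind (∀ q, F.cop W q → Ψ q = 1)) := by
  obtain ⟨G₀, c₀, e₀⟩ := ld_triv (F := F) hW
  have hre : ∀ n, F.bb (F.Psi0 W) n = ((∑ x ∈ F.ppN n, ind (F.cop W (x.1 ^ x.2)) *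
      Real.log (Ideal.absNorm x.1) : ℝ) : ℂ) := fun n => by
    rw [bb_apply]; push_cast; rfl
  have hs := summable_of_lin (F.sum_norm_bb_le (F.hk0 W).norm_le_one)
  have hb0 : ∀ n, (F.bb (F.Psi0 W) n).im = 0 := fun n => by rw [hre, Complex.ofReal_im]
  have hC : ∀ n : ℕ, ∑ k ∈ Icc 1 n, (F.bb (F.Psi0 W) k).re ≤ 2 * (Real.log 4 + 4) * n := fun n =>
    (sum_le_sum (fun k _ => Complex.re_le_norm _)).trans (F.sum_norm_bb_le (F.hk0 W).norm_le_one n)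
  by_cases hq : ∀ q, F.cop W q → Ψ q = 1
  · have : Ψ = F.Psi0 W := funext fun I => by
      by_cases hI : F.cop W I
      · simp [Psi0, ind_pos hI, hq I hI]
      · simp [Psi0, ind_neg hI, h.zero I hI]
    rw [ind_pos hq, this, Complex.ofReal_one]
    exact (wi_zero (b₁ := 0) (G₁ := 0) (G₂ := 0) hs (fun n => by
      rw [hre, Complex.ofReal_re, Pi.zero_apply, _root_.norm_zero]
      exact sum_nonneg (fun _ _ => mul_nonneg (ind_nonneg _) (Real.log_natCast_nonneg _)))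
      hb0 hC c₀ continuousOn_const continuousOn_const e₀ (fun s _ => by simp)
      (fun s _ => by simp [LSeries, LSeries.term])).1
  · rw [ind_neg hq, Complex.ofReal_zero]
    push Not at hq
    obtain ⟨G₁, c₁, e₁⟩ := h.ld0 hW hq
    obtain ⟨G₂, c₂, e₂⟩ := h.conj.ld0 hW (by
      obtain ⟨q, a1, a2⟩ := hq
      exact ⟨q, a1, fun a3 => a2 (by simpa using congrArg (starRingEnd ℂ) a3)⟩)
    refine (wi_zero hs (fun n => ?_) hb0 hC c₀ c₁ c₂ e₀ e₁ (fun s hs => ?_)).2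
    · rw [hre, Complex.ofReal_re]; exact F.norm_bb_le h.norm_le n
    · rw [e₂ s hs]
      congr 1
      funext n
      simp only [bb_apply, map_sum, map_mul, Complex.conj_ofReal]

end IQ

end Pool.Agent.Lib.DL
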