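import Pool.Agent.Lib.DL.Hecke2

set_option autoImplicit false

namespace Pool.Agent.Lib.DL

open QuadraticAlgebra Finset Filter Topology
open Pool.Agent.Lib.MP_d48457_nt (ind ind_pos ind_neg ind_nonneg ind_le_one ind_and ind_congr
  ind_mono sum_ind_eq_card)

theorem exists_extend {Z S : Type} [CommMonoid Z] [CommMonoid S] [IsCancelMul S] (f : Z →* S)
    (ξ : Z →* Circle) (h : ∀ z z', f z = f z' → ξ z = ξ z') :
    ∃ Ψ : S →* Circle, ∀ z, Ψ (f z) = ξ z := by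
  let φ := Algebra.GrothendieckGroup.lift ((Algebra.GrothendieckGroup.of (M := S)).comp f)
  let ξ' := Algebra.GrothendieckGroup.lift ξ
  have hker : φ.ker ≤ ξ'.ker := by
    intro x hx
    rw [MonoidHom.mem_ker, Algebra.GrothendieckGroup.lift_apply, div_eq_one] at hx ⊢
    exact h _ _ (Algebra.GrothendieckGroup.of_injective hx)
  let : DivisibleBy (Additive Circle) ℤ := divisibleByOfSMulRightSurj _ _ (fun {n} hn w => by
    obtain ⟨t, ht⟩ := Circle.exp_surjective w.toMul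
    refine ⟨Additive.ofMul (Circle.exp (t / n)), ?_⟩
    change Additive.ofMul (Circle.exp (t / n) ^ n) = w
    rw [← Circle.exp_intCast_mul, mul_div_cancel₀ _ (by exact_mod_cast hn), ht]
    rfl)
  obtain ⟨g, hg⟩ := (Module.Baer.of_divisible (Additive Circle)).extension_property_addMonoidHom
    (MonoidHom.toAdditive (QuotientGroup.kerLift φ)) (QuotientGroup.kerLift_injective φ)
    (MonoidHom.toAdditive (QuotientGroup.lift φ.ker ξ' hker))
  refine ⟨(MonoidHom.toAdditive.symm g).comp Algebra.GrothendieckGroup.of, fun z => ?_⟩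
  have h1 : φ (Algebra.GrothendieckGroup.of z) = Algebra.GrothendieckGroup.of (f z) :=
    DFunLike.congr_fun (Algebra.GrothendieckGroup.lift.left_inv
      ((Algebra.GrothendieckGroup.of (M := S)).comp f)) z
  have h2 : ξ' (Algebra.GrothendieckGroup.of z) = ξ z :=
    DFunLike.congr_fun (Algebra.GrothendieckGroup.lift.left_inv ξ) z
  have h3 := DFunLike.congr_fun hg (Additive.ofMul (QuotientGroup.mk
    (Algebra.GrothendieckGroup.of z)))
  change g (Additive.ofMul (φ _)) = Additive.ofMul (ξ' _) at h3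
  rw [h1, h2] at h3
  exact congrArg Additive.toMul h3

open Classical in
theorem sum_mulChar {M : Type} [CommMonoid M] [Finite M] [Fintype (MulChar M ℂ)] (a : M) :
    ∑ χ : MulChar M ℂ, χ a = ind (a = 1) * Nat.card Mˣ := by
  by_cases ha : a = 1
  · simp only [ha, map_one, sum_const, card_univ, nsmul_eq_mul, mul_one, ind_pos,
      ← Nat.card_eq_fintype_card, MulChar.card_eq_card_units_of_hasEnoughRootsOfUnity]
    simp
  · obtain ⟨χ, hχ⟩ := MulChar.exists_apply_ne_one_of_hasEnoughRootsOfUnity M ℂ ha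
    rw [ind_neg ha, Complex.ofReal_zero, zero_mul]
    refine eq_zero_of_mul_eq_self_left hχ ?_
    simp only [mul_sum, ← MulChar.mul_apply]
    exact Fintype.sum_bijective _ (Group.mulLeft_bijective χ) _ _ fun χ' ↦ rfl

theorem norm_mulChar {M : Type} [CommMonoid M] [Finite M] (χ : MulChar M ℂ) {a : M}
    (ha : IsUnit a) : ‖χ a‖ = 1 := by
  have h1 : ‖χ a‖ ^ Nat.card Mˣ = 1 := by
    obtain ⟨v, rfl⟩ := ha
    rw [← norm_pow, ← map_pow, ← Units.val_pow_eq_pow_val, pow_card_eq_one', Units.val_one, map_one,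
      NormOneClass.norm_one]
  exact (pow_eq_one_iff_of_nonneg (norm_nonneg _) Nat.card_pos.ne').1 h1

namespace IQ

variable {F : IQ}

theorem Asym.congr {w w' : Ideal F.O → ℂ} {δ δ' : ℂ} (h : F.Asym w δ) (hw : ∀ I, w I = w' I)
    (hδ : δ = δ') : F.Asym w' δ' := by
  rwa [← hδ, ← funext hw]

theorem Asym.const_mul {w : Ideal F.O → ℂ} {δ : ℂ} (h : F.Asym w δ) (c : ℂ) :
    F.Asym (fun I => c * w I) (c * δ) := by
  refine (Tendsto.const_mul c h).congr (fun x => ?_)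
  simp only [bb_apply, mul_sum, ← mul_div_assoc, mul_assoc]

theorem Asym.add {w w' : Ideal F.O → ℂ} {δ δ' : ℂ} (h : F.Asym w δ) (h' : F.Asym w' δ') :
    F.Asym (fun I => w I + w' I) (δ + δ') := by
  refine (Tendsto.add h h').congr (fun x => ?_)
  simp only [bb_apply, ← add_div, ← sum_add_distrib, add_mul]

theorem asym_zero : F.Asym (fun _ => 0) 0 := by
  simp [Asym, bb_apply]

theorem Asym.sum {ι : Type*} (s : Finset ι) {w : ι → Ideal F.O → ℂ} {δ : ι → ℂ}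
    (h : ∀ i, F.Asym (w i) (δ i)) : F.Asym (fun I => ∑ i ∈ s, w i I) (∑ i ∈ s, δ i) := by
  classical
  induction s using Finset.induction_on with
  | empty => simpa using asym_zero
  | insert a s ha ih => simpa only [sum_insert ha] using (h a).add ih

variable (F)

theorem finite_quot {W : ℕ} (hW : W ≠ 0) : Finite (F.O ⧸ Ideal.span {(W : F.O)}) := by
  have hW0 : Ideal.absNorm (Ideal.span {(W : F.O)}) ≠ 0 := by
    rw [F.absNorm_span_nat]; positivity
  exact Nat.finite_of_card_ne_zero hW0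

/-- Characters on elements. -/
noncomputable def Xi {W : ℕ} (χ : MulChar (F.O ⧸ Ideal.span {(W : F.O)}) ℂ) (k : ℤ) (z : F.O) : ℂ :=
  χ (Ideal.Quotient.mk _ z) * F.ang z ^ k

theorem Xi_zero_of {W : ℕ} (χ : MulChar (F.O ⧸ Ideal.span {(W : F.O)}) ℂ) (k : ℤ) {z : F.O}
    (hz : z ≠ 0) (h : ¬ F.cop W (Ideal.span {z})) : F.Xi χ k z = 0 := by
  rw [Xi, χ.map_nonunit (fun h' => h ((F.isUnit_cl hz).1 h')), zero_mul]

theorem not_cop_zero (W : ℕ) : ¬ F.cop W (Ideal.span {0}) := fun h => h.1 (by simp)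

theorem Xi_mul {W : ℕ} (χ : MulChar (F.O ⧸ Ideal.span {(W : F.O)}) ℂ) (k : ℤ) (z w : F.O) :
    F.Xi χ k (z * w) = F.Xi χ k z * F.Xi χ k w := by
  rw [Xi, Xi, Xi, F.ang_mul, map_mul, map_mul, mul_zpow]
  ring

theorem Xi_one {W : ℕ} (χ : MulChar (F.O ⧸ Ideal.span {(W : F.O)}) ℂ) (k : ℤ) :
    F.Xi χ k 1 = 1 := by
  simp [Xi, F.ang_one]

theorem exists_hk {W : ℕ} (hW : W ≠ 0) (χ : MulChar (F.O ⧸ Ideal.span {(W : F.O)}) ℂ) (k : ℤ)
    (h : ∀ γ : F.Oˣ, F.Xi χ k γ = 1) :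
    ∃ Ψ, F.Hk W Ψ ∧ ∀ z, z ≠ 0 → Ψ (Ideal.span {z}) = F.Xi χ k z := by
  classical
  have := F.finite_quot hW
  have hne : ∀ {z : F.O}, F.cop W (Ideal.span {z}) → z ≠ 0 := fun hz h0 =>
    F.not_cop_zero W (h0 ▸ hz)
  let S : Submonoid (Ideal F.O) := ⟨⟨{I | F.cop W I}, fun a b => F.cop_mul.2 ⟨a, b⟩⟩,
    by simpa using F.cop_top W⟩
  let Z : Submonoid F.O := ⟨⟨{z | F.cop W (Ideal.span {z})}, fun {a b} ha hb => by
    have := F.cop_mul.2 ⟨ha, hb⟩
    rwa [Ideal.span_singleton_mul_span_singleton] at this⟩, by simpa using F.cop_top W⟩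
  have : IsLeftCancelMul S := ⟨fun a _ _ h => Subtype.ext
    (mul_left_cancel₀ a.2.1 (congrArg Subtype.val h))⟩
  have : IsCancelMul S := CommMagma.IsLeftCancelMul.toIsCancelMul S
  let f : Z →* S := ⟨⟨fun z => ⟨Ideal.span {z.1}, z.2⟩, Subtype.ext (by simp)⟩, fun a b =>
    Subtype.ext (Ideal.span_singleton_mul_span_singleton _ _).symm⟩
  let ξ : Z →* Circle := ⟨⟨fun z => ⟨F.Xi χ k z, mem_sphere_zero_iff_norm.2 (by
    rw [Xi, norm_mul, norm_mulChar χ ((F.isUnit_cl (hne z.2)).2 z.2), norm_zpow,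
      F.norm_ang (hne z.2), one_zpow, mul_one])⟩, Circle.ext (F.Xi_one χ k)⟩,
    fun a b => Circle.ext (F.Xi_mul χ k _ _)⟩
  obtain ⟨Ψ, hΨ⟩ := exists_extend f ξ (fun z z' hz => by
    obtain ⟨γ, hγ⟩ := Ideal.span_singleton_eq_span_singleton.1 (congrArg Subtype.val hz)
    refine Circle.ext ?_
    change F.Xi χ k z = F.Xi χ k z'
    rw [← hγ, F.Xi_mul, h, mul_one])
  have hf : ∀ z, z ≠ 0 →
      (if h : F.cop W (Ideal.span {z}) then (Ψ ⟨_, h⟩ : ℂ) else 0) = F.Xi χ k z := by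
    intro z hz
    split_ifs with h1
    · exact congrArg Subtype.val (hΨ ⟨z, h1⟩)
    · exact (F.Xi_zero_of χ k hz h1).symm
  refine ⟨fun I => if h : F.cop W I then (Ψ ⟨I, h⟩ : ℂ) else 0, ⟨fun I J => ?_, ?_,
    fun I hI => by rw [dif_pos hI, Circle.norm_coe], fun I hI => dif_neg hI,
    χ, k, fun z hz => hf z hz⟩, hf⟩
  · by_cases hI : F.cop W I
    · by_cases hJ : F.cop W J
      · rw [dif_pos hI, dif_pos hJ, dif_pos (F.cop_mul.2 ⟨hI, hJ⟩), ← Circle.coe_mul, ← map_mul]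
        rfl
      · rw [dif_neg hJ, dif_neg (fun h => hJ (F.cop_mul.1 h).2), mul_zero]
    · rw [dif_neg hI, dif_neg (fun h => hI (F.cop_mul.1 h).1), zero_mul]
  · have := hf 1 one_ne_zero
    rwa [Ideal.span_singleton_one, F.Xi_one] at this

noncomputable instance : Fintype (MulChar (ClassGroup F.O) ℂ) := Fintype.ofFinite _

theorem Hk.twist {F : IQ} {W : ℕ} {Ψ : Ideal F.O → ℂ} (h : F.Hk W Ψ)
    (ψ : MulChar (ClassGroup F.O) ℂ) : F.Hk W (fun I => Ψ I * ψ (F.cls I)) := by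
  obtain ⟨c, τ, hc⟩ := h.form
  refine ⟨fun I J => ?_, ?_, fun I hI => ?_, fun I hI => by rw [h.zero I hI, zero_mul], c, τ,
    fun z hz => by rw [F.cls_span, map_one, mul_one, hc z hz]⟩
  · by_cases hI : I = ⊥
    · rw [h.mul, h.zero I (fun h => h.1 hI)]; simp
    by_cases hJ : J = ⊥
    · rw [h.mul, h.zero J (fun h => h.1 hJ)]; simp
    rw [h.mul, F.cls_mul hI hJ, map_mul]; ring
  · rw [h.one, ← Ideal.span_singleton_one, F.cls_span, map_one, mul_one]
  · rw [norm_mul, h.nrm1 I hI, norm_mulChar ψ (Group.isUnit _), mul_one]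

theorem asym_pr {W : ℕ} (hW : W ≠ 0) {Ψ : Ideal F.O → ℂ} (h : F.Hk W Ψ) :
    F.Asym (fun I => Ψ I * ind (F.cls I = 1)) ((∑ ψ : MulChar (ClassGroup F.O) ℂ,
      ind (∀ q, F.cop W q → Ψ q * ψ (F.cls q) = 1)) / Nat.card (ClassGroup F.O)ˣ : ℝ) := by
  have h0 : (Nat.card (ClassGroup F.O)ˣ : ℂ) ≠ 0 := by exact_mod_cast Nat.card_pos.ne'
  refine ((Asym.sum univ (fun ψ => (h.twist ψ).asym hW)).const_mul
    (Nat.card (ClassGroup F.O)ˣ : ℂ)⁻¹).congr (fun I => ?_) ?_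
  · rw [← mul_sum, sum_mulChar]; field_simp
  · push_cast; ring

/-- The density of principal ideals. -/
noncomputable def d0 (W : ℕ) : ℝ := (∑ ψ : MulChar (ClassGroup F.O) ℂ,
  ind (∀ q, F.cop W q → F.Psi0 W q * ψ (F.cls q) = 1)) / Nat.card (ClassGroup F.O)ˣ

theorem le_d0 (W : ℕ) : 1 / (Nat.card (ClassGroup F.O)ˣ : ℝ) ≤ F.d0 W := by
  refine div_le_div_of_nonneg_right ?_ (Nat.cast_nonneg _)
  refine le_trans (le_of_eq (ind_pos (fun q hq => ?_)).symm) (single_le_sum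
    (f := fun ψ : MulChar (ClassGroup F.O) ℂ => ind (∀ q, F.cop W q →
      F.Psi0 W q * ψ (F.cls q) = 1)) (fun _ _ => ind_nonneg _) (mem_univ 1))
  rw [MulChar.one_apply (Group.isUnit _), Psi0, ind_pos hq]; simp

end IQ

end Pool.Agent.Lib.DL
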