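import Pool.Agent.Lib.DL.Blue

set_option autoImplicit false

namespace Pool.Agent.Lib.DL

open QuadraticAlgebra

namespace INV

variable {F : IQ}

theorem cls_cj (h1 : AR1 F) {I : Ideal F.O} (hI : I ≠ ⊥) : F.cls (F.cj I) = (F.cls I)⁻¹ := by
  have := F.cls_mul hI (F.cj_ne_bot hI)
  rw [h1.mul_cj, F.cls_span] at this
  exact eq_inv_of_mul_eq_one_right this.symm

theorem dep (h3 : AR3 F) {q : ℕ} (hq : q ≠ 0) {Ψ : Ideal F.O → ℂ} (h : F.Hk q Ψ)
    (hc : ∀ I, Ψ (F.cj I) = Ψ I) {x y : F.O} (hx : x ≠ 0) (hy : y ≠ 0) (hxy : (q : F.O) ∣ x - y) :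
    Ψ (Ideal.span {x}) = Ψ (Ideal.span {y}) := by
  obtain ⟨c, k, hf⟩ := h.form
  have hk : k = 0 := by
    by_contra hk
    obtain ⟨z, hz, hd, hne⟩ := h3.kzero q k hq hk
    have e1 := hf 1 one_ne_zero
    rw [Ideal.span_singleton_one, h.one, F.ang_one, one_zpow, mul_one] at e1
    have hd' : (q : F.O) ∣ star z - 1 := by
      obtain ⟨w, hw⟩ := hd
      exact ⟨star w, by simpa using congrArg star hw⟩
    have m1 := Ideal.Quotient.eq.2 (Ideal.mem_span_singleton.2 hd)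
    have m2 := Ideal.Quotient.eq.2 (Ideal.mem_span_singleton.2 hd')
    have := hc (Ideal.span {z})
    rw [F.cj_span, hf _ (star_ne_zero.2 hz), hf _ hz, m1, m2, ← e1, one_mul, one_mul] at this
    exact hne this.symm
  subst hk
  rw [hf x hx, hf y hy, zpow_zero, zpow_zero,
    Ideal.Quotient.eq.2 (Ideal.mem_span_singleton.2 hxy)]

theorem exists_sq (h1 : AR1 F) (h3 : AR3 F) {K : Ideal F.O} (hK : K ≠ ⊥) {β : F.O} {c : ℕ}
    (hc : c ≠ 0) (hβ : β.norm = (Ideal.absNorm K : ℕ) * (c : ℤ) ^ 2) :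
    ∃ C : ClassGroup F.O, C * C = F.cls K := by
  let H : Subgroup (ClassGroup F.O) := (powMonoidHom 2 : ClassGroup F.O →* ClassGroup F.O).range
  have hK0 := F.absNorm_pos hK
  have hc' : Ideal.span {(c : F.O)} ≠ ⊥ := by
    rw [Ne, ← Ideal.absNorm_eq_zero_iff, F.absNorm_span_nat]
    exact pow_ne_zero _ hc
  have hn : Ideal.absNorm (Ideal.span {β}) = Ideal.absNorm (K * Ideal.span {(c : F.O)}) := by
    rw [map_mul, F.absNorm_span_nat]
    have := F.absNorm_span_int β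
    rw [hβ] at this
    exact_mod_cast this
  have hβ0 : Ideal.span {β} ≠ ⊥ := by
    rw [Ne, ← Ideal.absNorm_eq_zero_iff, hn, Ideal.absNorm_eq_zero_iff]
    exact mul_ne_zero hK hc'
  have key := h3.same_norm (ClassGroup F.O ⧸ H) (fun I => QuotientGroup.mk' H (F.cls I))
    (by rw [← Ideal.span_singleton_one, F.cls_span, map_one])
    (fun I J hI hJ => by rw [F.cls_mul hI hJ, map_mul])
    (fun I hI => by
      rw [cls_cj h1 hI]
      exact QuotientGroup.eq.2 ⟨F.cls I, by simp [sq]⟩)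
    _ _ hβ0 (mul_ne_zero hK hc') hn
  rw [F.cls_mul hK hc', F.cls_span, F.cls_span, mul_one, map_one] at key
  obtain ⟨C, hC⟩ := (QuotientGroup.eq_one_iff _).1 key.symm
  exact ⟨C, by simpa [sq] using hC⟩

theorem cop_left {q n : ℕ} {I : Ideal F.O} (h : F.cop (q * n) I) : F.cop q I :=
  ⟨h.1, Nat.Coprime.coprime_mul_right_right h.2⟩

theorem d_dvd : F.d ∣ (F.Dn : ℤ) := by
  rw [IQ.Dn, Int.dvd_natAbs]
  rcases F.D_cases with ⟨-, h, -⟩ | ⟨-, h, -⟩ <;> rw [h]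
  exact Dvd.intro_left _ rfl

end INV

open INV in
theorem stINV (h1 : St_AR1) (h2 : St_AR2) (h3 : St_AR3) (hP : St_PG) (hH : St_H90) : St_INV := by
  intro F q Ψ hq h hc I J hI hJ hIJ
  have hD : F.Dn ≠ 0 := by
    have := F.D_le
    rw [IQ.Dn, Int.natAbs_ne_zero]
    omega
  have hW : q * F.Dn ≠ 0 := mul_ne_zero hq hD
  have hKc : F.cop (q * F.Dn) (I * F.cj J) := F.cop_mul.2 ⟨hI, F.cop_cj hJ⟩
  have hNK : Ideal.absNorm (I * F.cj J) = Ideal.absNorm I * Ideal.absNorm J := by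
    rw [map_mul, F.absNorm_cj]
  have hdv : ((q * F.Dn : ℕ) : ℤ) ∣ (Ideal.absNorm I : ℤ) - Ideal.absNorm J :=
    (Nat.modEq_iff_dvd.1 hIJ.symm)
  obtain ⟨β, c, hc0, hβ⟩ := hP F (Ideal.absNorm (I * F.cj J))
    (((h2 F).rho_pos _).1 (Finset.card_pos.2 ⟨_, F.mem_idN.2 ⟨hKc.1, rfl⟩⟩))
    (Nat.Coprime.coprime_mul_left_right hKc.2)
    ⟨Ideal.absNorm J, by
      have e : ((Ideal.absNorm (I * F.cj J) : ℕ) : ℤ) - (Ideal.absNorm J : ℤ) ^ 2
          = ((Ideal.absNorm I : ℤ) - Ideal.absNorm J) * Ideal.absNorm J := by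
        rw [hNK]; push_cast; ring
      rw [e]
      refine Dvd.dvd.mul_right ((d_dvd.trans ?_).trans hdv) _
      push_cast
      exact Dvd.intro_left _ rfl⟩
  obtain ⟨C, hC⟩ := exists_sq (h1 F) (h3 F) hKc.1 hc0 hβ
  obtain ⟨A, hA, hAC⟩ := F.exists_rep C⁻¹
  obtain ⟨z₀, E, hE, hz₀⟩ := (h3 F).cop_rep A _ hA hW
  have hEC : C * F.cls E = 1 := by
    rw [← F.cls_span z₀, hz₀, F.cls_mul hA hE.1, hAC, inv_inv]
  have hT : I * F.cj J * (E * E) ≠ ⊥ := mul_ne_zero hKc.1 (mul_ne_zero hE.1 hE.1)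
  obtain ⟨z, hz⟩ := (F.cls_eq_one_iff hT).1 (by
    rw [F.cls_mul hKc.1 (mul_ne_zero hE.1 hE.1), F.cls_mul hE.1 hE.1, ← hC, mul_mul_mul_comm, hEC,
      mul_one])
  have hz0 : z ≠ 0 := fun e => hT (by rw [hz, e]; simp)
  have hzn : z.norm = (Ideal.absNorm I : ℤ) * Ideal.absNorm J *
      (Ideal.absNorm E * Ideal.absNorm E) := by
    rw [← F.absNorm_span_int, ← hz, map_mul, hNK, map_mul]; push_cast; ring
  obtain ⟨β₁, β₂, I', J', hI', hJ', e1, e2, hd⟩ := hH F q z (Ideal.absNorm J * Ideal.absNorm E) hq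
    (Nat.Coprime.mul_left hJ.2 hE.2) (by
      have e : z.norm - ((Ideal.absNorm J * Ideal.absNorm E : ℕ) : ℤ) ^ 2
          = ((Ideal.absNorm I : ℤ) - Ideal.absNorm J) *
            (Ideal.absNorm J * (Ideal.absNorm E * Ideal.absNorm E)) := by
        rw [hzn]; push_cast; ring
      rw [e]
      exact hdv.mul_right _)
  have hs : Ideal.span {((Ideal.absNorm J * Ideal.absNorm E : ℕ) : F.O)}
      = J * F.cj J * (E * F.cj E) := by
    rw [(h1 F).mul_cj, (h1 F).mul_cj, Ideal.span_singleton_mul_span_singleton, Nat.cast_mul]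
  have hs0 : ((Ideal.absNorm J * Ideal.absNorm E : ℕ) : F.O) ≠ 0 := fun e => by
    rw [e, Ideal.span_singleton_zero] at hs
    exact mul_ne_zero (mul_ne_zero hJ.1 (F.cj_ne_bot hJ.1)) (mul_ne_zero hE.1 (F.cj_ne_bot hE.1))
      hs.symm
  have hb1 : β₁ ≠ 0 := fun e => by
    rw [e, Ideal.span_singleton_zero] at e1
    exact mul_ne_zero hI'.1 hJ'.1 e1.symm
  have hb2 : β₂ ≠ 0 := fun e => by
    rw [e, Ideal.span_singleton_zero] at e2
    exact mul_ne_zero (F.cj_ne_bot hI'.1) hJ'.1 e2.symm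
  have key := dep (h3 F) hq h hc (mul_ne_zero hz0 hb2) (mul_ne_zero hs0 hb1) hd
  rw [← Ideal.span_singleton_mul_span_singleton, ← Ideal.span_singleton_mul_span_singleton, ← hz,
    hs, e1, e2] at key
  simp only [h.mul, hc] at key
  have nz : ∀ X, F.cop q X → Ψ X ≠ 0 := fun X hX e => by
    have := h.nrm1 X hX
    rw [e] at this
    simp at this
  have n1 := nz J (cop_left hJ)
  have n2 := nz E (cop_left hE)
  have n3 := nz I' hI'
  have n4 := nz J' hJ'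
  have hX : Ψ J * (Ψ E * Ψ E) * (Ψ I' * Ψ J') ≠ 0 := by positivity
  apply mul_right_cancel₀ hX
  linear_combination key

end Pool.Agent.Lib.DL
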