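import Pool.Agent.Lib.DL.Blue

set_option autoImplicit false

namespace Pool.Agent.Lib.DL

open QuadraticAlgebra Finset Filter Topology
open Pool.Agent.Lib.MP_d48457_nt (ind ind_pos ind_neg ind_nonneg ind_le_one)

namespace JSUM

theorem sqf_dvd (F : IQ) (n a b : ℕ) (hn : F.jj n) (h : b ^ 2 * a = n) (ha : Squarefree a) :
    a ∣ F.Dn := by
  have hn0 : n ≠ 0 := hn.1.1
  have ha0 : a ≠ 0 := ha.ne_zero
  have hb0 : b ≠ 0 := by
    rintro rfl
    apply hn0
    rw [← h]; simp
  rw [← Nat.prod_primeFactors_of_squarefree ha]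
  refine Finset.prod_primes_dvd _ (fun p hp => (Nat.prime_of_mem_primeFactors hp).prime) ?_
  intro p hp
  have hpp := Nat.prime_of_mem_primeFactors hp
  have hpa := Nat.dvd_of_mem_primeFactors hp
  have hf : n.factorization p = 2 * b.factorization p + 1 := by
    rw [← h, Nat.factorization_mul (pow_ne_zero 2 hb0) ha0, Nat.factorization_pow]
    have h1 : a.factorization p = 1 := by
      have h2 := (Nat.squarefree_iff_factorization_le_one ha0).1 ha p
      have h3 := hpp.factorization_pos_of_dvd ha0 hpa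
      omega
    simp [h1]
  have hni : ¬ F.inert p := by
    intro hi
    have := hn.1.2 p hpp hi
    rw [hf] at this
    exact (Nat.not_even_iff_odd.2 ⟨_, rfl⟩) this
  have hns : ¬ F.split p := hn.2 p hpp (h ▸ Dvd.dvd.mul_left hpa _)
  have hr : F.ram p := by
    by_contra hr
    exact hns ⟨hni, hr⟩
  exact Int.natCast_dvd.1 hr

theorem summ (F : IQ) : Summable (fun n : ℕ => ind (F.jj n) / (n : ℝ)) := by
  classical
  choose a b hab hsq using Nat.sq_mul_squarefree
  have hD : F.Dn ≠ 0 := by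
    have := F.D_le
    intro h
    have h2 : F.D = 0 := Int.natAbs_eq_zero.1 h
    omega
  have hu : Summable (fun x : ℕ => ind (x ∣ F.Dn)) := by
    refine summable_of_ne_finset_zero (s := F.Dn.divisors) ?_
    intro x hx
    refine ind_neg ?_
    intro h
    exact hx (Nat.mem_divisors.2 ⟨h, hD⟩)
  have hv : Summable (fun y : ℕ => 1 / (y : ℝ) ^ 2) := Real.summable_one_div_nat_pow.2 (by norm_num)
  have hg : Summable (fun z : ℕ × ℕ => ind (z.1 ∣ F.Dn) * (1 / (z.2 : ℝ) ^ 2)) :=
    Summable.mul_of_nonneg hu hv (fun x => ind_nonneg _) (fun y => by positivity)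
  have hinj : Function.Injective (fun n : ℕ => (a n, b n)) := by
    intro m n h
    have h1 : a m = a n := congrArg Prod.fst h
    have h2 : b m = b n := congrArg Prod.snd h
    rw [← hab m, ← hab n, h1, h2]
  refine Summable.of_nonneg_of_le (fun n => div_nonneg (ind_nonneg _) (Nat.cast_nonneg _)) ?_
    (hg.comp_injective hinj)
  intro n
  by_cases hn : F.jj n
  · have hd := sqf_dvd F n (a n) (b n) hn (hab n) (hsq n)
    have hn0 : n ≠ 0 := hn.1.1
    have ha0 : a n ≠ 0 := (hsq n).ne_zero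
    have hb0 : b n ≠ 0 := by
      intro h0
      apply hn0
      rw [← hab n, h0]; simp
    simp only [Function.comp, ind_pos hn, ind_pos hd, one_mul]
    have h1 : (1 : ℝ) ≤ a n := by exact_mod_cast Nat.one_le_iff_ne_zero.2 ha0
    have h2 : (0 : ℝ) < (b n : ℝ) ^ 2 := by positivity
    have h3 : (n : ℝ) = (b n : ℝ) ^ 2 * a n := by exact_mod_cast (hab n).symm
    refine one_div_le_one_div_of_le h2 ?_
    rw [h3]
    nlinarith
  · simp only [Function.comp, ind_neg hn, zero_div]
    exact mul_nonneg (ind_nonneg _) (by positivity)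

/-- The reciprocal as a monoid homomorphism. -/
noncomputable def rec1 : ℕ →* ℝ where
  toFun n := 1 / (n : ℝ)
  map_one' := by simp
  map_mul' m n := by
    rw [Nat.cast_mul, one_div_mul_one_div]

theorem jj_of_fact (F : IQ) (h1 : AR1 F) (n : ℕ)
    (hn : n ∈ Nat.factoredNumbers F.Dn.primeFactors) : F.jj n := by
  have hram : ∀ p : ℕ, p.Prime → p ∣ n → F.ram p := by
    intro p hp hpn
    have := (Nat.mem_factoredNumbers'.1 hn) p hp hpn
    exact Int.natCast_dvd.2 (Nat.dvd_of_mem_primeFactors this)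
  refine ⟨⟨hn.1, ?_⟩, ?_⟩
  · intro p hp hi
    have : ¬ p ∣ n := fun h => h1.ram_not_inert p hp (hram p hp h) hi
    rw [Nat.factorization_eq_zero_of_not_dvd this]
    exact ⟨0, rfl⟩
  · intro p hp hpn hs
    exact hs.2 (hram p hp hpn)

end JSUM

theorem stJSUM (h1 : St_AR1) : St_JSUM := by
  intro F
  refine ⟨JSUM.summ F, ?_⟩
  have hlt : ∀ {p : ℕ}, p.Prime → ‖JSUM.rec1 p‖ < 1 := by
    intro p hp
    have h2 : (1 : ℝ) < p := by exact_mod_cast hp.one_lt
    show ‖1 / (p : ℝ)‖ < 1
    rw [Real.norm_eq_abs, abs_of_pos (by positivity), div_lt_one (by positivity)]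
    exact h2
  have hs := (EulerProduct.summable_and_hasSum_factoredNumbers_prod_filter_prime_geometric
    hlt F.Dn.primeFactors).2
  rw [Finset.filter_true_of_mem (fun p hp => Nat.prime_of_mem_primeFactors hp)] at hs
  have e : ∏ p ∈ F.Dn.primeFactors, (1 - 1 / (p : ℝ))⁻¹ =
      ∑' m : Nat.factoredNumbers F.Dn.primeFactors, JSUM.rec1 m := hs.tsum_eq.symm
  rw [e]
  have e2 : ∀ m : Nat.factoredNumbers F.Dn.primeFactors,
      JSUM.rec1 m = ind (F.jj m) / ((m : ℕ) : ℝ) := by
    intro m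
    rw [ind_pos (JSUM.jj_of_fact F (h1 F) m m.2)]
    rfl
  rw [tsum_congr e2]
  exact (JSUM.summ F).tsum_subtype_le (fun n : ℕ => ind (F.jj n) / (n : ℝ)) _
    (fun n => div_nonneg (ind_nonneg _) (Nat.cast_nonneg _))

end Pool.Agent.Lib.DL
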