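import Pool.Agent.Lib.DL.Blue

set_option autoImplicit false

namespace Pool.Agent.Lib.DL

open QuadraticAlgebra Finset Filter Topology
open Pool.Agent.Lib.MP_d48457_nt (ind ind_pos ind_neg ind_nonneg ind_le_one ind_and ind_congr)

namespace LAND

theorem not_mm_zero (E : ℕ → Prop) : ¬ MM E 0 := fun h => h.1 rfl

theorem mm_one (E : ℕ → Prop) : MM E 1 := ⟨one_ne_zero, fun p _ _ => by simp⟩

theorem mm_mul (E : ℕ → Prop) {m n : ℕ} (h : Nat.Coprime m n) :
    MM E (m * n) ↔ MM E m ∧ MM E n := by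
  constructor
  · rintro ⟨h0, h1⟩
    have hm : m ≠ 0 := left_ne_zero_of_mul h0
    have hn : n ≠ 0 := right_ne_zero_of_mul h0
    refine ⟨⟨hm, fun p hp hE => ?_⟩, hn, fun p hp hE => ?_⟩
    · have h2 := h1 p hp hE
      rw [Nat.factorization_mul hm hn, Finsupp.add_apply] at h2
      by_cases hd : p ∣ m
      · have hn' : ¬ p ∣ n := fun hd' => hp.one_lt.ne' (Nat.eq_one_of_dvd_coprimes h hd hd')
        rwa [Nat.factorization_eq_zero_of_not_dvd hn', add_zero] at h2
      · rw [Nat.factorization_eq_zero_of_not_dvd hd]; exact Even.zero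
    · have h2 := h1 p hp hE
      rw [Nat.factorization_mul hm hn, Finsupp.add_apply] at h2
      by_cases hd : p ∣ n
      · have hm' : ¬ p ∣ m := fun hd' => hp.one_lt.ne' (Nat.eq_one_of_dvd_coprimes h hd' hd)
        rwa [Nat.factorization_eq_zero_of_not_dvd hm', zero_add] at h2
      · rw [Nat.factorization_eq_zero_of_not_dvd hd]; exact Even.zero
  · rintro ⟨⟨hm, h1⟩, hn, h2⟩
    refine ⟨mul_ne_zero hm hn, fun p hp hE => ?_⟩
    rw [Nat.factorization_mul hm hn, Finsupp.add_apply]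
    exact (h1 p hp hE).add (h2 p hp hE)

theorem mm_pow (E : ℕ → Prop) {p : ℕ} (hp : p.Prime) (k : ℕ) :
    MM E (p ^ k) ↔ (E p → Even k) := by
  constructor
  · intro h hE
    have h2 := h.2 p hp hE
    rwa [hp.factorization_pow, Finsupp.single_eq_same] at h2
  · intro h
    refine ⟨pow_ne_zero _ hp.ne_zero, fun q _ hE => ?_⟩
    rw [hp.factorization_pow]
    by_cases hq : q = p
    · subst hq
      rw [Finsupp.single_eq_same]; exact h hE
    · rw [Finsupp.single_eq_of_ne hq]; exact Even.zero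

theorem jj_mul (F : IQ) {m n : ℕ} (h : Nat.Coprime m n) :
    F.jj (m * n) ↔ F.jj m ∧ F.jj n := by
  unfold IQ.jj
  rw [show F.M (m * n) ↔ F.M m ∧ F.M n from mm_mul _ h]
  constructor
  · rintro ⟨⟨h1, h2⟩, h3⟩
    exact ⟨⟨h1, fun p hp hd => h3 p hp (hd.mul_right n)⟩, h2,
      fun p hp hd => h3 p hp (hd.mul_left m)⟩
  · rintro ⟨⟨h1, h3⟩, h2, h4⟩
    exact ⟨⟨h1, h2⟩, fun p hp hd => ((Nat.Prime.dvd_mul hp).1 hd).elim (h3 p hp) (h4 p hp)⟩

theorem jj_pow (F : IQ) {p : ℕ} (hp : p.Prime) (k : ℕ) :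
    F.jj (p ^ k) ↔ (F.inert p → Even k) ∧ (k = 0 ∨ ¬ F.split p) := by
  unfold IQ.jj
  rw [show F.M (p ^ k) ↔ (F.inert p → Even k) from mm_pow _ hp k]
  refine and_congr_right fun _ => ⟨fun h => ?_, fun h q hq hd => ?_⟩
  · rcases Nat.eq_zero_or_pos k with h0 | h0
    · exact Or.inl h0
    · exact Or.inr (h p hp (dvd_pow_self p h0.ne'))
  · rcases h with h | h
    · subst h
      rw [pow_zero, Nat.dvd_one] at hd
      exact absurd hd hq.one_lt.ne'
    · rwa [(Nat.prime_dvd_prime_iff_eq hq hp).1 (hq.dvd_of_dvd_pow hd)]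

/-- The indicator of the norms. -/
noncomputable def gA (F : IQ) : ArithmeticFunction ℝ :=
  ⟨fun n => ind (F.M n), ind_neg (not_mm_zero _)⟩

/-- The indicator of the norms without split prime factor. -/
noncomputable def jA (F : IQ) : ArithmeticFunction ℝ :=
  ⟨fun n => ind (F.jj n), ind_neg (fun h => not_mm_zero _ h.1)⟩

theorem rho_zero {F : IQ} (h2 : AR2 F) : F.ρ 0 = 0 :=
  Nat.eq_zero_of_not_pos (fun h => not_mm_zero _ ((h2.rho_pos 0).1 h))

/-- The number of ideals of given norm. -/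
noncomputable def rA {F : IQ} (h2 : AR2 F) : ArithmeticFunction ℝ :=
  ⟨fun n => (F.ρ n : ℝ), by rw [rho_zero h2, Nat.cast_zero]⟩

theorem gA_apply (F : IQ) (n : ℕ) : gA F n = ind (F.M n) := rfl

theorem jA_apply (F : IQ) (n : ℕ) : jA F n = ind (F.jj n) := rfl

theorem rA_apply {F : IQ} (h2 : AR2 F) (n : ℕ) : rA h2 n = (F.ρ n : ℝ) := rfl

theorem gA_mult (F : IQ) : (gA F).IsMultiplicative :=
  ⟨ind_pos (mm_one _), fun {m n} h => by
    rw [gA_apply, gA_apply, gA_apply, ← ind_and]; exact ind_congr (mm_mul _ h)⟩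

theorem jA_mult (F : IQ) : (jA F).IsMultiplicative :=
  ⟨ind_pos ⟨mm_one _, fun p hp hd => absurd (Nat.dvd_one.1 hd) hp.one_lt.ne'⟩, fun {m n} h => by
    rw [jA_apply, jA_apply, jA_apply, ← ind_and]; exact ind_congr (jj_mul F h)⟩

theorem rA_mult {F : IQ} (h2 : AR2 F) : (rA h2).IsMultiplicative :=
  ⟨by rw [rA_apply, h2.rho_one, Nat.cast_one], fun {m n} h => by
    rw [rA_apply, rA_apply, rA_apply, h2.rho_mul m n h, Nat.cast_mul]⟩

theorem mul_pow_apply (f g : ArithmeticFunction ℝ) {p : ℕ} (hp : p.Prime) (k : ℕ) :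
    (f * g) (p ^ k) = ∑ i ∈ range (k + 1), f (p ^ i) * g (p ^ (k - i)) := by
  rw [ArithmeticFunction.mul_apply, Nat.sum_divisorsAntidiagonal (fun a b => f a * g b),
    Nat.sum_divisors_prime_pow hp]
  refine sum_congr rfl fun i hi => ?_
  rw [Nat.pow_div (Nat.lt_succ_iff.1 (mem_range.1 hi)) hp.pos]

theorem conv_eq {F : IQ} (h2 : AR2 F) : gA F * gA F = rA h2 * jA F := by
  rw [ArithmeticFunction.IsMultiplicative.eq_iff_eq_on_prime_powers _
    ((gA_mult F).mul (gA_mult F)) _ ((rA_mult h2).mul (jA_mult F))]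
  intro p k hp
  rw [mul_pow_apply _ _ hp, mul_pow_apply _ _ hp]
  by_cases hi : F.inert p
  · refine sum_congr rfl fun i _ => ?_
    have e1 : gA F (p ^ i) = rA h2 (p ^ i) := by
      rw [gA_apply, rA_apply, h2.rho_inert p i hp hi]
      by_cases he : Even i
      · rw [if_pos he, ind_pos ((mm_pow _ hp i).2 fun _ => he), Nat.cast_one]
      · rw [if_neg he, ind_neg (fun h => he ((mm_pow _ hp i).1 h hi)), Nat.cast_zero]
    have e2 : gA F (p ^ (k - i)) = jA F (p ^ (k - i)) := by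
      rw [gA_apply, jA_apply]
      refine ind_congr ?_
      rw [jj_pow F hp, show F.M (p ^ (k - i)) ↔ (F.inert p → Even (k - i)) from mm_pow _ hp _]
      exact ⟨fun h => ⟨h, Or.inr fun hs => hs.1 hi⟩, fun h => h.1⟩
    rw [e1, e2]
  · have eg : ∀ i : ℕ, gA F (p ^ i) = 1 := fun i =>
      ind_pos ((mm_pow _ hp i).2 fun h => absurd h hi)
    by_cases hr : F.ram p
    · refine sum_congr rfl fun i _ => ?_
      rw [eg, eg, rA_apply, h2.rho_ram p i hp hr, jA_apply,
        ind_pos ((jj_pow F hp _).2 ⟨fun h => absurd h hi, Or.inr fun hs => hs.2 hr⟩),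
        Nat.cast_one]
    · have hs : F.split p := ⟨hi, hr⟩
      rw [sum_congr rfl (fun i _ => by rw [eg, eg, one_mul]), sum_const, card_range,
        sum_eq_single_of_mem k (self_mem_range_succ k), rA_apply, h2.rho_split p k hp hs,
        Nat.sub_self, pow_zero, (jA_mult F).1]
      · simp
      · intro i hik hne
        have hlt : k - i ≠ 0 := by
          have := mem_range.1 hik
          omega
        rw [jA_apply, ind_neg (fun h => ((jj_pow F hp _).1 h).2.elim hlt (fun h' => h' hs)),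
          mul_zero]

theorem term_eq (f : ArithmeticFunction ℝ) (s : ℝ) (n : ℕ) :
    LSeries.term (fun n => ((f n : ℝ) : ℂ)) (s : ℂ) n = ((f n / (n : ℝ) ^ s : ℝ) : ℂ) := by
  rcases Nat.eq_zero_or_pos n with h | h
  · subst h; simp
  · rw [LSeries.term_of_ne_zero h.ne', Complex.ofReal_div,
      Complex.ofReal_cpow (Nat.cast_nonneg n), Complex.ofReal_natCast]

theorem hasSum_iff (f : ArithmeticFunction ℝ) (s A : ℝ) :
    LSeriesHasSum (fun n => ((f n : ℝ) : ℂ)) (s : ℂ) (A : ℂ) ↔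
      HasSum (fun n : ℕ => f n / (n : ℝ) ^ s) A := by
  rw [LSeriesHasSum, funext (term_eq f s), Complex.hasSum_ofReal]

theorem hasSum_mul (f g : ArithmeticFunction ℝ) (s A B : ℝ)
    (hf : HasSum (fun n : ℕ => f n / (n : ℝ) ^ s) A)
    (hg : HasSum (fun n : ℕ => g n / (n : ℝ) ^ s) B) :
    HasSum (fun n : ℕ => (f * g) n / (n : ℝ) ^ s) (A * B) := by
  have h := ((hasSum_iff f s A).2 hf).convolution ((hasSum_iff g s B).2 hg)
  rw [LSeries.convolution_def, ← Complex.ofReal_mul] at h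
  refine (hasSum_iff (f * g) s (A * B)).1 ?_
  have e : (fun n => (((f * g) n : ℝ) : ℂ)) =
      fun n : ℕ => ∑ p ∈ n.divisorsAntidiagonal, ((f p.1 : ℝ) : ℂ) * ((g p.2 : ℝ) : ℂ) := by
    funext n
    rw [ArithmeticFunction.mul_apply, Complex.ofReal_sum]
    exact sum_congr rfl fun p _ => Complex.ofReal_mul _ _
  rw [e]; exact h

theorem summable_ind (A : ℕ → Prop) {σ : ℝ} (hσ : 0 < σ) :
    Summable (fun n : ℕ => ind (A n) / (n : ℝ) ^ (1 + σ)) := by
  refine Summable.of_nonneg_of_le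
    (fun n => div_nonneg (ind_nonneg _) (Real.rpow_nonneg (Nat.cast_nonneg n) _))
    (fun n => div_le_div_of_nonneg_right (ind_le_one _) (Real.rpow_nonneg (Nat.cast_nonneg n) _))
    (Real.summable_one_div_nat_rpow.2 (by linarith))

theorem shift (A : ℕ → Prop) (h0 : ¬ A 0) (σ : ℝ) (n : ℕ) :
    ind (A n) / (n : ℝ) / (n : ℝ) ^ σ = ind (A n) / (n : ℝ) ^ (1 + σ) := by
  rcases Nat.eq_zero_or_pos n with h | h
  · subst h; rw [ind_neg h0]; simp
  · rw [Real.rpow_add (Nat.cast_pos.2 h), Real.rpow_one, div_div]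

theorem tendsto_J (F : IQ) (hJ : Summable (fun n : ℕ => ind (F.jj n) / (n : ℝ))) :
    Tendsto (fun σ : ℝ => ∑' n : ℕ, ind (F.jj n) / (n : ℝ) ^ (1 + σ)) (𝓝[>] 0) (𝓝 F.JJ) := by
  have h0 : ¬ F.jj 0 := fun h => not_mm_zero _ h.1
  refine tendsto_tsum_of_dominated_convergence hJ (fun n => ?_) ?_
  · rcases Nat.eq_zero_or_pos n with h | h
    · subst h
      simp only [ind_neg h0, zero_div]
      exact tendsto_const_nhds
    · have hn : (0 : ℝ) < n := Nat.cast_pos.2 h
      have hc : Continuous (fun σ : ℝ => ind (F.jj n) / (n : ℝ) ^ (1 + σ)) :=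
        continuous_const.div
          ((Real.continuous_const_rpow hn.ne').comp (continuous_const.add continuous_id))
          (fun σ => (Real.rpow_pos_of_pos hn _).ne')
      have h2 := (hc.tendsto 0).mono_left (nhdsWithin_le_nhds (s := Set.Ioi (0 : ℝ)))
      rwa [add_zero, Real.rpow_one] at h2
  · filter_upwards [self_mem_nhdsWithin] with σ hσ n
    rcases Nat.eq_zero_or_pos n with h | h
    · subst h; simp [ind_neg h0]
    · have hn : (1 : ℝ) ≤ n := Nat.one_le_cast.2 h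
      rw [Real.norm_of_nonneg
        (div_nonneg (ind_nonneg _) (Real.rpow_nonneg (Nat.cast_nonneg n) _))]
      refine div_le_div_of_nonneg_left (ind_nonneg _) (by linarith) ?_
      have hσ' : (0 : ℝ) < σ := hσ
      calc (n : ℝ) = (n : ℝ) ^ (1 : ℝ) := (Real.rpow_one _).symm
        _ ≤ _ := Real.rpow_le_rpow_of_exponent_le hn (by linarith)

end LAND

open LAND in
theorem stLAND (h1 : St_AR1) (h2 : St_AR2) (hK : St_KAR) (hJ : St_JSUM) : St_LAND := by
  intro F κ hκ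
  have h0 : ¬ F.M 0 := not_mm_zero _
  have key : ∀ σ : ℝ, 0 < σ → √σ * ∑' n : ℕ, ind (F.M n) / (n : ℝ) / (n : ℝ) ^ σ =
      √((σ * ∑' n : ℕ, (F.ρ n : ℝ) / (n : ℝ) ^ (1 + σ)) *
        ∑' n : ℕ, ind (F.jj n) / (n : ℝ) ^ (1 + σ)) := by
    intro σ hσ
    have hg := (summable_ind F.M hσ).hasSum
    have hj := (summable_ind F.jj hσ).hasSum
    have hr := (hκ.1 σ hσ).hasSum
    have a1 := hasSum_mul (gA F) (gA F) (1 + σ) _ _ hg hg
    have a2 := hasSum_mul (rA (h2 F)) (jA F) (1 + σ) _ _ hr hj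
    rw [conv_eq (h2 F)] at a1
    have hnn : 0 ≤ ∑' n : ℕ, ind (F.M n) / (n : ℝ) ^ (1 + σ) :=
      tsum_nonneg fun n => div_nonneg (ind_nonneg _) (Real.rpow_nonneg (Nat.cast_nonneg n) _)
    rw [funext (shift F.M h0 σ), mul_assoc, ← a1.unique a2, Real.sqrt_mul hσ.le,
      Real.sqrt_mul_self hnn]
  have hT : Tendsto (fun σ : ℝ => √σ * ∑' n : ℕ, ind (F.M n) / (n : ℝ) / (n : ℝ) ^ σ) (𝓝[>] 0)
      (𝓝 √(κ * F.JJ)) := by
    refine ((hκ.2.mul (tendsto_J F (hJ F).1)).sqrt).congr' ?_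
    filter_upwards [self_mem_nhdsWithin] with σ hσ
    exact (key σ hσ).symm
  have h := hK (fun n => ind (F.M n) / (n : ℝ)) _
    (fun n => div_nonneg (ind_nonneg _) (Nat.cast_nonneg n))
    (fun σ hσ => by rw [funext (shift F.M h0 σ)]; exact summable_ind F.M hσ) hT
  unfold IsB TT
  rw [Real.sqrt_div' _ Real.pi_pos.le, ← mul_div_assoc]
  exact h

end Pool.Agent.Lib.DL
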