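import Pool.Agent.Lib.DL.Blue

set_option autoImplicit false

namespace Pool.Agent.Lib.DL

open Finset MeasureTheory

namespace LAYER

noncomputable def st (c x : ℝ) : ℝ := if Real.exp x ≤ c then Real.exp x else 0

lemma st_nonneg (c x : ℝ) : 0 ≤ st c x := by
  unfold st; split_ifs
  · positivity
  · exact le_rfl

lemma st_meas (c : ℝ) : Measurable (st c) :=
  Measurable.ite (measurableSet_le Real.measurable_exp measurable_const) Real.measurable_exp
    measurable_const

lemma lint_st {c : ℝ} (hc : 0 ≤ c) : ∫⁻ x, ENNReal.ofReal (st c x) = ENNReal.ofReal c := by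
  rcases hc.eq_or_lt with rfl | hc
  · have : ∀ x, st 0 x = 0 := fun x => if_neg (Real.exp_pos x).not_ge
    simp [this]
  · have : (fun x => ENNReal.ofReal (st c x)) =
        (Set.Iic (Real.log c)).indicator fun x => ENNReal.ofReal (Real.exp x) := by
      funext x
      rw [st, Set.indicator_apply]
      simp only [Set.mem_Iic, Real.le_log_iff_exp_le hc]
      split_ifs <;> simp
    rw [this, lintegral_indicator measurableSet_Iic,
      ← ofReal_integral_eq_lintegral_ofReal (integrableOn_exp_Iic _)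
        (Filter.Eventually.of_forall fun x => (Real.exp_pos x).le), integral_exp_Iic,
      Real.exp_log hc]

noncomputable def lay {W : Type} [Fintype W] (w f : W → ℝ) (x : ℝ) : ENNReal :=
  ENNReal.ofReal (∑ i, w i * st (f i) x)

lemma lay_meas {W : Type} [Fintype W] (w f : W → ℝ) : Measurable (lay w f) :=
  (Finset.measurable_sum _ fun i _ => (st_meas (f i)).const_mul (w i)).ennreal_ofReal

lemma lint_lay {W : Type} [Fintype W] {w f : W → ℝ} (hw : ∀ i, 0 ≤ w i) (hf : ∀ i, 0 ≤ f i) :
    ∫⁻ x, lay w f x = ENNReal.ofReal (∑ i, w i * f i) := by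
  have : ∀ x, lay w f x = ∑ i, ENNReal.ofReal (w i) * ENNReal.ofReal (st (f i) x) := fun x => by
    rw [lay, ENNReal.ofReal_sum_of_nonneg fun i _ => mul_nonneg (hw i) (st_nonneg _ _)]
    exact sum_congr rfl fun i _ => ENNReal.ofReal_mul (hw i)
  simp only [this]
  rw [lintegral_finsetSum _ fun i _ => (st_meas (f i)).ennreal_ofReal.const_mul _,
    ENNReal.ofReal_sum_of_nonneg fun i _ => mul_nonneg (hw i) (hf i)]
  refine sum_congr rfl fun i _ => ?_
  rw [lintegral_const_mul _ (st_meas (f i)).ennreal_ofReal, lint_st (hf i),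
    ENNReal.ofReal_mul (hw i)]

lemma sum_st {W : Type} [Fintype W] (w f : W → ℝ) (x : ℝ) :
    ∑ i, w i * st (f i) x = (∑ i with Real.exp x ≤ f i, w i) * Real.exp x := by
  rw [sum_filter, sum_mul]
  refine sum_congr rfl fun i _ => ?_
  unfold st; split_ifs <;> simp

end LAYER

open LAYER in
theorem stLAYER : St_LAYER := by
  classical
  intro X Y Z _ _ _ φ ν hν H f g h hf hg hh hfg
  have wX : ∀ _ : X, (0 : ℝ) ≤ (Fintype.card X : ℝ)⁻¹ := fun _ => by positivity
  have wY : ∀ _ : Y, (0 : ℝ) ≤ (Fintype.card Y : ℝ)⁻¹ := fun _ => by positivity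
  have key := Pool.Agent.Lib.MP_229ad9_gt.pl_one (lay_meas (fun _ => (Fintype.card X : ℝ)⁻¹) f)
    (lay_meas (fun _ => (Fintype.card Y : ℝ)⁻¹) g) (lay_meas ν h) fun x y => by
      simp only [lay, sum_st, sum_const, nsmul_eq_mul]
      set A := univ.filter fun i => Real.exp x ≤ f i
      set B := univ.filter fun i => Real.exp y ≤ g i
      rcases A.eq_empty_or_nonempty with hA | hA
      · simp [hA]
      rcases B.eq_empty_or_nonempty with hB | hB
      · simp [hB]
      have e : Real.exp ((x + y) / 2) ^ 2 = Real.exp x * Real.exp y := by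
        rw [← Real.exp_nat_mul, ← Real.exp_add]; congr 1; push_cast; ring
      have h0 : 0 ≤ ∑ z ∈ image₂ φ A B, ν z := sum_nonneg fun z _ => hν z
      have h1 : ∑ z ∈ image₂ φ A B, ν z ≤ ∑ z with Real.exp ((x + y) / 2) ≤ h z, ν z := by
        refine sum_le_sum_of_subset_of_nonneg (fun z hz => ?_) fun z _ _ => hν z
        obtain ⟨a, ha, b, hb, rfl⟩ := mem_image₂.1 hz
        refine mem_filter.2 ⟨mem_univ _, abs_le_of_sq_le_sq' ?_ (hh _) |>.2⟩
        rw [e]
        exact (mul_le_mul (mem_filter.1 ha).2 (mem_filter.1 hb).2 (Real.exp_pos y).le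
          (hf a)).trans (hfg a b)
      have h2 := (H A B hA hB).trans (pow_le_pow_left₀ h0 h1 2)
      rw [← ENNReal.ofReal_mul (by positivity), ← ENNReal.ofReal_pow
        (mul_nonneg (h0.trans h1) (Real.exp_pos _).le)]
      refine ENNReal.ofReal_le_ofReal ?_
      rw [mul_pow, e, mul_mul_mul_comm]
      exact mul_le_mul_of_nonneg_right h2 (by positivity)
  have h0 : 0 ≤ ∑ z, ν z * h z := sum_nonneg fun z _ => mul_nonneg (hν z) (hh z)
  rw [lint_lay wX hf, lint_lay wY hg, lint_lay hν hh,
    ← ENNReal.ofReal_mul (sum_nonneg fun i _ => mul_nonneg (wX i) (hf i)),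
    ← ENNReal.ofReal_pow h0, ENNReal.ofReal_le_ofReal_iff (by positivity), ← mul_sum,
    ← mul_sum] at key
  rw [div_eq_inv_mul, div_eq_inv_mul]
  exact key

end Pool.Agent.Lib.DL
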