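import Pool.Agent.Lib.DL.Blue

set_option autoImplicit false

namespace Pool.Agent.Lib.DL

open Finset

namespace LOCI

theorem unit_case {R K : Type} [CommRing R] [Fintype R] [DecidableEq R] [Field K] [DecidableEq K]
    (π : R →+* K) (hu : ∀ x, π x ≠ 0 → IsUnit x) (a b : R)
    (H : ∀ x y : K, x ^ 2 + π b * x * y - π a * y ^ 2 = 0 → x = 0 ∧ y = 0)
    (h2 : ¬ ((2 : K) = 0 ∧ π b = 0)) (c : R) (hc : π c ≠ 0) (s : Finset (R × R))
    (hs : ∀ x ∈ s, x.1 ^ 2 + b * x.1 * x.2 - a * x.2 ^ 2 = c) :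
    s.card ≤ Fintype.card R + (univ.filter (fun s : R => π s = 0)).card := by
  rcases s.eq_empty_or_nonempty with rfl | ⟨⟨c1, c2⟩, h0⟩
  · simp
  have hz0 := hs _ h0
  simp only at hz0
  let r : R × R → R × R → Prop := fun x w =>
    x.1 * (w.1 + b * w.2) - a * x.2 * w.2 = c1 * w.1 + a * c2 * w.2 ∧
      x.2 * w.1 - x.1 * w.2 = c1 * w.2 + c2 * w.1 + b * c2 * w.2
  let t : Finset (R × R) := univ.image (fun y : R => ((1 : R), y)) ∪
    (univ.filter (fun s : R => π s = 0)).image (fun y : R => (y, (1 : R)))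
  have ht : t.card ≤ Fintype.card R + (univ.filter (fun s : R => π s = 0)).card :=
    (card_union_le _ _).trans (Nat.add_le_add (card_image_le.trans (by simp)) card_image_le)
  refine le_trans (card_le_card_of_forall_subsingleton r ?_ ?_) ht
  · rintro ⟨x1, x2⟩ hx
    have hz := hs _ hx
    simp only at hz
    have key : ∀ w1 w2 : R, (π w1 ≠ 0 ∨ π w2 ≠ 0) → r (x1, x2) (w1, w2) →
        ∃ w, w ∈ t ∧ r (x1, x2) w := by
      intro w1 w2 hw ⟨e1, e2⟩
      simp only at e1 e2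
      by_cases h1 : π w1 = 0
      · obtain ⟨v, hv⟩ := (hu w2 (hw.resolve_left (not_not.2 h1))).exists_right_inv
        refine ⟨(w1 * v, 1), mem_union_right _ (mem_image.2 ⟨w1 * v, by simp [h1], rfl⟩), ?_, ?_⟩
        · simp only
          linear_combination v * e1 - (x1 * b - a * x2 - a * c2) * hv
        · simp only
          linear_combination v * e2 - (-x1 - c1 - b * c2) * hv
      · obtain ⟨v, hv⟩ := (hu w1 h1).exists_right_inv
        refine ⟨(1, w2 * v), mem_union_left _ (mem_image.2 ⟨w2 * v, mem_univ _, rfl⟩), ?_, ?_⟩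
        · simp only
          linear_combination v * e1 - (x1 - c1) * hv
        · simp only
          linear_combination v * e2 - (x2 - c2) * hv
    set u1 : R := x1 * (c1 + b * c2) - a * x2 * c2 with hu1
    set u2 : R := x2 * c1 - x1 * c2 with hu2
    by_cases hA : π (c + u1) ≠ 0 ∨ π u2 ≠ 0
    · refine key (c + u1) u2 hA ⟨?_, ?_⟩
      · simp only [hu1, hu2]
        linear_combination c1 * hz - x1 * hz0
      · simp only [hu1, hu2]
        linear_combination c2 * hz - x2 * hz0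
    by_cases hB : π (b * u1 - a * u2) ≠ 0 ∨ π (c - u1) ≠ 0
    · refine key (b * u1 - a * u2) (c - u1) hB ⟨?_, ?_⟩
      · simp only [hu1, hu2]
        linear_combination (a * c2) * hz - (b * x1 - a * x2) * hz0
      · simp only [hu1, hu2]
        linear_combination (c1 + b * c2) * hz - (-x1) * hz0
    exfalso
    push Not at hA hB
    obtain ⟨a1, a2⟩ := hA
    obtain ⟨b1, b2⟩ := hB
    simp only [map_add, map_sub, map_mul] at a1 b1 b2
    refine h2 ⟨?_, ?_⟩
    · refine (mul_eq_zero.1 (?_ : (2 : K) * π c = 0)).resolve_right hc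
      linear_combination a1 + b2
    · refine (mul_eq_zero.1 (?_ : π b * π c = 0)).resolve_right hc
      linear_combination b1 + π a * a2 + π b * b2
  · rintro ⟨w1, w2⟩ hw ⟨x1, x2⟩ ⟨_, e1, e2⟩ ⟨y1, y2⟩ ⟨_, f1, f2⟩
    simp only at e1 e2 f1 f2
    have hN : IsUnit (w1 ^ 2 + b * w1 * w2 - a * w2 ^ 2) := by
      refine hu _ fun h => ?_
      simp only [map_add, map_sub, map_mul, map_pow] at h
      obtain ⟨g1, g2⟩ := H _ _ h
      rcases mem_union.1 hw with hw | hw
      · obtain ⟨y, _, hy⟩ := mem_image.1 hw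
        rw [← (Prod.mk.inj hy).1] at g1
        simp at g1
      · obtain ⟨y, _, hy⟩ := mem_image.1 hw
        rw [← (Prod.mk.inj hy).2] at g2
        simp at g2
    refine Prod.ext (hN.mul_left_cancel ?_) (hN.mul_left_cancel ?_)
    · simp only
      linear_combination w1 * (e1 - f1) + a * w2 * (e2 - f2)
    · simp only
      linear_combination w2 * (e1 - f1) + (w1 + b * w2) * (e2 - f2)

theorem aniso (F : IQ) (p : ℕ) [Fact p.Prime] (h : F.inert p) (x y : ZMod p)
    (e : x ^ 2 + (F.b : ZMod p) * x * y - (F.a : ZMod p) * y ^ 2 = 0) : x = 0 ∧ y = 0 := by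
  have hy : y = 0 := by
    by_contra hy
    apply h
    obtain ⟨r, hr⟩ := ZMod.intCast_surjective (-(x * y⁻¹))
    refine ⟨r, (ZMod.intCast_zmod_eq_zero_iff_dvd _ p).1 ?_⟩
    push_cast
    rw [hr]
    field_simp
    linear_combination e
  subst hy
  exact ⟨by simpa using e, rfl⟩

theorem two_ne (F : IQ) (p : ℕ) [hp : Fact p.Prime] (h : F.inert p) :
    ¬ ((2 : ZMod p) = 0 ∧ (F.b : ZMod p) = 0) := by
  rintro ⟨h2, hb⟩
  have hp2 : p = 2 := by
    have : ((2 : ℕ) : ZMod p) = 0 := by exact_mod_cast h2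
    exact (Nat.prime_dvd_prime_iff_eq hp.out Nat.prime_two).1 ((ZMod.natCast_eq_zero_iff 2 p).1 this)
  have h3 := ZMod.pow_card (F.a : ZMod p)
  have h4 : (F.a : ZMod p) ^ 2 = F.a := by
    calc (F.a : ZMod p) ^ 2 = (F.a : ZMod p) ^ p := by rw [← hp2]
      _ = _ := h3
  have := (aniso F p h (F.a : ZMod p) 1 (by rw [hb, h4]; ring)).2
  exact one_ne_zero this

theorem nq_cast (F : IQ) (n : ℕ) (X Y : ℕ) : F.NQ n ((X : ZMod n), (Y : ZMod n)) =
    (((X : ℤ) ^ 2 + F.b * X * Y - F.a * (Y : ℤ) ^ 2 : ℤ) : ZMod n) := by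
  simp [IQ.NQ]

theorem pi_zero (p k : ℕ) [NeZero (p ^ k)] (h : p ∣ p ^ k) (x : ZMod (p ^ k)) :
    ZMod.castHom h (ZMod p) x = 0 ↔ p ∣ x.val := by
  rw [ZMod.castHom_apply, ZMod.cast_eq_val, ZMod.natCast_eq_zero_iff]

theorem dvd_of (F : IQ) (p k : ℕ) [Fact p.Prime] [NeZero (p ^ k)] (hi : F.inert p)
    (h : p ∣ p ^ k) (x : ZMod (p ^ k) × ZMod (p ^ k))
    (hx : ZMod.castHom h (ZMod p) (F.NQ (p ^ k) x) = 0) : p ∣ x.1.val ∧ p ∣ x.2.val := by
  rw [← pi_zero p k h, ← pi_zero p k h]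
  refine aniso F p hi _ _ ?_
  simpa only [IQ.NQ, map_add, map_sub, map_mul, map_pow, map_intCast] using hx

theorem unit_bound (F : IQ) (p k : ℕ) [hp : Fact p.Prime] [NeZero (p ^ (k + 1))] (hi : F.inert p)
    (h : p ∣ p ^ (k + 1)) (c : ZMod (p ^ (k + 1))) (hc : ZMod.castHom h (ZMod p) c ≠ 0)
    (s : Finset (ZMod (p ^ (k + 1)) × ZMod (p ^ (k + 1)))) (hs : ∀ x ∈ s, F.NQ _ x = c) :
    p * s.card ≤ (p + 1) * p ^ (k + 1) := by
  have h1 := unit_case (ZMod.castHom h (ZMod p)) (fun x hx => by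
      rw [Ne, pi_zero] at hx
      rw [← ZMod.natCast_zmod_val x, ZMod.isUnit_iff_coprime]
      exact Nat.Coprime.pow_right _ ((Nat.Prime.coprime_iff_not_dvd hp.out).2 hx).symm)
    (F.a : ZMod _) (F.b : ZMod _) (by simpa only [map_intCast] using aniso F p hi)
    (by simpa only [map_intCast] using two_ne F p hi) c hc s hs
  have h2 : (univ.filter (fun s : ZMod (p ^ (k + 1)) => ZMod.castHom h (ZMod p) s = 0)).card ≤
      (range (p ^ k)).card := by
    refine card_le_card_of_injOn (fun x => x.val / p) (fun x _ => ?_) (fun x hx y hy e => ?_)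
    · rw [coe_range, Set.mem_Iio]
      exact Nat.div_lt_of_lt_mul (by rw [← pow_succ']; exact ZMod.val_lt x)
    · have hx' := (pi_zero p _ h x).1 (mem_filter.1 hx).2
      have hy' := (pi_zero p _ h y).1 (mem_filter.1 hy).2
      apply ZMod.val_injective
      rw [← Nat.mul_div_cancel' hx', ← Nat.mul_div_cancel' hy']
      exact congrArg (p * ·) e
  rw [ZMod.card] at h1
  rw [card_range] at h2
  calc p * s.card ≤ p * (p ^ (k + 1) + p ^ k) := Nat.mul_le_mul_left _ (by omega)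
    _ = (p + 1) * p ^ (k + 1) := by ring

theorem main (F : IQ) (p : ℕ) [hp : Fact p.Prime] (hi : F.inert p) (k : ℕ) :
    ∀ (_ : NeZero (p ^ k)) (c : ZMod (p ^ k)) (s : Finset (ZMod (p ^ k) × ZMod (p ^ k))),
      (∀ x ∈ s, F.NQ _ x = c) → p * s.card ≤ (p + 1) * p ^ k := by
  have hp0 := hp.out.pos
  induction k using Nat.strong_induction_on with
  | _ k ih =>
  intro _ c s hs
  rcases k with _ | k
  · have : s.card ≤ 1 := (card_le_univ s).trans (by simp)
    nlinarith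
  have h : p ∣ p ^ (k + 1) := dvd_pow_self p (Nat.succ_ne_zero k)
  by_cases hc : ZMod.castHom h (ZMod p) c ≠ 0
  · exact unit_bound F p k hi h c hc s hs
  have hd : ∀ x ∈ s, p ∣ x.1.val ∧ p ∣ x.2.val := fun x hx =>
    dvd_of F p _ hi h x (by rw [hs x hx]; exact not_not.1 hc)
  rcases k with _ | k
  · have : s.card ≤ 1 := by
      refine card_le_one.2 fun x hx y hy => ?_
      have e : ∀ z : ZMod (p ^ (0 + 1)), p ∣ z.val → z = 0 := fun z hz =>
        (ZMod.val_eq_zero z).1 (Nat.eq_zero_of_dvd_of_lt hz (by simpa using ZMod.val_lt z))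
      exact Prod.ext ((e _ (hd x hx).1).trans (e _ (hd y hy).1).symm)
        ((e _ (hd x hx).2).trans (e _ (hd y hy).2).symm)
    have h1 : 1 ≤ p ^ (0 + 1) := Nat.one_le_pow _ _ hp0
    nlinarith
  rcases s.eq_empty_or_nonempty with rfl | ⟨z0, h0⟩
  · simp
  have : NeZero (p ^ k) := ⟨pow_ne_zero k hp0.ne'⟩
  let ψ : ZMod (p ^ (k + 1 + 1)) × ZMod (p ^ (k + 1 + 1)) → ZMod (p ^ k) × ZMod (p ^ k) :=
    fun z => (((z.1.val / p : ℕ) : ZMod (p ^ k)), ((z.2.val / p : ℕ) : ZMod (p ^ k)))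
  have h1 := ih k (by omega) inferInstance (F.NQ _ (ψ z0)) (s.image ψ) (by
    intro y hy
    obtain ⟨z, hz, rfl⟩ := mem_image.1 hy
    have e : F.NQ _ z = F.NQ _ z0 := (hs z hz).trans (hs z0 h0).symm
    have e1 : z = (((z.1.val : ℕ) : ZMod _), ((z.2.val : ℕ) : ZMod _)) := by simp
    have e2 : z0 = (((z0.1.val : ℕ) : ZMod _), ((z0.2.val : ℕ) : ZMod _)) := by simp
    rw [e1, e2, nq_cast, nq_cast, ZMod.intCast_eq_intCast_iff_dvd_sub] at e
    obtain ⟨X, hX⟩ := (hd z hz).1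
    obtain ⟨Y, hY⟩ := (hd z hz).2
    obtain ⟨X0, hX0⟩ := (hd z0 h0).1
    obtain ⟨Y0, hY0⟩ := (hd z0 h0).2
    simp only [ψ]
    rw [nq_cast, nq_cast, ZMod.intCast_eq_intCast_iff_dvd_sub, hX, hY, hX0, hY0,
      Nat.mul_div_cancel_left _ hp0, Nat.mul_div_cancel_left _ hp0,
      Nat.mul_div_cancel_left _ hp0, Nat.mul_div_cancel_left _ hp0]
    rw [hX, hY, hX0, hY0] at e
    have hp2 : ((p : ℤ) ^ 2) ≠ 0 := by positivity
    refine (mul_dvd_mul_iff_left hp2).1 ?_
    have e3 : (p : ℤ) ^ 2 * ((p ^ k : ℕ) : ℤ) = ((p ^ (k + 1 + 1) : ℕ) : ℤ) := by push_cast; ring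
    rw [e3]
    refine e.trans (dvd_of_eq ?_)
    push_cast
    ring)
  have h2 : s.card ≤ (s.image ψ ×ˢ (range p ×ˢ range p)).card := by
    have hlt : ∀ z : ZMod (p ^ (k + 1 + 1)), z.val / p / p ^ k < p := fun z =>
      Nat.div_lt_of_lt_mul (Nat.div_lt_of_lt_mul (by
        rw [← pow_succ, ← pow_succ']; exact ZMod.val_lt z))
    have hinj : ∀ x y : ZMod (p ^ (k + 1 + 1)), p ∣ x.val → p ∣ y.val →
        ((x.val / p : ℕ) : ZMod (p ^ k)) = ((y.val / p : ℕ) : ZMod (p ^ k)) →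
        x.val / p / p ^ k = y.val / p / p ^ k → x = y := by
      intro x y hx hy e1 e2
      rw [ZMod.natCast_eq_natCast_iff'] at e1
      apply ZMod.val_injective
      rw [← Nat.mul_div_cancel' hx, ← Nat.mul_div_cancel' hy,
        ← Nat.div_add_mod (x.val / p) (p ^ k), ← Nat.div_add_mod (y.val / p) (p ^ k), e1, e2]
    refine card_le_card_of_injOn
      (fun z => (ψ z, (z.1.val / p / p ^ k, z.2.val / p / p ^ k))) (fun z hz => ?_)
      (fun x hx y hy e => ?_)
    · exact mem_coe.2 (mem_product.2 ⟨mem_image_of_mem ψ hz,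
        mem_product.2 ⟨mem_range.2 (hlt _), mem_range.2 (hlt _)⟩⟩)
    · simp only [ψ, Prod.mk.injEq] at e
      exact Prod.ext (hinj _ _ (hd x hx).1 (hd y hy).1 e.1.1 e.2.1)
        (hinj _ _ (hd x hx).2 (hd y hy).2 e.1.2 e.2.2)
  rw [card_product, card_product, card_range] at h2
  calc p * s.card ≤ p * ((s.image ψ).card * (p * p)) := Nat.mul_le_mul_left _ h2
    _ = p * (s.image ψ).card * (p * p) := by ring
    _ ≤ (p + 1) * p ^ k * (p * p) := Nat.mul_le_mul_right _ h1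
    _ = (p + 1) * p ^ (k + 1 + 1) := by ring

end LOCI

theorem stLOCI (_h1 : St_AR1) : St_LOCI := by
  intro F p k _ hp hi a
  have : Fact p.Prime := ⟨hp⟩
  exact LOCI.main F p hi k inferInstance a _ fun x hx => (mem_filter.1 hx).2

end Pool.Agent.Lib.DL
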