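import Pool.Agent.Lib.DL.Blue

set_option autoImplicit false

namespace Pool.Agent.Lib.DL

open Finset

namespace LOCR

theorem all_a (h : St_LOCU) {p : ℕ} (hp : p.Prime) (k : ℕ) : ∀ u β v a : ℤ, ¬ (p : ℤ) ∣ u →
    ¬ (p : ℤ) ∣ v → ((range (p ^ k) ×ˢ range (p ^ k)).filter (fun x : ℕ × ℕ =>
    ((p : ℤ) ^ k) ∣ u * x.1 ^ 2 + p * β * x.1 * x.2 + p * v * x.2 ^ 2 - a)).card ≤ 2 * p ^ k := by
  have hp' : Prime (p : ℤ) := Nat.prime_iff_prime_int.1 hp
  induction k with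
  | zero =>
    intro u β v a _ _
    refine (card_filter_le _ _).trans ?_
    simp
  | succ k ih =>
    intro u β v a hu hv
    by_cases ha : (p : ℤ) ∣ a
    swap
    · exact h p (k + 1) u β v a hp hu hv ha
    obtain ⟨a, rfl⟩ := ha
    have hk : 0 < p ^ k := pow_pos hp.pos k
    have key : ∀ x ∈ (range (p ^ (k + 1)) ×ˢ range (p ^ (k + 1))).filter (fun x : ℕ × ℕ =>
        ((p : ℤ) ^ (k + 1)) ∣ u * x.1 ^ 2 + p * β * x.1 * x.2 + p * v * x.2 ^ 2 - p * a),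
        p ∣ x.1 := by
      intro x hx
      have h1 := (dvd_pow_self (p : ℤ) k.succ_ne_zero).trans (mem_filter.1 hx).2
      have h2 : (p : ℤ) ∣ u * x.1 ^ 2 := by
        have e : u * x.1 ^ 2 = (u * x.1 ^ 2 + p * β * x.1 * x.2 + p * v * x.2 ^ 2 - p * a) -
          p * (β * x.1 * x.2 + v * x.2 ^ 2 - a) := by ring
        rw [e]
        exact dvd_sub h1 (dvd_mul_right _ _)
      exact Int.natCast_dvd_natCast.1 (hp'.dvd_of_dvd_pow ((hp'.dvd_or_dvd h2).resolve_left hu))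
    refine le_trans (card_le_card_of_injOn
      (t := ((range (p ^ k) ×ˢ range (p ^ k)).filter (fun x : ℕ × ℕ =>
        ((p : ℤ) ^ k) ∣ v * x.1 ^ 2 + p * β * x.1 * x.2 + p * u * x.2 ^ 2 - a)) ×ˢ range p)
      (fun x : ℕ × ℕ => ((x.2 % p ^ k, x.1 / p), x.2 / p ^ k)) (fun x hx => ?_)
      (fun x hx y hy hxy => ?_)) ?_
    · obtain ⟨c, hc⟩ := key x hx
      obtain ⟨h1, h2⟩ := mem_filter.1 hx
      obtain ⟨h3, h4⟩ := mem_product.1 h1
      rw [mem_range, pow_succ] at h3 h4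
      refine mem_product.2 ⟨mem_filter.2 ⟨mem_product.2 ⟨mem_range.2 (Nat.mod_lt _ hk),
        mem_range.2 ((Nat.div_lt_iff_lt_mul hp.pos).2 h3)⟩, ?_⟩,
        mem_range.2 (Nat.div_lt_of_lt_mul h4)⟩
      have e1 : x.1 / p = c := by rw [hc, Nat.mul_div_cancel_left _ hp.pos]
      have e2 : (x.2 : ℤ) = (x.2 % p ^ k : ℕ) + p ^ k * (x.2 / p ^ k : ℕ) := by
        exact_mod_cast (Nat.mod_add_div x.2 (p ^ k)).symm
      simp only [e1]
      have h5 : (p : ℤ) ^ k ∣ v * x.2 ^ 2 + p * β * x.2 * c + p * u * c ^ 2 - a := by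
        refine (mul_dvd_mul_iff_left hp'.ne_zero).1 ?_
        rw [← pow_succ']
        refine h2.trans (dvd_of_eq ?_)
        rw [hc]
        push_cast
        ring
      generalize ((x.2 % p ^ k : ℕ) : ℤ) = s at e2 ⊢
      generalize ((x.2 / p ^ k : ℕ) : ℤ) = t at e2
      rw [e2] at h5
      have e3 : v * s ^ 2 + p * β * s * c + p * u * c ^ 2 - a =
          (v * (s + p ^ k * t) ^ 2 + p * β * (s + p ^ k * t) * c + p * u * c ^ 2 - a) -
          p ^ k * (v * (2 * s * t + p ^ k * t ^ 2) + p * β * t * c) := by ring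
      rw [e3]
      exact dvd_sub h5 (dvd_mul_right _ _)
    · have h1 : x.2 % p ^ k = y.2 % p ^ k := congrArg (fun z => z.1.1) hxy
      have h2 : x.1 / p = y.1 / p := congrArg (fun z => z.1.2) hxy
      have h3 : x.2 / p ^ k = y.2 / p ^ k := congrArg (fun z => z.2) hxy
      refine Prod.ext ?_ ?_
      · rw [← Nat.mul_div_cancel' (key x hx), ← Nat.mul_div_cancel' (key y hy), h2]
      · rw [← Nat.mod_add_div x.2 (p ^ k), ← Nat.mod_add_div y.2 (p ^ k), h1, h3]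
    · rw [card_product, card_range, pow_succ, ← mul_assoc]
      exact Nat.mul_le_mul_right _ (ih v β u a hv hu)

theorem eis (F : IQ) {p : ℕ} (hp : p.Prime) (hr : F.ram p) :
    ∃ r β v : ℤ, F.b - 2 * r = p * β ∧ r ^ 2 - F.b * r - F.a = p * v ∧ ¬ (p : ℤ) ∣ v := by
  have hp' : Prime (p : ℤ) := Nat.prime_iff_prime_int.1 hp
  unfold IQ.ram at hr
  rcases hp.eq_two_or_odd' with rfl | ⟨m, hm⟩
  · rcases F.D_cases with ⟨-, h1, h2⟩ | ⟨h1, -, h2, h3 | h3⟩
    · exfalso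
      push_cast at hr
      omega
    · refine ⟨0, 0, -(F.d / 2), by simp [h1], ?_, ?_⟩ <;> push_cast <;> omega
    · refine ⟨1, -1, (1 - F.d) / 2, by simp [h1], ?_, ?_⟩ <;> push_cast <;> omega
  · have hm' : (p : ℤ) = 2 * m + 1 := by exact_mod_cast hm
    have h4 : ¬ (p : ℤ) ∣ 4 := fun h => by
      have h2 : (p : ℤ) ∣ 2 := hp'.dvd_of_dvd_pow (n := 2) (by simpa using h)
      have := Int.le_of_dvd (by norm_num) h2
      have := hp.two_le
      omega
    have e : 4 * ((F.b * (m + 1)) ^ 2 - F.b * (F.b * (m + 1)) - F.a) = p * (p * F.b ^ 2) - F.D := by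
      rw [hm', IQ.D]; ring
    obtain ⟨v, hv⟩ : (p : ℤ) ∣ (F.b * (m + 1)) ^ 2 - F.b * (F.b * (m + 1)) - F.a :=
      (hp'.dvd_or_dvd (e ▸ dvd_sub (dvd_mul_right _ _) hr)).resolve_left h4
    refine ⟨F.b * (m + 1), -F.b, v, by rw [hm']; ring, hv, ?_⟩
    rintro ⟨t, rfl⟩
    have h5 : (p : ℤ) * p ∣ F.D := ⟨F.b ^ 2 - 4 * t, by rw [hv] at e; linear_combination e⟩
    have h6 : (p : ℤ) * p ∣ F.d := by
      rcases F.D_cases with ⟨-, h1, -⟩ | ⟨-, h1, -⟩
      · exact h1 ▸ h5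
      · rw [h1] at h5
        have hc : IsCoprime (p : ℤ) 4 := (hp'.irreducible.coprime_iff_not_dvd).2 h4
        exact (hc.mul_left hc).dvd_of_dvd_mul_left h5
    exact hp'.not_isUnit (F.sqf _ h6)

end LOCR

theorem stLOCR (h : St_LOCU) : St_LOCR := by
  intro F p k _ hp hr a
  classical
  obtain ⟨r, β, v, h1, h2, h3⟩ := LOCR.eis F hp hr
  have hp' : Prime (p : ℤ) := Nat.prime_iff_prime_int.1 hp
  refine le_trans (card_le_card_of_injOn
    (fun x : ZMod (p ^ k) × ZMod (p ^ k) => ((x.1 + (r : ZMod (p ^ k)) * x.2).val, x.2.val))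
    (fun x hx => ?_) (fun x _ y _ hxy => ?_))
    (LOCR.all_a h hp k 1 β v (a.val : ℤ) hp'.not_dvd_one h3)
  · refine mem_filter.2 ⟨mem_product.2 ⟨mem_range.2 (ZMod.val_lt _), mem_range.2 (ZMod.val_lt _)⟩, ?_⟩
    have hx' : F.NQ (p ^ k) x = a := (mem_filter.1 hx).2
    have e1 := congrArg (Int.cast : ℤ → ZMod (p ^ k)) h1
    have e2 := congrArg (Int.cast : ℤ → ZMod (p ^ k)) h2
    rw [← Nat.cast_pow, ← ZMod.intCast_zmod_eq_zero_iff_dvd]
    simp only [Int.cast_sub, Int.cast_add, Int.cast_mul, Int.cast_pow, Int.cast_natCast,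
      ZMod.natCast_zmod_val, Int.cast_one, Int.cast_ofNat] at e1 e2 ⊢
    rw [IQ.NQ] at hx'
    linear_combination hx' - (x.1 + r * x.2) * x.2 * e1 - x.2 ^ 2 * e2
  · have a1 : x.1 + (r : ZMod (p ^ k)) * x.2 = y.1 + (r : ZMod (p ^ k)) * y.2 :=
      ZMod.val_injective _ (congrArg Prod.fst hxy)
    have a2 : x.2 = y.2 := ZMod.val_injective _ (congrArg Prod.snd hxy)
    rw [a2] at a1
    exact Prod.ext (add_right_cancel a1) a2

end Pool.Agent.Lib.DL
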