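import Pool.Agent.Lib.DL.Blue

set_option autoImplicit false

namespace Pool.Agent.Lib.DL

open Finset

namespace LOCU

/-- Pairwise congruent numbers below `n * M` are at most `n`. -/
theorem card_cong (M n : ℕ) (S : Finset ℕ) (hS : ∀ t ∈ S, t < n * M)
    (h : ∀ t ∈ S, ∀ t' ∈ S, (M : ℤ) ∣ (t : ℤ) - t') : S.card ≤ n := by
  rcases Nat.eq_zero_or_pos M with rfl | hM
  · have : S = ∅ := Finset.eq_empty_of_forall_notMem fun t ht => by simpa using hS t ht
    simp [this]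
  have h1 : S.card ≤ (range n).card := by
    refine Finset.card_le_card_of_injOn (fun t => t / M) (fun t ht => ?_) ?_
    · simp only [coe_range, Set.mem_Iio]
      exact (Nat.div_lt_iff_lt_mul hM).mpr (hS t ht)
    · intro t ht t' ht' he
      have hm : t' ≡ t [MOD M] := (Nat.modEq_iff_dvd).mpr (h t ht t' ht')
      have e1 := Nat.div_add_mod t M
      have e2 := Nat.div_add_mod t' M
      simp only at he
      unfold Nat.ModEq at hm
      rw [← e1, ← e2, he, hm]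
  simpa using h1

theorem fib (T : Finset (ℕ × ℕ)) (f g : ℕ × ℕ → ℕ) (n m : ℕ)
    (hinj : ∀ z ∈ T, ∀ z' ∈ T, f z = f z' → g z = g z' → z = z')
    (hfib : ∀ b, ((T.filter (fun z => f z = b)).image g).card ≤ n)
    (himg : (T.image f).card ≤ m) : T.card ≤ n * m := by
  refine (Finset.card_le_mul_card_image T n fun b _ => ?_).trans (Nat.mul_le_mul_left n himg)
  refine le_trans (le_of_eq ?_) (hfib b)
  refine (Finset.card_image_of_injOn ?_).symm
  intro z hz z' hz' he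
  simp only [coe_filter, Set.mem_ofPred_eq] at hz hz'
  exact hinj z hz.1 z' hz'.1 (hz.2.trans hz'.2.symm) he

theorem split2 (j : ℕ) (W W' : ℤ) (h : ¬ (2 : ℤ) ∣ W) (h' : ¬ (2 : ℤ) ∣ W')
    (hd : (2 : ℤ) ^ (j + 2) ∣ W ^ 2 - W' ^ 2) :
    (2 : ℤ) ^ (j + 1) ∣ W - W' ∨ (2 : ℤ) ^ (j + 1) ∣ W + W' := by
  obtain ⟨d, hd1⟩ : (2 : ℤ) ∣ W - W' := by omega
  obtain ⟨e, he1⟩ : (2 : ℤ) ∣ W + W' := by omega
  have h4 : W ^ 2 - W' ^ 2 = 2 ^ 2 * (d * e) := by
    calc W ^ 2 - W' ^ 2 = (W - W') * (W + W') := by ring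
      _ = _ := by rw [hd1, he1]; ring
  rw [h4, pow_add, mul_comm ((2 : ℤ) ^ j)] at hd
  have h5 : (2 : ℤ) ^ j ∣ d * e := (mul_dvd_mul_iff_left (by norm_num)).mp hd
  by_cases he : (2 : ℤ) ∣ e
  · have hd2 : ¬ (2 : ℤ) ∣ d := by omega
    right
    rw [he1, pow_succ']
    exact mul_dvd_mul_left _ (Int.prime_two.pow_dvd_of_dvd_mul_left j hd2 h5)
  · left
    rw [hd1, pow_succ']
    exact mul_dvd_mul_left _ (Int.prime_two.pow_dvd_of_dvd_mul_right j he h5)

theorem four (j : ℕ) (S : Finset ℕ) (α γ : ℤ) (hα : ¬ (2 : ℤ) ∣ α) (hS : ∀ t ∈ S, t < 2 ^ (j + 2))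
    (hodd : ∀ t ∈ S, ¬ (2 : ℤ) ∣ α * t + γ)
    (hsq : ∀ t ∈ S, ∀ t' ∈ S, (2 : ℤ) ^ (j + 2) ∣ (α * t + γ) ^ 2 - (α * t' + γ) ^ 2) :
    S.card ≤ 4 := by
  rcases S.eq_empty_or_nonempty with rfl | ⟨t0, ht0⟩
  · simp
  have key : ∀ c : ℤ, (S.filter (fun t : ℕ => (2 : ℤ) ^ (j + 1) ∣ α * t + γ - c)).card ≤ 2 := by
    intro c
    refine card_cong (2 ^ (j + 1)) 2 _ (fun t ht => ?_) (fun t ht t' ht' => ?_)
    · have := hS t (mem_filter.mp ht).1
      rw [pow_succ] at this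
      omega
    · have h1 := dvd_sub (mem_filter.mp ht).2 (mem_filter.mp ht').2
      have h2 : α * t + γ - c - (α * t' + γ - c) = α * ((t : ℤ) - t') := by ring
      rw [h2] at h1
      push_cast
      exact Int.prime_two.pow_dvd_of_dvd_mul_left _ hα h1
  have hsub : S ⊆ S.filter (fun t : ℕ => (2 : ℤ) ^ (j + 1) ∣ α * t + γ - (α * t0 + γ))
      ∪ S.filter (fun t : ℕ => (2 : ℤ) ^ (j + 1) ∣ α * t + γ - (-(α * t0 + γ))) := by
    intro t ht
    rcases split2 j _ _ (hodd t ht) (hodd t0 ht0) (hsq t ht t0 ht0) with h | h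
    · exact mem_union_left _ (mem_filter.mpr ⟨ht, h⟩)
    · exact mem_union_right _ (mem_filter.mpr ⟨ht, by rwa [sub_neg_eq_add]⟩)
  have := (card_le_card hsub).trans (card_union_le _ _)
  have h1 := key (α * t0 + γ)
  have h2 := key (-(α * t0 + γ))
  omega

theorem odd_case (p k : ℕ) (u β v a : ℤ) (hp : p.Prime) (h2 : p ≠ 2) (hk : k ≠ 0)
    (hu : ¬ (p : ℤ) ∣ u) (ha : ¬ (p : ℤ) ∣ a) (T : Finset (ℕ × ℕ))
    (hT : ∀ z ∈ T, z.1 < p ^ k ∧ z.2 < p ^ k ∧
      ((p : ℤ) ^ k) ∣ u * z.1 ^ 2 + p * β * z.1 * z.2 + p * v * z.2 ^ 2 - a) :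
    T.card ≤ 2 * p ^ k := by
  have hpZ : Prime (p : ℤ) := Nat.prime_iff_prime_int.mp hp
  refine fib T (fun z => z.2) (fun z => z.1) 2 (p ^ k) (fun z _ z' _ h1 h2 => Prod.ext h2 h1)
    (fun y => ?_) ?_
  · set S := (T.filter (fun z => z.2 = y)).image (fun z => z.1) with hSdef
    have hS : ∀ x ∈ S, x < p ^ k ∧
        ((p : ℤ) ^ k) ∣ u * x ^ 2 + p * β * x * y + p * v * y ^ 2 - a := by
      intro x hx
      obtain ⟨z, hz, rfl⟩ := mem_image.mp hx
      obtain ⟨hz1, rfl⟩ := mem_filter.mp hz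
      exact ⟨(hT z hz1).1, (hT z hz1).2.2⟩
    rcases S.eq_empty_or_nonempty with h0 | ⟨x0, hx0⟩
    · simp [h0]
    have key : ∀ α c : ℤ, ¬ (p : ℤ) ∣ α →
        (S.filter (fun t : ℕ => (p : ℤ) ^ k ∣ α * t + c)).card ≤ 1 := by
      intro α c hα
      refine card_cong (p ^ k) 1 _ (fun t ht => ?_) (fun t ht t' ht' => ?_)
      · simpa using (hS t (mem_filter.mp ht).1).1
      · have h1 := dvd_sub (mem_filter.mp ht).2 (mem_filter.mp ht').2
        have h2 : α * t + c - (α * t' + c) = α * ((t : ℤ) - t') := by ring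
        rw [h2] at h1
        push_cast
        exact hpZ.pow_dvd_of_dvd_mul_left _ hα h1
    have hx0p : ¬ (p : ℤ) ∣ (x0 : ℤ) := by
      intro hd
      apply ha
      have h1 : (p : ℤ) ∣ u * x0 ^ 2 + p * β * x0 * y + p * v * y ^ 2 - a :=
        (dvd_pow_self _ hk).trans (hS x0 hx0).2
      obtain ⟨c, hc⟩ := hd
      obtain ⟨d, hd⟩ := h1
      exact ⟨u * p * c ^ 2 + β * x0 * y + v * y ^ 2 - d, by rw [hc] at hd ⊢; linear_combination -hd⟩
    have hsub : S ⊆ S.filter (fun t : ℕ => (p : ℤ) ^ k ∣ 1 * t + (-x0))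
        ∪ S.filter (fun t : ℕ => (p : ℤ) ^ k ∣ u * t + (u * x0 + p * β * y)) := by
      intro t ht
      have h1 := dvd_sub (hS t ht).2 (hS x0 hx0).2
      have h3 : u * (t : ℤ) ^ 2 + p * β * t * y + p * v * y ^ 2 - a
          - (u * x0 ^ 2 + p * β * x0 * y + p * v * y ^ 2 - a)
          = (1 * t + (-x0)) * (u * t + (u * x0 + p * β * y)) := by ring
      rw [h3] at h1
      by_cases hd : (p : ℤ) ∣ 1 * t + (-x0)
      · refine mem_union_left _ (mem_filter.mpr ⟨ht, ?_⟩)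
        refine hpZ.pow_dvd_of_dvd_mul_right _ (fun hd' => ?_) h1
        have h4 : (p : ℤ) ∣ u * (2 * x0) := by
          obtain ⟨c, hc⟩ := hd
          obtain ⟨d, hd⟩ := hd'
          exact ⟨d - u * c - β * y, by linear_combination hd - u * hc⟩
        rcases hpZ.dvd_or_dvd h4 with h | h
        · exact hu h
        rcases hpZ.dvd_or_dvd h with h | h
        · have h5 : p ∣ 2 := by exact_mod_cast h
          exact h2 ((Nat.prime_dvd_prime_iff_eq hp Nat.prime_two).mp h5)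
        · exact hx0p h
      · exact mem_union_right _ (mem_filter.mpr ⟨ht, hpZ.pow_dvd_of_dvd_mul_left _ hd h1⟩)
    have := (card_le_card hsub).trans (card_union_le _ _)
    have h1 := key 1 (-x0) hpZ.not_dvd_one
    have h3 := key u (u * x0 + p * β * y) hu
    omega
  · refine le_trans (card_le_card (t := range (p ^ k)) fun y hy => ?_) (by simp)
    obtain ⟨z, hz, rfl⟩ := mem_image.mp hy
    exact mem_range.mpr (hT z hz).2.1

theorem sq_odd (W : ℤ) (h : ¬ (2 : ℤ) ∣ W) : (8 : ℤ) ∣ W ^ 2 - 1 := by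
  obtain ⟨c, hc⟩ : (2 : ℤ) ∣ W - 1 := by omega
  have hW : W = 2 * c + 1 := by omega
  obtain ⟨d, hd⟩ := Int.even_mul_succ_self c
  exact ⟨d, by rw [hW]; linear_combination 4 * hd⟩

/-- Fibres over `y` when `W = u x + β y` is odd. -/
theorem fib_y (i : ℕ) (u β e c : ℤ) (hu : ¬ (2 : ℤ) ∣ u) (T : Finset (ℕ × ℕ)) (m : ℕ)
    (hT : ∀ z ∈ T, z.1 < 2 ^ (i + 3) ∧ ¬ (2 : ℤ) ∣ u * z.1 + β * z.2 ∧
      ((2 : ℤ) ^ (i + 3)) ∣ (u * z.1 + β * z.2) ^ 2 + e * z.2 ^ 2 - c)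
    (himg : (T.image (fun z => z.2)).card ≤ m) : T.card ≤ 4 * m := by
  refine fib T (fun z => z.2) (fun z => z.1) 4 m (fun z _ z' _ h1 h2 => Prod.ext h2 h1)
    (fun y => ?_) himg
  have hS : ∀ x ∈ (T.filter (fun z => z.2 = y)).image (fun z => z.1), x < 2 ^ (i + 3) ∧
      ¬ (2 : ℤ) ∣ u * x + β * y ∧ ((2 : ℤ) ^ (i + 3)) ∣ (u * x + β * y) ^ 2 + e * y ^ 2 - c := by
    intro x hx
    obtain ⟨z, hz, rfl⟩ := mem_image.mp hx
    obtain ⟨hz1, rfl⟩ := mem_filter.mp hz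
    exact hT z hz1
  refine four (i + 1) _ u (β * y) hu (fun t ht => (hS t ht).1) (fun t ht => (hS t ht).2.1)
    (fun t ht t' ht' => ?_)
  have h1 := dvd_sub (hS t ht).2.2 (hS t' ht').2.2
  have h2 : (u * t + β * y) ^ 2 + e * y ^ 2 - c - ((u * t' + β * y) ^ 2 + e * y ^ 2 - c)
      = (u * t + β * y) ^ 2 - (u * t' + β * y) ^ 2 := by ring
  rwa [h2] at h1

theorem eight_dvd (i : ℕ) : (8 : ℤ) ∣ 2 ^ (i + 3) := ⟨2 ^ i, by ring⟩

theorem two_case (i : ℕ) (u β v a : ℤ) (hu : ¬ (2 : ℤ) ∣ u) (hv : ¬ (2 : ℤ) ∣ v)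
    (ha : ¬ (2 : ℤ) ∣ a) (T : Finset (ℕ × ℕ))
    (hT : ∀ z ∈ T, z.1 < 2 ^ (i + 3) ∧ z.2 < 2 ^ (i + 3) ∧
      ((2 : ℤ) ^ (i + 3)) ∣ u * z.1 ^ 2 + 2 * β * z.1 * z.2 + 2 * v * z.2 ^ 2 - a) :
    T.card ≤ 2 * 2 ^ (i + 3) := by
  obtain ⟨e, he⟩ : ∃ e : ℤ, e = 2 * u * v - β ^ 2 := ⟨_, rfl⟩
  have hW : ∀ z ∈ T, ((2 : ℤ) ^ (i + 3)) ∣ (u * z.1 + β * z.2) ^ 2 + e * z.2 ^ 2 - u * a := by
    intro z hz
    have h1 := Dvd.dvd.mul_left (hT z hz).2.2 u
    have h2 : u * (u * z.1 ^ 2 + 2 * β * z.1 * z.2 + 2 * v * z.2 ^ 2 - a)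
        = (u * z.1 + β * z.2) ^ 2 + e * z.2 ^ 2 - u * a := by rw [he]; ring
    rwa [h2] at h1
  have hx : ∀ z ∈ T, ¬ (2 : ℤ) ∣ u * z.1 := by
    intro z hz hd
    apply ha
    obtain ⟨d, hd'⟩ := (dvd_pow_self (2 : ℤ) (Nat.succ_ne_zero _)).trans (hT z hz).2.2
    obtain ⟨c, hc⟩ := hd
    exact ⟨c * z.1 + β * z.1 * z.2 + v * z.2 ^ 2 - d, by linear_combination -hd' + z.1 * hc⟩
  have huv : ¬ (2 : ℤ) ∣ u * v := fun h => (Int.prime_two.dvd_or_dvd h).elim hu hv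
  by_cases hβ : (2 : ℤ) ∣ β
  · obtain ⟨b, hb⟩ := hβ
    have hodd : ∀ z ∈ T, ¬ (2 : ℤ) ∣ u * z.1 + β * z.2 := by
      intro z hz hd
      apply hx z hz
      obtain ⟨c, hc⟩ := hd
      exact ⟨c - b * z.2, by rw [hb] at hc; linear_combination hc⟩
    have h8 : ∀ z ∈ T, (8 : ℤ) ∣ 1 + e * z.2 ^ 2 - u * a := by
      intro z hz
      obtain ⟨c, hc⟩ := (eight_dvd i).trans (hW z hz)
      obtain ⟨d, hd⟩ := sq_odd _ (hodd z hz)
      exact ⟨c - d, by linear_combination hc - hd⟩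
    have hcase : ∀ y y' : ℤ, (2 : ℤ) ∣ y → ¬ (2 : ℤ) ∣ y' → (8 : ℤ) ∣ 1 + e * y ^ 2 - u * a →
        (8 : ℤ) ∣ 1 + e * y' ^ 2 - u * a → False := by
      rintro y y' ⟨c, hc⟩ hy' ⟨d, hd⟩ ⟨d', hd'⟩
      obtain ⟨f, hf⟩ := sq_odd _ hy'
      apply huv
      refine ⟨2 * (d' - d) + e * c ^ 2 - 2 * e * f + b ^ 2, ?_⟩
      have h4 : (2 : ℤ) * (u * v) = 2 * (2 * (2 * (d' - d) + e * c ^ 2 - 2 * e * f + b ^ 2)) := by
        rw [hc] at hd
        rw [hb] at he
        linear_combination hd' - hd - e * hf - he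
      exact mul_left_cancel₀ (by norm_num) h4
    have himg : (T.image (fun z => z.2)).card ≤ 2 ^ (i + 2) := by
      refine card_cong 2 _ _ (fun t ht => ?_) (fun t ht t' ht' => ?_)
      · obtain ⟨z, hz, rfl⟩ := mem_image.mp ht
        rw [← pow_succ]
        exact (hT z hz).2.1
      · obtain ⟨z, hz, rfl⟩ := mem_image.mp ht
        obtain ⟨z', hz', rfl⟩ := mem_image.mp ht'
        have h1 := hcase z.2 z'.2
        have h2 := hcase z'.2 z.2
        have h3 := h8 z hz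
        have h4 := h8 z' hz'
        by_cases c1 : (2 : ℤ) ∣ (z.2 : ℤ) <;> by_cases c2 : (2 : ℤ) ∣ (z'.2 : ℤ)
        · push_cast; omega
        · exact (h1 c1 c2 h3 h4).elim
        · exact (h2 c2 c1 h4 h3).elim
        · push_cast; omega
    have := fib_y i u β e (u * a) hu T _ (fun z hz => ⟨(hT z hz).1, hodd z hz, hW z hz⟩) himg
    calc T.card ≤ 4 * 2 ^ (i + 2) := this
      _ = 2 * 2 ^ (i + 3) := by ring
  · have hβ2 : ¬ (2 : ℤ) ∣ β ^ 2 := fun h => hβ (Int.prime_two.dvd_of_dvd_pow h)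
    have heo : ¬ (2 : ℤ) ∣ e := by
      rintro ⟨c, hc⟩
      exact hβ2 ⟨u * v - c, by linear_combination he - hc⟩
    -- an even number whose square times an odd number is fixed mod 8 is fixed mod 4
    have h4 : ∀ g y y' : ℤ, ¬ (2 : ℤ) ∣ g → (2 : ℤ) ∣ y → (2 : ℤ) ∣ y' →
        (8 : ℤ) ∣ g * (y ^ 2 - y' ^ 2) → (4 : ℤ) ∣ y - y' := by
      rintro g y y' hg ⟨c, rfl⟩ ⟨c', rfl⟩ ⟨d, hd⟩
      have h1 : (2 : ℤ) ∣ g * ((c - c') * (c + c')) :=
        ⟨d, mul_left_cancel₀ (by norm_num : (4 : ℤ) ≠ 0) (by linear_combination hd)⟩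
      rcases Int.prime_two.dvd_or_dvd h1 with h | h
      · exact (hg h).elim
      rcases Int.prime_two.dvd_or_dvd h with h | h <;> omega
    have hA : (T.filter (fun z => (2 : ℤ) ∣ (z.2 : ℤ))).card ≤ 4 * 2 ^ (i + 1) := by
      have hodd : ∀ z ∈ T.filter (fun z => (2 : ℤ) ∣ (z.2 : ℤ)), ¬ (2 : ℤ) ∣ u * z.1 + β * z.2 := by
        intro z hz hd
        obtain ⟨hz1, b, hb⟩ := mem_filter.mp hz
        apply hx z hz1
        obtain ⟨c, hc⟩ := hd
        exact ⟨c - β * b, by rw [hb] at hc; linear_combination hc⟩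
      refine fib_y i u β e (u * a) hu _ _ (fun z hz =>
        ⟨(hT z (mem_filter.mp hz).1).1, hodd z hz, hW z (mem_filter.mp hz).1⟩) ?_
      refine card_cong 4 _ _ (fun t ht => ?_) (fun t ht t' ht' => ?_)
      · obtain ⟨z, hz, rfl⟩ := mem_image.mp ht
        calc z.2 < 2 ^ (i + 3) := (hT z (mem_filter.mp hz).1).2.1
          _ = 2 ^ (i + 1) * 4 := by ring
      · obtain ⟨z, hz, rfl⟩ := mem_image.mp ht
        obtain ⟨z', hz', rfl⟩ := mem_image.mp ht'
        refine h4 e _ _ heo (mem_filter.mp hz).2 (mem_filter.mp hz').2 ?_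
        obtain ⟨c, hc⟩ := (eight_dvd i).trans (hW z (mem_filter.mp hz).1)
        obtain ⟨c', hc'⟩ := (eight_dvd i).trans (hW z' (mem_filter.mp hz').1)
        obtain ⟨d, hd⟩ := sq_odd _ (hodd z hz)
        obtain ⟨d', hd'⟩ := sq_odd _ (hodd z' hz')
        exact ⟨c - c' - d + d', by linear_combination hc - hc' - hd + hd'⟩
    have hB : (T.filter (fun z => ¬ (2 : ℤ) ∣ (z.2 : ℤ))).card ≤ 4 * 2 ^ (i + 1) := by
      have hN : (0 : ℤ) < 2 ^ (i + 3) := by positivity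
      obtain ⟨f, hf⟩ : ∃ f : ℕ × ℕ → ℕ, ∀ z, f z < 2 ^ (i + 3) ∧
          (2 : ℤ) ^ (i + 3) ∣ (u * z.1 + β * z.2) - f z := by
        refine ⟨fun z => ((u * z.1 + β * z.2) % 2 ^ (i + 3)).toNat, fun z => ?_⟩
        have h0 := Int.emod_nonneg (u * z.1 + β * z.2) hN.ne'
        have h1 := Int.emod_lt_of_pos (u * z.1 + β * z.2) hN
        have h2 := Int.toNat_of_nonneg h0
        refine ⟨?_, ?_⟩
        · have : ((((u * z.1 + β * z.2) % 2 ^ (i + 3)).toNat : ℕ) : ℤ) < ((2 ^ (i + 3) : ℕ) : ℤ) := by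
            rw [h2]; push_cast; exact h1
          exact_mod_cast this
        · simp only [h2]
          exact Int.dvd_sub_self_of_emod_eq rfl |>.neg_right |> fun h => by
            simpa using h
      have hf2 : ∀ z ∈ T, (2 : ℤ) ^ (i + 3) ∣ (f z : ℤ) ^ 2 + e * z.2 ^ 2 - u * a := by
        intro z hz
        have h1 := dvd_sub (hW z hz) (Dvd.dvd.mul_right (hf z).2 ((u * z.1 + β * z.2) + f z))
        have h2 : (u * z.1 + β * z.2) ^ 2 + e * z.2 ^ 2 - u * a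
            - (u * z.1 + β * z.2 - f z) * (u * z.1 + β * z.2 + f z)
            = (f z : ℤ) ^ 2 + e * z.2 ^ 2 - u * a := by ring
        rwa [h2] at h1
      refine fib _ f (fun z => z.2) 4 _ (fun z hz z' hz' h1 h2 => ?_) (fun b => ?_) ?_
      · refine Prod.ext ?_ h2
        have h3 := dvd_sub (hf z).2 (hf z').2
        have h5 : u * z.1 + β * z.2 - f z - (u * z'.1 + β * z'.2 - f z')
            = u * ((z.1 : ℤ) - z'.1) := by
          have h2' : z.2 = z'.2 := h2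
          have h1' : f z = f z' := h1
          rw [h1', h2']; ring
        rw [h5] at h3
        have h6 := Int.prime_two.pow_dvd_of_dvd_mul_left _ hu h3
        have h7 : ({z.1, z'.1} : Finset ℕ).card ≤ 1 := by
          refine card_cong (2 ^ (i + 3)) 1 _ (fun t ht => ?_) (fun t ht t' ht' => ?_)
          · simp only [mem_insert, mem_singleton] at ht
            rcases ht with rfl | rfl
            · simpa using (hT z (mem_filter.mp hz).1).1
            · simpa using (hT z' (mem_filter.mp hz').1).1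
          · simp only [mem_insert, mem_singleton] at ht ht'
            push_cast
            rcases ht with rfl | rfl <;> rcases ht' with rfl | rfl
            · simp
            · exact h6
            · exact dvd_sub_comm.mp h6
            · simp
        exact Finset.card_le_one.mp h7 _ (by simp) _ (by simp)
      · have hS : ∀ y : ℕ, y ∈ ((T.filter (fun z => ¬ (2 : ℤ) ∣ (z.2 : ℤ))).filter
            (fun z => f z = b)).image (fun z : ℕ × ℕ => z.2) → y < 2 ^ (i + 3) ∧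
            ¬ (2 : ℤ) ∣ (y : ℤ) ∧
            (2 : ℤ) ^ (i + 3) ∣ (b : ℤ) ^ 2 + e * (y : ℤ) ^ 2 - u * a := by
          intro y hy
          obtain ⟨z, hz, rfl⟩ := mem_image.mp hy
          obtain ⟨hz1, rfl⟩ := mem_filter.mp hz
          obtain ⟨hz2, hz3⟩ := mem_filter.mp hz1
          exact ⟨(hT z hz2).2.1, hz3, hf2 z hz2⟩
        refine four (i + 1) _ 1 0 (by norm_num) (fun t ht => (hS t ht).1)
          (fun t ht => by simpa using (hS t ht).2.1) (fun t ht t' ht' => ?_)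
        have h1 := dvd_sub (hS t ht).2.2 (hS t' ht').2.2
        have h2 : (b : ℤ) ^ 2 + e * t ^ 2 - u * a - (b ^ 2 + e * t' ^ 2 - u * a)
            = e * ((1 * t + 0) ^ 2 - (1 * t' + 0) ^ 2) := by ring
        rw [h2] at h1
        exact Int.prime_two.pow_dvd_of_dvd_mul_left _ heo h1
      · have hev : ∀ z ∈ T.filter (fun z => ¬ (2 : ℤ) ∣ (z.2 : ℤ)), (2 : ℤ) ∣ (f z : ℤ) := by
          intro z hz
          obtain ⟨hz1, hz2⟩ := mem_filter.mp hz
          have h1 := hx z hz1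
          have h2 : ¬ (2 : ℤ) ∣ β * z.2 := fun h => (Int.prime_two.dvd_or_dvd h).elim hβ hz2
          have h3 := (dvd_pow_self (2 : ℤ) (Nat.succ_ne_zero _)).trans (hf z).2
          omega
        refine card_cong 4 _ _ (fun t ht => ?_) (fun t ht t' ht' => ?_)
        · obtain ⟨z, hz, rfl⟩ := mem_image.mp ht
          calc f z < 2 ^ (i + 3) := (hf z).1
            _ = 2 ^ (i + 1) * 4 := by ring
        · obtain ⟨z, hz, rfl⟩ := mem_image.mp ht
          obtain ⟨z', hz', rfl⟩ := mem_image.mp ht'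
          refine h4 1 _ _ (by norm_num) (hev z hz) (hev z' hz') ?_
          obtain ⟨c, hc⟩ := (eight_dvd i).trans (hf2 z (mem_filter.mp hz).1)
          obtain ⟨c', hc'⟩ := (eight_dvd i).trans (hf2 z' (mem_filter.mp hz').1)
          obtain ⟨d, hd⟩ := sq_odd _ (mem_filter.mp hz).2
          obtain ⟨d', hd'⟩ := sq_odd _ (mem_filter.mp hz').2
          exact ⟨c - c' - e * d + e * d', by linear_combination hc - hc' - e * hd + e * hd'⟩
    have h5 := Finset.card_filter_add_card_filter_not (s := T) (fun z => (2 : ℤ) ∣ (z.2 : ℤ))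
    calc T.card ≤ 4 * 2 ^ (i + 1) + 4 * 2 ^ (i + 1) := by omega
      _ = 2 * 2 ^ (i + 3) := by ring

end LOCU

theorem stLOCU : St_LOCU := by
  intro p k u β v a hp hu hv ha
  set T := (range (p ^ k) ×ˢ range (p ^ k)).filter (fun x : ℕ × ℕ =>
    ((p : ℤ) ^ k) ∣ u * x.1 ^ 2 + p * β * x.1 * x.2 + p * v * x.2 ^ 2 - a) with hTdef
  have hT : ∀ z ∈ T, z.1 < p ^ k ∧ z.2 < p ^ k ∧
      ((p : ℤ) ^ k) ∣ u * z.1 ^ 2 + p * β * z.1 * z.2 + p * v * z.2 ^ 2 - a := by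
    intro z hz
    obtain ⟨h1, h2⟩ := mem_filter.mp hz
    obtain ⟨h3, h4⟩ := mem_product.mp h1
    exact ⟨mem_range.mp h3, mem_range.mp h4, h2⟩
  have hall : T.card ≤ p ^ k * p ^ k := (card_filter_le _ _).trans (by simp)
  rcases Nat.eq_zero_or_pos k with rfl | hk
  · simp only [pow_zero] at hall ⊢
    omega
  by_cases h2 : p = 2
  · subst h2
    by_cases hk3 : 3 ≤ k
    · obtain ⟨i, rfl⟩ : ∃ i, k = i + 3 := ⟨k - 3, by omega⟩
      exact LOCU.two_case i u β v a (by exact_mod_cast hu) (by exact_mod_cast hv)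
        (by exact_mod_cast ha) T (fun z hz => by exact_mod_cast hT z hz)
    · obtain ⟨j, rfl⟩ : ∃ j, k = j + 1 := ⟨k - 1, by omega⟩
      have hodd : ∀ z ∈ T, ¬ (2 : ℤ) ∣ (z.1 : ℤ) := by
        rintro z hz ⟨c, hc⟩
        apply ha
        obtain ⟨d, hd⟩ := (dvd_pow_self _ (Nat.succ_ne_zero j)).trans (hT z hz).2.2
        push_cast at hd ⊢
        exact ⟨u * c * z.1 + β * z.1 * z.2 + v * z.2 ^ 2 - d, by
          linear_combination -hd + u * z.1 * hc⟩
      have h1 := LOCU.fib T (fun z => z.1) (fun z => z.2) (2 ^ (j + 1)) (2 ^ j)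
        (fun z _ z' _ h1 h2 => Prod.ext h1 h2) (fun b => ?_) ?_
      · have hj : j ≤ 1 := by omega
        calc T.card ≤ 2 ^ (j + 1) * 2 ^ j := h1
          _ ≤ 2 ^ (j + 1) * 2 ^ 1 := Nat.mul_le_mul_left _ (Nat.pow_le_pow_right (by norm_num) hj)
          _ = 2 * 2 ^ (j + 1) := by ring
      · refine le_trans (card_le_card (t := range (2 ^ (j + 1))) fun y hy => ?_) (by simp)
        obtain ⟨z, hz, rfl⟩ := mem_image.mp hy
        exact mem_range.mpr (hT z (mem_filter.mp hz).1).2.1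
      · refine LOCU.card_cong 2 _ _ (fun t ht => ?_) (fun t ht t' ht' => ?_)
        · obtain ⟨z, hz, rfl⟩ := mem_image.mp ht
          rw [← pow_succ]
          exact (hT z hz).1
        · obtain ⟨z, hz, rfl⟩ := mem_image.mp ht
          obtain ⟨z', hz', rfl⟩ := mem_image.mp ht'
          have h3 := hodd z hz
          have h4 := hodd z' hz'
          push_cast
          omega
  · exact LOCU.odd_case p k u β v a hp h2 hk.ne' hu ha T hT

end Pool.Agent.Lib.DL
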