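import Pool.Agent.Lib.DL.Blue

set_option autoImplicit false

namespace Pool.Agent.Lib.DL

open QuadraticAlgebra Finset Filter Topology
open Pool.Agent.Lib.MP_d48457_nt (ind ind_pos ind_neg ind_nonneg)

namespace MA

theorem ah_le {F : IQ} (h2 : AR2 F) (θ : AddChar F.O Circle) (m : ℕ) :
    ‖F.ah θ m‖ ≤ F.w * ind (F.M m) := by
  by_cases hm : F.M m
  · have hρ : (0 : ℝ) < F.ρ m := by exact_mod_cast (h2.rho_pos m).2 hm
    rw [ind_pos hm, mul_one, IQ.ah, norm_div, Complex.norm_natCast, div_le_iff₀ hρ]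
    refine (norm_sum_le _ _).trans ?_
    simp only [Circle.norm_coe, sum_const, nsmul_eq_mul, mul_one]
    exact_mod_cast h2.card_elN m hm.1
  · have hρ : F.ρ m = 0 := by
      by_contra h
      exact hm ((h2.rho_pos m).1 (Nat.pos_of_ne_zero h))
    simp [IQ.ah, hρ, ind_neg hm]

theorem split_sum (S : Finset ℕ) (y : ℕ) (hS : ∀ p ∈ S, p.Prime ∧ y < p) (g : ℕ → ℝ)
    (hg : ∀ m, 0 ≤ g m) (X : ℝ) :
    ∑ m ∈ Icc 1 ⌊X⌋₊, ind (∀ p : ℕ, p.Prime → y < p → ¬ p ^ 2 ∣ m) * g m ≤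
      ∑ T ∈ S.powerset, ∑ m ∈ Icc 1 ⌊X / ∏ p ∈ T, (p : ℝ)⌋₊, ind ((∀ p ∈ S, ¬ p ∣ m) ∧
        ∀ p : ℕ, p.Prime → y < p → ¬ p ^ 2 ∣ m) * g ((∏ p ∈ T, p) * m) := by
  classical
  have e : ∀ (s : Finset ℕ) (P : ℕ → Prop) [DecidablePred P] (f : ℕ → ℝ),
      ∑ m ∈ s, ind (P m) * f m = ∑ m ∈ s.filter P, f m := by
    intro s P _ f
    rw [sum_filter]
    refine sum_congr rfl fun m _ => ?_
    by_cases h : P m
    · rw [ind_pos h, if_pos h, one_mul]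
    · rw [ind_neg h, if_neg h, zero_mul]
  rw [e, ← sum_fiberwise_of_maps_to (t := S.powerset) (g := fun m => S.filter (· ∣ m))
    fun m _ => mem_powerset.2 (filter_subset _ _)]
  refine sum_le_sum fun T hT => ?_
  have hT' := mem_powerset.1 hT
  have hd : 0 < ∏ p ∈ T, p := prod_pos fun p hp => (hS p (hT' hp)).1.pos
  rw [e, ← sum_image (g := fun m => (∏ p ∈ T, p) * m) (f := g)
    fun a _ b _ h => Nat.eq_of_mul_eq_mul_left hd h]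
  refine sum_le_sum_of_subset_of_nonneg (fun m hm => ?_) fun m _ _ => hg m
  obtain ⟨hm', rfl⟩ := mem_filter.1 hm
  obtain ⟨hm1, hm2⟩ := mem_filter.1 hm'
  obtain ⟨hm0, hmX⟩ := mem_Icc.1 hm1
  obtain ⟨k, hk⟩ : (∏ p ∈ S.filter (· ∣ m), p) ∣ m :=
    Finset.prod_primes_dvd m (fun p hp => (hS p (mem_filter.1 hp).1).1.prime)
      fun p hp => (mem_filter.1 hp).2
  refine mem_image.2 ⟨k, mem_filter.2 ⟨mem_Icc.2 ⟨?_, ?_⟩, fun p hp hpk => ?_,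
    fun p hp hy hpk => hm2 p hp hy (hpk.trans ⟨_, hk.trans (mul_comm _ _)⟩)⟩, hk.symm⟩
  · rcases k with _ | k
    · omega
    · omega
  · rw [← Nat.cast_prod, Nat.floor_div_natCast, Nat.le_div_iff_mul_le hd, mul_comm, ← hk]
    exact hmX
  · have h1 : p ∣ m := hpk.trans ⟨_, hk.trans (mul_comm _ _)⟩
    refine hm2 p (hS p hp).1 (hS p hp).2 ?_
    rw [hk, sq]
    exact mul_dvd_mul (dvd_prod_of_mem _ (mem_filter.2 ⟨hp, h1⟩)) hpk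

theorem euler_le (S : Finset ℕ) (hS : ∀ p ∈ S, p.Prime) :
    (∏ p ∈ S, (1 - 1 / (p : ℝ))) * ∑ T ∈ S.powerset, (∏ p ∈ T, (2 * (p : ℝ)))⁻¹ ≤
      Real.exp (-(∑ p ∈ S, 1 / (p : ℝ)) / 2) := by
  simp_rw [← prod_inv_distrib]
  rw [← prod_one_add, ← prod_mul_distrib, ← sum_neg_distrib, sum_div, Real.exp_sum]
  refine prod_le_prod (fun p hp => ?_) fun p hp => ?_ <;>
  · have h1 : (1 : ℝ) ≤ p := by exact_mod_cast (hS p hp).one_le
    have h2 : 1 / (p : ℝ) ≤ 1 := by rw [div_le_one (by linarith)]; exact h1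
    have h3 : 0 ≤ 1 / (p : ℝ) := by positivity
    rw [show (2 * (p : ℝ))⁻¹ = 1 / (p : ℝ) / 2 by rw [mul_inv]; ring]
    first
    | exact mul_nonneg (by linarith) (by linarith)
    | refine le_trans ?_ (Real.add_one_le_exp _)
      nlinarith

end MA

open MA

theorem stMA (h2 : St_AR2) (hQ : St_SQF) (hD : St_DIV1) (hM : St_MA1) : St_MA := by
  intro F B hB hB0 ε hε
  have hw : (0 : ℝ) < (F.w : ℝ) ^ 2 + 1 := by positivity
  obtain ⟨y₀, hy₀⟩ := hQ F B hB (ε / 3 / ((F.w : ℝ) ^ 2 + 1)) (by positivity)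
  obtain ⟨C₀, hC₀, hM1⟩ := hM F B hB hB0 (max 4 y₀) (le_max_left _ _)
  obtain ⟨S, π, hS, hA⟩ := hD F (2 * Real.log (3 * C₀ / ε)) (max 4 y₀)
  obtain ⟨N, C, hN, hC, hX⟩ := hM1 S π hS (ε / 3 / 2 ^ S.card) (by positivity)
  refine ⟨N, C, hN, hC, ?_⟩
  filter_upwards [hy₀, hX, eventually_ge_atTop 0] with X h1 h3 hX0 θ hθ
  have hR : 0 ≤ X / √(Real.log X) := by positivity
  have h4 : ∑ m ∈ Icc 1 ⌊X⌋₊, ‖F.ah θ m‖ ^ 2 ≤
      ((F.w : ℝ) ^ 2 + 1) * ∑ m ∈ Icc 1 ⌊X⌋₊,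
        ind (F.M m ∧ ∃ p : ℕ, p.Prime ∧ y₀ < p ∧ p ^ 2 ∣ m) +
      ∑ m ∈ Icc 1 ⌊X⌋₊, ind (∀ p : ℕ, p.Prime → max 4 y₀ < p → ¬ p ^ 2 ∣ m) * ‖F.ah θ m‖ ^ 2 := by
    rw [mul_sum, ← sum_add_distrib]
    refine sum_le_sum fun m _ => ?_
    by_cases hg : ∀ p : ℕ, p.Prime → max 4 y₀ < p → ¬ p ^ 2 ∣ m
    · rw [ind_pos hg, one_mul]
      exact le_add_of_nonneg_left (mul_nonneg hw.le (ind_nonneg _))
    · rw [ind_neg hg, zero_mul, add_zero]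
      have h5 := ah_le (h2 F) θ m
      by_cases hm : F.M m
      · push Not at hg
        obtain ⟨p, hp, hy, hd⟩ := hg
        rw [ind_pos hm, mul_one] at h5
        rw [ind_pos ⟨hm, p, hp, (le_max_right _ _).trans_lt hy, hd⟩, mul_one]
        nlinarith [norm_nonneg (F.ah θ m)]
      · rw [ind_neg hm, mul_zero] at h5
        rw [le_antisymm h5 (norm_nonneg _), ind_neg fun h => hm h.1]
        simp
  have h5 := (split_sum S (max 4 y₀) (fun p hp => ⟨(hS p hp).1, (hS p hp).2.2.1⟩)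
    (fun m => ‖F.ah θ m‖ ^ 2) (fun _ => sq_nonneg _) X).trans
    (sum_le_sum fun T hT => h3 θ hθ T (mem_powerset.1 hT))
  have h6 : ∑ T ∈ S.powerset, (C₀ * (∏ p ∈ S, (1 - 1 / (p : ℝ))) / ∏ p ∈ T, (2 * (p : ℝ)) +
      ε / 3 / 2 ^ S.card) * X / √(Real.log X) =
      (C₀ * ((∏ p ∈ S, (1 - 1 / (p : ℝ))) * ∑ T ∈ S.powerset, (∏ p ∈ T, (2 * (p : ℝ)))⁻¹) +
        ε / 3) * (X / √(Real.log X)) := by
    rw [← sum_div, ← sum_mul, sum_add_distrib, sum_const, card_powerset, nsmul_eq_mul, ← mul_assoc,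
      mul_sum, mul_div_assoc]
    push_cast
    rw [mul_div_cancel₀ _ (by positivity)]
    simp only [div_eq_mul_inv]
  have h7 : C₀ * ((∏ p ∈ S, (1 - 1 / (p : ℝ))) *
      ∑ T ∈ S.powerset, (∏ p ∈ T, (2 * (p : ℝ)))⁻¹) ≤ ε / 3 := by
    have h8 := euler_le S fun p hp => (hS p hp).1
    have h9 : Real.exp (-(∑ p ∈ S, 1 / (p : ℝ)) / 2) ≤ (3 * C₀ / ε)⁻¹ := by
      rw [← Real.exp_log (show 0 < 3 * C₀ / ε by positivity), ← Real.exp_neg]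
      exact Real.exp_le_exp.2 (by linarith)
    refine (mul_le_mul_of_nonneg_left (h8.trans h9) hC₀.le).trans (le_of_eq ?_)
    field_simp
  have h8 : ((F.w : ℝ) ^ 2 + 1) * ∑ m ∈ Icc 1 ⌊X⌋₊,
      ind (F.M m ∧ ∃ p : ℕ, p.Prime ∧ y₀ < p ∧ p ^ 2 ∣ m) ≤ ε / 3 * (X / √(Real.log X)) := by
    refine (mul_le_mul_of_nonneg_left h1 hw.le).trans (le_of_eq ?_)
    rw [mul_div_assoc, ← mul_assoc, mul_div_cancel₀ _ hw.ne']
  rw [h6] at h5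
  rw [mul_div_assoc]
  nlinarith [mul_le_mul_of_nonneg_right h7 hR]

end Pool.Agent.Lib.DL
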