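import Pool.Agent.Lib.DL.Blue

set_option autoImplicit false

namespace Pool.Agent.Lib.DL

open QuadraticAlgebra Finset Filter Topology
open Pool.Agent.Lib.MP_d48457_nt (ind ind_pos ind_neg ind_nonneg ind_le_one ind_and ind_congr
  ind_mono sum_ind_eq_card)

namespace PLAN

/-- The linear form with coefficients `j`. -/
def lin (F : IQ) (n : ℕ) (j : ZMod n × ZMod n) : F.O →+ ZMod n where
  toFun z := j.1 * (z.re : ZMod n) + j.2 * (z.im : ZMod n)
  map_zero' := by simp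
  map_add' x y := by simp; ring

/-- The characters of order dividing `n`. -/
noncomputable def ch (F : IQ) (n : ℕ) [NeZero n] (j : ZMod n × ZMod n) : AddChar F.O Circle :=
  (ZMod.toCircle (N := n)).compAddMonoidHom (lin F n j)

open Classical in
theorem orth (F : IQ) (n : ℕ) [NeZero n] (u : F.O) (h1 : |u.re| < n) (h2 : |u.im| < n) :
    ∑ j : ZMod n × ZMod n, (ch F n j u : ℂ)
      = if u = 0 then (Fintype.card (ZMod n × ZMod n) : ℂ) else 0 := by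
  have e : ∀ j : ZMod n × ZMod n, (ch F n j u : ℂ)
      = ZMod.stdAddChar (j.1 * (u.re : ZMod n)) * ZMod.stdAddChar (j.2 * (u.im : ZMod n)) := by
    intro j
    rw [← AddChar.map_add_eq_mul]
    rfl
  rw [sum_congr rfl (fun j _ => e j), Fintype.sum_prod_type, ← Fintype.sum_mul_sum
    (fun a : ZMod n => ZMod.stdAddChar (a * (u.re : ZMod n)))
    (fun a : ZMod n => ZMod.stdAddChar (a * (u.im : ZMod n))),
    AddChar.sum_mulShift _ (ZMod.isPrimitive_stdAddChar n),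
    AddChar.sum_mulShift _ (ZMod.isPrimitive_stdAddChar n)]
  by_cases hu : u = 0
  · subst hu
    simp
  · rw [if_neg hu]
    by_cases a1 : (u.re : ZMod n) = 0
    · by_cases a2 : (u.im : ZMod n) = 0
      · exfalso
        refine hu (QuadraticAlgebra.ext ?_ ?_)
        · exact Int.eq_zero_of_abs_lt_dvd ((ZMod.intCast_zmod_eq_zero_iff_dvd _ _).1 a1) h1
        · exact Int.eq_zero_of_abs_lt_dvd ((ZMod.intCast_zmod_eq_zero_iff_dvd _ _).1 a2) h2
      · simp [a2]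
    · simp [a1]

open Classical in
theorem ex_fam (F : IQ) (U : Finset F.O) : ∃ (J : Type) (_ : Fintype J) (θ : J → AddChar F.O Circle),
    0 < Fintype.card J ∧ ∀ u ∈ U, ∑ j, (θ j u : ℂ) = if u = 0 then (Fintype.card J : ℂ) else 0 := by
  obtain ⟨n, hn⟩ : ∃ n : ℕ, n = ∑ u ∈ U, (u.re.natAbs + u.im.natAbs) + 1 := ⟨_, rfl⟩
  have : NeZero n := ⟨by omega⟩
  refine ⟨ZMod n × ZMod n, inferInstance, ch F n, Fintype.card_pos, fun u hu => ?_⟩
  have h1 : u.re.natAbs + u.im.natAbs ≤ ∑ u ∈ U, (u.re.natAbs + u.im.natAbs) :=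
    single_le_sum (f := fun u : F.O => u.re.natAbs + u.im.natAbs) (fun _ _ => Nat.zero_le _) hu
  refine orth F n u ?_ ?_
  · rw [Int.abs_eq_natAbs]; omega
  · rw [Int.abs_eq_natAbs]; omega

theorem ch_sub (F : IQ) (θ : AddChar F.O Circle) (x y : F.O) :
    (θ (x - y) : ℂ) = θ x * (starRingEnd ℂ) (θ y) := by
  rw [AddChar.map_sub_eq_div, div_eq_mul_inv, Circle.coe_mul, Circle.coe_inv_eq_conj]

open Classical in
theorem parseval (F : IQ) {J : Type} [Fintype J] (θ : J → AddChar F.O Circle) (A : Finset F.O)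
    (e : F.O → F.O) (he : Function.Injective e) (c : F.O → ℝ)
    (h : ∀ x ∈ A, ∀ y ∈ A, ∑ j, (θ j (e x - e y) : ℂ)
      = if e x - e y = 0 then (Fintype.card J : ℂ) else 0) :
    ∑ j, ‖∑ x ∈ A, (c x : ℂ) * θ j (e x)‖ ^ 2 = Fintype.card J * ∑ x ∈ A, c x ^ 2 := by
  have h1 : ∀ j, ((‖∑ x ∈ A, (c x : ℂ) * θ j (e x)‖ ^ 2 : ℝ) : ℂ)
      = ∑ x ∈ A, ∑ y ∈ A, (c x : ℂ) * c y * θ j (e x - e y) := by
    intro j
    rw [← Complex.normSq_eq_norm_sq, ← Complex.mul_conj, map_sum, sum_mul_sum]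
    refine sum_congr rfl (fun x _ => sum_congr rfl (fun y _ => ?_))
    rw [ch_sub, map_mul, Complex.conj_ofReal]
    ring
  apply Complex.ofReal_injective
  rw [Complex.ofReal_sum, sum_congr rfl (fun j _ => h1 j), sum_comm]
  push_cast
  rw [mul_sum]
  refine sum_congr rfl (fun x hx => ?_)
  rw [sum_comm, sum_eq_single x]
  · rw [← mul_sum, h x hx x hx, if_pos (sub_self _)]
    ring
  · intro y hy hne
    rw [← mul_sum, h x hx y hy, if_neg (fun h' => hne (he (sub_eq_zero.1 h')).symm), mul_zero]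
  · intro h'
    exact absurd hx h'

open Classical in
theorem AA_eq (F : IQ) {J : Type} [Fintype J] (θ : J → AddChar F.O Circle) (L m : ℕ)
    (g φ : F.O → ℝ)
    (h : ∀ x ∈ F.sqr L, ∀ y ∈ F.sqr L, ∀ w ∈ F.elN m, ∑ j, (θ j (w + y - x) : ℂ)
      = if w + y - x = 0 then (Fintype.card J : ℂ) else 0) :
    ((Fintype.card J * F.AA L g φ m : ℝ) : ℂ) = ∑ j,
      (starRingEnd ℂ) (∑ x ∈ F.sqr L, (g x : ℂ) * θ j x) * (∑ y ∈ F.sqr L, (φ y : ℂ) * θ j y)
        * F.ah (θ j) m := by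
  have h1 : ∀ j, (starRingEnd ℂ) (∑ x ∈ F.sqr L, (g x : ℂ) * θ j x)
      * (∑ y ∈ F.sqr L, (φ y : ℂ) * θ j y) * F.ah (θ j) m
      = (∑ x ∈ F.sqr L, ∑ y ∈ F.sqr L, ∑ w ∈ F.elN m, (g x : ℂ) * φ y * θ j (w + y - x))
        / F.ρ m := by
    intro j
    rw [IQ.ah, ← mul_div_assoc, map_sum, sum_mul_sum, sum_mul]
    refine congrArg (· / _) (sum_congr rfl (fun x _ => ?_))
    rw [sum_mul]
    refine sum_congr rfl (fun y _ => ?_)
    rw [mul_sum]
    refine sum_congr rfl (fun w _ => ?_)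
    rw [ch_sub, AddChar.map_add_eq_mul, Circle.coe_mul, map_mul, Complex.conj_ofReal]
    ring
  rw [sum_congr rfl (fun j _ => h1 j), ← sum_div, IQ.AA]
  push_cast
  rw [← mul_div_assoc, sum_comm (s := (univ : Finset J)), mul_sum]
  refine congrArg (· / _) (sum_congr rfl (fun x hx => ?_))
  rw [sum_comm (s := (univ : Finset J)), mul_sum]
  refine sum_congr rfl (fun y hy => ?_)
  rw [sum_comm (s := (univ : Finset J))]
  have h2 : ∀ w ∈ F.elN m, ∑ j, (g x : ℂ) * φ y * θ j (w + y - x)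
      = if w = x - y then (g x : ℂ) * φ y * Fintype.card J else 0 := by
    intro w hw
    rw [← mul_sum, h x hx y hy w hw]
    by_cases hh : w = x - y
    · rw [if_pos hh, if_pos (by rw [hh]; ring)]
    · rw [if_neg hh, if_neg (fun h' => hh (by linear_combination h')), mul_zero]
  rw [sum_congr rfl h2, sum_ite_eq']
  have h3 : x - y ∈ F.elN m ↔ (y - x).norm = m := by
    rw [F.mem_elN, ← neg_sub y x, QuadraticAlgebra.norm_neg]
  by_cases hh : (y - x).norm = m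
  · rw [if_pos (h3.2 hh), ind_pos hh]
    push_cast
    ring
  · rw [if_neg (fun h' => hh (h3.1 h')), ind_neg hh]
    simp

open Classical in
theorem maj_card (F : IQ) {J : Type} [Fintype J] (θ : J → AddChar F.O Circle) {N : ℕ}
    (hN : N ≠ 0) {η : ℝ} (hη : 0 < η)
    (h : ∀ x ∈ F.sqr (⌊1 / (4 * η)⌋₊ + 1), ∀ y ∈ F.sqr (⌊1 / (4 * η)⌋₊ + 1),
      ∑ j, (θ j ((N : F.O) * x - (N : F.O) * y) : ℂ)
      = if (N : F.O) * x - (N : F.O) * y = 0 then (Fintype.card J : ℂ) else 0) :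
    (((univ : Finset J).filter (fun j => F.Maj (θ j) N η)).card : ℝ)
      ≤ 64 * η ^ 2 * Fintype.card J := by
  obtain ⟨T, hT⟩ : ∃ T : ℕ, T = ⌊1 / (4 * η)⌋₊ + 1 := ⟨_, rfl⟩
  rw [← hT] at h
  have hT1 : 1 / (4 * η) < T := by rw [hT]; push_cast; exact Nat.lt_floor_add_one _
  have hT2 : (T : ℝ) - 1 ≤ 1 / (4 * η) := by
    rw [hT]; push_cast
    have := Nat.floor_le (show 0 ≤ 1 / (4 * η) by positivity)
    linarith
  rw [div_lt_iff₀ (by positivity)] at hT1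
  rw [le_div_iff₀ (by positivity)] at hT2
  have hT0 : (0 : ℝ) < T := by rw [hT]; positivity
  have hinj : Function.Injective (fun z : F.O => (N : F.O) * z) :=
    mul_right_injective₀ (Nat.cast_ne_zero.2 hN)
  have hp := parseval F θ (F.sqr T) (fun z => (N : F.O) * z) hinj (fun _ => 1) h
  simp only [Complex.ofReal_one, one_mul, one_pow, sum_const, F.card_sqr, nsmul_eq_mul, mul_one,
    Nat.cast_pow] at hp
  have h1 : ∀ j ∈ (univ : Finset J).filter (fun j => F.Maj (θ j) N η),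
      ((T : ℝ) ^ 2 / 2) ^ 2 ≤ ‖∑ x ∈ F.sqr T, (θ j ((N : F.O) * x) : ℂ)‖ ^ 2 := by
    intro j hj
    have hM := (mem_filter.1 hj).2
    have h2 : ‖∑ x ∈ F.sqr T, ((θ j ((N : F.O) * x) : ℂ) - 1)‖ ≤ (T : ℝ) ^ 2 * (1 / 2) := by
      refine (norm_sum_le _ _).trans ?_
      have h3 := sum_le_card_nsmul (F.sqr T) (fun x => ‖(θ j ((N : F.O) * x) : ℂ) - 1‖) (1 / 2)
        (fun x hx => by
          obtain ⟨⟨a1, a2⟩, a3, a4⟩ := F.mem_sqr.1 hx
          have b1 : (0 : ℝ) ≤ x.re := by exact_mod_cast a1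
          have b3 : (0 : ℝ) ≤ x.im := by exact_mod_cast a3
          have b2 : (x.re : ℝ) + 1 ≤ T := by exact_mod_cast a2
          have b4 : (x.im : ℝ) + 1 ≤ T := by exact_mod_cast a4
          refine (hM.mul x).trans ?_
          rw [abs_of_nonneg b1, abs_of_nonneg b3]
          nlinarith)
      rw [F.card_sqr, nsmul_eq_mul, Nat.cast_pow] at h3
      exact h3
    rw [sum_sub_distrib, sum_const, F.card_sqr, nsmul_eq_mul, mul_one] at h2
    have h4 := norm_sub_norm_le ((T ^ 2 : ℕ) : ℂ) (∑ x ∈ F.sqr T, (θ j ((N : F.O) * x) : ℂ))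
    rw [norm_sub_rev, Complex.norm_natCast] at h4
    rw [Nat.cast_pow (T : ℕ) 2 (α := ℝ)] at h4
    exact pow_le_pow_left₀ (by positivity) (by linarith) 2
  have h2 := card_nsmul_le_sum _ _ _ h1
  rw [nsmul_eq_mul] at h2
  have h3 : ∑ j ∈ (univ : Finset J).filter (fun j => F.Maj (θ j) N η),
      ‖∑ x ∈ F.sqr T, (θ j ((N : F.O) * x) : ℂ)‖ ^ 2 ≤ Fintype.card J * (T : ℝ) ^ 2 := by
    rw [← hp]
    exact sum_le_sum_of_subset_of_nonneg (filter_subset _ _) (fun _ _ _ => sq_nonneg _)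
  obtain ⟨c, hc⟩ : ∃ c : ℝ, c = ((univ : Finset J).filter (fun j => F.Maj (θ j) N η)).card :=
    ⟨_, rfl⟩
  have hc0 : 0 ≤ c := by rw [hc]; positivity
  rw [← hc] at h2 ⊢
  have h4 : c * (T : ℝ) ^ 2 ≤ 4 * Fintype.card J := by
    refine le_of_mul_le_mul_right ?_ (pow_pos hT0 2)
    nlinarith
  have h5 : 1 ≤ 16 * η ^ 2 * (T : ℝ) ^ 2 := by nlinarith
  have h6 := mul_le_mul_of_nonneg_left h5 hc0
  have h7 := mul_le_mul_of_nonneg_left h4 (show 0 ≤ 16 * η ^ 2 by positivity)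
  nlinarith

theorem hat_le (F : IQ) (θ : AddChar F.O Circle) (L : ℕ) {g : F.O → ℝ} (hg : ∀ x, |g x| ≤ 1) :
    ‖∑ x ∈ F.sqr L, (g x : ℂ) * θ x‖ ≤ (L : ℝ) ^ 2 := by
  refine (norm_sum_le _ _).trans ?_
  have h := sum_le_card_nsmul (F.sqr L) (fun x => ‖(g x : ℂ) * θ x‖) 1 (fun x _ => by
    rw [norm_mul, Circle.norm_coe, mul_one, Complex.norm_real]
    exact hg x)
  rw [F.card_sqr, nsmul_eq_mul, Nat.cast_pow, mul_one] at h
  exact h

theorem sq_le (F : IQ) (L : ℕ) {g : F.O → ℝ} (hg : ∀ x, |g x| ≤ 1) :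
    ∑ x ∈ F.sqr L, g x ^ 2 ≤ (L : ℝ) ^ 2 := by
  have h := sum_le_card_nsmul (F.sqr L) (fun x => g x ^ 2) 1 (fun x _ => by
    rw [← sq_abs]
    exact pow_le_one₀ (abs_nonneg _) (hg x))
  rw [F.card_sqr, nsmul_eq_mul, Nat.cast_pow, mul_one] at h
  exact h

end PLAN

open PLAN in
theorem stPLAN : St_PLAN := by
  classical
  intro F L N X η S₁ S₂ κ g φ hN hη hS₂ hκ hg hφ h1 h2 h3
  obtain ⟨J, _, θ, hJ, hθ⟩ := ex_fam F
    ((((F.sqr L ×ˢ F.sqr L) ×ˢ F.disc X).image (fun p => p.2 + p.1.2 - p.1.1)) ∪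
      ((F.sqr L ×ˢ F.sqr L).image (fun p => p.1 - p.2)) ∪
      ((F.sqr (⌊1 / (4 * η)⌋₊ + 1) ×ˢ F.sqr (⌊1 / (4 * η)⌋₊ + 1)).image
        (fun p => (N : F.O) * p.1 - (N : F.O) * p.2)))
  have hJ' : (0 : ℝ) < Fintype.card J := by exact_mod_cast hJ
  have hS₁ : 0 ≤ S₁ := (sum_nonneg (fun _ _ => norm_nonneg _)).trans (h1 1)
  have hM := maj_card F θ hN hη (fun x hx y hy => hθ _
    (mem_union_right _ (mem_image.2 ⟨(x, y), mem_product.2 ⟨hx, hy⟩, rfl⟩)))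
  have hpar : ∀ c : F.O → ℝ, (∀ x, |c x| ≤ 1) →
      ∑ j, ‖∑ x ∈ F.sqr L, (c x : ℂ) * θ j x‖ ^ 2 ≤ Fintype.card J * (L : ℝ) ^ 2 := by
    intro c hc
    have := parseval F θ (F.sqr L) id Function.injective_id c (fun x hx y hy => hθ _
      (mem_union_left _ (mem_union_right _
        (mem_image.2 ⟨(x, y), mem_product.2 ⟨hx, hy⟩, rfl⟩))))
    simp only [id] at this
    rw [this]
    exact mul_le_mul_of_nonneg_left (sq_le F L hc) hJ'.le
  obtain ⟨G, hG⟩ : ∃ G : J → ℝ, ∀ j, G j = ‖∑ x ∈ F.sqr L, (g x : ℂ) * θ j x‖ := ⟨_, fun _ => rfl⟩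
  obtain ⟨H, hH⟩ : ∃ H : J → ℝ, ∀ j, H j = ‖∑ x ∈ F.sqr L, (φ x : ℂ) * θ j x‖ := ⟨_, fun _ => rfl⟩
  have hG0 : ∀ j, 0 ≤ G j := fun j => hG j ▸ norm_nonneg _
  have hH0 : ∀ j, 0 ≤ H j := fun j => hH j ▸ norm_nonneg _
  have hA : ∀ m ∈ Icc 1 ⌊X⌋₊, Fintype.card J * |F.AA L g φ m|
      ≤ ∑ j, G j * H j * ‖F.ah (θ j) m‖ := by
    intro m hm
    have hmX : (m : ℝ) ≤ X := by
      obtain ⟨a1, a2⟩ := mem_Icc.1 hm
      exact (Nat.le_floor_iff' (by omega)).1 a2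
    have e := AA_eq F θ L m g φ (fun x hx y hy w hw => hθ _
      (mem_union_left _ (mem_union_left _ (mem_image.2 ⟨((x, y), w), mem_product.2
        ⟨mem_product.2 ⟨hx, hy⟩, F.mem_disc.2 (by
          rw [F.mem_elN.1 hw]; exact_mod_cast hmX)⟩, rfl⟩))))
    have e2 := congrArg (fun z : ℂ => ‖z‖) e
    beta_reduce at e2
    rw [Complex.norm_real, Real.norm_eq_abs, abs_mul, abs_of_pos hJ'] at e2
    rw [e2]
    refine (norm_sum_le _ _).trans (le_of_eq (sum_congr rfl (fun j _ => ?_)))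
    rw [norm_mul, norm_mul, Complex.norm_conj, hG, hH]
  have hB := sum_le_sum hA
  rw [← mul_sum, sum_comm] at hB
  have hC : ∀ j ∈ (univ : Finset J), ∑ m ∈ Icc 1 ⌊X⌋₊, G j * H j * ‖F.ah (θ j) m‖
      ≤ S₂ / 2 * (G j ^ 2 + H j ^ 2)
        + if F.Maj (θ j) N η then S₁ * κ * (L : ℝ) ^ 4 else 0 := by
    intro j _
    rw [← mul_sum]
    have a0 := mul_nonneg (hG0 j) (hH0 j)
    by_cases hj : F.Maj (θ j) N η
    · rw [if_pos hj]
      have a1 : G j ≤ (L : ℝ) ^ 2 := hG j ▸ hat_le F (θ j) L hg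
      have a2 : H j ≤ κ * (L : ℝ) ^ 2 := hH j ▸ h3 _ hj
      have a3 : G j * H j ≤ (L : ℝ) ^ 2 * (κ * (L : ℝ) ^ 2) :=
        mul_le_mul a1 a2 (hH0 j) (by positivity)
      have a4 := mul_le_mul a3 (h1 (θ j)) (sum_nonneg (fun _ _ => norm_nonneg _)) (by positivity)
      have a5 : 0 ≤ S₂ / 2 * (G j ^ 2 + H j ^ 2) := by positivity
      nlinarith
    · rw [if_neg hj, add_zero]
      have a1 := mul_le_mul_of_nonneg_left (h2 _ hj) a0
      have a2 := mul_nonneg hS₂ (sq_nonneg (G j - H j))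
      nlinarith
  have hD := hB.trans (sum_le_sum hC)
  rw [sum_add_distrib, ← mul_sum, sum_add_distrib, ← sum_filter, sum_const, nsmul_eq_mul] at hD
  have b1 : ∑ j, G j ^ 2 ≤ Fintype.card J * (L : ℝ) ^ 2 := by
    rw [sum_congr rfl (fun j _ => by rw [hG j])]; exact hpar g hg
  have b2 : ∑ j, H j ^ 2 ≤ Fintype.card J * (L : ℝ) ^ 2 := by
    rw [sum_congr rfl (fun j _ => by rw [hH j])]; exact hpar φ hφ
  have b3 := mul_le_mul_of_nonneg_right hM (show 0 ≤ S₁ * κ * (L : ℝ) ^ 4 by positivity)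
  have b4 := mul_le_mul_of_nonneg_left (add_le_add b1 b2) (show 0 ≤ S₂ / 2 by positivity)
  refine le_of_mul_le_mul_left ?_ hJ'
  nlinarith

end Pool.Agent.Lib.DL
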