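import Pool.Agent.Lib.DL.Blue

set_option autoImplicit false

namespace Pool.Agent.Lib.DL

open QuadraticAlgebra Finset Filter Topology

namespace RED

theorem card_le_of_circles (P P₀ : Finset ℂ) (x : ℂ) (k : ℕ) (hx : x ∈ P) (h0 : P₀ ⊆ P)
    (h : ∀ s : ℝ, (P₀.filter (fun z => dist x z = s)).card ≤ k) : P₀.card ≤ k * (DD P + 1) := by
  classical
  have h1 : P₀.card ≤ k * (P₀.image (fun z => dist x z)).card :=
    card_le_mul_card_image _ _ (fun s _ => h s)
  refine h1.trans (Nat.mul_le_mul_left _ ?_)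
  have hfin : {d : ℝ | ∃ p ∈ P, ∃ q ∈ P, p ≠ q ∧ d = dist p q}.Finite := by
    refine (image₂ (fun p q : ℂ => dist p q) P P).finite_toSet.subset ?_
    rintro d ⟨p, hp, q, hq, -, rfl⟩
    exact mem_coe.2 (mem_image₂_of_mem hp hq)
  have h2 : P₀.image (fun z => dist x z) ⊆ insert 0 hfin.toFinset := by
    intro d hd
    obtain ⟨z, hz, rfl⟩ := mem_image.1 hd
    by_cases hxz : x = z
    · rw [hxz, dist_self]
      exact mem_insert_self _ _
    · exact mem_insert_of_mem (hfin.mem_toFinset.2 ⟨x, hx, z, h0 hz, hxz, rfl⟩)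
  refine (card_le_card h2).trans ((card_insert_le _ _).trans ?_)
  rw [DD, Set.ncard_eq_toFinset_card _ hfin]

/-- Points with rational coordinates. -/
def Kq (F : IQ) (z : ℂ) : Prop := ∃ n : ℕ, n ≠ 0 ∧ ∃ β : F.O, F.σ β = n * z

theorem unif (F : IQ) (W : Finset ℂ) :
    ∃ N : ℕ, N ≠ 0 ∧ ∀ w ∈ W, Kq F w → ∃ β : F.O, F.σ β = N * w := by
  classical
  induction W using Finset.induction_on with
  | empty => exact ⟨1, one_ne_zero, fun w hw => absurd hw (notMem_empty w)⟩
  | insert a W _ ih =>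
    obtain ⟨N, hN, h⟩ := ih
    by_cases ha : Kq F a
    · obtain ⟨n, hn, β, hβ⟩ := ha
      refine ⟨N * n, mul_ne_zero hN hn, fun w hw hk => ?_⟩
      rcases mem_insert.1 hw with rfl | hw
      · exact ⟨N * β, by rw [map_mul, map_natCast, hβ]; push_cast; ring⟩
      · obtain ⟨β', hβ'⟩ := h w hw hk
        exact ⟨n * β', by rw [map_mul, map_natCast, hβ']; push_cast; ring⟩
    · refine ⟨N, hN, fun w hw hk => ?_⟩
      rcases mem_insert.1 hw with rfl | hw
      · exact absurd hk ha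
      · exact h w hw hk

theorem centre0 (F : IQ) (a b : F.O) (c : ℂ) (ha : a ≠ 0) (hb : b ≠ 0) (hab : a ≠ b)
    (h1 : ‖F.σ a - c‖ = ‖c‖) (h2 : ‖F.σ b - c‖ = ‖c‖) : Kq F c := by
  have key : ∀ z : F.O, ‖F.σ z - c‖ = ‖c‖ →
      F.σ z * F.σ (star z) = F.σ z * (starRingEnd ℂ) c + F.σ (star z) * c := by
    intro z hz
    have e1 := Complex.mul_conj' (F.σ z - c)
    have e2 := Complex.mul_conj' c
    rw [hz, ← e2, map_sub, ← F.σ_star] at e1
    linear_combination e1
  have k1 := key a h1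
  have k2 := key b h2
  have k3 : F.σ (star a * b - a * star b) * c = F.σ (a * b * (star a - star b)) := by
    simp only [map_sub, map_mul]
    linear_combination F.σ a * k2 - F.σ b * k1
  have hd : star a * b - a * star b ≠ 0 := by
    intro h0
    rw [h0, map_zero, zero_mul] at k3
    refine F.σ_ne_zero (mul_ne_zero (mul_ne_zero ha hb) (sub_ne_zero.2 ?_)) k3.symm
    exact fun h => hab (star_injective h)
  set d := star a * b - a * star b
  obtain ⟨n, hn⟩ := Int.eq_ofNat_of_zero_le (F.norm_nonneg' d)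
  refine ⟨n, ?_, a * b * (star a - star b) * star d, ?_⟩
  · rintro rfl
    exact F.norm_ne_zero hd (by simpa using hn)
  · have e := congrArg F.σ (F.mul_star_eq d)
    rw [hn, map_intCast, map_mul, Int.cast_natCast] at e
    rw [map_mul, ← k3, ← e]
    ring

theorem centre (F : IQ) (β₁ β₂ β₃ : F.O) (c : ℂ) (h12 : β₁ ≠ β₂) (h13 : β₁ ≠ β₃) (h23 : β₂ ≠ β₃)
    (h1 : ‖F.σ β₂ - c‖ = ‖F.σ β₁ - c‖) (h2 : ‖F.σ β₃ - c‖ = ‖F.σ β₁ - c‖) : Kq F c := by
  obtain ⟨n, hn, β, hβ⟩ := centre0 F (β₂ - β₁) (β₃ - β₁) (c - F.σ β₁) (sub_ne_zero.2 h12.symm)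
    (sub_ne_zero.2 h13.symm) (fun h => h23 (sub_left_inj.1 h))
    (by rw [map_sub, sub_sub_sub_cancel_right, h1, norm_sub_rev])
    (by rw [map_sub, sub_sub_sub_cancel_right, h2, norm_sub_rev])
  exact ⟨n, hn, β + n * β₁, by rw [map_add, map_mul, map_natCast, hβ]; ring⟩

open Classical in
/-- The part of `P` in one coset. -/
noncomputable def cos (P : Finset ℂ) (u v t : ℂ) : Finset ℂ :=
  P.filter (fun z => ∃ a b : ℤ, z = t + a * u + b * v)

theorem cos_subset (P : Finset ℂ) (u v t : ℂ) : cos P u v t ⊆ P := by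
  classical
  exact filter_subset _ _

theorem mem_cos {P : Finset ℂ} {u v t z : ℂ} :
    z ∈ cos P u v t ↔ z ∈ P ∧ ∃ a b : ℤ, z = t + a * u + b * v := by
  classical
  exact mem_filter

theorem pigeon (T P : Finset ℂ) (u v : ℂ) (hP : P.Nonempty)
    (h : ∀ z ∈ P, ∃ t ∈ T, ∃ a b : ℤ, z = t + a * u + b * v) :
    ∃ t ∈ T, P.card ≤ T.card * (cos P u v t).card := by
  classical
  obtain ⟨z, hz⟩ := hP
  obtain ⟨t', ht', -⟩ := h z hz
  obtain ⟨t, ht, hm⟩ := exists_max_image T (fun t => (cos P u v t).card) ⟨t', ht'⟩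
  refine ⟨t, ht, ?_⟩
  have h1 : P ⊆ T.biUnion (cos P u v) := fun z hz => by
    obtain ⟨t, ht, h⟩ := h z hz
    exact mem_biUnion.2 ⟨t, ht, mem_cos.2 ⟨hz, h⟩⟩
  exact (card_le_card h1).trans (card_biUnion_le_card_mul _ _ _ hm)

theorem fin_bound (T P : Finset ℂ) (m : ℕ) (h1 : P.card ≤ T.card * m) (h2 : m ≤ 4 * (DD P + 1)) :
    1 / (4 * ((T.card : ℝ) + 1)) * P.card ≤ DD P + 1 := by
  have h3 : P.card ≤ (DD P + 1) * (4 * (T.card + 1)) := by
    calc _ ≤ T.card * (4 * (DD P + 1)) := h1.trans (Nat.mul_le_mul_left _ h2)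
      _ ≤ (T.card + 1) * (4 * (DD P + 1)) := Nat.mul_le_mul_right _ (Nat.le_succ _)
      _ = _ := by ring
  rw [one_div, inv_mul_le_iff₀ (by positivity), mul_comm]
  exact_mod_cast h3

theorem nonquad (P : Finset ℂ) (u v t : ℂ) (hu : u ≠ 0)
    (h : ∀ (s : ℝ) (S : Finset (ℤ × ℤ)), (∀ p ∈ S, ‖(p.1 : ℂ) + p.2 * (v / u)‖ = s) → S.card ≤ 4) :
    (cos P u v t).card ≤ 4 * (DD P + 1) := by
  classical
  rcases (cos P u v t).eq_empty_or_nonempty with he | ⟨x, hx⟩
  · rw [he]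
    simp
  have hc : ∀ z ∈ cos P u v t, ∃ a b : ℤ, z = t + a * u + b * v := fun z hz => (mem_cos.1 hz).2
  choose! A B hAB using hc
  refine card_le_of_circles P _ x 4 (cos_subset _ _ _ _ hx) (cos_subset _ _ _ _) (fun s => ?_)
  have hinj : Set.InjOn (fun z => (A z - A x, B z - B x))
      ((cos P u v t).filter (fun z => dist x z = s) : Finset ℂ) := by
    intro z hz z' hz' he
    simp only [Prod.mk.injEq, sub_left_inj] at he
    rw [hAB z (mem_filter.1 hz).1, hAB z' (mem_filter.1 hz').1, he.1, he.2]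
  rw [← card_image_of_injOn hinj]
  refine h (s / ‖u‖) _ (fun p hp => ?_)
  obtain ⟨z, hz, rfl⟩ := mem_image.1 hp
  obtain ⟨hz1, hz2⟩ := mem_filter.1 hz
  rw [← hz2, dist_comm, dist_eq_norm, ← norm_div]
  congr 1
  have e1 := hAB z hz1
  have e2 := hAB x hx
  push_cast
  field_simp
  linear_combination e2 - e1

theorem quad_irr (F : IQ) (P : Finset ℂ) (u v t x : ℂ) (hu : u ≠ 0) (N : ℕ) (γ : F.O) (hN : N ≠ 0)
    (hγ : F.σ γ = N * (v / u)) (hx : x ∈ P) (hk : ¬ Kq F ((x - t) / u)) :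
    (cos P u v t).card ≤ 4 * (DD P + 1) := by
  classical
  refine (card_le_of_circles P _ x 2 hx (cos_subset _ _ _ _) (fun s => ?_)).trans
    (Nat.mul_le_mul_right _ (by norm_num))
  by_contra hc
  obtain ⟨z₁, m1, z₂, m2, z₃, m3, h12, h13, h23⟩ := two_lt_card.1 (not_le.1 hc)
  have hN' : (N : ℂ) ≠ 0 := by exact_mod_cast hN
  have key : ∀ z ∈ (cos P u v t).filter (fun z => dist x z = s), ∃ β : F.O,
      z = t + u / N * F.σ β ∧ ‖F.σ β - N * ((x - t) / u)‖ = ‖(N : ℂ) / u‖ * s := by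
    intro z hz
    obtain ⟨h1, h2⟩ := mem_filter.1 hz
    obtain ⟨a, b, h3⟩ := (mem_cos.1 h1).2
    have e : F.σ ((a : F.O) * N + (b : F.O) * γ) = a * N + b * (N * (v / u)) := by
      rw [map_add, map_mul, map_mul, map_intCast, map_intCast, map_natCast, hγ]
    refine ⟨(a : F.O) * N + (b : F.O) * γ, ?_, ?_⟩
    · rw [e, h3]
      field_simp
      ring
    · rw [e, ← h2, dist_comm, dist_eq_norm, ← norm_mul, h3]
      congr 1
      field_simp
      ring
  obtain ⟨β₁, e1, n1⟩ := key z₁ m1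
  obtain ⟨β₂, e2, n2⟩ := key z₂ m2
  obtain ⟨β₃, e3, n3⟩ := key z₃ m3
  obtain ⟨n, hn, β, hβ⟩ := centre F β₁ β₂ β₃ (N * ((x - t) / u))
    (fun h => h12 (by rw [e1, e2, h])) (fun h => h13 (by rw [e1, e3, h]))
    (fun h => h23 (by rw [e2, e3, h])) (n2.trans n1.symm) (n3.trans n1.symm)
  exact hk ⟨n * N, mul_ne_zero hn hN, β, by rw [hβ]; push_cast; ring⟩

end RED

open RED in
theorem stRED (hE : St_EXIQ) (h : St_DICH) : St_RED := by
  classical
  intro T u v huv
  rw [LinearIndependent.pair_iff] at huv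
  have hu : u ≠ 0 := by
    intro h0
    exact one_ne_zero (huv 1 0 (by simp [h0])).1
  have hτ : (v / u).im ≠ 0 := by
    intro h0
    have e : v / u = ((v / u).re : ℂ) := Complex.ext (by simp) (by simpa using h0)
    have := (huv (v / u).re (-1) (by
      rw [Complex.real_smul, ← e, Complex.real_smul]
      push_cast
      field_simp
      ring)).2
    norm_num at this
  have hc : (0 : ℝ) < 1 / (4 * ((T.card : ℝ) + 1)) := by positivity
  have hemp : 1 / (4 * ((T.card : ℝ) + 1)) * (∅ : Finset ℂ).card ≤ DD ∅ + 1 := by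
    rw [card_empty, Nat.cast_zero, mul_zero]
    positivity
  rcases h (v / u) hτ with h | ⟨F, N, γ, hN, hγ⟩
  · obtain ⟨F, -⟩ := hE (-1) (by norm_num) isUnit_one.neg.squarefree
    refine ⟨F, _, 1, hc, one_pos, fun P hP => Or.inl ?_⟩
    rcases P.eq_empty_or_nonempty with rfl | hne
    · exact hemp
    obtain ⟨t, -, ht⟩ := pigeon T P u v hne hP
    exact fin_bound T P _ ht (nonquad P u v t hu h)
  · obtain ⟨N', hN', hW⟩ := unif F (insert (v / u) (image₂ (fun t t' => (t - t') / u) T T))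
    obtain ⟨γ', hγ'⟩ := hW _ (mem_insert_self _ _) ⟨N, hN, γ, hγ⟩
    have hu' : 0 < ‖u‖ := norm_pos_iff.2 hu
    have hN0 : (0 : ℝ) < N' := by exact_mod_cast Nat.pos_of_ne_zero hN'
    refine ⟨F, _, (N' / ‖u‖) ^ 2, hc, by positivity, fun P hP => ?_⟩
    rcases P.eq_empty_or_nonempty with rfl | hne
    · exact Or.inl hemp
    obtain ⟨t₀, ht₀, ht⟩ := pigeon T P u v hne hP
    by_cases hall : ∀ x ∈ P, Kq F ((x - t₀) / u)
    · right
      have key : ∀ x ∈ P, ∃ β : F.O, F.σ β = N' * ((x - t₀) / u) := by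
        intro x hx
        obtain ⟨t, htT, a, b, rfl⟩ := hP x hx
        obtain ⟨n, hn, β, hβ⟩ := hall _ hx
        obtain ⟨β', hβ'⟩ := hW ((t - t₀) / u) (mem_insert_of_mem (mem_image₂_of_mem htT ht₀))
          ⟨n * N, mul_ne_zero hn hN, N * β - n * N * (a : F.O) - n * (b : F.O) * γ, by
            simp only [map_sub, map_mul, map_natCast, map_intCast, hβ, hγ]
            push_cast
            field_simp
            ring⟩
        refine ⟨β' + N' * (a : F.O) + (b : F.O) * γ', ?_⟩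
        simp only [map_add, map_mul, map_natCast, map_intCast, hβ', hγ']
        field_simp
        ring
      choose! φ hφ using key
      refine ⟨φ, fun x hx y hy => ?_⟩
      rw [← F.norm_σ_sq, map_sub, hφ x hx, hφ y hy, ← mul_pow, dist_eq_norm]
      congr 1
      rw [show (N' : ℂ) * ((x - t₀) / u) - N' * ((y - t₀) / u) = N' / u * (x - y) by ring,
        norm_mul, norm_div, Complex.norm_natCast]
    · left
      push Not at hall
      obtain ⟨x, hx, hk⟩ := hall
      exact fin_bound T P _ ht (quad_irr F P u v t₀ x hu N γ hN hγ hx hk)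

end Pool.Agent.Lib.DL
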