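import Pool.Agent.Lib.DL.Blue

set_option autoImplicit false

namespace Pool.Agent.Lib.DL

open Finset

namespace REG

open Classical in
/-- Orthogonality: against a function constant on the fibres of `c`, `avg` can be replaced by `f`. -/
theorem orth {α β : Type} (B : Finset α) (c : α → β) (f h : α → ℝ)
    (hh : ∀ x ∈ B, ∀ y ∈ B, c x = c y → h x = h y) :
    ∑ x ∈ B, h x * avg B c f x = ∑ x ∈ B, h x * f x := by
  have h1 : ∀ x ∈ B, h x * avg B c f x
      = ∑ y ∈ B, if c y = c x then h y * f y / (B.filter (fun z => c z = c y)).card else 0 := by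
    intro x hx
    unfold avg
    rw [Finset.sum_div, Finset.mul_sum, Finset.sum_filter]
    refine Finset.sum_congr rfl fun y hy => ?_
    by_cases hc : c y = c x
    · simp only [hc, if_true]
      rw [hh y hy x hx hc]
      ring
    · simp [hc]
  rw [Finset.sum_congr rfl h1, Finset.sum_comm]
  refine Finset.sum_congr rfl fun y hy => ?_
  rw [← Finset.sum_filter, Finset.sum_const, nsmul_eq_mul]
  have he : B.filter (fun x => c y = c x) = B.filter (fun z => c z = c y) := by
    refine Finset.filter_congr fun x _ => ?_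
    exact eq_comm
  rw [he]
  have hpos : (0 : ℝ) < (B.filter (fun z => c z = c y)).card := by
    have : y ∈ B.filter (fun z => c z = c y) := by simp [hy]
    exact_mod_cast Finset.card_pos.mpr ⟨y, this⟩
  field_simp

theorem avg_const {α β : Type} (B : Finset α) (c : α → β) (f : α → ℝ) {x y : α}
    (h : c x = c y) : avg B c f x = avg B c f y := by
  unfold avg
  rw [h]

open Classical in
theorem avg_mem {α β : Type} (B : Finset α) (c : α → β) (f : α → ℝ)
    (hf : ∀ x, 0 ≤ f x ∧ f x ≤ 1) (x : α) : 0 ≤ avg B c f x ∧ avg B c f x ≤ 1 := by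
  unfold avg
  refine ⟨div_nonneg (Finset.sum_nonneg fun y _ => (hf y).1) (Nat.cast_nonneg _), ?_⟩
  refine div_le_one_of_le₀ ?_ (Nat.cast_nonneg _)
  calc ∑ y ∈ B.filter (fun y => c y = c x), f y
      ≤ ∑ _y ∈ B.filter (fun y => c y = c x), (1 : ℝ) := Finset.sum_le_sum fun y _ => (hf y).2
    _ = _ := by simp

theorem step {α β : Type} (B : Finset α) (c d : α → β) (f : α → ℝ)
    (hcd : ∀ x ∈ B, ∀ y ∈ B, d x = d y → c x = c y) :
    ∑ x ∈ B, (avg B d f x - avg B c f x) ^ 2
      = ∑ x ∈ B, avg B d f x ^ 2 - ∑ x ∈ B, avg B c f x ^ 2 := by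
  have h1 := orth B d f (avg B c f) fun x hx y hy h => avg_const B c f (hcd x hx y hy h)
  have h2 := orth B c f (avg B c f) fun x _ y _ h => avg_const B c f h
  have h3 : ∑ x ∈ B, (avg B d f x - avg B c f x) ^ 2
      = ∑ x ∈ B, avg B d f x ^ 2 - 2 * ∑ x ∈ B, avg B c f x * avg B d f x
        + ∑ x ∈ B, avg B c f x * avg B c f x := by
    rw [Finset.mul_sum, ← Finset.sum_sub_distrib, ← Finset.sum_add_distrib]
    exact Finset.sum_congr rfl fun x _ => by ring
  have h4 : ∑ x ∈ B, avg B c f x ^ 2 = ∑ x ∈ B, avg B c f x * avg B c f x :=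
    Finset.sum_congr rfl fun x _ => by ring
  rw [h3, h4, h1, h2]
  ring

end REG

theorem stREG : St_REG := by
  intro α β B c f J hJ hc hf
  by_contra hne
  push Not at hne
  have hJ' : (0 : ℝ) < J := by exact_mod_cast hJ
  have hsum : ∑ i ∈ range J, ∑ x ∈ B, (avg B (c (i + 1)) f x - avg B (c i) f x) ^ 2
      = ∑ x ∈ B, avg B (c J) f x ^ 2 - ∑ x ∈ B, avg B (c 0) f x ^ 2 := by
    rw [← Finset.sum_range_sub (fun i => ∑ x ∈ B, avg B (c i) f x ^ 2) J]
    exact Finset.sum_congr rfl fun i hi => REG.step B (c i) (c (i + 1)) f (hc i (mem_range.mp hi))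
  have hlt : ∑ _i ∈ range J, (B.card : ℝ) / J
      < ∑ i ∈ range J, ∑ x ∈ B, (avg B (c (i + 1)) f x - avg B (c i) f x) ^ 2 :=
    Finset.sum_lt_sum_of_nonempty (nonempty_range_iff.mpr hJ.ne') fun i hi => hne i (mem_range.mp hi)
  have h1 : ∑ _i ∈ range J, (B.card : ℝ) / J = B.card := by
    rw [Finset.sum_const, card_range, nsmul_eq_mul]
    field_simp
  have h2 : ∑ x ∈ B, avg B (c J) f x ^ 2 ≤ B.card := by
    calc ∑ x ∈ B, avg B (c J) f x ^ 2 ≤ ∑ _x ∈ B, (1 : ℝ) := by
          refine Finset.sum_le_sum fun x _ => ?_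
          obtain ⟨h0, h1⟩ := REG.avg_mem B (c J) f hf x
          nlinarith
      _ = B.card := by simp
  have h3 : 0 ≤ ∑ x ∈ B, avg B (c 0) f x ^ 2 := Finset.sum_nonneg fun x _ => sq_nonneg _
  linarith

end Pool.Agent.Lib.DL
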