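import Pool.Agent.Lib.DL.Base

set_option autoImplicit false

namespace Pool.Agent.Lib.DL

open QuadraticAlgebra Finset MeasureTheory
open Pool.Agent.Lib.MP_d48457_nt (ind ind_pos ind_neg ind_nonneg ind_le_one ind_and ind_congr
  ind_mono sum_ind_eq_card)

theorem second_diff {E : Type*} [NormedAddCommGroup E] [NormedSpace ℝ E] {H : E → ℂ}
    (hH : ContDiff ℝ 2 H) (hc : HasCompactSupport H) :
    ∃ L : ℝ, 0 ≤ L ∧ ∀ x v, ‖H (x + v) + H (x - v) - 2 * H x‖ ≤ L * ‖v‖ ^ 2 := by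
  have h1 : ContDiff ℝ 1 (fderiv ℝ H) := hH.fderiv_right (by norm_num)
  obtain ⟨L, hL⟩ := h1.lipschitzWith_of_hasCompactSupport (hc.fderiv ℝ) (by norm_num)
  refine ⟨2 * L, by positivity, fun x v => ?_⟩
  have hd : Differentiable ℝ H := hH.differentiable (by norm_num)
  have key := norm_image_sub_le_of_norm_deriv_le_segment_01'
    (f := fun t : ℝ => H (x + t • v) + H (x - t • v))
    (f' := fun t => fderiv ℝ H (x + t • v) v - fderiv ℝ H (x - t • v) v)
    (C := 2 * L * ‖v‖ ^ 2) (fun t _ => by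
      have a1 : HasDerivAt (fun t : ℝ => x + t • v) v t := by
        simpa using ((hasDerivAt_id t).smul_const v).const_add x
      have a2 : HasDerivAt (fun t : ℝ => x - t • v) (-v) t := by
        simpa using ((hasDerivAt_id t).smul_const v).const_sub x
      have b1 := (hd (x + t • v)).hasFDerivAt.comp_hasDerivAt t a1
      have b2 := (hd (x - t • v)).hasFDerivAt.comp_hasDerivAt t a2
      have := (b1.add b2).hasDerivWithinAt (s := Set.Icc 0 1)
      rw [map_neg, ← sub_eq_add_neg] at this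
      exact this) (fun t ht => by
      rw [← _root_.sub_apply]
      refine (ContinuousLinearMap.le_opNorm _ _).trans ?_
      have h2 := hL.norm_sub_le (x + t • v) (x - t • v)
      have h3 : ‖x + t • v - (x - t • v)‖ ≤ 2 * ‖v‖ := by
        rw [show x + t • v - (x - t • v) = (2 * t) • v by module, norm_smul, Real.norm_eq_abs,
          abs_of_nonneg (by linarith [ht.1])]
        gcongr
        linarith [ht.2]
      calc _ ≤ (L * (2 * ‖v‖)) * ‖v‖ := by gcongr; exact h2.trans (by gcongr)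
        _ = _ := by ring)
  simp only [one_smul, zero_smul, add_zero, sub_zero] at key
  rwa [two_mul (H x)]

theorem mid_cell {g : ℝ → ℂ} (hc : Continuous g) {L : ℝ} (hL0 : 0 ≤ L)
    (hL : ∀ x u, ‖g (x + u) + g (x - u) - 2 * g x‖ ≤ L * u ^ 2) {h : ℝ} (hh : 0 < h) (x : ℝ) :
    ‖g x - (∫ t in (x - h / 2)..(x + h / 2), g t) / h‖ ≤ L * h ^ 2 := by
  have h1 : ∫ u in (-(h / 2))..(h / 2), g (x + u) = ∫ t in (x - h / 2)..(x + h / 2), g t := by
    rw [intervalIntegral.integral_comp_add_left g x, ← sub_eq_add_neg]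
  have h2 : ∫ u in (-(h / 2))..(h / 2), g (x - u) = ∫ t in (x - h / 2)..(x + h / 2), g t := by
    rw [intervalIntegral.integral_comp_sub_left g x, sub_neg_eq_add]
  have h3 : ∫ u in (-(h / 2))..(h / 2), (g (x + u) + g (x - u) - 2 * g x)
      = 2 * (∫ t in (x - h / 2)..(x + h / 2), g t) - 2 * h * g x := by
    rw [intervalIntegral.integral_sub (Continuous.intervalIntegrable (by fun_prop) _ _)
      (Continuous.intervalIntegrable (by fun_prop) _ _), intervalIntegral.integral_add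
      (Continuous.intervalIntegrable (by fun_prop) _ _)
      (Continuous.intervalIntegrable (by fun_prop) _ _), h1, h2, intervalIntegral.integral_const]
    simp only [Complex.real_smul]
    push_cast
    ring
  have h4 := intervalIntegral.norm_integral_le_of_norm_le_const (a := -(h / 2)) (b := h / 2)
    (C := L * h ^ 2) (f := fun u => g (x + u) + g (x - u) - 2 * g x) (fun u hu => by
      rw [Set.uIoc_of_le (by linarith)] at hu
      refine (hL x u).trans (mul_le_mul_of_nonneg_left ?_ hL0)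
      exact sq_le_sq' (by linarith [hu.1]) (by linarith [hu.2]))
  rw [h3, show h / 2 - -(h / 2) = h by ring, abs_of_pos hh] at h4
  have hh' : (h : ℂ) ≠ 0 := by exact_mod_cast hh.ne'
  have h5 : g x - (∫ t in (x - h / 2)..(x + h / 2), g t) / h
      = -(2 * (∫ t in (x - h / 2)..(x + h / 2), g t) - 2 * h * g x) / (2 * h) := by
    field_simp; ring
  rw [h5, norm_div, _root_.norm_neg, norm_mul, Complex.norm_real, Real.norm_eq_abs, abs_of_pos hh,
    Complex.norm_two, div_le_iff₀ (by positivity)]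
  have : 0 ≤ L * h ^ 2 * h := by positivity
  linarith

theorem sum_eq_of_supp {α : Type*} {S S' : Finset α} {f : α → ℂ} (h : ∀ i, f i ≠ 0 → i ∈ S)
    (h' : ∀ i, f i ≠ 0 → i ∈ S') : ∑ i ∈ S, f i = ∑ i ∈ S', f i := by
  classical
  rw [← sum_filter_ne_zero S, ← sum_filter_ne_zero S']
  congr 1
  ext i
  simp only [mem_filter]
  exact ⟨fun a => ⟨h' i a.2, a.2⟩, fun a => ⟨h i a.2, a.2⟩⟩

theorem exists_cover {R h : ℝ} (hR : 0 ≤ R) (hh : 0 < h) (x₀ : ℝ) : ∃ (i₀ : ℤ) (n : ℕ),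
    (n : ℝ) ≤ 2 * R / h + 3 ∧ x₀ + i₀ * h ≤ -R ∧ R ≤ x₀ + (i₀ + n - 1) * h := by
  refine ⟨⌊(-R - x₀) / h⌋, ⌈2 * R / h⌉₊ + 2, ?_, ?_, ?_⟩
  · have := Nat.ceil_lt_add_one (show 0 ≤ 2 * R / h by positivity)
    push_cast; linarith
  · have := Int.floor_le ((-R - x₀) / h)
    rw [le_div_iff₀ hh] at this
    linarith
  · have h1 := Int.lt_floor_add_one ((-R - x₀) / h)
    have h2 := Nat.le_ceil (2 * R / h)
    rw [div_lt_iff₀ hh] at h1
    rw [div_le_iff₀ hh] at h2
    push_cast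
    linarith

theorem mem_cover {R h x₀ : ℝ} (hh : 0 < h) {i₀ : ℤ} {n : ℕ} (h1 : x₀ + i₀ * h ≤ -R)
    (h2 : R ≤ x₀ + (i₀ + n - 1) * h) {i : ℤ} (hi : |x₀ + i * h| < R) :
    i ∈ (range n).image (fun k : ℕ => i₀ + k) := by
  rw [abs_lt] at hi
  have a1 : (i₀ : ℝ) < i := lt_of_mul_lt_mul_right (by linarith) hh.le
  have a2 : (i : ℝ) < i₀ + n - 1 := lt_of_mul_lt_mul_right (by linarith) hh.le
  have b1 : i₀ < i := by exact_mod_cast a1
  have b2 : i < i₀ + n - 1 := by exact_mod_cast a2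
  exact mem_image.2 ⟨(i - i₀).toNat, mem_range.2 (by omega), by omega⟩

theorem mid1 {g : ℝ → ℂ} (hc : Continuous g) {R L : ℝ} (hR0 : 0 ≤ R) (hL0 : 0 ≤ L)
    (hR : ∀ x, R ≤ |x| → g x = 0)
    (hL : ∀ x u, ‖g (x + u) + g (x - u) - 2 * g x‖ ≤ L * u ^ 2) {h : ℝ} (hh : 0 < h) (x₀ : ℝ)
    {S : Finset ℤ} (hS : ∀ i : ℤ, g (x₀ + i * h) ≠ 0 → i ∈ S) :
    ‖∑ i ∈ S, g (x₀ + i * h) - (∫ t in (-R)..R, g t) / h‖ ≤ (2 * R / h + 3) * (L * h ^ 2) := by
  obtain ⟨i₀, n, h0, h1, h2⟩ := exists_cover hR0 hh x₀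
  have hsupp : ∀ a b, a ≤ -R → R ≤ b → ∫ t in a..b, g t = ∫ t, g t := fun a b ha hb =>
    intervalIntegral.integral_eq_integral_of_support_subset (fun x hx => by
      have : |x| < R := not_le.1 (fun h' => hx (hR x h'))
      rw [abs_lt] at this
      exact ⟨by linarith, by linarith⟩)
  have e1 := sum_eq_of_supp hS (fun i hi => mem_cover hh h1 h2
    (not_le.1 (fun h' => hi (hR _ h'))))
  rw [e1, sum_image (fun a _ b _ h => by simpa using h)]
  have e2 := intervalIntegral.sum_integral_adjacent_intervals (f := g) (μ := volume)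
    (a := fun k : ℕ => x₀ + (i₀ + k) * h - h / 2) (n := n) (fun k _ => hc.intervalIntegrable _ _)
  rw [hsupp _ _ (by push_cast; linarith) (by linarith), ← hsupp (-R) R le_rfl le_rfl] at e2
  rw [← e2, sum_div, ← sum_sub_distrib]
  refine (norm_sum_le _ _).trans ((sum_le_card_nsmul _ _ (L * h ^ 2) (fun k _ => ?_)).trans ?_)
  · have := mid_cell hc hL0 hL hh (x₀ + (i₀ + k) * h)
    push_cast
    rwa [show x₀ + (i₀ + (k + 1)) * h - h / 2 = x₀ + (i₀ + k) * h + h / 2 by ring]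
  · rw [card_range, nsmul_eq_mul]
    gcongr

theorem mid2 {G : ℝ × ℝ → ℂ} (hG : ContDiff ℝ 2 G) (hc : HasCompactSupport G) :
    ∃ A : ℂ, ∀ h₀ : ℝ, ∃ C : ℝ, ∀ h, 0 < h → h ≤ h₀ → ∀ (x₀ y₀ : ℝ) (S : Finset (ℤ × ℤ)),
      (∀ p : ℤ × ℤ, G (x₀ + p.1 * h, y₀ + p.2 * h) ≠ 0 → p ∈ S) →
      ‖∑ p ∈ S, G (x₀ + p.1 * h, y₀ + p.2 * h) - A / h ^ 2‖ ≤ C := by
  obtain ⟨L, hL0, hL⟩ := second_diff hG hc
  obtain ⟨R, hR0, hR⟩ := hc.exists_pos_le_norm
  have hGc := hG.continuous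
  have hR1 : ∀ x y, R ≤ |x| → G (x, y) = 0 := fun x y h => hR _ (h.trans (norm_fst_le (x, y)))
  have hR2 : ∀ x y, R ≤ |y| → G (x, y) = 0 := fun x y h => hR _ (h.trans (norm_snd_le (x, y)))
  let K : ℝ → ℂ := fun x => ∫ t in (-R)..R, G (x, t)
  have hK : Continuous K :=
    intervalIntegral.continuous_parametric_intervalIntegral_of_continuous' (by
      exact hGc) _ _
  refine ⟨∫ t in (-R)..R, K t, fun h₀ => ⟨(2 * R + 3 * h₀) ^ 2 * L + (2 * R + 3 * h₀) * (L * (2 * R)),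
    fun h hh hh0 x₀ y₀ S hS => ?_⟩⟩
  obtain ⟨i₀, n, h0, h1, h2⟩ := exists_cover hR0.le hh x₀
  obtain ⟨j₀, m, -, h4, h5⟩ := exists_cover hR0.le hh y₀
  set I := (range n).image (fun k : ℕ => i₀ + k) with hI
  set J := (range m).image (fun k : ℕ => j₀ + k) with hJ
  have e1 := sum_eq_of_supp hS (S' := I ×ˢ J) (fun p hp => mem_product.2
    ⟨mem_cover hh h1 h2 (not_le.1 (fun h' => hp (hR1 _ _ h'))),
      mem_cover hh h4 h5 (not_le.1 (fun h' => hp (hR2 _ _ h')))⟩)
  rw [e1, sum_product]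
  have k1 : ∀ x, ‖∑ j ∈ J, G (x, y₀ + j * h) - K x / h‖ ≤ (2 * R / h + 3) * (L * h ^ 2) :=
    fun x => mid1 (g := fun t => G (x, t)) (by fun_prop) hR0.le hL0 (hR2 x) (fun y u => by
      have := hL (x, y) (0, u)
      simpa using this) hh y₀ (fun j hj => mem_cover hh h4 h5
        (not_le.1 (fun h' => hj (hR2 _ _ h'))))
  have k2 := mid1 hK hR0.le (L := L * (2 * R)) (by positivity) (fun x hx => by
      simp only [K, hR1 x _ hx, intervalIntegral.integral_zero]) (fun x u => by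
      have a1 : K (x + u) + K (x - u) - 2 * K x
          = ∫ t in (-R)..R, (G (x + u, t) + G (x - u, t) - 2 * G (x, t)) := by
        rw [intervalIntegral.integral_sub (Continuous.intervalIntegrable (by fun_prop) _ _)
          (Continuous.intervalIntegrable (by fun_prop) _ _), intervalIntegral.integral_add
          (Continuous.intervalIntegrable (by fun_prop) _ _)
          (Continuous.intervalIntegrable (by fun_prop) _ _), intervalIntegral.integral_const_mul]
      rw [a1]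
      refine (intervalIntegral.norm_integral_le_of_norm_le_const (C := L * u ^ 2)
        (fun t _ => ?_)).trans (le_of_eq ?_)
      · have := hL (x, t) (u, 0)
        simpa using this
      · rw [abs_of_pos (by linarith)]; ring) hh x₀ (S := I) (fun i hi => mem_cover hh h1 h2
        (not_le.1 (fun h' => hi (by simp only [K, hR1 _ _ h', intervalIntegral.integral_zero]))))
  have hh' : (h : ℂ) ≠ 0 := by exact_mod_cast hh.ne'
  have e2 : ∑ i ∈ I, ∑ j ∈ J, G (x₀ + i * h, y₀ + j * h) - (∫ t in (-R)..R, K t) / h ^ 2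
      = ∑ i ∈ I, (∑ j ∈ J, G (x₀ + i * h, y₀ + j * h) - K (x₀ + i * h) / h)
        + (∑ i ∈ I, K (x₀ + i * h) - (∫ t in (-R)..R, K t) / h) / h := by
    rw [sum_sub_distrib, ← sum_div]
    generalize ∑ i ∈ I, ∑ j ∈ J, G (x₀ + i * h, y₀ + j * h) = a
    generalize ∑ i ∈ I, K (x₀ + i * h) = b
    field_simp; ring
  rw [e2]
  have hI' : (I.card : ℝ) ≤ 2 * R / h + 3 :=
    le_trans (by exact_mod_cast card_image_le.trans (card_range n).le) h0
  refine (norm_add_le _ _).trans (add_le_add ((norm_sum_le _ _).trans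
    ((sum_le_card_nsmul _ _ _ (fun i _ => k1 _)).trans ?_)) ?_)
  · rw [nsmul_eq_mul]
    calc _ ≤ (2 * R / h + 3) * ((2 * R / h + 3) * (L * h ^ 2)) := by gcongr
      _ = (2 * R + 3 * h) ^ 2 * L := by field_simp
      _ ≤ _ := by gcongr
  · rw [norm_div, Complex.norm_real, Real.norm_eq_abs, abs_of_pos hh, div_le_iff₀ hh]
    calc _ ≤ _ := k2
      _ = (2 * R + 3 * h) * (L * (2 * R)) * h := by field_simp
      _ ≤ _ := by gcongr

namespace IQ

variable (F : IQ)

/-- Lattice sums with a main term. -/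
def LA (R : ℝ) (f : ℝ → F.O → ℂ) (κ : ℂ) : Prop :=
  ∃ C : ℝ, ∀ T : ℝ, 1 ≤ T →
    ‖∑ z ∈ F.box (R * T), f T z - κ * T ^ 2‖ ≤ C

variable {F}

theorem LA.congr {R : ℝ} {f g : ℝ → F.O → ℂ} {κ κ' : ℂ} (h : F.LA R f κ)
    (hf : ∀ T z, 1 ≤ T → f T z = g T z) (hκ : κ = κ') : F.LA R g κ' := by
  obtain ⟨C, hC⟩ := h
  refine ⟨C, fun T hT => ?_⟩
  rw [← hκ, ← sum_congr rfl (fun z _ => hf T z hT)]
  exact hC T hT

theorem LA.const_mul {R : ℝ} {f : ℝ → F.O → ℂ} {κ : ℂ} (h : F.LA R f κ) (c : ℂ) :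
    F.LA R (fun T z => c * f T z) (c * κ) := by
  obtain ⟨C, hC⟩ := h
  refine ⟨‖c‖ * C, fun T hT => ?_⟩
  rw [← mul_sum, mul_assoc, ← mul_sub, norm_mul]
  exact mul_le_mul_of_nonneg_left (hC T hT) (norm_nonneg _)

theorem LA.sum {R : ℝ} {ι : Type*} (s : Finset ι) {f : ι → ℝ → F.O → ℂ} {κ : ι → ℂ}
    (h : ∀ i, F.LA R (f i) (κ i)) : F.LA R (fun T z => ∑ i ∈ s, f i T z) (∑ i ∈ s, κ i) := by
  choose C hC using h
  refine ⟨∑ i ∈ s, C i, fun T hT => ?_⟩
  rw [sum_comm, sum_mul, ← sum_sub_distrib]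
  exact (norm_sum_le _ _).trans (sum_le_sum (fun i _ => hC i T hT))

variable (F)

theorem la_coset {H : ℝ × ℝ → ℂ} (hH : ContDiff ℝ 2 H) {R : ℝ}
    (hR : ∀ p, H p ≠ 0 → |p.1| ≤ R ∧ |p.2| ≤ R) :
    ∃ A : ℂ, ∀ (Λ : AddSubgroup F.O), Λ.index ≠ 0 → ∀ z₁ : F.O,
      F.LA R (fun T z => ind (z - z₁ ∈ Λ) * H (z.re / T, z.im / T)) (A / Λ.index) := by
  classical
  have hc : HasCompactSupport H := by
    refine HasCompactSupport.intro (isCompact_closedBall 0 R) (fun p hp => ?_)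
    by_contra h
    apply hp
    rw [mem_closedBall_zero_iff, Prod.norm_def, max_le_iff, Real.norm_eq_abs, Real.norm_eq_abs]
    exact hR _ h
  obtain ⟨A, hA⟩ := mid2 hH hc
  have base : ∀ n : ℕ, n ≠ 0 → ∀ r : F.O, F.LA R (fun T z => ind ((n : F.O) ∣ z - r) *
      H (z.re / T, z.im / T)) (A / n ^ 2) := by
    intro n hn r
    obtain ⟨C, hC⟩ := hA n
    have hn0 : (0 : ℝ) < n := by exact_mod_cast Nat.pos_of_ne_zero hn
    have hn1 : (n : ℤ) ≠ 0 := by exact_mod_cast hn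
    refine ⟨C, fun T hT => ?_⟩
    have hT0 : 0 < T := by linarith
    let e : ℤ × ℤ → F.O := fun p => r + n * ⟨p.1, p.2⟩
    have he : Function.Injective e := by
      intro p q h
      have h1 := congrArg QuadraticAlgebra.re h
      have h2 := congrArg QuadraticAlgebra.im h
      simp only [e, re_add, im_add, re_mul, im_mul, re_natCast, im_natCast] at h1 h2
      exact Prod.ext (mul_left_cancel₀ hn1 (by linarith)) (mul_left_cancel₀ hn1 (by linarith))
    have hGe : ∀ p : ℤ × ℤ, H (r.re / T + p.1 * (n / T), r.im / T + p.2 * (n / T))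
        = H ((e p).re / T, (e p).im / T) := by
      intro p
      simp only [e, re_add, im_add, re_mul, im_mul, re_natCast, im_natCast]
      push_cast
      congr 2 <;> ring
    set B := F.box (R * T) with hB
    have key := hC (n / T) (by positivity) (div_le_self hn0.le hT) (r.re / T) (r.im / T)
      (B.preimage e he.injOn) (fun p hp => by
        rw [hGe] at hp
        obtain ⟨h1, h2⟩ := hR _ hp
        simp only [abs_div, abs_of_pos hT0, div_le_iff₀ hT0] at h1 h2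
        exact mem_preimage.2 (F.mem_box.2 ⟨h1, h2⟩))
    simp only [hGe] at key
    have hdv : ∀ p, (n : F.O) ∣ e p - r := fun p => ⟨⟨p.1, p.2⟩, by simp [e]⟩
    have e1 := sum_preimage e B he.injOn (fun z => ind ((n : F.O) ∣ z - r) *
      H (z.re / T, z.im / T)) (fun z _ hz => by
        rw [ind_neg, Complex.ofReal_zero, zero_mul]
        rintro ⟨v, hv⟩
        exact hz ⟨(v.re, v.im), by simp only [e]; rw [← hv]; ring⟩)
    simp only [ind_pos (hdv _), Complex.ofReal_one, one_mul] at e1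
    rw [← e1]
    have hT' : (T : ℂ) ≠ 0 := by exact_mod_cast hT0.ne'
    have hn' : (n : ℂ) ≠ 0 := by exact_mod_cast hn
    have e2 : A / (n : ℂ) ^ 2 * (T : ℂ) ^ 2 = A / (((n : ℝ) / T : ℝ) : ℂ) ^ 2 := by
      push_cast; field_simp
    rwa [e2]
  refine ⟨A, fun Λ hΛ z₁ => ?_⟩
  set n := Λ.index with hn
  set N := (Ideal.span {(n : F.O)}).toAddSubgroup with hN
  have hNΛ : N ≤ Λ := by
    intro x hx
    obtain ⟨v, rfl⟩ := Ideal.mem_span_singleton'.1 hx
    have := Λ.nsmul_index_mem v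
    rwa [nsmul_eq_mul, mul_comm] at this
  have hNi : N.index = n ^ 2 := F.absNorm_span_nat n
  have hrel := AddSubgroup.relIndex_mul_index hNΛ
  rw [hNi, ← hn, sq] at hrel
  have hrel' : N.relIndex Λ = n := mul_right_cancel₀ hΛ hrel
  have : Finite (Λ ⧸ N.addSubgroupOf Λ) := Nat.finite_of_card_ne_zero (by
    change N.relIndex Λ ≠ 0; rwa [hrel'])
  have := Fintype.ofFinite (Λ ⧸ N.addSubgroupOf Λ)
  refine (LA.sum univ (fun q : Λ ⧸ N.addSubgroupOf Λ => base n hΛ (z₁ + (q.out : Λ)))).congr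
    (fun T z _ => ?_) ?_
  · rw [← sum_mul, ← Complex.ofReal_sum]
    congr 2
    by_cases h : z - z₁ ∈ Λ
    · have hiff : ∀ q : Λ ⧸ N.addSubgroupOf Λ, (n : F.O) ∣ z - (z₁ + (q.out : Λ)) ↔
          q = (QuotientAddGroup.mk ⟨z - z₁, h⟩) := by
        intro q
        conv_rhs => rw [← QuotientAddGroup.out_eq' q]
        rw [QuotientAddGroup.eq, AddSubgroup.mem_addSubgroupOf, ← Ideal.mem_span_singleton]
        change _ ↔ -(q.out : F.O) + (z - z₁) ∈ Ideal.span {(n : F.O)}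
        rw [show -(q.out : F.O) + (z - z₁) = z - (z₁ + (q.out : Λ)) by ring]
      simp only [ind_congr (hiff _)]
      rw [sum_eq_single _ (fun q _ hq => ind_neg hq) (fun h => (h (mem_univ _)).elim), ind_pos rfl,
        ind_pos h]
    · rw [ind_neg h]
      refine sum_eq_zero (fun q _ => ind_neg (fun h' => h ?_))
      have := Λ.add_mem (hNΛ (Ideal.mem_span_singleton.2 h')) (q.out : Λ).2
      rwa [show z - (z₁ + (q.out : Λ)) + (q.out : Λ) = z - z₁ by ring] at this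
  · rw [sum_const, card_univ, nsmul_eq_mul, ← Nat.card_eq_fintype_card]
    change ((N.relIndex Λ : ℕ) : ℂ) * _ = _
    have hn' : (n : ℂ) ≠ 0 := by exact_mod_cast hΛ
    rw [hrel']; field_simp

theorem la_ideal {H : ℝ × ℝ → ℂ} (hH : ContDiff ℝ 2 H) {R : ℝ}
    (hR : ∀ p, H p ≠ 0 → |p.1| ≤ R ∧ |p.2| ≤ R) {W : ℕ} (hW : W ≠ 0)
    (c : F.O ⧸ Ideal.span {(W : F.O)} → ℂ) :
    ∃ A : ℂ, ∀ a : Ideal F.O, a ≠ ⊥ → Nat.Coprime (Ideal.absNorm a) W →
      F.LA R (fun T z => ind (z ∈ a) * c (Ideal.Quotient.mk _ z) * H (z.re / T, z.im / T))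
        (A / Ideal.absNorm a) := by
  classical
  obtain ⟨A, hA⟩ := F.la_coset hH hR
  have hW0 : Ideal.absNorm (Ideal.span {(W : F.O)}) ≠ 0 := by
    rw [F.absNorm_span_nat]; positivity
  have : Finite (F.O ⧸ Ideal.span {(W : F.O)}) := Nat.finite_of_card_ne_zero hW0
  have := Fintype.ofFinite (F.O ⧸ Ideal.span {(W : F.O)})
  refine ⟨(∑ ρ, c ρ) * (A / W ^ 2), fun a ha hc => ?_⟩
  have hcop : IsCoprime a (Ideal.span {(W : F.O)}) := by
    obtain ⟨u, v, huv⟩ := Nat.isCoprime_iff_coprime.2 hc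
    rw [Ideal.isCoprime_iff_exists]
    refine ⟨u * (Ideal.absNorm a : ℕ), a.mul_mem_left _ (Ideal.absNorm_mem a), v * W,
      Ideal.mul_mem_left _ _ (Ideal.mem_span_singleton_self _), ?_⟩
    exact_mod_cast congrArg (Int.cast : ℤ → F.O) huv
  obtain ⟨i, hi, j, hj, hij⟩ := Ideal.isCoprime_iff_exists.1 hcop
  have hidx : (a * Ideal.span {(W : F.O)}).toAddSubgroup.index = Ideal.absNorm a * W ^ 2 := by
    rw [← F.absNorm_span_nat, ← map_mul]; rfl
  have ha0 := (F.absNorm_pos ha).ne'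
  refine (LA.sum univ (fun ρ : F.O ⧸ Ideal.span {(W : F.O)} =>
    (hA (a * Ideal.span {(W : F.O)}).toAddSubgroup (by rw [hidx]; positivity)
      (ρ.out * i)).const_mul (c ρ))).congr (fun T z _ => ?_) ?_
  · have hiff : ∀ ρ : F.O ⧸ Ideal.span {(W : F.O)},
        z - ρ.out * i ∈ (a * Ideal.span {(W : F.O)}).toAddSubgroup ↔
          z ∈ a ∧ ρ = Ideal.Quotient.mk _ z := by
      intro ρ
      rw [Submodule.mem_toAddSubgroup, Ideal.mul_eq_inf_of_isCoprime hcop, Ideal.mem_inf]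
      refine and_congr ?_ ?_
      · exact ⟨fun h => by simpa using a.add_mem h (a.mul_mem_left ρ.out hi),
          fun h => a.sub_mem h (a.mul_mem_left _ hi)⟩
      · conv_rhs => rw [← Ideal.Quotient.mk_out ρ, eq_comm, Ideal.Quotient.eq]
        have h1 : z - ρ.out * i = z - ρ.out + ρ.out * j := by linear_combination (-ρ.out) * hij
        rw [h1]
        exact Submodule.add_mem_iff_left _ (Ideal.mul_mem_left _ _ hj)
    simp only [ind_congr (hiff _), ind_and]
    rw [sum_eq_single (Ideal.Quotient.mk _ z) (fun q _ hq => by rw [ind_neg hq]; simp)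
      (fun h => (h (mem_univ _)).elim), ind_pos rfl]
    push_cast
    ring
  · rw [← sum_mul, hidx]
    push_cast
    ring

end IQ

end Pool.Agent.Lib.DL
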