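import Pool.Agent.Lib.DL.Blue

set_option autoImplicit false

namespace Pool.Agent.Lib.DL

open QuadraticAlgebra Finset Filter Topology

namespace SEL

theorem sum_mod (q t : ℕ) (g : ℕ → ℝ) :
    ∑ a ∈ range (q * t), g (a % q) = t * ∑ a ∈ range q, g a := by
  induction t with
  | zero => simp
  | succ t ih =>
    rw [Nat.mul_succ, sum_range_add, ih]
    have : ∑ a ∈ range q, g ((q * t + a) % q) = ∑ a ∈ range q, g a :=
      sum_congr rfl (fun a ha => by
        rw [Nat.mul_add_mod, Nat.mod_eq_of_lt (mem_range.1 ha)])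
    rw [this]
    push_cast
    ring

theorem sum_zmod (Q : ℕ) [NeZero Q] (g : ℕ → ℝ) :
    ∑ z : ZMod Q, g z.val = ∑ a ∈ range Q, g a := by
  refine sum_nbij' (fun z => z.val) (fun a => (a : ZMod Q)) (fun z _ => ?_) (fun a _ => ?_)
    (fun z _ => ?_) (fun a ha => ?_) (fun _ _ => rfl)
  · exact mem_range.2 (ZMod.val_lt z)
  · exact mem_univ _
  · exact ZMod.natCast_zmod_val z
  · exact ZMod.val_natCast_of_lt (mem_range.1 ha)

/-- The interval indices of the cells with given residues. -/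
noncomputable def idx (G : Finset Cell) (a b : ℕ) : Finset (ℤ × ℤ) :=
  (G.filter (fun C => C.1 = ((a : ℤ), (b : ℤ)))).image Prod.snd

theorem mem_idx {G : Finset Cell} {a b : ℕ} {i : ℤ × ℤ} (h : i ∈ idx G a b) :
    ((((a : ℤ), (b : ℤ)), i) : Cell) ∈ G := by
  obtain ⟨C, hC, rfl⟩ := mem_image.1 h
  obtain ⟨h1, h2⟩ := mem_filter.1 hC
  rw [← h2]
  exact h1

theorem card_idx_le {q M : ℕ} {G : Finset Cell} (hG : G ⊆ cells q M) (a b : ℕ) :
    (idx G a b).card ≤ M ^ 2 := by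
  have : idx G a b ⊆ Ico (0 : ℤ) M ×ˢ Ico (0 : ℤ) M := fun i hi =>
    (mem_product.1 (hG (mem_idx hi))).2
  refine (card_le_card this).trans ?_
  simp [sq]

theorem card_le_sum {q M : ℕ} {G : Finset Cell} (hG : G ⊆ cells q M) :
    (G.card : ℝ) ≤ ∑ a ∈ range q, ∑ b ∈ range q, ((idx G a b).card : ℝ) := by
  have h1 : G.card = ∑ r ∈ range q ×ˢ range q,
      (G.filter (fun C => (C.1.1.toNat, C.1.2.toNat) = r)).card := by
    refine card_eq_sum_card_fiberwise (fun C hC => ?_)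
    have := (mem_product.1 (hG hC)).1
    simp only [mem_product, mem_Ico] at this
    simp only [coe_product, coe_range, Set.mem_prod, Set.mem_Iio]
    omega
  have h2 : ∀ r ∈ range q ×ˢ range q,
      (G.filter (fun C => (C.1.1.toNat, C.1.2.toNat) = r)).card ≤ (idx G r.1 r.2).card := by
    intro r _
    refine card_le_card_of_injOn Prod.snd (fun C hC => ?_) (fun C hC C' hC' h => ?_)
    · obtain ⟨hc, he⟩ := mem_filter.1 (mem_coe.1 hC)
      have := (mem_product.1 (hG hc)).1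
      simp only [mem_product, mem_Ico] at this
      refine mem_coe.2 (mem_image.2 ⟨C, mem_filter.2 ⟨hc, ?_⟩, rfl⟩)
      rw [← he]
      refine Prod.ext ?_ ?_ <;> simp only <;> omega
    · obtain ⟨hc, he⟩ := mem_filter.1 (mem_coe.1 hC)
      obtain ⟨hc', he'⟩ := mem_filter.1 (mem_coe.1 hC')
      have h3 := (mem_product.1 (hG hc)).1
      have h4 := (mem_product.1 (hG hc')).1
      simp only [mem_product, mem_Ico] at h3 h4
      have h5 := he.trans he'.symm
      simp only [Prod.mk.injEq] at h5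
      refine Prod.ext (Prod.ext ?_ ?_) h <;> omega
  have h3 := h1.le.trans (sum_le_sum h2)
  rw [sum_product] at h3
  exact_mod_cast h3

theorem sum_idx (q t : ℕ) [NeZero (q * t)] (G : Finset Cell) :
    ∑ x : ZMod (q * t) × ZMod (q * t), ((idx G (x.1.val % q) (x.2.val % q)).card : ℝ)
      = t ^ 2 * ∑ a ∈ range q, ∑ b ∈ range q, ((idx G a b).card : ℝ) := by
  rw [Fintype.sum_prod_type]
  have h1 : ∀ a : ℕ, ∑ y : ZMod (q * t), ((idx G a (y.val % q)).card : ℝ)
      = t * ∑ b ∈ range q, ((idx G a b).card : ℝ) := fun a => by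
    rw [sum_zmod (q * t) (fun b => ((idx G a (b % q)).card : ℝ)),
      sum_mod q t (fun b => ((idx G a b).card : ℝ))]
  simp only [h1]
  rw [sum_zmod (q * t) (fun a => (t : ℝ) * ∑ b ∈ range q, ((idx G (a % q) b).card : ℝ)),
    sum_mod q t (fun a => (t : ℝ) * ∑ b ∈ range q, ((idx G a b).card : ℝ)), ← mul_sum]
  ring

theorem split_smooth (q k N : ℕ) (hq : q ≠ 0) (hN : N ≠ 0)
    (h : ∀ p ∈ q.primeFactors, ¬ p ^ k ∣ N) :
    ∃ m b : ℕ, N = m * b ∧ m ∣ q ^ k ∧ Nat.Coprime b q := by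
  obtain ⟨b, hb⟩ := Nat.gcd_dvd_left N (q ^ k)
  refine ⟨Nat.gcd N (q ^ k), b, hb, Nat.gcd_dvd_right _ _, ?_⟩
  refine Nat.coprime_of_dvd (fun p hp hpb hpq => ?_)
  have hqk : q ^ k ≠ 0 := pow_ne_zero _ hq
  have hg : Nat.gcd N (q ^ k) ≠ 0 := Nat.gcd_ne_zero_left hN
  have hb0 : b ≠ 0 := by
    rintro rfl
    exact hN (by simpa using hb)
  have h1 : N.factorization p < k := by
    by_contra hc
    exact h p (Nat.mem_primeFactors.2 ⟨hp, hpq, hq⟩)
      ((hp.pow_dvd_iff_le_factorization hN).2 (not_lt.1 hc))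
  have h2 : 1 ≤ q.factorization p := (hp.dvd_iff_one_le_factorization hq).1 hpq
  have h3 : 1 ≤ b.factorization p := (hp.dvd_iff_one_le_factorization hb0).1 hpb
  have h4 : (Nat.gcd N (q ^ k)).factorization p = min (N.factorization p) (k * q.factorization p) := by
    rw [Nat.factorization_gcd hN hqk, Finsupp.inf_apply, Nat.factorization_pow]
    simp
  have h5 : N.factorization p = (Nat.gcd N (q ^ k)).factorization p + b.factorization p := by
    conv_lhs => rw [hb]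
    rw [Nat.factorization_mul hg hb0]
    rfl
  have h6 : k ≤ k * q.factorization p := Nat.le_mul_of_pos_right _ h2
  rw [h4, min_eq_left (by omega)] at h5
  omega

theorem card_bad (q k Q : ℕ) (hQ : q ^ k ∣ Q) :
    (((range Q).filter (fun a => ∃ p ∈ q.primeFactors, p ^ k ∣ a)).card : ℝ)
      ≤ q.primeFactors.card * (Q / 2 ^ k) := by
  have h1 : (range Q).filter (fun a => ∃ p ∈ q.primeFactors, p ^ k ∣ a)
      ⊆ q.primeFactors.biUnion (fun p => (range Q).filter (fun a => p ^ k ∣ a)) := by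
    intro a ha
    obtain ⟨h1, p, hp, h2⟩ := mem_filter.1 ha
    exact mem_biUnion.2 ⟨p, hp, mem_filter.2 ⟨h1, h2⟩⟩
  have h2 := (card_le_card h1).trans card_biUnion_le
  have h3 : ∀ p ∈ q.primeFactors,
      ((((range Q).filter (fun a => p ^ k ∣ a)).card : ℕ) : ℝ) ≤ Q / 2 ^ k := by
    intro p hp
    have hpp := Nat.prime_of_mem_primeFactors hp
    obtain ⟨c, hc⟩ := (pow_dvd_pow_of_dvd (Nat.dvd_of_mem_primeFactors hp) k).trans hQ
    have hpos : 0 < p ^ k := pow_pos hpp.pos k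
    have h4 : ((range Q).filter (fun a => p ^ k ∣ a)).card ≤ (range c).card := by
      refine card_le_card_of_injOn (fun a => a / p ^ k) (fun a ha => ?_) (fun a ha a' ha' h => ?_)
      · have := mem_range.1 (mem_filter.1 (mem_coe.1 ha)).1
        refine mem_coe.2 (mem_range.2 ?_)
        rw [Nat.div_lt_iff_lt_mul hpos, mul_comm, ← hc]
        exact this
      · have e1 := Nat.mul_div_cancel' (mem_filter.1 (mem_coe.1 ha)).2
        have e2 := Nat.mul_div_cancel' (mem_filter.1 (mem_coe.1 ha')).2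
        simp only at h
        rw [← e1, ← e2, h]
    rw [card_range] at h4
    have h5 : 2 ^ k * c ≤ Q := by
      rw [hc]
      exact Nat.mul_le_mul_right _ (Nat.pow_le_pow_left hpp.two_le k)
    have h6 : (2 : ℝ) ^ k * c ≤ Q := by exact_mod_cast h5
    have h7 : ((((range Q).filter (fun a => p ^ k ∣ a)).card : ℕ) : ℝ) ≤ c := by exact_mod_cast h4
    rw [le_div_iff₀ (by positivity)]
    calc _ ≤ (c : ℝ) * 2 ^ k := by gcongr
      _ ≤ Q := by linarith
  have h4 := sum_le_sum h3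
  rw [sum_const, nsmul_eq_mul] at h4
  refine le_trans ?_ h4
  exact_mod_cast h2

theorem cp_pos (F : IQ) (p : ℕ) : 0 < F.cp p := by
  unfold IQ.cp
  split_ifs <;> positivity

theorem norm_nonneg' (F : IQ) (z : F.O) : 0 ≤ z.norm := by
  have h := F.Q_nonneg z.re z.im
  have h2 : ((z.norm : ℤ) : ℝ) = F.Q z.re z.im := by
    rw [norm_def, IQ.Q]
    push_cast
    ring
  rw [← h2] at h
  exact_mod_cast h

open Classical in
/-- The largest product of index counts over pairs with a given norm of the difference. -/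
noncomputable def top (F : IQ) (G : Finset Cell) (q Q : ℕ) [NeZero Q] (a : ZMod Q) : ℕ :=
  (univ.filter (fun p : (ZMod Q × ZMod Q) × (ZMod Q × ZMod Q) => F.NQ Q (p.2 - p.1) = a)).sup
    (fun p => (idx G (p.1.1.val % q) (p.1.2.val % q)).card *
      (idx G (p.2.1.val % q) (p.2.2.val % q)).card)

theorem le_top' (F : IQ) (G : Finset Cell) (q Q : ℕ) [NeZero Q] (x y : ZMod Q × ZMod Q) :
    (idx G (x.1.val % q) (x.2.val % q)).card * (idx G (y.1.val % q) (y.2.val % q)).card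
      ≤ top F G q Q (F.NQ Q (y - x)) := by
  classical
  unfold top
  exact le_sup (f := fun p : (ZMod Q × ZMod Q) × (ZMod Q × ZMod Q) =>
    (idx G (p.1.1.val % q) (p.1.2.val % q)).card * (idx G (p.2.1.val % q) (p.2.2.val % q)).card)
    (b := (x, y)) (mem_filter.2 ⟨mem_univ _, rfl⟩)

theorem top_le (F : IQ) {q M : ℕ} {G : Finset Cell} (hG : G ⊆ cells q M) (Q : ℕ) [NeZero Q]
    (a : ZMod Q) : top F G q Q a ≤ (M ^ 2) ^ 2 := by
  unfold top
  refine Finset.sup_le (fun p _ => ?_)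
  rw [sq (M ^ 2)]
  exact Nat.mul_le_mul (card_idx_le hG _ _) (card_idx_le hG _ _)

theorem ex_top (F : IQ) (G : Finset Cell) (q Q : ℕ) [NeZero Q] (a : ZMod Q)
    (h : top F G q Q a ≠ 0) : ∃ x y : ZMod Q × ZMod Q, F.NQ Q (y - x) = a ∧ top F G q Q a =
      (idx G (x.1.val % q) (x.2.val % q)).card * (idx G (y.1.val % q) (y.2.val % q)).card := by
  classical
  unfold top at h ⊢
  rcases (univ.filter (fun p : (ZMod Q × ZMod Q) × (ZMod Q × ZMod Q) =>
    F.NQ Q (p.2 - p.1) = a)).eq_empty_or_nonempty with he | hne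
  · rw [he] at h
    simp at h
  · obtain ⟨p, hp, he⟩ := exists_mem_eq_sup _ hne
      (fun p : (ZMod Q × ZMod Q) × (ZMod Q × ZMod Q) =>
        (idx G (p.1.1.val % q) (p.1.2.val % q)).card * (idx G (p.2.1.val % q) (p.2.2.val % q)).card)
    exact ⟨p.1, p.2, (mem_filter.1 hp).2, he⟩

theorem avg_le (hF : St_FIQ) (F : IQ) {q M t : ℕ} [NeZero (q * t)] {G : Finset Cell}
    (hG : G ⊆ cells q M) :
    (G.card : ℝ) / q ^ 2 ≤ (∏ p ∈ (q * t).primeFactors, F.cp p) / (q * t : ℕ) *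
      ∑ a ∈ range (q * t), √(top F G q (q * t) a) := by
  obtain ⟨ν, hν, hFI⟩ := hF F (q * t)
  have hqt : q * t ≠ 0 := NeZero.ne _
  have hq : (0 : ℝ) < q := by exact_mod_cast Nat.pos_of_ne_zero (left_ne_zero_of_mul hqt)
  have ht : (0 : ℝ) < t := by exact_mod_cast Nat.pos_of_ne_zero (right_ne_zero_of_mul hqt)
  have h1 := hFI (fun x => ((idx G (x.1.val % q) (x.2.val % q)).card : ℝ))
    (fun x => ((idx G (x.1.val % q) (x.2.val % q)).card : ℝ))
    (fun a => √(top F G q (q * t) a)) (fun _ => Nat.cast_nonneg _) (fun _ => Nat.cast_nonneg _)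
    (fun _ => Real.sqrt_nonneg _) (fun x y => by
      rw [Real.sq_sqrt (Nat.cast_nonneg _)]
      exact_mod_cast le_top' F G q (q * t) x y)
  rw [sum_idx, Fintype.card_prod, ZMod.card, ← sq] at h1
  have h2 := card_le_sum hG
  have h3 : 0 ≤ ∑ z : ZMod (q * t), ν z * √(top F G q (q * t) z) :=
    sum_nonneg (fun z _ => mul_nonneg (hν z).1 (Real.sqrt_nonneg _))
  have h4 := (abs_le_of_sq_le_sq' h1 h3).2
  have h5 : (G.card : ℝ) / q ^ 2 ≤ (t : ℝ) ^ 2 * (∑ a ∈ range q, ∑ b ∈ range q,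
      ((idx G a b).card : ℝ)) / ((q * t * (q * t) : ℕ) : ℝ) := by
    push_cast
    rw [div_le_div_iff₀ (by positivity) (by positivity)]
    have : (G.card : ℝ) * (q * t * (q * t)) = G.card * (t ^ 2 * q ^ 2) := by ring
    rw [this]
    calc _ ≤ (∑ a ∈ range q, ∑ b ∈ range q, ((idx G a b).card : ℝ)) * (t ^ 2 * q ^ 2) := by
          gcongr
      _ = _ := by ring
  refine h5.trans (h4.trans ?_)
  rw [← sum_zmod (q * t) (fun a => √(top F G q (q * t) a)), mul_sum]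
  refine sum_le_sum (fun z _ => ?_)
  rw [ZMod.natCast_zmod_val]
  exact mul_le_mul_of_nonneg_right (hν z).2 (Real.sqrt_nonneg _)

theorem dvd_res (q : ℕ) (u v : ℕ) :
    (q : ℤ) ∣ ((v : ℤ) - u) - (((v % q : ℕ) : ℤ) - ((u % q : ℕ) : ℤ)) := by
  push_cast
  have h1 : (q : ℤ) ∣ (v : ℤ) - v % q := Int.dvd_self_sub_emod
  have h2 : (q : ℤ) ∣ (u : ℤ) - u % q := Int.dvd_self_sub_emod
  have := dvd_sub h1 h2
  rwa [show (v : ℤ) - v % q - (u - u % q) = v - u - (v % q - u % q) by ring] at this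

theorem one (hA : St_ARCH) (F : IQ) (q k Q : ℕ) [NeZero Q] (hq : 1 < q) (hQ : q ^ k ∣ Q)
    (G : Finset Cell) (l τ : ℝ) (hl : 0 < l) (hl1 : l ≤ 1) (hτ : 0 < τ) (a : ℕ)
    (h0 : top F G q Q a ≠ 0) (hb : ¬ ∃ p ∈ q.primeFactors, p ^ k ∣ a) :
    ∃ (w : F.O) (m b : ℕ) (J : Finset ℕ), (w.norm = m * b ∧ m * b ≡ a [MOD Q] ∧ m ∣ q ^ k ∧
      Nat.Coprime b q ∧ ∀ j ∈ J, ∃ C ∈ G, ∃ C' ∈ G,
        (q : ℤ) ∣ w.re - (C'.1.1 - C.1.1) ∧ (q : ℤ) ∣ w.im - (C'.1.2 - C.1.2) ∧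
        ∃ x y : ℝ, |x - (C'.2.1 - C.2.1 : ℤ)| < l ∧ |y - (C'.2.2 - C.2.2 : ℤ)| < l ∧
          j * τ ≤ F.Q x y ∧ F.Q x y < (j + 1) * τ) ∧
      4 / Real.pi * (F.δ / 2) * (l ^ 2 * √(top F G q Q a)) ≤ J.card * τ := by
  obtain ⟨x, y, hxy, ht⟩ := ex_top F G q Q a h0
  obtain ⟨J, hJ, hc⟩ := hA F (idx G (x.1.val % q) (x.2.val % q))
    (idx G (y.1.val % q) (y.2.val % q)) l τ hl hl1 hτ
  let w : F.O := ⟨(y.1.val : ℤ) - x.1.val, (y.2.val : ℤ) - x.2.val⟩
  obtain ⟨N, hN⟩ := Int.eq_ofNat_of_zero_le (norm_nonneg' F w)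
  have h1 : N ≡ a [MOD Q] := by
    rw [← ZMod.natCast_eq_natCast_iff, ← hxy, ← Int.cast_natCast, ← hN, norm_def, IQ.NQ]
    simp only [w]
    push_cast
    simp only [ZMod.natCast_zmod_val, Prod.fst_sub, Prod.snd_sub]
    ring
  have h2 : ∀ p ∈ q.primeFactors, ¬ p ^ k ∣ N := by
    intro p hp hd
    refine hb ⟨p, hp, ?_⟩
    have h3 : p ^ k ∣ Q := (pow_dvd_pow_of_dvd (Nat.dvd_of_mem_primeFactors hp) k).trans hQ
    exact ((h1.of_dvd h3).dvd_iff (dvd_refl _)).1 hd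
  have hN0 : N ≠ 0 := by
    rintro rfl
    obtain ⟨p, hp⟩ := Nat.nonempty_primeFactors.2 hq
    exact h2 p hp (dvd_zero _)
  obtain ⟨m, b, hmb, hm, hcop⟩ := split_smooth q k N (by omega) hN0 h2
  refine ⟨w, m, b, J, ⟨?_, hmb ▸ h1, hm, hcop, fun j hj => ?_⟩, ?_⟩
  · rw [hN, hmb]
    push_cast
    ring
  · obtain ⟨i, hi, i', hi', h⟩ := hJ j hj
    exact ⟨_, mem_idx hi, _, mem_idx hi', dvd_res q _ _, dvd_res q _ _, h⟩
  · have hδ := F.δ_pos
    have hπ := Real.pi_pos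
    have h3 : (4 * (l ^ 2 * √(top F G q Q a))) ^ 2 ≤ (J.card * τ * (2 * Real.pi / F.δ)) ^ 2 := by
      refine le_trans (le_of_eq ?_) hc
      rw [mul_pow, mul_pow, Real.sq_sqrt (Nat.cast_nonneg _), ht]
      push_cast
      ring
    have h4 := (abs_le_of_sq_le_sq' h3 (by positivity)).2
    calc _ = 4 * (l ^ 2 * √(top F G q Q a)) * (F.δ / (2 * Real.pi)) := by
          field_simp
      _ ≤ J.card * τ * (2 * Real.pi / F.δ) * (F.δ / (2 * Real.pi)) := by gcongr
      _ = _ := by field_simp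

end SEL

open SEL in
theorem stSEL (hF : St_FIQ) (hA : St_ARCH) : St_SEL := by
  classical
  intro F q M l τ ε hq hl hl1 hτ hε
  set c := ∏ p ∈ q.primeFactors, F.cp p with hc
  have hc0 : 0 < c := prod_pos (fun p _ => cp_pos F p)
  obtain ⟨k, hk⟩ := pow_unbounded_of_one_lt (c * q.primeFactors.card * M ^ 2 / ε)
    (one_lt_two : (1 : ℝ) < 2)
  refine ⟨k + 2, fun G hG => ?_⟩
  have hQe : q ^ (k + 2) = q * q ^ (k + 1) := by ring
  have hq0 : q ≠ 0 := by omega
  have : NeZero (q * q ^ (k + 1)) := ⟨mul_ne_zero hq0 (pow_ne_zero _ hq0)⟩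
  have hav := avg_le hF F (t := q ^ (k + 1)) hG
  have hpf : (q * q ^ (k + 1)).primeFactors = q.primeFactors := by
    rw [← hQe, Nat.primeFactors_pow _ (by omega)]
  rw [hpf, ← hc] at hav
  have hdv : q ^ k ∣ q * q ^ (k + 1) := ⟨q ^ 2, by ring⟩
  set Q := q * q ^ (k + 1) with hQ
  have hQ0 : (0 : ℝ) < Q := by exact_mod_cast Nat.pos_of_ne_zero (NeZero.ne Q)
  have hone := fun a : ℕ => one hA F q k Q hq hdv G l τ hl hl1 hτ a
  choose! w m b J hP hJ using hone
  refine ⟨(range Q).filter (fun a : ℕ => top F G q Q a ≠ 0 ∧ ¬ ∃ p ∈ q.primeFactors, p ^ k ∣ a),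
    w, m, b, J, fun a ha => ?_, ?_⟩
  · obtain ⟨h1, h2, h3⟩ := mem_filter.1 ha
    obtain ⟨e1, e2, e3, e4, e5⟩ := hP a h2 h3
    refine ⟨hQe ▸ mem_range.1 h1, e1, hQe ▸ e2, ?_, e4, e5⟩
    rw [pow_add]
    exact Nat.mul_dvd_mul_right e3 _
  · set S := (range Q).filter
      (fun a : ℕ => top F G q Q a ≠ 0 ∧ ¬ ∃ p ∈ q.primeFactors, p ^ k ∣ a) with hS
    set Bd := (range Q).filter (fun a => ∃ p ∈ q.primeFactors, p ^ k ∣ a) with hBd
    have h1 : ∑ a ∈ range Q, √(top F G q Q a)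
        ≤ ∑ a ∈ S, √(top F G q Q a) + Bd.card * (M : ℝ) ^ 2 := by
      rw [← nsmul_eq_mul, ← sum_const, hS, hBd, sum_filter, sum_filter, ← sum_add_distrib]
      refine sum_le_sum (fun a _ => ?_)
      have h2 : √(top F G q Q a) ≤ (M : ℝ) ^ 2 := by
        refine Real.sqrt_le_iff.2 ⟨by positivity, ?_⟩
        exact_mod_cast top_le F hG Q a
      by_cases hb : ∃ p ∈ q.primeFactors, p ^ k ∣ a
      · rw [if_pos hb, if_neg (fun h => h.2 hb)]
        linarith
      · rw [if_neg hb]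
        by_cases h0 : top F G q Q a = 0
        · rw [if_neg (fun h => h.1 h0), h0]
          simp
        · rw [if_pos ⟨h0, hb⟩]
          linarith
    have h2 := card_bad q k Q hdv
    rw [← hBd] at h2
    have h3 : c / Q * (Bd.card * (M : ℝ) ^ 2) ≤ ε := by
      rw [div_lt_iff₀ hε] at hk
      calc _ ≤ c / Q * (q.primeFactors.card * (Q / 2 ^ k) * (M : ℝ) ^ 2) := by gcongr
        _ = c * q.primeFactors.card * M ^ 2 / 2 ^ k := by field_simp
        _ ≤ ε := by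
          rw [div_le_iff₀ (by positivity)]
          linarith
    have h4 : (G.card : ℝ) / q ^ 2 ≤ c / Q * ∑ a ∈ S, √(top F G q Q a) + ε := by
      refine hav.trans ?_
      calc _ ≤ c / Q * (∑ a ∈ S, √(top F G q Q a) + Bd.card * (M : ℝ) ^ 2) := by gcongr
        _ ≤ _ := by rw [mul_add]; linarith
    have h5 : l ^ 2 * G.card / q ^ 2 - ε ≤ c / Q * ∑ a ∈ S, l ^ 2 * √(top F G q Q a) := by
      have h6 : l ^ 2 ≤ 1 := pow_le_one₀ hl.le hl1
      have h7 := mul_le_mul_of_nonneg_left h4 (sq_nonneg l)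
      have h8 := mul_le_mul_of_nonneg_right h6 hε.le
      rw [← mul_sum, mul_div_assoc]
      nlinarith
    have hδ := F.δ_pos
    have hπ := Real.pi_pos
    have h9 : ((q : ℝ)) ^ (k + 2) = Q := by
      rw [hQ]
      push_cast
      ring
    rw [h9]
    calc _ ≤ 4 / Real.pi * (F.δ / 2) * (c / Q * ∑ a ∈ S, l ^ 2 * √(top F G q Q a)) := by gcongr
      _ = c / Q * ∑ a ∈ S, 4 / Real.pi * (F.δ / 2) * (l ^ 2 * √(top F G q Q a)) := by
          rw [← mul_sum S _ (4 / Real.pi * (F.δ / 2))]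
          ring
      _ ≤ _ := by
          refine mul_le_mul_of_nonneg_left (sum_le_sum (fun a ha => ?_)) (by positivity)
          obtain ⟨-, h2, h3⟩ := mem_filter.1 ha
          exact hJ a h2 h3

end Pool.Agent.Lib.DL
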