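import Pool.Agent.Lib.DL.Blue

set_option autoImplicit false

namespace Pool.Agent.Lib.DL

open QuadraticAlgebra Finset
open Pool.Agent.Lib.MP_d48457_nt (ind ind_pos ind_neg ind_nonneg)

namespace SWITCH

variable {F : IQ}

theorem norm_star' (z : F.O) : (star z).norm = z.norm := QuadraticAlgebra.norm_star z

theorem absNorm_of_norm {z : F.O} {p : ℕ} (h : z.norm = p) :
    Ideal.absNorm (Ideal.span {z}) = p := by
  rw [F.absNorm_span, h, Int.natAbs_natCast]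

theorem prime_el {z : F.O} {p : ℕ} (hp : p.Prime) (h : z.norm = p) : Prime z := by
  have h0 : z ≠ 0 := by
    rintro rfl
    rw [QuadraticAlgebra.norm_zero] at h
    exact hp.ne_zero (by exact_mod_cast h.symm)
  rw [← Ideal.prime_span_singleton_iff]
  exact F.prime_of_absNorm (by rw [absNorm_of_norm h]; exact hp)

theorem dvd_of_mem {I : Ideal F.O} {z : F.O} {m : ℕ} (hz : z.norm = m) (h : z ∈ I) :
    Ideal.absNorm I ∣ m := by
  rw [← absNorm_of_norm hz]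
  exact map_dvd Ideal.absNorm (F.dvd_span_iff.2 h)

/-- Splitting off one principal split prime. -/
theorem one_prime (a1 : AR1 F) {p n : ℕ} {z : F.O} (hp : p.Prime) (hs : F.split p)
    (hz : z.norm = p) (hn : ¬ p ∣ n) (f : F.O → ℂ) :
    ∑ w ∈ F.elN (p * n), f w = ∑ w ∈ F.elN n, (f (z * w) + f (star z * w)) := by
  classical
  have hpr := prime_el hp hz
  have hz' : (star z).norm = p := (norm_star' z).trans hz
  have hpr' := prime_el hp hz'
  have hp0 : (p : ℤ) ≠ 0 := by exact_mod_cast hp.ne_zero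
  have e : F.elN (p * n) = (F.elN n).image (z * ·) ∪ (F.elN n).image (star z * ·) := by
    ext w
    simp only [mem_union, mem_image, F.mem_elN]
    constructor
    · intro hw
      have key : ∀ y : F.O, y.norm = p → y ∣ w → ∃ a : F.O, a.norm = n ∧ y * a = w := by
        rintro y hy ⟨a, rfl⟩
        refine ⟨a, ?_, rfl⟩
        rw [map_mul, hy] at hw
        push_cast at hw
        exact mul_left_cancel₀ hp0 hw
      have hd : z ∣ w * star w := by
        rw [F.mul_star_eq, hw]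
        push_cast
        refine Dvd.dvd.mul_right ?_ _
        have := F.mul_star_eq z
        rw [hz] at this
        exact ⟨star z, by rw [this]; simp⟩
      rcases hpr.dvd_or_dvd hd with h | h
      · exact Or.inl (key z hz h)
      · refine Or.inr (key _ hz' ?_)
        obtain ⟨a, ha⟩ := h
        exact ⟨star a, by rw [← star_star w, ha, star_mul, mul_comm]⟩
    · rintro (⟨a, ha, rfl⟩ | ⟨a, ha, rfl⟩)
      · rw [map_mul, hz, ha]; push_cast; ring
      · rw [map_mul, hz', ha]; push_cast; ring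
  have hd : Disjoint ((F.elN n).image (z * ·)) ((F.elN n).image (star z * ·)) := by
    rw [disjoint_left]
    intro w h1 h2
    obtain ⟨a, -, ha⟩ := mem_image.1 h1
    obtain ⟨b, hb, hb'⟩ := mem_image.1 h2
    have hdv : z ∣ star z * b := ⟨a, hb'.trans ha.symm⟩
    rcases hpr.dvd_or_dvd hdv with h | h
    · have hN := absNorm_of_norm hz
      refine a1.split_ne (Ideal.span {z}) (by rw [hN]; exact hp) (by rw [hN]; exact hs) ?_
      rw [F.cj_span]
      exact Ideal.span_singleton_eq_span_singleton.2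
        (hpr.irreducible.associated_of_dvd hpr'.irreducible h).symm
    · apply hn
      rw [← absNorm_of_norm hz]
      exact dvd_of_mem (F.mem_elN.1 hb) (Ideal.mem_span_singleton.2 h)
  rw [e, sum_union hd, sum_image (fun a _ b _ h => mul_left_cancel₀ hpr.ne_zero h),
    sum_image (fun a _ b _ h => mul_left_cancel₀ hpr'.ne_zero h), sum_add_distrib]

theorem sgp_insert_left (π : ℕ → F.O) {q : ℕ} {T ε : Finset ℕ} (hq : q ∉ T) (hε : ε ⊆ T) :
    F.sgp π (insert q T) ε = star (π q) * F.sgp π T ε := by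
  have h1 : q ∉ ε := fun h => hq (hε h)
  rw [IQ.sgp, IQ.sgp, insert_sdiff_of_notMem _ h1,
    prod_insert (fun h => hq (mem_sdiff.1 h).1)]
  ring

theorem sgp_insert_right (π : ℕ → F.O) {q : ℕ} {T ε : Finset ℕ} (hq : q ∉ T) (hε : ε ⊆ T) :
    F.sgp π (insert q T) (insert q ε) = π q * F.sgp π T ε := by
  have h1 : q ∉ ε := fun h => hq (hε h)
  rw [IQ.sgp, IQ.sgp, insert_sdiff_insert, sdiff_insert_of_notMem hq, prod_insert h1]
  ring

/-- Splitting off all primes of `T`. -/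
theorem many_primes (a1 : AR1 F) (a2 : AR2 F) (π : ℕ → F.O) (m : ℕ) (T : Finset ℕ) :
    (∀ p ∈ T, p.Prime ∧ F.split p ∧ (π p).norm = p ∧ ¬ p ∣ m) →
    F.ρ ((∏ p ∈ T, p) * m) = 2 ^ T.card * F.ρ m ∧ ∀ f : F.O → ℂ,
      ∑ w ∈ F.elN ((∏ p ∈ T, p) * m), f w =
        ∑ w ∈ F.elN m, ∑ ε ∈ T.powerset, f (F.sgp π T ε * w) := by
  induction T using Finset.induction_on with
  | empty => intro _; simp [IQ.sgp]
  | insert q T hq ih =>
    intro h
    obtain ⟨ih1, ih2⟩ := ih (fun p hp => h p (mem_insert_of_mem hp))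
    obtain ⟨q1, q2, q3, q4⟩ := h q (mem_insert_self _ _)
    have hn : ¬ q ∣ (∏ p ∈ T, p) * m := by
      intro hd
      rcases (Nat.Prime.dvd_mul q1).1 hd with h1 | h1
      · obtain ⟨p, hp, hp'⟩ := (q1.prime.dvd_finsetProd_iff _).1 h1
        have := (Nat.prime_dvd_prime_iff_eq q1 (h p (mem_insert_of_mem hp)).1).1 hp'
        exact hq (this ▸ hp)
      · exact q4 h1
    rw [prod_insert hq, mul_assoc]
    constructor
    · rw [a2.rho_mul _ _ ((Nat.Prime.coprime_iff_not_dvd q1).2 hn), ih1, card_insert_of_notMem hq]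
      have := a2.rho_split q 1 q1 q2
      rw [pow_one] at this
      rw [this]
      ring
    · intro f
      rw [one_prime a1 q1 q2 q3 hn, ih2]
      refine sum_congr rfl (fun w _ => ?_)
      rw [sum_powerset_insert hq, ← sum_add_distrib]
      refine sum_congr rfl (fun ε hε => ?_)
      rw [sgp_insert_left π hq (mem_powerset.1 hε), sgp_insert_right π hq (mem_powerset.1 hε),
        mul_assoc, mul_assoc, add_comm]

/-- The sum over the signs. -/
noncomputable def G (θ : AddChar F.O Circle) (π : ℕ → F.O) (T : Finset ℕ) (z : F.O) : ℂ :=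
  ∑ ε ∈ T.powerset, (θ (F.sgp π T ε * z) : ℂ)

/-- Cauchy-Schwarz. -/
theorem ah_le (a1 : AR1 F) (a2 : AR2 F) (θ : AddChar F.O Circle) (π : ℕ → F.O) {m : ℕ}
    {T : Finset ℕ} (hm : m ≠ 0) (h : ∀ p ∈ T, p.Prime ∧ F.split p ∧ (π p).norm = p ∧ ¬ p ∣ m) :
    ‖F.ah θ ((∏ p ∈ T, p) * m)‖ ^ 2 ≤
      F.w / (F.ρ m * (2 ^ T.card) ^ 2) * ∑ w ∈ F.elN m, ‖G θ π T w‖ ^ 2 := by
  obtain ⟨h1, h2⟩ := many_primes a1 a2 π m T h
  rw [IQ.ah, h1, h2]
  rcases Nat.eq_zero_or_pos (F.ρ m) with h0 | h0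
  · simp [h0]
  have hρ : (0 : ℝ) < F.ρ m := by exact_mod_cast h0
  have h3 : ‖∑ w ∈ F.elN m, G θ π T w‖ ^ 2 ≤ F.w * F.ρ m * ∑ w ∈ F.elN m, ‖G θ π T w‖ ^ 2 := by
    have h4 : ‖∑ w ∈ F.elN m, G θ π T w‖ ^ 2 ≤ (∑ w ∈ F.elN m, ‖G θ π T w‖) ^ 2 :=
      pow_le_pow_left₀ (norm_nonneg _) (norm_sum_le _ _) 2
    refine h4.trans (sq_sum_le_card_mul_sum_sq.trans ?_)
    refine mul_le_mul_of_nonneg_right ?_ (sum_nonneg (fun _ _ => sq_nonneg _))
    exact_mod_cast a2.card_elN m hm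
  rw [norm_div, div_pow, Complex.norm_natCast]
  push_cast
  rw [div_le_iff₀ (by positivity)]
  refine h3.trans (le_of_eq ?_)
  field_simp

/-- Many sign choices are avoided by a given element. -/
theorem avoid (a1 : AR1 F) {S J : Finset ℕ} {π : ℕ → F.O} {P : ℕ → Ideal F.O} {m : ℕ} {z : F.O}
    (hS : ∀ p ∈ S, p.Prime ∧ F.split p ∧ (π p).norm = p)
    (hJ : ∀ p ∈ J, p.Prime ∧ F.split p ∧ Ideal.absNorm (P p) = p)
    (hm1 : ∀ p ∈ S, ¬ p ∣ m) (hm2 : ∀ p ∈ J, ¬ p ^ 2 ∣ m) (hz : z.norm = m)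
    (ν : Finset ℕ → ℝ) (h0 : ∀ s, 0 ≤ ν s)
    (h1 : ∀ s ⊆ J, (∀ I ∈ F.sv S J π P s, z ∉ I) → 1 ≤ ν s) :
    (2 : ℝ) ^ (J.filter (fun p => ¬ p ∣ m)).card ≤ ∑ s ∈ J.powerset, ν s := by
  classical
  set J' := J.filter (fun p => ¬ p ∣ m) with hJ'
  set s₀ := J.filter (fun p => p ∣ m ∧ z ∉ P p) with hs₀
  have hsub : ∀ u ∈ J'.powerset, s₀ ∪ u ⊆ J := fun u hu =>
    union_subset (filter_subset _ _) ((mem_powerset.1 hu).trans (filter_subset _ _))
  have hinj : Set.InjOn (fun u => s₀ ∪ u) (J'.powerset : Set (Finset ℕ)) := by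
    have key : ∀ u ∈ J'.powerset, (s₀ ∪ u).filter (fun p => ¬ p ∣ m) = u := by
      intro u hu
      ext p
      simp only [mem_filter, mem_union, hs₀]
      constructor
      · rintro ⟨h | h, h'⟩
        · exact (h' h.2.1).elim
        · exact h
      · intro h
        exact ⟨Or.inr h, (mem_filter.1 (mem_powerset.1 hu h)).2⟩
    intro u hu v hv huv
    rw [← key u hu, ← key v hv]
    exact congrArg _ huv
  have hP : ∀ p ∈ J, ¬ p ∣ m → z ∉ P p ∧ z ∉ F.cj (P p) := by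
    intro p hp hd
    constructor
    · intro h
      exact hd ((hJ p hp).2.2 ▸ dvd_of_mem hz h)
    · intro h
      have := dvd_of_mem hz h
      rw [F.absNorm_cj, (hJ p hp).2.2] at this
      exact hd this
  have hP2 : ∀ p ∈ J, z ∈ P p → z ∉ F.cj (P p) := by
    intro p hp h h'
    obtain ⟨p1, p2, p3⟩ := hJ p hp
    have hpr : Prime (P p) := F.prime_of_absNorm (by rw [p3]; exact p1)
    have hne := a1.split_ne (P p) (by rw [p3]; exact p1) (by rw [p3]; exact p2)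
    obtain ⟨K, hK⟩ := F.dvd_span_iff.2 h
    have hd := F.dvd_span_iff.2 h'
    rw [hK] at hd
    rcases (F.prime_cj hpr).dvd_or_dvd hd with h2 | h2
    · exact hne (associated_iff_eq.1
        ((F.prime_cj hpr).irreducible.associated_of_dvd hpr.irreducible h2))
    · apply hm2 p hp
      have h3 := map_dvd Ideal.absNorm h2
      have h4 := congrArg Ideal.absNorm hK
      rw [F.absNorm_cj, p3] at h3
      rw [absNorm_of_norm hz, map_mul, p3] at h4
      rw [h4, sq]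
      exact Nat.mul_dvd_mul_left _ h3
  have hone : ∀ u ∈ J'.powerset, 1 ≤ ν (s₀ ∪ u) := by
    intro u hu
    refine h1 _ (hsub u hu) (fun I hI hzI => ?_)
    simp only [IQ.sv, mem_union, mem_image, mem_sdiff] at hI
    rcases hI with (⟨p, hp, rfl⟩ | ⟨p, hp, rfl⟩) | (⟨p, hp, rfl⟩ | ⟨p, hp, rfl⟩)
    · have := dvd_of_mem hz hzI
      rw [absNorm_of_norm (hS p hp).2.2] at this
      exact hm1 p hp this
    · have := dvd_of_mem hz hzI
      rw [absNorm_of_norm ((norm_star' _).trans (hS p hp).2.2)] at this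
      exact hm1 p hp this
    · rcases hp with hp | hp
      · exact (mem_filter.1 hp).2.2 hzI
      · have := mem_filter.1 (mem_powerset.1 hu hp)
        exact (hP p this.1 this.2).1 hzI
    · by_cases hd : p ∣ m
      · by_cases hz' : z ∈ P p
        · exact hP2 p hp.1 hz' hzI
        · exact hp.2 (Or.inl (mem_filter.2 ⟨hp.1, hd, hz'⟩))
      · exact (hP p hp.1 hd).2 hzI
  calc (2 : ℝ) ^ J'.card = ∑ _u ∈ J'.powerset, (1 : ℝ) := by simp
    _ ≤ ∑ u ∈ J'.powerset, ν (s₀ ∪ u) := sum_le_sum hone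
    _ = ∑ s ∈ J'.powerset.image (fun u => s₀ ∪ u), ν s := (sum_image hinj).symm
    _ ≤ _ := by
      refine sum_le_sum_of_subset_of_nonneg (fun s hs => ?_) (fun s _ _ => h0 s)
      obtain ⟨u, hu, rfl⟩ := mem_image.1 hs
      exact mem_powerset.2 (hsub u hu)

/-- Expanding the square. -/
theorem expand (θ : AddChar F.O Circle) (π : ℕ → F.O) (T : Finset ℕ) (Bx : Finset F.O)
    (ν : F.O → ℝ) (A₁ A₂ : ℝ) (h0 : ∀ z, 0 ≤ ν z) (hA : 0 ≤ A₂) (h1 : ∑ z ∈ Bx, ν z ≤ A₁)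
    (h2 : ∀ ε ⊆ T, ∀ ε' ⊆ T, ε ≠ ε' →
      ‖∑ z ∈ Bx, (ν z : ℂ) * θ ((F.sgp π T ε - F.sgp π T ε') * z)‖ ≤ A₂) :
    ∑ z ∈ Bx, ν z * ‖G θ π T z‖ ^ 2 ≤ 2 ^ T.card * A₁ + (2 ^ T.card) ^ 2 * A₂ := by
  have e1 : ∀ z, ((‖G θ π T z‖ ^ 2 : ℝ) : ℂ) = ∑ ε ∈ T.powerset, ∑ ε' ∈ T.powerset,
      (θ ((F.sgp π T ε - F.sgp π T ε') * z) : ℂ) := by
    intro z
    rw [Complex.sq_norm, ← Complex.mul_conj, G, map_sum, sum_mul_sum]
    refine sum_congr rfl (fun ε _ => sum_congr rfl (fun ε' _ => ?_))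
    rw [sub_mul, AddChar.map_sub_eq_div, Circle.coe_div, div_eq_mul_inv, ← Circle.coe_inv,
      Circle.coe_inv_eq_conj]
  have e2 : ((∑ z ∈ Bx, ν z * ‖G θ π T z‖ ^ 2 : ℝ) : ℂ) = ∑ ε ∈ T.powerset, ∑ ε' ∈ T.powerset,
      ∑ z ∈ Bx, (ν z : ℂ) * θ ((F.sgp π T ε - F.sgp π T ε') * z) := by
    rw [Complex.ofReal_sum]
    simp only [Complex.ofReal_mul, e1, mul_sum]
    rw [sum_comm]
    exact sum_congr rfl (fun ε _ => sum_comm)
  have e3 : ∑ z ∈ Bx, ν z * ‖G θ π T z‖ ^ 2 ≤ ∑ ε ∈ T.powerset, ∑ ε' ∈ T.powerset,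
      ‖∑ z ∈ Bx, (ν z : ℂ) * θ ((F.sgp π T ε - F.sgp π T ε') * z)‖ := by
    refine (le_abs_self _).trans ?_
    rw [← Real.norm_eq_abs, ← Complex.norm_real, e2]
    exact (norm_sum_le _ _).trans (sum_le_sum (fun ε _ => norm_sum_le _ _))
  refine e3.trans ?_
  have e4 : ∀ ε ∈ T.powerset, ∑ ε' ∈ T.powerset,
      ‖∑ z ∈ Bx, (ν z : ℂ) * θ ((F.sgp π T ε - F.sgp π T ε') * z)‖ ≤ A₁ + 2 ^ T.card * A₂ := by
    intro ε hε
    have e5 : ∀ ε' ∈ T.powerset, ‖∑ z ∈ Bx, (ν z : ℂ) * θ ((F.sgp π T ε - F.sgp π T ε') * z)‖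
        ≤ (if ε = ε' then A₁ else 0) + A₂ := by
      intro ε' hε'
      split_ifs with h
      · subst h
        simp only [sub_self, zero_mul, AddChar.map_zero_eq_one, Circle.coe_one, mul_one]
        rw [← Complex.ofReal_sum, Complex.norm_real, Real.norm_eq_abs,
          abs_of_nonneg (sum_nonneg (fun z _ => h0 z))]
        linarith
      · rw [zero_add]
        exact h2 ε (mem_powerset.1 hε) ε' (mem_powerset.1 hε') h
    refine (sum_le_sum e5).trans (le_of_eq ?_)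
    rw [sum_add_distrib, sum_ite_eq, if_pos hε]
    simp
  refine (sum_le_sum e4).trans (le_of_eq ?_)
  simp only [sum_const, card_powerset, nsmul_eq_mul]
  push_cast
  ring

theorem sum_elN_le (Y : ℝ) (Bx : Finset F.O) (hB : F.disc Y ⊆ Bx) (h : F.O → ℝ)
    (h0 : ∀ z, 0 ≤ h z) : ∑ m ∈ Icc 1 ⌊Y⌋₊, ∑ w ∈ F.elN m, h w ≤ ∑ z ∈ Bx, h z := by
  classical
  rw [← sum_biUnion]
  · refine sum_le_sum_of_subset_of_nonneg (fun z hz => hB ?_) (fun z _ _ => h0 z)
    obtain ⟨m, hm, hz'⟩ := mem_biUnion.1 hz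
    rw [mem_Icc] at hm
    rw [F.mem_disc, F.mem_elN.1 hz']
    have hY : 0 ≤ Y := by
      by_contra hc
      rw [Nat.floor_of_nonpos (le_of_lt (not_le.1 hc))] at hm
      omega
    exact_mod_cast (Nat.le_floor_iff hY).1 hm.2
  · intro m _ n _ hmn
    rw [Function.onFun, disjoint_left]
    intro z h1 h2
    apply hmn
    have := (F.mem_elN.1 h1).symm.trans (F.mem_elN.1 h2)
    exact_mod_cast this

end SWITCH

open SWITCH in
theorem stSWITCH (h1 : St_AR1) (h2 : St_AR2) : St_SWITCH := by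
  intro F S J T π P θ Y A₁ A₂ Bx ν hS hJ hT h0 hB hA hν hA1 hA2
  have a1 := h1 F
  have a2 := h2 F
  set c : ℝ := F.w / (2 ^ J.card * (2 ^ T.card) ^ 2) with hc
  have hc0 : 0 ≤ c := by positivity
  have key : ∀ m ∈ Icc 1 ⌊Y⌋₊, ind ((∀ p ∈ S, ¬ p ∣ m) ∧ ∀ p ∈ J, ¬ p ^ 2 ∣ m) *
      ‖F.ah θ ((∏ p ∈ T, p) * m)‖ ^ 2 ≤
      ∑ w ∈ F.elN m, c * ∑ s ∈ J.powerset, ν s w * ‖G θ π T w‖ ^ 2 := by
    intro m hm
    have hnn : 0 ≤ ∑ w ∈ F.elN m, c * ∑ s ∈ J.powerset, ν s w * ‖G θ π T w‖ ^ 2 :=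
      sum_nonneg (fun w _ => mul_nonneg hc0
        (sum_nonneg (fun s _ => mul_nonneg (h0 s w) (sq_nonneg _))))
    rw [mem_Icc] at hm
    by_cases hg : (∀ p ∈ S, ¬ p ∣ m) ∧ ∀ p ∈ J, ¬ p ^ 2 ∣ m
    swap
    · rw [ind_neg hg, zero_mul]; exact hnn
    rw [ind_pos hg, one_mul]
    refine (ah_le a1 a2 θ π (by omega) (fun p hp =>
      ⟨(hS p (hT hp)).1, (hS p (hT hp)).2.1, (hS p (hT hp)).2.2, hg.1 p (hT hp)⟩)).trans ?_
    rcases Nat.eq_zero_or_pos (F.ρ m) with hρ | hρ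
    · rw [hρ]; simpa using hnn
    have hM := (a2.rho_pos m).1 hρ
    have hge : (2 : ℝ) ^ (J.filter (fun p => p ∣ m)).card ≤ F.ρ m := by
      exact_mod_cast a2.rho_ge m _ hM (fun p hp =>
        ⟨(hJ p (mem_filter.1 hp).1).1, (hJ p (mem_filter.1 hp).1).2.1, (mem_filter.1 hp).2⟩)
    have hρ' : (0 : ℝ) < F.ρ m := by exact_mod_cast hρ
    rw [mul_sum]
    refine sum_le_sum (fun w hw => ?_)
    have hw' := F.mem_elN.1 hw
    have hY : 0 ≤ Y := by
      by_contra hc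
      rw [Nat.floor_of_nonpos (le_of_lt (not_le.1 hc))] at hm
      omega
    have hwd : w ∈ F.disc Y := by
      rw [F.mem_disc, hw']
      exact_mod_cast (Nat.le_floor_iff hY).1 hm.2
    have hav := avoid a1 hS hJ hg.1 hg.2 hw' (fun s => ν s w) (fun s => h0 s w)
      (fun s hs h => hν s hs w hwd h)
    rw [← sum_mul, ← mul_assoc]
    refine mul_le_mul_of_nonneg_right ?_ (sq_nonneg _)
    have hcard : (2 : ℝ) ^ J.card = 2 ^ (J.filter (fun p => p ∣ m)).card *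
        2 ^ (J.filter (fun p => ¬ p ∣ m)).card := by
      rw [← pow_add, card_filter_add_card_filter_not]
    have h3 : (2 : ℝ) ^ J.card ≤ F.ρ m * ∑ s ∈ J.powerset, ν s w := by
      rw [hcard]
      exact mul_le_mul hge hav (by positivity) hρ'.le
    rw [hc, div_mul_eq_mul_div, div_le_div_iff₀ (by positivity) (by positivity)]
    have h4 : (0 : ℝ) ≤ F.w * (2 ^ T.card) ^ 2 := by positivity
    have := mul_le_mul_of_nonneg_left h3 h4
    linarith
  refine (sum_le_sum key).trans ?_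
  refine (sum_elN_le Y Bx hB _ (fun w => mul_nonneg hc0
    (sum_nonneg (fun s _ => mul_nonneg (h0 s w) (sq_nonneg _))))).trans ?_
  rw [← mul_sum, sum_comm]
  have h5 : ∑ s ∈ J.powerset, ∑ z ∈ Bx, ν s z * ‖G θ π T z‖ ^ 2 ≤
      ∑ _s ∈ J.powerset, (2 ^ T.card * A₁ + (2 ^ T.card) ^ 2 * A₂) :=
    sum_le_sum (fun s hs => expand θ π T Bx (ν s) A₁ A₂ (h0 s) hA (hA1 s (mem_powerset.1 hs))
      (hA2 s (mem_powerset.1 hs)))
  refine (mul_le_mul_of_nonneg_left h5 hc0).trans (le_of_eq ?_)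
  simp only [sum_const, card_powerset, nsmul_eq_mul, hc]
  push_cast
  field_simp

end Pool.Agent.Lib.DL
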