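import Pool.Agent.Lib.DL.Blue

set_option autoImplicit false

namespace Pool.Agent.Lib.DL

open Finset

theorem stTENS : St_TENS := by
  intro X₁ Y₁ Z₁ X₂ Y₂ Z₂ X Y Z _ _ _ _ _ _ _ _ _ φ₁ φ₂ φ ν₁ ν₂ eX eY eZ _ hν₂ hφ h₁ h₂
    f g h hf hg hh hfg
  have key := h₁ (fun a => (∑ b, f (eX.symm (a, b))) / Fintype.card X₂)
    (fun a => (∑ b, g (eY.symm (a, b))) / Fintype.card Y₂)
    (fun a => ∑ b, ν₂ b * h (eZ.symm (a, b)))
    (fun a => div_nonneg (sum_nonneg fun b _ => hf _) (Nat.cast_nonneg _))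
    (fun a => div_nonneg (sum_nonneg fun b _ => hg _) (Nat.cast_nonneg _))
    (fun a => sum_nonneg fun b _ => mul_nonneg (hν₂ b) (hh _))
    (fun a c => h₂ (fun b => f (eX.symm (a, b))) (fun d => g (eY.symm (c, d)))
      (fun e => h (eZ.symm (φ₁ a c, e))) (fun _ => hf _) (fun _ => hg _) (fun _ => hh _)
      (fun b d => by
        have e1 := hφ (eX.symm (a, b)) (eY.symm (c, d))
        rw [Equiv.apply_symm_apply, Equiv.apply_symm_apply] at e1
        have e2 := hfg (eX.symm (a, b)) (eY.symm (c, d))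
        rwa [← eZ.symm_apply_apply (φ _ _), e1] at e2))
  have eXs : ∑ x, f x = ∑ a, ∑ b, f (eX.symm (a, b)) := by
    rw [← eX.symm.sum_comp, Fintype.sum_prod_type]
  have eYs : ∑ y, g y = ∑ a, ∑ b, g (eY.symm (a, b)) := by
    rw [← eY.symm.sum_comp, Fintype.sum_prod_type]
  have eZs : ∑ z, ν₁ (eZ z).1 * ν₂ (eZ z).2 * h z =
      ∑ a, ν₁ a * ∑ b, ν₂ b * h (eZ.symm (a, b)) := by
    rw [← eZ.symm.sum_comp, Fintype.sum_prod_type]
    refine sum_congr rfl fun a _ => ?_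
    rw [mul_sum]
    refine sum_congr rfl fun b _ => ?_
    rw [Equiv.apply_symm_apply, mul_assoc]
  have cX : (Fintype.card X : ℝ) = Fintype.card X₂ * Fintype.card X₁ := by
    rw [Fintype.card_congr eX, Fintype.card_prod, Nat.cast_mul, mul_comm]
  have cY : (Fintype.card Y : ℝ) = Fintype.card Y₂ * Fintype.card Y₁ := by
    rw [Fintype.card_congr eY, Fintype.card_prod, Nat.cast_mul, mul_comm]
  rw [← sum_div, ← sum_div, div_div, div_div] at key
  rw [eXs, eYs, eZs, cX, cY]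
  exact key

end Pool.Agent.Lib.DL
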