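import Pool.Agent.Lib.DL.TGTa

set_option autoImplicit false

namespace Pool.Agent.Lib.DL

open QuadraticAlgebra Finset Filter Topology
open Pool.Agent.Lib.MP_d48457_nt (ind ind_pos ind_neg ind_nonneg ind_le_one ind_and ind_congr
  ind_mono sum_ind_eq_card)

namespace TGT

open Classical in
/-- The norms in one class and one interval. -/
noncomputable def UU (F : IQ) (Q m₁ j b : ℕ) (τ X : ℝ) : Finset ℕ :=
  (Icc 1 ⌊(j + 1) * τ / m₁ * X⌋₊).filter
    (fun m => j * τ / m₁ * X < m ∧ F.M m ∧ m ≡ b [MOD Q / m₁])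

theorem mem_UU {F : IQ} {Q m₁ j b m : ℕ} {τ X : ℝ} (hm : m₁ ≠ 0) (hτ : 0 < τ) (hX : 0 < X)
    (hd : m₁ ∣ Q) (h : m ∈ UU F Q m₁ j b τ X) :
    j * (τ * X) < ((m₁ * m : ℕ) : ℝ) ∧ ((m₁ * m : ℕ) : ℝ) ≤ (j + 1) * (τ * X) ∧ F.M m ∧
      m ≡ b [MOD Q / m₁] ∧ m₁ * m ≡ m₁ * b [MOD Q] := by
  classical
  have h0 : (0 : ℝ) < m₁ := by exact_mod_cast Nat.pos_of_ne_zero hm
  rw [UU, mem_filter, mem_Icc, Nat.le_floor_iff (by positivity)] at h
  obtain ⟨⟨-, h1⟩, h2, h3, h4⟩ := h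
  rw [div_mul_eq_mul_div, le_div_iff₀ h0] at h1
  rw [div_mul_eq_mul_div, div_lt_iff₀ h0] at h2
  refine ⟨by push_cast; linarith, by push_cast; linarith, h3, h4, ?_⟩
  have := h4.mul_left' m₁
  rwa [Nat.mul_div_cancel' hd] at this

theorem sq_dvd {q k m : ℕ} (hq : q ≠ 0) (h : m * q ^ 2 ∣ q ^ k) :
    m ≠ 0 ∧ m ∣ q ^ k ∧ q * q ∣ q ^ k / m ∧ q ^ k / m ∣ q ^ k := by
  have hm : m ≠ 0 := by rintro rfl; simp [hq] at h
  have h1 : m ∣ q ^ k := (dvd_mul_right _ _).trans h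
  refine ⟨hm, h1, ?_, Nat.div_dvd_of_dvd h1⟩
  rw [Nat.dvd_div_iff_mul_dvd h1, ← sq]
  exact h

theorem wirl_all (hW : St_WIRL) (F : IQ) {B : ℝ} (hB : IsB F.inert B) (hB0 : 0 < B) {q : ℕ}
    (hq : q ≠ 0) (hD : 4 * F.Dn ∣ q) (k J₀ : ℕ) {τ e : ℝ} (hτ : 0 < τ) (he : 0 < e) :
    ∀ᶠ X : ℝ in atTop, ∀ m₁ : ℕ, m₁ * q ^ 2 ∣ q ^ k → ∀ j < J₀, ∀ b : ℕ, Nat.Coprime b q →
      F.chi b = 1 → (1 - e) * τ * (2 * B * (F.lam q * q / q ^ k)) * X / √(Real.log X)
        ≤ (UU F (q ^ k) m₁ j b τ X).card := by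
  classical
  have key : ∀ p ∈ (q ^ k).divisors ×ˢ range J₀, ∀ᶠ X : ℝ in atTop, p.1 * q ^ 2 ∣ q ^ k →
      ∀ b : ℕ, Nat.Coprime b q → F.chi b = 1 →
      (1 - e) * τ * (2 * B * (F.lam q * q / q ^ k)) * X / √(Real.log X)
        ≤ (UU F (q ^ k) p.1 p.2 b τ X).card := by
    rintro ⟨m, j⟩ -
    by_cases h : m * q ^ 2 ∣ q ^ k
    swap
    · exact Eventually.of_forall (fun X h' => absurd h' h)
    obtain ⟨a1, a2, a3, a4⟩ := sq_dvd hq h
    have h0 : (0 : ℝ) < m := by exact_mod_cast Nat.pos_of_ne_zero a1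
    have a5 : q ^ k / m ≠ 0 := ne_zero_of_dvd_ne_zero (pow_ne_zero _ hq) a4
    filter_upwards [hW F B hB hB0 (q ^ k / m) a5 (hD.trans ((dvd_mul_right q q).trans a3))
      (j * τ / m) ((j + 1) * τ / m) e (by positivity)
      (div_lt_div_of_pos_right (by linarith) h0) he] with X hX _ b hb hc
    have h1 := hX b ((hb.pow_right k).coprime_dvd_right a4) hc
    rw [sum_ind_eq_card] at h1
    refine le_trans (le_of_eq ?_) h1
    rw [← lam_div F hq h]
    field_simp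
    ring
  filter_upwards [(eventually_all_finset _).2 key] with X hX m hm j hj
  exact hX (m, j) (mem_product.2 ⟨Nat.mem_divisors.2 ⟨(sq_dvd hq hm).2.1, pow_ne_zero _ hq⟩,
    mem_range.2 hj⟩) hm

theorem M_parts {F : IQ} (h2 : AR2 F) {w : F.O} {m b : ℕ} (hm : m ≠ 0) (hb : b ≠ 0)
    (hc : Nat.Coprime m b) (h : w.norm = m * b) : F.M m ∧ F.M b := by
  have h0 : w ≠ 0 := by
    rintro rfl
    simp [hm, hb] at h
  have h1 : 0 < F.ρ (m * b) := by
    refine card_pos.2 ⟨Ideal.span {w}, F.mem_idN.2 ⟨?_, ?_⟩⟩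
    · rwa [Ne, Ideal.span_singleton_eq_bot]
    · have := F.absNorm_span_int w
      rw [h] at this
      exact_mod_cast this
  rw [h2.rho_mul m b hc] at h1
  exact ⟨(h2.rho_pos _).1 (Nat.pos_of_mul_pos_right h1), (h2.rho_pos _).1 (Nat.pos_of_mul_pos_left h1)⟩

theorem arith {c Y Z e e₁ M2 r : ℝ} (hc : 0 ≤ c) (hr : 0 ≤ r) (he : 0 < e) (he1 : 0 ≤ e₁)
    (h1 : e₁ ≤ 1) (hY : Y ≤ M2) (h2 : e₁ * M2 ≤ e / 3) (hZ : c * (Y - e / 3) ≤ Z) :
    c * (Y - e) * r ≤ (1 - e₁) * Z * r - c * (e / 3) * r := by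
  have h3 : (1 - e₁) * (c * (Y - e / 3)) ≤ (1 - e₁) * Z :=
    mul_le_mul_of_nonneg_left hZ (by linarith)
  have h4 : e₁ * Y ≤ e / 3 := (mul_le_mul_of_nonneg_left hY he1).trans h2
  have h5 : Y - e + e / 3 ≤ (1 - e₁) * (Y - e / 3) := by nlinarith
  have h6 := mul_le_mul_of_nonneg_left h5 hc
  have h7 : c * (Y - e) + c * (e / 3) ≤ (1 - e₁) * Z := by nlinarith
  nlinarith

end TGT

open TGT in
theorem stTGT (h1 : St_AR1) (h2 : St_AR2) (hC : St_CHI) (hW : St_WIRL) (hF : St_FPE)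
    (hS : St_SEL) : St_TGT := by
  classical
  intro F B hB hB0 q M μ ε hq hD hμ hμ1 hε
  have hD3 : 3 ≤ F.Dn := by
    have := F.D_le
    simp only [IQ.Dn]
    omega
  have hq1 : 1 < q := by
    have := Nat.le_of_dvd (Nat.pos_of_ne_zero hq) hD
    omega
  have hDq : F.Dn ∣ q := (dvd_mul_left _ _).trans hD
  have hA := one_le_cA F
  have hM0 : (0 : ℝ) ≤ M := Nat.cast_nonneg _
  set τ : ℝ := (μ / 4) ^ 2 with hτd
  have hτ : 0 < τ := by positivity
  set α : ℝ := μ / (4 * (cA F * M + 1)) with hαd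
  have hα : 0 < α := by positivity
  have hRα : cA F * M * α ≤ μ / 4 := by
    rw [hαd, mul_div_assoc', div_le_div_iff₀ (by positivity) (by norm_num)]
    nlinarith
  obtain ⟨k, hk⟩ := hS F q M (1 - 2 * μ) τ (ε / 3) hq1 (by linarith) (by linarith) hτ
    (by positivity)
  obtain ⟨c₀, hc₀, hF'⟩ := hF F B hB q α hq hα
  have hqk : (0 : ℝ) < (q : ℝ) ^ k := by positivity
  set J₀ : ℕ := ⌊cA F * M ^ 2 / τ⌋₊ + 1 with hJd
  have hJ0 : (0 : ℝ) < J₀ := by positivity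
  set A : ℝ := max 1 (J₀ * τ) with hAd
  have hA1 : 1 ≤ A := le_max_left _ _
  set e₁ : ℝ := min 1 (ε / (3 * ((M : ℝ) ^ 2 + 1))) with he₁d
  have he₁ : 0 < e₁ := lt_min one_pos (by positivity)
  have he₂ : e₁ * (M : ℝ) ^ 2 ≤ ε / 3 := by
    have h3 : e₁ ≤ ε / (3 * ((M : ℝ) ^ 2 + 1)) := min_le_right _ _
    rw [le_div_iff₀ (by positivity)] at h3
    nlinarith
  have hcF : 0 < F.cF B := by
    have := F.δ_pos
    have := Real.pi_pos
    unfold IQ.cF
    positivity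
  have hsq : Tendsto (fun s : ℕ => (s : ℝ) ^ 2) atTop atTop :=
    (tendsto_pow_atTop two_ne_zero).comp tendsto_natCast_atTop_atTop
  refine ⟨c₀ / q ^ k, by positivity, ?_⟩
  filter_upwards [hsq.eventually (wirl_all hW F hB hB0 hq hD k J₀ hτ he₁),
    (hsq.const_mul_atTop (lt_of_lt_of_le one_pos hA1)).eventually
      (hF' (F.cF B * (ε / 3) / (q ^ k * J₀ * A)) (by positivity)),
    hsq.eventually_gt_atTop 1, eventually_gt_atTop 0] with s hs1 hs2 hX1 hs0 G hG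
  have hs : (0 : ℝ) < s := by exact_mod_cast hs0
  set X : ℝ := (s : ℝ) ^ 2 with hXd
  have hX : 0 < X := by linarith
  have hlog : 0 < √(Real.log X) := Real.sqrt_pos.2 (Real.log_pos hX1)
  obtain ⟨Bad, hBad, hgood⟩ := hs2
  obtain ⟨S, w₀, m₁, b, J, hS1, hS2⟩ := hk G hG
  have hJ : ∀ a ∈ S, ∀ j ∈ J a, j < J₀ := by
    intro a ha j hj
    obtain ⟨C, hC1, C', hC2, -, -, x, y, hx, hy, h3, -⟩ := (hS1 a ha).2.2.2.2.2 j hj
    have h4 := Q_le F (abs_le_M (mem_cells (hG hC1)).1 (mem_cells (hG hC2)).1 (by linarith) hx)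
      (abs_le_M (mem_cells (hG hC1)).2 (mem_cells (hG hC2)).2 (by linarith) hy)
    exact Nat.lt_succ_of_le (Nat.le_floor ((le_div_iff₀ hτ).2 (h3.trans h4)))
  have hb : ∀ a ∈ S, Nat.Coprime (m₁ a) (b a) ∧ F.M (m₁ a) ∧ F.M (b a) := by
    intro a ha
    obtain ⟨-, a2, -, a4, a5, -⟩ := hS1 a ha
    have a6 : Nat.Coprime (m₁ a) (b a) :=
      ((a5.pow_right k).coprime_dvd_right (sq_dvd hq a4).2.1).symm
    have a7 : b a ≠ 0 := by
      intro h
      rw [h, Nat.coprime_zero_left] at a5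
      omega
    exact ⟨a6, M_parts (h2 F) (sq_dvd hq a4).1 a7 a6 a2⟩
  refine ⟨(S.sigma J).biUnion (fun p => (UU F (q ^ k) (m₁ p.1) p.2 (b p.1) τ X \ Bad).image
    (fun m => m₁ p.1 * m)), fun n hn => ?_, ?_⟩
  · obtain ⟨⟨a, j⟩, hp, hn⟩ := mem_biUnion.1 hn
    obtain ⟨m, hm, rfl⟩ := mem_image.1 hn
    obtain ⟨ha, hj⟩ := mem_sigma.1 hp
    dsimp only at ha hj hm ⊢
    obtain ⟨hm1, hm2⟩ := mem_sdiff.1 hm
    obtain ⟨-, a2, -, a4, a5, a6⟩ := hS1 a ha
    obtain ⟨C, hC1, C', hC2, d1, d2, x, y, hx, hy, h3, h4⟩ := a6 j hj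
    obtain ⟨b1, b2, b3, -⟩ := sq_dvd hq a4
    obtain ⟨c1, c2, c3, c4, -⟩ := mem_UU b1 hτ hX b2 hm1
    obtain ⟨e1, e2, -⟩ := hb a ha
    have hmq : Nat.Coprime m q := by
      rw [Nat.Coprime, (c4.of_dvd ((dvd_mul_right q q).trans b3)).gcd_eq]
      exact a5
    have hcop : Nat.Coprime (m₁ a) m := ((hmq.pow_right k).coprime_dvd_right b2).symm
    have hρ := (h2 F).rho_mul _ _ hcop
    obtain ⟨u, hu1, hu2⟩ := exists_dir (F.pt x y)
    have hmX : (m : ℝ) ≤ A * X := by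
      have f1 : (m : ℝ) ≤ ((m₁ a * m : ℕ) : ℝ) := by
        exact_mod_cast Nat.le_mul_of_pos_left m (Nat.pos_of_ne_zero b1)
      have f2 : (j : ℝ) + 1 ≤ J₀ := by exact_mod_cast hJ a ha j hj
      have f3 : (J₀ : ℝ) * τ ≤ A := le_max_right _ _
      have f4 := mul_le_mul_of_nonneg_right f2 (mul_pos hτ hX).le
      have f5 := mul_le_mul_of_nonneg_right f3 hX.le
      linarith
    have hg := hgood (w₀ a) (m₁ a) (b a) m u a2 b1 e1
      (Nat.Coprime.mul_right a5 (a5.coprime_dvd_right hDq)) hmX hm2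
      (c4.of_dvd ((Nat.mul_dvd_mul_left q hDq).trans b3)) hu1
    refine ⟨((h2 F).rho_pos _).1 ?_, le_trans ?_ (hg.trans (sum_le_sum (fun w hw => ind_mono ?_)))⟩
    · rw [hρ]
      exact Nat.mul_pos (((h2 F).rho_pos _).2 e2) (((h2 F).rho_pos _).2 c3)
    · have f1 : (F.ρ (m₁ a) : ℝ) ≤ (q : ℝ) ^ k := by
        exact_mod_cast ((h2 F).rho_le _).trans (Nat.le_of_dvd (pow_pos (by omega) k) b2)
      rw [hρ, Nat.cast_mul, div_mul_eq_mul_div, div_le_iff₀ hqk]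
      have f2 := mul_le_mul_of_nonneg_left f1 (mul_nonneg hc₀.le (Nat.cast_nonneg (F.ρ m)))
      linarith
    · rintro ⟨g1, g2⟩
      have g3 : (w.norm : ℝ) = ((m₁ a * m : ℕ) : ℝ) := by
        rw [F.mem_elN.1 hw, Int.cast_natCast]
      have g4 : F.Q x y ≤ (cA F * M) ^ 2 := by
        refine (Q_le F
          (abs_le_M (mem_cells (hG hC1)).1 (mem_cells (hG hC2)).1 (by linarith) hx)
          (abs_le_M (mem_cells (hG hC1)).2 (mem_cells (hG hC2)).2 (by linarith) hy)).trans ?_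
        rw [mul_pow]
        exact mul_le_mul_of_nonneg_right (by nlinarith) (sq_nonneg _)
      obtain ⟨g5, g6⟩ := geo F hs hμ hu2 h3 h4 (by rw [g3, mul_assoc]; exact c1)
        (by rw [g3, mul_assoc]; exact c2) (by positivity) g4 hRα g2
      have g7 := (F.natCast_dvd_iff (n := q) (z := w - w₀ a)).1 (by simpa using g1)
      rw [re_sub, im_sub] at g7
      have key : ∀ r t d : ℝ, |r - s * t| ≤ μ * s → |t - d| < 1 - 2 * μ →
          |r - s * d| ≤ (1 - μ) * s := by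
        intro r t d k1 k2
        rw [show r - s * d = (r - s * t) + s * (t - d) by ring]
        refine (abs_add_le _ _).trans ?_
        rw [abs_mul, abs_of_pos hs]
        have := mul_le_mul_of_nonneg_left k2.le hs.le
        linarith
      refine ⟨C, hC1, C', hC2, ?_, ?_, key _ _ _ g5 hx, key _ _ _ g6 hy⟩
      · simpa using dvd_add g7.1 d1
      · simpa using dvd_add g7.2 d2
  · rw [card_biUnion]
    swap
    · rintro ⟨a, j⟩ hp ⟨a', j'⟩ hp' hne
      obtain ⟨ha, -⟩ := mem_sigma.1 (mem_coe.1 hp)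
      obtain ⟨ha', -⟩ := mem_sigma.1 (mem_coe.1 hp')
      rw [Function.onFun, disjoint_left]
      intro n hn hn'
      obtain ⟨m, hm, rfl⟩ := mem_image.1 hn
      obtain ⟨m', hm', e⟩ := mem_image.1 hn'
      dsimp only at ha ha' hm hm' e
      obtain ⟨a1, -, a3, a4, -⟩ := hS1 a ha
      obtain ⟨a1', -, a3', a4', -⟩ := hS1 a' ha'
      obtain ⟨c1, c2, -, -, c5⟩ := mem_UU (sq_dvd hq a4).1 hτ hX (sq_dvd hq a4).2.1
        (mem_sdiff.1 hm).1
      obtain ⟨c1', c2', -, -, c5'⟩ := mem_UU (sq_dvd hq a4').1 hτ hX (sq_dvd hq a4').2.1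
        (mem_sdiff.1 hm').1
      rw [e] at c1' c2' c5'
      have e1 : a = a' := Nat.ModEq.eq_of_lt_of_lt
        ((c5.trans a3).symm.trans (c5'.trans a3')) a1 a1'
      subst e1
      have e2 : j = j' := idx_unique (mul_pos hτ hX) c1 c2 c1' c2'
      subst e2
      exact hne rfl
    set r : ℝ := X / √(Real.log X) with hrd
    have hr : 0 < r := div_pos hX hlog
    have hcard : ((S.sigma J).card : ℝ) ≤ q ^ k * J₀ := by
      have f1 : S.card ≤ q ^ k := by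
        rw [← card_range (q ^ k)]
        exact card_le_card (fun a ha => mem_range.2 (hS1 a ha).1)
      have f2 : (S.sigma J).card ≤ S.card * J₀ := by
        rw [card_sigma, ← smul_eq_mul]
        refine sum_le_card_nsmul _ _ _ (fun a ha => ?_)
        rw [← card_range J₀]
        exact card_le_card (fun j hj => mem_range.2 (hJ a ha j hj))
      exact_mod_cast f2.trans (Nat.mul_le_mul_right _ f1)
    have hBad' : ((S.sigma J).card : ℝ) * Bad.card ≤ F.cF B * (ε / 3) * r := by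
      have f1 : √(Real.log X) ≤ √(Real.log (A * X)) :=
        Real.sqrt_le_sqrt (Real.log_le_log hX (by nlinarith))
      have f2 : (Bad.card : ℝ) ≤ F.cF B * (ε / 3) / (q ^ k * J₀ * A) * (A * X) / √(Real.log X) :=
        hBad.trans (div_le_div_of_nonneg_left (by positivity) hlog f1)
      refine (mul_le_mul hcard f2 (Nat.cast_nonneg _) (by positivity)).trans (le_of_eq ?_)
      rw [hrd]
      field_simp
    have hsum : ∀ p ∈ S.sigma J, (1 - e₁) * τ * (2 * B * (F.lam q * q / q ^ k)) * r - Bad.card ≤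
        (((UU F (q ^ k) (m₁ p.1) p.2 (b p.1) τ X \ Bad).image (fun m => m₁ p.1 * m)).card : ℝ) := by
      rintro ⟨a, j⟩ hp
      obtain ⟨ha, hj⟩ := mem_sigma.1 hp
      dsimp only at ha hj ⊢
      obtain ⟨-, -, -, a4, a5, -⟩ := hS1 a ha
      have f1 := hs1 (m₁ a) a4 j (hJ a ha j hj) (b a) a5
        ((hC F).of_M _ (hb a ha).2.2 (a5.coprime_dvd_right hD))
      rw [card_image_of_injective _ (mul_right_injective₀ (sq_dvd hq a4).1)]
      have f2 : ((UU F (q ^ k) (m₁ a) j (b a) τ X).card : ℝ) ≤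
          (UU F (q ^ k) (m₁ a) j (b a) τ X \ Bad).card + Bad.card := by
        exact_mod_cast card_le_card_sdiff_add_card
      rw [mul_div_assoc] at f1
      linarith
    have f3 := sum_le_sum hsum
    rw [sum_const, nsmul_eq_mul, mul_sub] at f3
    rw [Nat.cast_sum, mul_div_assoc]
    have hY : (1 - 2 * μ) ^ 2 * G.card / q ^ 2 ≤ (M : ℝ) ^ 2 := by
      have f1 : (G.card : ℝ) ≤ q ^ 2 * M ^ 2 := by
        exact_mod_cast (card_le_card hG).trans (card_cells q M).le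
      have f2 : (1 - 2 * μ) ^ 2 ≤ 1 := by nlinarith
      rw [div_le_iff₀ (by positivity)]
      have f4 := mul_le_mul_of_nonneg_right f2 (Nat.cast_nonneg (α := ℝ) G.card)
      linarith
    have hZ : F.cF B * ((1 - 2 * μ) ^ 2 * G.card / q ^ 2 - ε / 3) ≤
        (S.sigma J).card * (τ * (2 * B * (F.lam q * q / q ^ k))) := by
      have f1 := mul_le_mul_of_nonneg_left hS2 (show 0 ≤ 2 * B / 2 ^ F.t by positivity)
      rw [prod_cp F (h1 F) hq hDq, ← sum_mul, ← Nat.cast_sum, ← card_sigma] at f1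
      refine le_trans (le_of_eq ?_) (f1.trans (le_of_eq ?_))
      · unfold IQ.cF
        ring
      · field_simp
    have f4 := arith hcF.le hr.le hε he₁.le (min_le_left _ _) hY he₂ hZ
    refine f4.trans (le_trans ?_ f3)
    nlinarith

end Pool.Agent.Lib.DL
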