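import Pool.Agent.Lib.DL.Blue

set_option autoImplicit false

namespace Pool.Agent.Lib.DL.TGT

open QuadraticAlgebra Finset Filter Topology
open Pool.Agent.Lib.MP_d48457_nt (ind ind_pos ind_neg ind_nonneg ind_le_one ind_and ind_congr
  ind_mono sum_ind_eq_card)

/-- A bound for the norm form on the unit square. -/
noncomputable def cA (F : IQ) : ℝ := 1 + |(F.a : ℝ)| + |(F.b : ℝ)|

theorem one_le_cA (F : IQ) : 1 ≤ cA F := by
  unfold cA
  have := abs_nonneg (F.a : ℝ)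
  have := abs_nonneg (F.b : ℝ)
  linarith

theorem Q_le (F : IQ) {x y R : ℝ} (hx : |x| ≤ R) (hy : |y| ≤ R) : F.Q x y ≤ cA F * R ^ 2 := by
  have h0 : 0 ≤ R := (abs_nonneg _).trans hx
  have h1 : x ^ 2 ≤ R ^ 2 := by rw [← sq_abs x]; exact pow_le_pow_left₀ (abs_nonneg _) hx 2
  have h2 : y ^ 2 ≤ R ^ 2 := by rw [← sq_abs y]; exact pow_le_pow_left₀ (abs_nonneg _) hy 2
  have h3 : F.b * x * y ≤ |(F.b : ℝ)| * R ^ 2 := by
    refine (le_abs_self _).trans ?_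
    rw [abs_mul, abs_mul, mul_assoc, sq]
    exact mul_le_mul_of_nonneg_left (mul_le_mul hx hy (abs_nonneg _) h0) (abs_nonneg _)
  have h4 : -(F.a * y ^ 2) ≤ |(F.a : ℝ)| * R ^ 2 := by
    refine (neg_le_abs _).trans ?_
    rw [abs_mul, abs_of_nonneg (sq_nonneg y)]
    exact mul_le_mul_of_nonneg_left h2 (abs_nonneg _)
  unfold IQ.Q cA
  linarith

theorem exists_dir (z : ℂ) : ∃ u : ℂ, ‖u‖ = 1 ∧ z = (‖z‖ : ℝ) * u := by
  by_cases h : z = 0
  · exact ⟨1, by simp, by simp [h]⟩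
  · have h1 : ((‖z‖ : ℝ) : ℂ) ≠ 0 := by exact_mod_cast norm_ne_zero_iff.2 h
    refine ⟨z / (‖z‖ : ℝ), ?_, by field_simp⟩
    rw [norm_div, Complex.norm_real, norm_norm, div_self (norm_ne_zero_iff.2 h)]

theorem abs_sub_le_of_sq {p r e : ℝ} (hp : 0 ≤ p) (hr : 0 ≤ r) (he : 0 ≤ e)
    (h : |p ^ 2 - r ^ 2| ≤ e ^ 2) : |p - r| ≤ e := by
  refine abs_le_of_sq_le_sq ?_ he
  rw [abs_le] at h
  rcases le_total p r with h1 | h1 <;> nlinarith [h.1, h.2]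

theorem geo (F : IQ) {x y s μ α R : ℝ} {j : ℕ} {u : ℂ} {w : F.O} (hs : 0 < s) (hμ : 0 < μ)
    (hu : F.pt x y = (‖F.pt x y‖ : ℝ) * u) (h1 : j * (μ / 4) ^ 2 ≤ F.Q x y)
    (h2 : F.Q x y < (j + 1) * (μ / 4) ^ 2) (h3 : j * (μ / 4) ^ 2 * s ^ 2 < w.norm)
    (h4 : (w.norm : ℝ) ≤ (j + 1) * (μ / 4) ^ 2 * s ^ 2) (hR0 : 0 ≤ R) (hR : F.Q x y ≤ R ^ 2)
    (hα : R * α ≤ μ / 4) (h5 : ‖F.ang w - u‖ < α) :
    |(w.re : ℝ) - s * x| ≤ μ * s ∧ |(w.im : ℝ) - s * y| ≤ μ * s := by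
  have hw : w ≠ 0 := by
    rintro rfl
    have : 0 ≤ j * (μ / 4) ^ 2 * s ^ 2 := by positivity
    simp at h3
    linarith
  have hσ : ((‖F.σ w‖ : ℝ) : ℂ) ≠ 0 := by exact_mod_cast norm_ne_zero_iff.2 (F.σ_ne_zero hw)
  have hs' : (s : ℂ) ≠ 0 := by exact_mod_cast hs.ne'
  have e1 : F.pt (w.re / s - x) (w.im / s - y) = ((‖F.σ w‖ / s - ‖F.pt x y‖ : ℝ) : ℂ) * F.ang w
      + (‖F.pt x y‖ : ℝ) * (F.ang w - u) := by
    have e2 : F.pt (w.re / s - x) (w.im / s - y) = F.pt (w.re / s) (w.im / s) - F.pt x y := by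
      apply Complex.ext <;> simp only [IQ.pt, Complex.sub_re, Complex.sub_im] <;> ring
    rw [e2, F.pt_div, ← F.σ_apply, mul_sub, ← hu, IQ.ang]
    push_cast
    field_simp
    ring
  have e3 : |‖F.σ w‖ / s - ‖F.pt x y‖| ≤ μ / 4 := by
    refine abs_sub_le_of_sq (by positivity) (norm_nonneg _) (by positivity) ?_
    rw [div_pow, F.norm_σ_sq, F.norm_pt_sq, abs_le]
    rw [← lt_div_iff₀ (by positivity)] at h3
    rw [← div_le_iff₀ (by positivity)] at h4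
    constructor <;> linarith
  have e4 : ‖F.pt x y‖ ≤ R := by
    rw [← F.norm_pt_sq] at hR
    exact (pow_le_pow_iff_left₀ (norm_nonneg _) hR0 two_ne_zero).1 hR
  have e5 : ‖F.pt (w.re / s - x) (w.im / s - y)‖ ≤ μ / 2 := by
    rw [e1]
    refine (norm_add_le _ _).trans ?_
    rw [norm_mul, norm_mul, F.norm_ang hw, Complex.norm_real, Complex.norm_real, norm_norm,
      Real.norm_eq_abs, mul_one]
    have := mul_le_mul e4 h5.le (norm_nonneg _) hR0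
    linarith
  have e6 := pow_le_pow_left₀ (norm_nonneg _) e5 2
  rw [F.norm_pt_sq] at e6
  obtain ⟨e7, e8⟩ := F.sq_le_Q (w.re / s - x) (w.im / s - y)
  have key : ∀ r t : ℝ, (r / s - t) ^ 2 ≤ μ ^ 2 → |r - s * t| ≤ μ * s := by
    intro r t h
    have h6 := abs_le_of_sq_le_sq h hμ.le
    rw [show r - s * t = (r / s - t) * s by field_simp, abs_mul, abs_of_pos hs]
    exact mul_le_mul_of_nonneg_right h6 hs.le
  exact ⟨key _ _ (by nlinarith), key _ _ (by nlinarith)⟩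

theorem idx_unique {c n : ℝ} {j j' : ℕ} (hc : 0 < c) (h1 : j * c < n) (h2 : n ≤ (j + 1) * c)
    (h3 : j' * c < n) (h4 : n ≤ (j' + 1) * c) : j = j' := by
  have key : ∀ i i' : ℕ, i * c < (i' + 1) * c → i ≤ i' := fun i i' h => by
    have h5 : (i : ℝ) < i' + 1 := lt_of_mul_lt_mul_right h hc.le
    have h6 : i < i' + 1 := by exact_mod_cast h5
    omega
  exact le_antisymm (key _ _ (h1.trans_le h4)) (key _ _ (h3.trans_le h2))

theorem card_cells (q M : ℕ) : (cells q M).card = q ^ 2 * M ^ 2 := by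
  simp [cells, sq]

theorem mem_cells {q M : ℕ} {C : Cell} (h : C ∈ cells q M) :
    (0 ≤ C.2.1 ∧ C.2.1 < M) ∧ 0 ≤ C.2.2 ∧ C.2.2 < M := by
  simp only [cells, mem_product, mem_Ico] at h
  exact h.2

theorem abs_le_M {M : ℕ} {i i' : ℤ} {x l : ℝ} (h1 : 0 ≤ i ∧ i < M) (h2 : 0 ≤ i' ∧ i' < M)
    (hl : l ≤ 1) (h : |x - (i' - i : ℤ)| < l) : |x| ≤ M := by
  have a1 : ((i' - i : ℤ) : ℝ) ≤ M - 1 := by
    have : i' - i ≤ (M : ℤ) - 1 := by omega
    exact_mod_cast this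
  have a2 : -((M : ℝ) - 1) ≤ ((i' - i : ℤ) : ℝ) := by
    have : -((M : ℤ) - 1) ≤ i' - i := by omega
    exact_mod_cast this
  rw [abs_lt] at h
  rw [abs_le]
  constructor <;> linarith

theorem prod_cp (F : IQ) (h1 : AR1 F) {q : ℕ} (hq : q ≠ 0) (hD : F.Dn ∣ q) :
    ∏ p ∈ q.primeFactors, F.cp p = F.lam q * q * 2 ^ F.t := by
  classical
  have hq' : (q : ℝ) ≠ 0 := by exact_mod_cast hq
  rw [IQ.lam, div_mul_cancel₀ _ hq', ← prod_filter_mul_prod_filter_not _ F.inert]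
  congr 1
  · exact prod_congr (by ext p; simp) (fun p hp => by rw [IQ.cp, if_pos (mem_filter.1 hp).2])
  · rw [prod_congr rfl (g := fun p => if F.ram p then (2 : ℝ) else 1) (fun p hp => by
      rw [IQ.cp, if_neg (mem_filter.1 hp).2]), ← prod_filter, prod_const, IQ.t]
    congr 2
    ext p
    have hD0 : F.Dn ≠ 0 := by
      have := F.D_le
      simp only [IQ.Dn, ne_eq, Int.natAbs_eq_zero]
      omega
    simp only [mem_filter, Nat.mem_primeFactors, IQ.ram, Int.natCast_dvd]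
    constructor
    · rintro ⟨⟨⟨a1, -, -⟩, -⟩, a2⟩
      exact ⟨a1, a2, hD0⟩
    · rintro ⟨a1, a2, -⟩
      exact ⟨⟨⟨a1, a2.trans hD, hq⟩, h1.ram_not_inert p a1 (Int.natCast_dvd.2 a2)⟩, a2⟩

theorem lam_div (F : IQ) {q k m : ℕ} (hq : q ≠ 0) (h : m * q ^ 2 ∣ q ^ k) :
    F.lam (q ^ k / m) / m = F.lam q * q / q ^ k := by
  obtain ⟨e, he⟩ := h
  have hk : q ^ k ≠ 0 := pow_ne_zero _ hq
  have hm : m ≠ 0 := by rintro rfl; simp [hq] at he
  have e1 : q ^ k / m = q ^ 2 * e := by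
    rw [he, mul_assoc, Nat.mul_div_cancel_left _ (Nat.pos_of_ne_zero hm)]
  have he0 : e ≠ 0 := by rintro rfl; simp [hq] at he
  have e2 : (q ^ k / m).primeFactors = q.primeFactors := by
    ext p
    simp only [Nat.mem_primeFactors, e1]
    constructor
    · rintro ⟨a1, a2, -⟩
      refine ⟨a1, a1.dvd_of_dvd_pow (n := k) ?_, hq⟩
      rw [he, mul_assoc]
      exact a2.mul_left _
    · rintro ⟨a1, a2, -⟩
      exact ⟨a1, (a2.trans (dvd_pow_self q two_ne_zero)).mul_right _,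
        mul_ne_zero (pow_ne_zero _ hq) he0⟩
  have hq' : (q : ℝ) ≠ 0 := by exact_mod_cast hq
  have hm' : (m : ℝ) ≠ 0 := by exact_mod_cast hm
  have he' : (e : ℝ) ≠ 0 := by exact_mod_cast he0
  have e3 : (q : ℝ) ^ k = m * q ^ 2 * e := by exact_mod_cast he
  rw [IQ.lam, IQ.lam, e2, e1, e3]
  push_cast
  field_simp

end Pool.Agent.Lib.DL.TGT
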