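import Pool.Agent.Lib.DL.Blue
import Pool.Agent.Lib.helper57.PNT

set_option autoImplicit false

namespace Pool.Agent.Lib.DL

open Finset Filter Topology
open Pool.Agent.Lib.MP_d48457_nt (ind ind_pos ind_neg ind_nonneg)

namespace THETA

theorem q_ne (F : IQ) : 4 * F.Dn ≠ 0 := by
  have h := F.D_le
  have : F.D.natAbs ≠ 0 := Int.natAbs_ne_zero.mpr (by omega)
  show 4 * F.D.natAbs ≠ 0
  omega

theorem chi_neg (F : IQ) (hC : CHI F) [NeZero (4 * F.Dn)] (a : ZMod (4 * F.Dn)) (ha : IsUnit a) :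
    F.chi (-a).val = - F.chi a.val := by
  have hq := q_ne F
  have hcop : Nat.Coprime a.val (4 * F.Dn) := by
    have h1 : IsUnit ((a.val : ℕ) : ZMod (4 * F.Dn)) := by
      rw [ZMod.natCast_zmod_val]; exact ha
    exact (ZMod.isUnit_iff_coprime _ _).mp h1
  have hodd : Odd a.val := by
    have h2 : Nat.Coprime a.val 2 :=
      Nat.Coprime.coprime_dvd_right (Dvd.intro (2 * F.Dn) (by ring)) hcop
    exact Nat.coprime_two_right.mp h2
  have hodd' : Odd (4 * F.Dn - 1) := ⟨2 * F.Dn - 1, by omega⟩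
  have hne : a.val ≠ 0 := by
    rintro h
    rw [h] at hodd
    exact absurd hodd (by decide)
  have hne' : 4 * F.Dn - 1 ≠ 0 := by omega
  have hmod : (4 * F.Dn - 1) * a.val ≡ (-a).val [MOD 4 * F.Dn] := by
    rw [← ZMod.natCast_eq_natCast_iff]
    have h1 : 1 ≤ 4 * F.Dn := by omega
    rw [Nat.cast_mul, Nat.cast_sub h1, ZMod.natCast_self, ZMod.natCast_zmod_val,
      ZMod.natCast_zmod_val]
    simp
  rw [← hC.per _ _ (hodd'.mul hodd) hmod, hC.mul _ _ hne' hne, hC.neg]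
  ring

theorem card_half (q : ℕ) [NeZero q] (A : Finset (ZMod q)) (hu : ∀ a ∈ A, IsUnit a)
    (hn : ∀ a ∈ A, -a ∉ A) : 2 * A.card ≤ q.totient := by
  have hdis : Disjoint A (A.image (fun a => -a)) := by
    rw [disjoint_left]
    intro x hx hx'
    obtain ⟨a, ha, rfl⟩ := mem_image.mp hx'
    exact hn a ha hx
  have hc : (A.image (fun a => -a)).card = A.card :=
    card_image_of_injective _ neg_injective
  have hsub : A ∪ A.image (fun a => -a) ⊆
      (univ : Finset (ZMod q)ˣ).map ⟨Units.val, Units.val_injective⟩ := by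
    intro x hx
    have hx' : IsUnit x := by
      rcases mem_union.mp hx with h | h
      · exact hu x h
      · obtain ⟨a, ha, rfl⟩ := mem_image.mp h
        exact (hu a ha).neg
    obtain ⟨u, rfl⟩ := hx'
    exact mem_map.mpr ⟨u, mem_univ _, rfl⟩
  have h1 := card_le_card hsub
  rw [card_union_of_disjoint hdis, hc, card_map, card_univ, ZMod.card_units_eq_totient] at h1
  omega

open Classical in
theorem card_le (F : IQ) (hC : CHI F) [NeZero (4 * F.Dn)] :
    2 * (univ.filter (fun a : ZMod (4 * F.Dn) => IsUnit a ∧ F.chi a.val = 1)).card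
      ≤ (4 * F.Dn).totient := by
  refine card_half _ _ (fun a ha => (mem_filter.mp ha).2.1) (fun a ha hx => ?_)
  have h1 := (mem_filter.mp hx).2.2
  have h2 := (mem_filter.mp ha).2
  rw [chi_neg F hC a h2.1, h2.2] at h1
  omega

open Classical in
theorem sum_le (F : IQ) (hC : CHI F) [NeZero (4 * F.Dn)] (n : ℕ) :
    ∑ p ∈ Icc 1 n, ind (p.Prime ∧ ¬ F.inert p) * Real.log p ≤
      (∑ p ∈ Icc 1 (4 * F.Dn), Real.log p) +
      ∑ a ∈ univ.filter (fun a : ZMod (4 * F.Dn) => IsUnit a ∧ F.chi a.val = 1),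
        ∑ p ∈ (Icc 1 n).filter (fun p : ℕ => p.Prime ∧ (p : ZMod (4 * F.Dn)) = a), Real.log p := by
  set A := univ.filter (fun a : ZMod (4 * F.Dn) => IsUnit a ∧ F.chi a.val = 1) with hA
  have hq := q_ne F
  have hlog : ∀ p : ℕ, 0 ≤ Real.log p := fun p => Real.log_natCast_nonneg p
  have e1 : ∑ a ∈ A, ∑ p ∈ (Icc 1 n).filter (fun p : ℕ => p.Prime ∧ (p : ZMod (4 * F.Dn)) = a),
      Real.log p = ∑ p ∈ Icc 1 n, ∑ a ∈ A,
        (if p.Prime ∧ (p : ZMod (4 * F.Dn)) = a then Real.log p else 0) := by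
    rw [sum_comm]
    exact sum_congr rfl (fun a _ => sum_filter _ _)
  have e2 : ∑ p ∈ Icc 1 n, (if p ∣ 4 * F.Dn then Real.log p else 0) ≤
      ∑ p ∈ Icc 1 (4 * F.Dn), Real.log p := by
    rw [← sum_filter]
    refine sum_le_sum_of_subset_of_nonneg ?_ (fun p _ _ => hlog p)
    intro p hp
    obtain ⟨h1, h2⟩ := mem_filter.mp hp
    exact mem_Icc.mpr ⟨(mem_Icc.mp h1).1, Nat.le_of_dvd (Nat.pos_of_ne_zero hq) h2⟩
  rw [e1]
  refine le_trans ?_ (add_le_add e2 le_rfl)
  rw [← sum_add_distrib]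
  refine sum_le_sum (fun p _ => ?_)
  have hs : 0 ≤ ∑ a ∈ A, (if p.Prime ∧ (p : ZMod (4 * F.Dn)) = a then Real.log p else 0) :=
    sum_nonneg (fun a _ => by split_ifs; exacts [hlog p, le_rfl])
  by_cases h : p.Prime ∧ ¬ F.inert p
  · rw [ind_pos h, one_mul]
    by_cases hd : p ∣ 4 * F.Dn
    · rw [if_pos hd]; linarith
    · rw [if_neg hd, zero_add]
      have hram : ¬ F.ram p := fun hr => hd (Dvd.dvd.mul_left (Int.natCast_dvd.mp hr) 4)
      have hchi : F.chi p = 1 := (hC.split_iff p h.1 hd).mp ⟨h.2, hram⟩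
      have hcop : Nat.Coprime p (4 * F.Dn) := (Nat.Prime.coprime_iff_not_dvd h.1).mpr hd
      have hodd : Odd p := by
        have h2 : Nat.Coprime p 2 :=
          Nat.Coprime.coprime_dvd_right (Dvd.intro (2 * F.Dn) (by ring)) hcop
        exact Nat.coprime_two_right.mp h2
      have hmem : (p : ZMod (4 * F.Dn)) ∈ A := by
        refine mem_filter.mpr ⟨mem_univ _, (ZMod.isUnit_iff_coprime _ _).mpr hcop, ?_⟩
        rw [← hchi]
        refine (hC.per _ _ hodd ?_).symm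
        rw [ZMod.val_natCast]
        exact (Nat.mod_modEq _ _).symm
      have h3 := single_le_sum (f := fun a : ZMod (4 * F.Dn) =>
        (if p.Prime ∧ (p : ZMod (4 * F.Dn)) = a then Real.log p else 0))
        (fun a _ => by split_ifs; exacts [hlog p, le_rfl]) hmem
      rw [if_pos ⟨h.1, rfl⟩] at h3
      exact h3
  · rw [ind_neg h, zero_mul]
    have : 0 ≤ (if p ∣ 4 * F.Dn then Real.log p else 0) := by
      split_ifs; exacts [hlog p, le_rfl]
    linarith

end THETA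

open Classical in
theorem stTHETA (hC : St_CHI) : St_THETA := by
  intro F ε hε
  have : NeZero (4 * F.Dn) := ⟨THETA.q_ne F⟩
  set A := univ.filter (fun a : ZMod (4 * F.Dn) => IsUnit a ∧ F.chi a.val = 1) with hA
  set C : ℝ := ∑ p ∈ Icc 1 (4 * F.Dn), Real.log p with hCdef
  have t1 : Tendsto (fun y : ℝ => C / y) atTop (𝓝 0) := tendsto_const_nhds.div_atTop tendsto_id
  have t2 : Tendsto (fun y : ℝ => ∑ a ∈ A, (∑ p ∈ (Icc 1 ⌊y⌋₊).filter
      (fun p : ℕ => p.Prime ∧ (p : ZMod (4 * F.Dn)) = a), Real.log p) / y) atTop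
      (𝓝 (∑ _a ∈ A, (((4 * F.Dn).totient : ℝ))⁻¹)) :=
    tendsto_finsetSum _ (fun a ha => helper57.pnt_ap_theta (mem_filter.mp ha).2.1)
  have t3 := t1.add t2
  have hφ : (0 : ℝ) < ((4 * F.Dn).totient : ℝ) := by
    exact_mod_cast Nat.totient_pos.mpr (Nat.pos_of_ne_zero (THETA.q_ne F))
  have hlt : (0 : ℝ) + ∑ _a ∈ A, (((4 * F.Dn).totient : ℝ))⁻¹ < 1 / 2 + ε := by
    have h1 : (2 : ℝ) * A.card ≤ ((4 * F.Dn).totient : ℝ) := by
      exact_mod_cast THETA.card_le F (hC F)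
    rw [sum_const, nsmul_eq_mul, zero_add, ← div_eq_mul_inv]
    have h2 : (A.card : ℝ) / ((4 * F.Dn).totient : ℝ) ≤ 1 / 2 := by
      rw [div_le_iff₀ hφ]; linarith
    linarith
  filter_upwards [t3.eventually (gt_mem_nhds hlt), eventually_gt_atTop (0 : ℝ)] with y hy hy0
  rw [← sum_div, ← add_div, div_lt_iff₀ hy0] at hy
  exact (THETA.sum_le F (hC F) ⌊y⌋₊).trans hy.le

end Pool.Agent.Lib.DL
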