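import Pool.Agent.Lib.DL.MA
import Pool.Agent.Lib.DL.REG

set_option autoImplicit false

namespace Pool.Agent.Lib.DL

open QuadraticAlgebra Finset Filter Topology
open Pool.Agent.Lib.MP_d48457_nt (ind ind_pos ind_neg ind_nonneg)

namespace UNIF

theorem orthC {α β : Type} (B : Finset α) (c : α → β) (f : α → ℝ) (h : β → ℂ) :
    ∑ x ∈ B, ((f x - avg B c f x : ℝ) : ℂ) * h (c x) = 0 := by
  have h1 := REG.orth B c f (fun x => (h (c x)).re) fun x _ y _ e => by rw [e]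
  have h2 := REG.orth B c f (fun x => (h (c x)).im) fun x _ y _ e => by rw [e]
  apply Complex.ext
  · rw [Complex.re_sum, Complex.zero_re, ← sub_eq_zero.2 h1.symm, ← sum_sub_distrib]
    refine sum_congr rfl fun x _ => ?_
    rw [Complex.re_ofReal_mul]
    ring
  · rw [Complex.im_sum, Complex.zero_im, ← sub_eq_zero.2 h2.symm, ← sum_sub_distrib]
    refine sum_congr rfl fun x _ => ?_
    rw [Complex.im_ofReal_mul]
    ring

theorem small {α β : Type} (B : Finset α) (c : α → β) (f : α → ℝ) (hf : ∀ x, 0 ≤ f x ∧ f x ≤ 1)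
    (t : α → ℂ) (κ : ℝ) (ht : ∀ x ∈ B, ∀ y ∈ B, c x = c y → ‖t x - t y‖ ≤ κ) :
    ‖∑ x ∈ B, ((f x - avg B c f x : ℝ) : ℂ) * t x‖ ≤ κ * B.card := by
  classical
  let h : β → ℂ := fun C => if e : ∃ y ∈ B, c y = C then t e.choose else 0
  have h1 : ∀ x ∈ B, ‖t x - h (c x)‖ ≤ κ := fun x hx => by
    have e : ∃ y ∈ B, c y = c x := ⟨x, hx, rfl⟩
    simp only [h, dif_pos e]
    exact ht x hx _ e.choose_spec.1 e.choose_spec.2.symm
  rw [← sub_zero (∑ x ∈ B, _), ← orthC B c f h, ← sum_sub_distrib, mul_comm, ← nsmul_eq_mul]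
  refine (norm_sum_le _ _).trans (sum_le_card_nsmul _ _ _ fun x hx => ?_)
  rw [← mul_sub, norm_mul, Complex.norm_real, Real.norm_eq_abs]
  have a1 := hf x
  have a2 := REG.avg_mem B c f hf x
  have a3 : |f x - avg B c f x| ≤ 1 := abs_le.2 ⟨by linarith [a1.1, a2.2], by linarith [a1.2, a2.1]⟩
  calc _ ≤ 1 * κ := mul_le_mul a3 (h1 x hx) (norm_nonneg _) zero_le_one
    _ = κ := one_mul _

theorem coord {N q s : ℕ} (hN : N ≠ 0) (hq : N ∣ q) (hs : 0 < s) {a b : ℤ} (h1 : a % q = b % q)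
    (h2 : a / s = b / s) : ∃ z : ℤ, a - b = N * z ∧ |(z : ℝ)| ≤ s := by
  obtain ⟨z, hz⟩ : (N : ℤ) ∣ a - b :=
    (Int.natCast_dvd_natCast.2 hq).trans (Int.ModEq.dvd (n := q) h1.symm)
  refine ⟨z, hz, ?_⟩
  have hs' : (0 : ℤ) < s := by exact_mod_cast hs
  have e1 := Int.emod_add_mul_ediv a s
  have e2 := Int.emod_add_mul_ediv b s
  have e3 := Int.emod_nonneg a hs'.ne'
  have e4 := Int.emod_nonneg b hs'.ne'
  have e5 := Int.emod_lt_of_pos a hs'
  have e6 := Int.emod_lt_of_pos b hs'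
  rw [h2] at e1
  have e7 : |a - b| ≤ s := abs_le.2 ⟨by linarith, by linarith⟩
  have hN' : (1 : ℤ) ≤ N := by exact_mod_cast Nat.pos_of_ne_zero hN
  rw [hz, abs_mul, abs_of_nonneg (by linarith : (0 : ℤ) ≤ N)] at e7
  have e8 : |z| ≤ s := le_trans (le_mul_of_one_le_left (abs_nonneg z) hN') e7
  exact_mod_cast e8

theorem cell_close {F : IQ} {θ : AddChar F.O Circle} {N q s : ℕ} {η : ℝ} (hη : 0 ≤ η) (hN : N ≠ 0)
    (hq : N ∣ q) (hs : 0 < s) (h : F.Maj θ N η) {x y : F.O} (e : F.cell q s x = F.cell q s y) :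
    ‖(θ x : ℂ) - θ y‖ ≤ 2 * s * η := by
  simp only [IQ.cell, Prod.mk.injEq] at e
  obtain ⟨u, hu, hu'⟩ := coord hN hq hs e.1.1 e.2.1
  obtain ⟨v, hv, hv'⟩ := coord hN hq hs e.1.2 e.2.2
  have e1 : x = (N : F.O) * ⟨u, v⟩ + y := by
    ext <;> simp <;> linarith
  have h1 := h.mul ⟨u, v⟩
  rw [e1, AddChar.map_add_eq_mul, Circle.coe_mul, ← sub_one_mul, norm_mul, Circle.norm_coe, mul_one]
  refine h1.trans (mul_le_mul_of_nonneg_right ?_ hη)
  change |(u : ℝ)| + |(v : ℝ)| ≤ _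
  linarith

theorem AA_symm (F : IQ) (L : ℕ) (f g : F.O → ℝ) (m : ℕ) : F.AA L f g m = F.AA L g f m := by
  rw [IQ.AA, IQ.AA, sum_comm]
  congr 1
  refine sum_congr rfl fun x _ => sum_congr rfl fun y _ => ?_
  rw [← neg_sub y x, QuadraticAlgebra.norm_neg, mul_comm (f y)]

theorem AA_sub (F : IQ) (L : ℕ) (f g : F.O → ℝ) (m : ℕ) : F.AA L f f m - F.AA L g g m =
    F.AA L f (fun x => f x - g x) m + F.AA L g (fun x => f x - g x) m := by
  have e : ∀ h : F.O → ℝ, F.AA L h (fun x => f x - g x) m = F.AA L h f m - F.AA L h g m := by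
    intro h
    simp only [IQ.AA, ← sub_div, ← sum_sub_distrib]
    congr 1
    refine sum_congr rfl fun x _ => sum_congr rfl fun y _ => by ring
  rw [e, e, AA_symm F L g f]
  ring

end UNIF

theorem stUNIF (h2 : St_AR2) (hW : St_WU) (hM : St_MA) (hP : St_PLAN) : St_UNIF := by
  intro F B hB hB0 A ε hA hε
  have hw : (0 : ℝ) < F.w := by exact_mod_cast F.w_pos
  obtain ⟨N, C, hN, hC, hX⟩ := hM F B hB hB0 ((ε / (4 * A)) ^ 2 / (B + 1)) (by positivity)
  set κ : ℝ := ε / (256 * C ^ 2 * F.w * (B + 1)) with hκ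
  have hκ0 : 0 < κ := by positivity
  refine ⟨N, ⌈2 * C / κ⌉₊ + 1, hN, by omega, ?_⟩
  have hT : Tendsto (fun L : ℕ => A * (L : ℝ) ^ 2) atTop atTop :=
    ((tendsto_pow_atTop two_ne_zero).comp tendsto_natCast_atTop_atTop).const_mul_atTop (by linarith)
  filter_upwards [hT.eventually hX, hT.eventually (hW F B hB 1 one_pos), eventually_ge_atTop 2]
    with L h1 h3 hL q s hq hs hsL f hf
  have hL' : (2 : ℝ) ≤ L := by exact_mod_cast hL
  set X : ℝ := A * (L : ℝ) ^ 2 with hXd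
  have hLX : (L : ℝ) ^ 2 ≤ X := le_mul_of_one_le_left (by positivity) hA
  have hl0 : 0 < Real.log ((L : ℝ) ^ 2) := Real.log_pos (by nlinarith)
  have hl1 : Real.log ((L : ℝ) ^ 2) ≤ Real.log X := Real.log_le_log (by positivity) hLX
  have hr0 : 0 < √(Real.log ((L : ℝ) ^ 2)) := Real.sqrt_pos.2 hl0
  have hr1 : √(Real.log ((L : ℝ) ^ 2)) ≤ √(Real.log X) := Real.sqrt_le_sqrt hl1
  have hX0 : 0 < X := by positivity
  have hsX : (L : ℝ) ≤ √X := Real.le_sqrt_of_sq_le hLX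
  have hr2 : 0 < √(Real.log X) := hr0.trans_le hr1
  set U : ℝ := X / √(Real.log X) with hU
  have hU0 : 0 < U := by positivity
  rw [mul_div_assoc] at h3
  have s1 : ∀ θ : AddChar F.O Circle,
      ∑ m ∈ Icc 1 ⌊X⌋₊, ‖F.ah θ m‖ ≤ F.w * ((B + 1) * U) := fun θ => by
    refine (sum_le_sum fun m _ => MA.ah_le (h2 F) θ m).trans ?_
    rw [← mul_sum]
    exact mul_le_mul_of_nonneg_left h3 hw.le
  have s2 : ∀ θ : AddChar F.O Circle, ¬ F.Maj θ N (C / √X) →
      ∑ m ∈ Icc 1 ⌊X⌋₊, ‖F.ah θ m‖ ≤ ε / (4 * A) * U := fun θ hθ => by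
    have a1 := h1 θ hθ
    rw [mul_div_assoc] at a1
    have a2 := sum_mul_sq_le_sq_mul_sq (Icc 1 ⌊X⌋₊) (fun m => ind (F.M m)) fun m => ‖F.ah θ m‖
    have a3 : ∀ m ∈ Icc 1 ⌊X⌋₊, ind (F.M m) * ‖F.ah θ m‖ = ‖F.ah θ m‖ := fun m _ => by
      by_cases hm : F.M m
      · rw [ind_pos hm, one_mul]
      · have := MA.ah_le (h2 F) θ m
        rw [ind_neg hm, mul_zero] at this
        rw [le_antisymm this (norm_nonneg _), mul_zero]
    have a4 : ∀ m ∈ Icc 1 ⌊X⌋₊, ind (F.M m) ^ 2 = ind (F.M m) := fun m _ => by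
      by_cases hm : F.M m
      · rw [ind_pos hm, one_pow]
      · rw [ind_neg hm, zero_pow two_ne_zero]
    rw [sum_congr rfl a3, sum_congr rfl a4] at a2
    refine (pow_le_pow_iff_left₀ (sum_nonneg fun m _ => norm_nonneg _) (by positivity)
      two_ne_zero).1 (a2.trans ?_)
    refine (mul_le_mul h3 a1 (sum_nonneg fun m _ => sq_nonneg _) (by positivity)).trans
      (le_of_eq ?_)
    rw [← hU]
    field_simp
  have hη : 0 < C / √X := by positivity
  have s3 : ∀ θ : AddChar F.O Circle, F.Maj θ N (C / √X) →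
      ‖∑ x ∈ F.sqr L, ((f x - avg (F.sqr L) (F.cell q s) f x : ℝ) : ℂ) * θ x‖ ≤ κ * L ^ 2 := by
    intro θ hθ
    have := UNIF.small (F.sqr L) (F.cell q s) f hf (fun x => θ x) κ fun x _ y _ e => by
      refine (UNIF.cell_close hη.le hN hq hs hθ e).trans ?_
      have b1 : ((⌈2 * C / κ⌉₊ + 1 : ℝ)) * s ≤ L := by exact_mod_cast hsL
      have b2 := Nat.le_ceil (2 * C / κ)
      have b3 : 2 * C / κ * s ≤ √X := by
        have : (0 : ℝ) ≤ s := Nat.cast_nonneg _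
        nlinarith
      rw [div_mul_eq_mul_div, div_le_iff₀ hκ0] at b3
      rw [← mul_div_assoc, div_le_iff₀ (by positivity)]
      linarith
    rwa [F.card_sqr, Nat.cast_pow] at this
  have hav := REG.avg_mem (F.sqr L) (F.cell q s) f hf
  have hφ : ∀ x, |f x - avg (F.sqr L) (F.cell q s) f x| ≤ 1 := fun x =>
    abs_le.2 ⟨by linarith [(hf x).1, (hav x).2], by linarith [(hf x).2, (hav x).1]⟩
  have p1 := hP F L N X _ _ _ κ f _ hN hη (by positivity) hκ0.le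
    (fun x => abs_le.2 ⟨by linarith [(hf x).1], (hf x).2⟩) hφ s1 s2 s3
  have p2 := hP F L N X _ _ _ κ (avg (F.sqr L) (F.cell q s) f) _ hN hη (by positivity) hκ0.le
    (fun x => abs_le.2 ⟨by linarith [(hav x).1], (hav x).2⟩) hφ s1 s2 s3
  have e : ε / (4 * A) * U * L ^ 2 + 64 * (C / √X) ^ 2 * (F.w * ((B + 1) * U)) * κ * L ^ 4 =
      ε * L ^ 4 / √(Real.log X) / 2 := by
    rw [div_pow, Real.sq_sqrt hX0.le, hU, hκ, hXd]
    field_simp
    ring
  rw [e] at p1 p2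
  have e2 : ε * L ^ 4 / √(Real.log X) ≤ ε * L ^ 4 / √(Real.log ((L : ℝ) ^ 2)) := by gcongr
  refine le_trans (sum_le_sum fun m _ => ?_) (le_trans (sum_add_distrib.le.trans
    (add_le_add p1 p2)) (by linarith))
  rw [UNIF.AA_sub]
  exact abs_add_le _ _

end Pool.Agent.Lib.DL
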