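import Pool.Agent.Lib.DL.Blue
import Pool.Agent.Lib.helper57.PNT

set_option autoImplicit false

namespace Pool.Agent.Lib.DL

open QuadraticAlgebra Finset Filter Topology
open Pool.Agent.Lib.MP_d48457_nt (ind ind_pos ind_neg ind_nonneg ind_le_one ind_and ind_congr
  ind_mono sum_ind_eq_card)

namespace WIRL

/-- The Chebyshev function of a residue class. -/
noncomputable def th (q : ℕ) (r : ZMod q) (y : ℝ) : ℝ :=
  ∑ p ∈ (Icc 1 ⌊y⌋₊).filter (fun p : ℕ => p.Prime ∧ (p : ZMod q) = r), Real.log p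

theorem th_nonneg (q : ℕ) (r : ZMod q) (y : ℝ) : 0 ≤ th q r y :=
  sum_nonneg (fun p _ => Real.log_natCast_nonneg p)

theorem th_mono (q : ℕ) (r : ZMod q) {y z : ℝ} (h : y ≤ z) : th q r y ≤ th q r z := by
  refine sum_le_sum_of_subset_of_nonneg ?_ (fun p _ _ => Real.log_natCast_nonneg p)
  exact filter_subset_filter _ (Icc_subset_Icc_right (Nat.floor_le_floor h))

theorem pnt_one (q : ℕ) [NeZero q] (e : ℝ) (he : 0 < e) (r : ZMod q) :
    ∃ C : ℝ, 0 ≤ C ∧ (IsUnit r → ∀ y : ℝ, 0 ≤ y →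
      |th q r y - y * (q.totient : ℝ)⁻¹| ≤ e * y + C) := by
  by_cases hr : IsUnit r
  · have h := helper57.pnt_ap_theta hr
    have h2 := (Metric.tendsto_nhds.1 h) e he
    obtain ⟨y0, hy0⟩ := eventually_atTop.1 (h2.and (eventually_gt_atTop 0))
    have hφ : (1 : ℝ) ≤ q.totient := by
      exact_mod_cast Nat.totient_pos.2 (Nat.pos_of_ne_zero (NeZero.ne q))
    have hφ1 : (q.totient : ℝ)⁻¹ ≤ 1 := inv_le_one_of_one_le₀ hφ
    have hφ0 : 0 ≤ (q.totient : ℝ)⁻¹ := by positivity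
    refine ⟨th q r y0 + |y0|, add_nonneg (th_nonneg _ _ _) (abs_nonneg _), fun _ y hy => ?_⟩
    have h0 := th_nonneg q r y0
    have h1 := abs_nonneg y0
    by_cases hyy : y0 ≤ y
    · obtain ⟨h3, h4⟩ := hy0 y hyy
      rw [Real.dist_eq] at h3
      have h5 : th q r y - y * (q.totient : ℝ)⁻¹ = (th q r y / y - (q.totient : ℝ)⁻¹) * y := by
        field_simp
      rw [h5, abs_mul, abs_of_pos h4]
      have : |th q r y / y - (q.totient : ℝ)⁻¹| * y ≤ e * y :=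
        mul_le_mul_of_nonneg_right h3.le hy
      linarith
    · have hy' : y ≤ y0 := (not_le.1 hyy).le
      have h3 := th_mono q r hy'
      have h4 := th_nonneg q r y
      have h5 : y * (q.totient : ℝ)⁻¹ ≤ y := mul_le_of_le_one_right hy hφ1
      have h6 : 0 ≤ y * (q.totient : ℝ)⁻¹ := mul_nonneg hy hφ0
      have h7 := le_abs_self y0
      have h8 : 0 ≤ e * y := mul_nonneg he.le hy
      rw [abs_le]
      constructor <;> linarith
  · exact ⟨0, le_rfl, fun h => absurd h hr⟩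

theorem pnt_unif (q : ℕ) [NeZero q] (e : ℝ) (he : 0 < e) :
    ∃ C : ℝ, 0 ≤ C ∧ ∀ r : ZMod q, IsUnit r → ∀ y : ℝ, 0 ≤ y →
      |th q r y - y * (q.totient : ℝ)⁻¹| ≤ e * y + C := by
  choose C hC0 hC using pnt_one q e he
  refine ⟨∑ r, C r, sum_nonneg (fun r _ => hC0 r), fun r hr y hy => ?_⟩
  have h1 : C r ≤ ∑ r, C r := single_le_sum (f := C) (fun r _ => hC0 r) (mem_univ r)
  have := hC r hr y hy
  linarith

open Classical in
theorem th_sub (q : ℕ) (r : ZMod q) (u v : ℝ) :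
    th q r v - th q r u ≤ ∑ p ∈ (Icc 1 ⌊v⌋₊).filter
      (fun p : ℕ => (p.Prime ∧ (p : ZMod q) = r) ∧ u < p), Real.log p := by
  have h1 := sum_filter_add_sum_filter_not
    ((Icc 1 ⌊v⌋₊).filter (fun p : ℕ => p.Prime ∧ (p : ZMod q) = r)) (fun p : ℕ => u < p)
    (fun p : ℕ => Real.log p)
  rw [filter_filter, filter_filter] at h1
  have h2 : ∑ p ∈ (Icc 1 ⌊v⌋₊).filter
      (fun p : ℕ => (p.Prime ∧ (p : ZMod q) = r) ∧ ¬ u < p), Real.log p ≤ th q r u := by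
    refine sum_le_sum_of_subset_of_nonneg ?_ (fun p _ _ => Real.log_natCast_nonneg p)
    intro p hp
    rw [mem_filter, mem_Icc] at hp ⊢
    exact ⟨⟨hp.1.1, Nat.le_floor (not_lt.1 hp.2.2)⟩, hp.2.1⟩
  have h3 : th q r v = ∑ p ∈ (Icc 1 ⌊v⌋₊).filter
      (fun p : ℕ => p.Prime ∧ (p : ZMod q) = r), Real.log p := rfl
  linarith

theorem sum_log_le (m : ℕ) (hm : m ≠ 0) : ∑ p ∈ m.primeFactors, Real.log p ≤ Real.log m := by
  rw [← Real.log_prod (fun p hp => by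
    exact_mod_cast (Nat.prime_of_mem_primeFactors hp).ne_zero)]
  have h1 : ∏ p ∈ m.primeFactors, p ≤ m :=
    Nat.le_of_dvd (Nat.pos_of_ne_zero hm) (Nat.prod_primeFactors_dvd m)
  have h2 : 0 < ∏ p ∈ m.primeFactors, (p : ℝ) :=
    prod_pos (fun p hp => by exact_mod_cast (Nat.prime_of_mem_primeFactors hp).pos)
  refine Real.log_le_log h2 ?_
  rw [← Nat.cast_prod]
  exact Nat.cast_le.2 h1

theorem good_mul (F : IQ) (hC : CHI F) {q a k p : ℕ} (hq : 4 * F.Dn ∣ q) (ha : Nat.Coprime a q)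
    (hchi : F.chi a = 1) (hk : F.M k) (hkq : Nat.Coprime k q) (hp : p.Prime)
    (hpk : p * k ≡ a [MOD q]) : F.M (p * k) := by
  have h2 : 2 ∣ q := Dvd.dvd.trans ⟨2 * F.Dn, by ring⟩ hq
  have hodd : Odd a := by
    rw [← Nat.coprime_two_right]
    exact Nat.Coprime.coprime_dvd_right h2 ha
  have h3 : F.chi a = F.chi (p * k) := hC.per a (p * k) hodd (hpk.symm.of_dvd hq)
  rw [hC.mul p k hp.ne_zero hk.1, hC.of_M k hk (Nat.Coprime.coprime_dvd_right hq hkq), hchi,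
    mul_one] at h3
  have h4 : ¬ p ∣ 4 * F.Dn := by
    intro h
    have h5 : p ∣ q := h.trans hq
    have h6 : p ∣ a := ((hpk.of_dvd h5).dvd_iff dvd_rfl).1 (Dvd.intro k rfl)
    exact hp.one_lt.ne' (Nat.eq_one_of_dvd_coprimes ha h6 h5)
  have h5 : ¬ F.inert p := ((hC.split_iff p hp h4).2 h3.symm).1
  refine ⟨mul_ne_zero hp.ne_zero hk.1, fun r hr hE => ?_⟩
  have hne : p ≠ r := fun h => h5 (h ▸ hE)
  rw [Nat.factorization_mul hp.ne_zero hk.1, Finsupp.add_apply, hp.factorization,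
    Finsupp.single_eq_of_ne hne.symm, zero_add]
  exact hk.2 r hr hE

open Classical in
theorem double (F : IQ) (hC : CHI F) {q a : ℕ} [NeZero q] (hq : 4 * F.Dn ∣ q)
    (ha : Nat.Coprime a q) (hchi : F.chi a = 1) (u v : ℝ) (hv : 1 ≤ v) (N : ℕ) :
    ∑ k ∈ (Icc 1 N).filter (fun k : ℕ => F.M k ∧ Nat.Coprime k q),
      (th q ((a : ZMod q) * (k : ZMod q)⁻¹) (v / k) - th q ((a : ZMod q) * (k : ZMod q)⁻¹) (u / k))
      ≤ Real.log v * ∑ m ∈ Icc 1 ⌊v⌋₊, ind (u < m ∧ F.M m ∧ m ≡ a [MOD q]) := by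
  refine (sum_le_sum (fun k _ => th_sub q _ _ _)).trans ?_
  rw [sum_sigma']
  have hR : ∑ m ∈ (Icc 1 ⌊v⌋₊).filter (fun m : ℕ => u < m ∧ F.M m ∧ m ≡ a [MOD q]),
      ∑ p ∈ m.primeFactors, Real.log p
      ≤ Real.log v * ∑ m ∈ Icc 1 ⌊v⌋₊, ind (u < m ∧ F.M m ∧ m ≡ a [MOD q]) := by
    rw [sum_ind_eq_card, mul_comm, ← nsmul_eq_mul]
    refine sum_le_card_nsmul _ _ _ (fun m hm => ?_)
    rw [mem_filter, mem_Icc] at hm
    refine (sum_log_le m (by omega)).trans (Real.log_le_log (by exact_mod_cast hm.1.1) ?_)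
    exact (Nat.le_floor_iff (by linarith)).1 hm.1.2
  refine le_trans ?_ hR
  rw [sum_sigma']
  have key : ∀ x ∈ ((Icc 1 N).filter (fun k : ℕ => F.M k ∧ Nat.Coprime k q)).sigma
      (fun k => (Icc 1 ⌊v / k⌋₊).filter (fun p : ℕ =>
        (p.Prime ∧ (p : ZMod q) = (a : ZMod q) * (k : ZMod q)⁻¹) ∧ u / k < p)),
      (⟨x.2 * x.1, x.2⟩ : (_ : ℕ) × ℕ) ∈ ((Icc 1 ⌊v⌋₊).filter
        (fun m : ℕ => u < m ∧ F.M m ∧ m ≡ a [MOD q])).sigma (fun m => m.primeFactors) := by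
    rintro ⟨k, p⟩ hx
    simp only [mem_sigma, mem_filter, mem_Icc] at hx ⊢
    obtain ⟨⟨⟨hk1, _⟩, hkM, hkq⟩, ⟨hp1, hpv⟩, ⟨hp, hpr⟩, hu⟩ := hx
    have hk0 : (0 : ℝ) < k := by exact_mod_cast hk1
    have hpk : p * k ≡ a [MOD q] := by
      rw [← ZMod.natCast_eq_natCast_iff, Nat.cast_mul, hpr, mul_assoc,
        mul_comm ((k : ZMod q)⁻¹), ZMod.coe_mul_inv_eq_one k hkq, mul_one]
    have hv2 : ((p * k : ℕ) : ℝ) ≤ v := by
      have := (Nat.le_floor_iff (div_nonneg (by linarith) hk0.le)).1 hpv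
      rw [le_div_iff₀ hk0] at this
      exact_mod_cast this
    have hu2 : u < ((p * k : ℕ) : ℝ) := by
      rw [div_lt_iff₀ hk0] at hu
      exact_mod_cast hu
    refine ⟨⟨⟨Nat.mul_pos hp1 hk1, Nat.le_floor hv2⟩, hu2, good_mul F hC hq ha hchi hkM hkq hp hpk,
      hpk⟩, ?_⟩
    exact Nat.mem_primeFactors.2 ⟨hp, Dvd.intro k rfl, mul_ne_zero hp.ne_zero hkM.1⟩
  have hinj : Set.InjOn (fun x : (_ : ℕ) × ℕ => (⟨x.2 * x.1, x.2⟩ : (_ : ℕ) × ℕ))
      (((Icc 1 N).filter (fun k : ℕ => F.M k ∧ Nat.Coprime k q)).sigma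
      (fun k => (Icc 1 ⌊v / k⌋₊).filter (fun p : ℕ =>
        (p.Prime ∧ (p : ZMod q) = (a : ZMod q) * (k : ZMod q)⁻¹) ∧ u / k < p)) :
          Finset ((_ : ℕ) × ℕ)) := by
    rintro ⟨k, p⟩ hx ⟨k', p'⟩ _ h
    simp only [coe_sigma, Set.mem_sigma_iff, mem_coe, mem_filter, mem_Icc] at hx
    simp only [Sigma.mk.injEq, heq_eq_eq] at h ⊢
    obtain ⟨h1, rfl⟩ := h
    exact ⟨Nat.eq_of_mul_eq_mul_left hx.2.1.1 h1, rfl⟩
  have h3 := sum_image (f := fun y : (_ : ℕ) × ℕ => Real.log y.2) hinj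
  refine le_trans (le_of_eq h3.symm) ?_
  refine sum_le_sum_of_subset_of_nonneg ?_ (fun y _ _ => Real.log_natCast_nonneg _)
  intro y hy
  obtain ⟨x, hx, rfl⟩ := mem_image.1 hy
  exact key x hx

theorem lf_pos (E : ℕ → Prop) {p : ℕ} (hp : p.Prime) : 0 < lf E p := by
  have h2 : (2 : ℝ) ≤ p := by exact_mod_cast hp.two_le
  unfold lf
  split_ifs
  · refine inv_pos.2 (sub_pos.2 ?_)
    rw [div_lt_one (by positivity)]
    nlinarith
  · refine inv_pos.2 (sub_pos.2 ?_)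
    rw [div_lt_one (by positivity)]
    linarith

theorem lam_eq (F : IQ) (q : ℕ) :
    F.lam q = (q.totient : ℝ)⁻¹ * (∏ p ∈ q.primeFactors, lf F.inert p)⁻¹ := by
  classical
  have h1 : (q.totient : ℝ) = q * ∏ p ∈ q.primeFactors, (1 - (p : ℝ)⁻¹) := by
    have := congrArg (fun x : ℚ => (x : ℝ)) (Nat.totient_eq_mul_prod_factors q)
    simpa using this
  rw [h1, mul_inv, mul_assoc, ← mul_inv, ← prod_mul_distrib, ← prod_inv_distrib]
  unfold IQ.lam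
  rw [div_eq_inv_mul, prod_filter]
  refine congrArg _ (prod_congr rfl (fun p hp => ?_))
  have h2 : (2 : ℝ) ≤ p := by exact_mod_cast (Nat.prime_of_mem_primeFactors hp).two_le
  have h3 : (p : ℝ) - 1 ≠ 0 := by linarith
  have h4 : (p : ℝ) ^ 2 - 1 ≠ 0 := by nlinarith
  have h5 : (p : ℝ) ≠ 0 := by linarith
  unfold lf
  split_ifs
  · field_simp
    ring
  · field_simp

end WIRL

open WIRL in
theorem stWIRL (hC : St_CHI) (hT : St_TCOP) : St_WIRL := by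
  classical
  intro F B hB hB0 q hq0 hq α β ε hα hαβ hε
  have : NeZero q := ⟨hq0⟩
  have hβ : 0 < β := lt_of_le_of_lt hα hαβ
  have hφ : (0 : ℝ) < q.totient := by
    exact_mod_cast Nat.totient_pos.2 (Nat.pos_of_ne_zero hq0)
  obtain ⟨f, hf⟩ : ∃ f : ℝ, f = (q.totient : ℝ)⁻¹ := ⟨_, rfl⟩
  have hf0 : 0 < f := hf ▸ inv_pos.2 hφ
  obtain ⟨P, hP⟩ : ∃ P : ℝ, P = ∏ p ∈ q.primeFactors, lf F.inert p := ⟨_, rfl⟩
  have hP0 : 0 < P := hP ▸ prod_pos (fun p hp => lf_pos _ (Nat.prime_of_mem_primeFactors hp))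
  have hlam : F.lam q = f * P⁻¹ := by rw [hf, hP]; exact lam_eq F q
  obtain ⟨η, hη⟩ : ∃ η : ℝ, η = min ε 1 / 2 := ⟨_, rfl⟩
  have hη0 : 0 < η := by rw [hη]; have := lt_min hε one_pos; linarith
  have hη1 : η < 1 := by rw [hη]; have := min_le_right ε 1; linarith
  have hηε : η < ε := by rw [hη]; have := min_le_left ε 1; linarith
  have hd : 0 < β - α := sub_pos.2 hαβ
  have hs : 0 < α + β := by linarith
  obtain ⟨C, hC0, hCC⟩ := pnt_unif q (η * (β - α) * f / (α + β)) (by positivity)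
  rw [← hf] at hCC
  obtain ⟨c, hc⟩ : ∃ c : ℝ, c = (1 - η) * (β - α) * f := ⟨_, rfl⟩
  have hc0 : 0 ≤ c := by
    rw [hc]; exact mul_nonneg (mul_nonneg (by linarith) hd.le) hf0.le
  have hsq : Tendsto (fun X : ℝ => √(Real.log X)) atTop atTop :=
    Real.tendsto_sqrt_atTop.comp Real.tendsto_log_atTop
  have hL : Tendsto (fun X : ℝ => c * P⁻¹ * (TT F.inert X / √(Real.log X))
      - 2 * C / √(Real.log X)) atTop (𝓝 (c * P⁻¹ * (2 * B) - 0)) :=
    (hB.const_mul _).sub (tendsto_const_nhds.div_atTop hsq)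
  have hR : Tendsto (fun X : ℝ => (1 - ε) * (β - α) * (2 * B * F.lam q)
      * (1 + Real.log β / Real.log X)) atTop
      (𝓝 ((1 - ε) * (β - α) * (2 * B * F.lam q) * (1 + 0))) :=
    (tendsto_const_nhds.add (tendsto_const_nhds.div_atTop Real.tendsto_log_atTop)).const_mul _
  have hlt : (1 - ε) * (β - α) * (2 * B * F.lam q) * (1 + 0) < c * P⁻¹ * (2 * B) - 0 := by
    rw [hlam, hc]
    have h1 : 0 < (ε - η) * ((β - α) * (2 * B * (f * P⁻¹))) :=
      mul_pos (by linarith) (by positivity)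
    nlinarith
  filter_upwards [hR.eventually_lt hL hlt, eventually_gt_atTop 1,
    (tendsto_id.const_mul_atTop hβ).eventually_gt_atTop 1] with X hX hX1 hX2 a ha hchi
  simp only [id] at hX2
  have hX0 : 0 < X := by linarith
  have hl : 0 < Real.log X := Real.log_pos hX1
  have hl2 : 0 < Real.log (β * X) := Real.log_pos hX2
  have hsq0 : 0 < √(Real.log X) := Real.sqrt_pos.2 hl
  have h1 := double F (hC F) hq ha hchi (α * X) (β * X) hX2.le ⌊X⌋₊
  have h2 : ∀ k ∈ (Icc 1 ⌊X⌋₊).filter (fun k : ℕ => F.M k ∧ Nat.Coprime k q),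
      c * X * (1 / (k : ℝ)) - 2 * C ≤ th q ((a : ZMod q) * (k : ZMod q)⁻¹) (β * X / k)
        - th q ((a : ZMod q) * (k : ZMod q)⁻¹) (α * X / k) := by
    intro k hk
    rw [mem_filter, mem_Icc] at hk
    have hk0 : (0 : ℝ) < k := by exact_mod_cast hk.1.1
    have hu : IsUnit ((a : ZMod q) * (k : ZMod q)⁻¹) :=
      ((ZMod.isUnit_iff_coprime a q).2 ha).mul
        (IsUnit.of_mul_eq_one_right _ (ZMod.coe_mul_inv_eq_one k hk.2.2))
    have h3 := (abs_le.1 (hCC _ hu (β * X / k) (by positivity))).1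
    have h4 := (abs_le.1 (hCC _ hu (α * X / k) (by positivity))).2
    have h5 : c * X * (1 / (k : ℝ)) = β * X / k * f - α * X / k * f
        - η * (β - α) * f / (α + β) * (β * X / k) - η * (β - α) * f / (α + β) * (α * X / k) := by
      rw [hc]
      field_simp
      ring
    linarith
  have h3 := (sum_le_sum h2).trans h1
  rw [sum_sub_distrib, ← mul_sum, sum_const, nsmul_eq_mul] at h3
  have h4 : (((Icc 1 ⌊X⌋₊).filter (fun k : ℕ => F.M k ∧ Nat.Coprime k q)).card : ℝ) ≤ X := by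
    have h5 := card_filter_le (Icc 1 ⌊X⌋₊) (fun k : ℕ => F.M k ∧ Nat.Coprime k q)
    rw [Nat.card_Icc, Nat.add_sub_cancel] at h5
    exact le_trans (by exact_mod_cast h5) (Nat.floor_le hX0.le)
  have h5 := hT F.inert q X hq0
  rw [← hP] at h5
  have h6 : ∑ k ∈ Icc 1 ⌊X⌋₊, ind (MM F.inert k ∧ Nat.Coprime k q) / k
      = ∑ k ∈ (Icc 1 ⌊X⌋₊).filter (fun k : ℕ => F.M k ∧ Nat.Coprime k q), 1 / (k : ℝ) := by
    rw [sum_filter]
    refine sum_congr rfl (fun k _ => ?_)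
    split_ifs with h
    · rw [ind_pos h]
    · rw [ind_neg h, zero_div]
  rw [h6] at h5
  obtain ⟨S, hS⟩ : ∃ S : ℝ, S = ∑ k ∈ (Icc 1 ⌊X⌋₊).filter
    (fun k : ℕ => F.M k ∧ Nat.Coprime k q), 1 / (k : ℝ) := ⟨_, rfl⟩
  obtain ⟨N, hN⟩ : ∃ N : ℝ, N = ∑ m ∈ Icc 1 ⌊β * X⌋₊,
    ind (α * X < m ∧ F.M m ∧ m ≡ a [MOD q]) := ⟨_, rfl⟩
  rw [← hS] at h3 h5
  rw [← hN] at h3 ⊢
  have h7 : P⁻¹ * TT F.inert X ≤ S := by
    rw [inv_mul_le_iff₀ hP0]; exact h5
  have h8 : (c * P⁻¹ * TT F.inert X - 2 * C) * X ≤ Real.log (β * X) * N := by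
    have h9 : c * X * (P⁻¹ * TT F.inert X) ≤ c * X * S :=
      mul_le_mul_of_nonneg_left h7 (mul_nonneg hc0 hX0.le)
    have h10 := mul_le_mul_of_nonneg_right h4 (show 0 ≤ 2 * C by linarith)
    nlinarith
  obtain ⟨K, hK⟩ : ∃ K : ℝ, K = (1 - ε) * (β - α) * (2 * B * F.lam q) := ⟨_, rfl⟩
  rw [← hK] at hX ⊢
  have h9 : K * (1 + Real.log β / Real.log X) * √(Real.log X)
      ≤ c * P⁻¹ * TT F.inert X - 2 * C := by
    have h10 := mul_le_mul_of_nonneg_right hX.le hsq0.le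
    have h11 : (c * P⁻¹ * (TT F.inert X / √(Real.log X)) - 2 * C / √(Real.log X))
        * √(Real.log X) = c * P⁻¹ * TT F.inert X - 2 * C := by
      field_simp
    linarith
  have h10 : K * (1 + Real.log β / Real.log X) * √(Real.log X) * X
      = Real.log (β * X) * (K * X / √(Real.log X)) := by
    rw [Real.log_mul hβ.ne' hX0.ne']
    obtain ⟨s, hs'⟩ : ∃ s : ℝ, s = √(Real.log X) := ⟨_, rfl⟩
    have h11 : Real.log X = s ^ 2 := by rw [hs', Real.sq_sqrt hl.le]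
    have h12 : s ≠ 0 := hs' ▸ hsq0.ne'
    rw [← hs', h11]
    field_simp
    ring
  have h11 : Real.log (β * X) * (K * X / √(Real.log X)) ≤ Real.log (β * X) * N := by
    rw [← h10]
    exact (mul_le_mul_of_nonneg_right h9 hX0.le).trans h8
  exact le_of_mul_le_mul_left h11 hl2

end Pool.Agent.Lib.DL
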