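import Pool.Agent.Lib.DL.Blue

set_option autoImplicit false

namespace Pool.Agent.Lib.DL

open Finset Filter Topology
open Pool.Agent.Lib.MP_d48457_nt (ind ind_pos ind_neg ind_nonneg ind_le_one ind_and ind_congr
  ind_mono sum_ind_eq_card)

namespace WIRU

theorem sum_log_div (x : ℝ) (hx : 0 < x) (N : ℕ) (hN : 1 ≤ N) :
    ∑ m ∈ Icc 1 N, Real.log (x / m) ≤ N * Real.log (x / N) + N := by
  induction N, hN using Nat.le_induction with
  | base => simp
  | succ n hn ih =>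
    rw [sum_Icc_succ_top (by omega)]
    have hn0 : (0 : ℝ) < n := by exact_mod_cast hn
    have h1 : Real.log (((n : ℝ) + 1) / n) ≤ ((n : ℝ) + 1) / n - 1 :=
      Real.log_le_sub_one_of_pos (by positivity)
    have h2 : ((n : ℝ) + 1) / n - 1 = 1 / n := by field_simp; ring
    rw [h2, Real.log_div (by positivity) hn0.ne'] at h1
    have h3 : (n : ℝ) * (Real.log ((n : ℝ) + 1) - Real.log n) ≤ 1 := by
      have := mul_le_mul_of_nonneg_left h1 hn0.le
      rwa [mul_one_div_cancel hn0.ne'] at this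
    push_cast
    rw [Real.log_div hx.ne' (by positivity : (n : ℝ) + 1 ≠ 0)]
    rw [Real.log_div hx.ne' hn0.ne'] at ih
    nlinarith

theorem sum_log_div_le (x : ℝ) (hx : 1 ≤ x) :
    ∑ m ∈ Icc 1 ⌊x⌋₊, Real.log (x / m) ≤ x := by
  have hN : 1 ≤ ⌊x⌋₊ := Nat.le_floor (by simpa using hx)
  have h := sum_log_div x (by linarith) _ hN
  have hN0 : (0 : ℝ) < ⌊x⌋₊ := by exact_mod_cast hN
  have h1 : Real.log (x / ⌊x⌋₊) ≤ x / ⌊x⌋₊ - 1 := Real.log_le_sub_one_of_pos (by positivity)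
  have h2 := mul_le_mul_of_nonneg_left h1 hN0.le
  have h3 : (⌊x⌋₊ : ℝ) * (x / ⌊x⌋₊ - 1) = x - ⌊x⌋₊ := by field_simp
  linarith

theorem summable_log : Summable (fun c : ℕ => Real.log c / (c : ℝ) ^ 2) := by
  have h : Summable (fun c : ℕ => 2 * (c : ℝ) ^ (-(3 / 2) : ℝ)) :=
    (Real.summable_nat_rpow.2 (by norm_num)).mul_left 2
  refine Summable.of_nonneg_of_le (fun c => div_nonneg (Real.log_natCast_nonneg c) (by positivity))
    (fun c => ?_) h
  rcases Nat.eq_zero_or_pos c with rfl | hc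
  · simp
  have hc0 : (0 : ℝ) < c := by exact_mod_cast hc
  have h1 : Real.log c ≤ (c : ℝ) ^ (1 / 2 : ℝ) / (1 / 2) := Real.log_le_rpow_div hc0.le (by norm_num)
  have h2 : (c : ℝ) ^ (-(3 / 2) : ℝ) * (c : ℝ) ^ 2 = (c : ℝ) ^ (1 / 2 : ℝ) := by
    rw [← Real.rpow_natCast, ← Real.rpow_add hc0]
    norm_num
  rw [div_le_iff₀ (by positivity), mul_assoc, h2]
  linarith

theorem card_dvd (N d : ℕ) (hd : 0 < d) :
    ∑ m ∈ Icc 1 N, ind (d ∣ m) ≤ (N : ℝ) / d := by
  rw [sum_ind_eq_card]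
  have h : (Icc 1 N).filter (fun m => d ∣ m) = (Ioc 0 N).filter (fun m => d ∣ m) := rfl
  rw [h, Nat.Ioc_filter_dvd_card_eq_div]
  exact Nat.cast_div_le

theorem log_le (E : ℕ → Prop) (N m : ℕ) (hm : MM E m) (hN : m ≤ N) :
    Real.log m ≤ ∑ p ∈ Icc 1 N, ind (p.Prime ∧ ¬ E p) * Real.log p * ind (p ∣ m)
      + 2 * ∑ c ∈ Icc 1 N, Real.log c * ind (c ^ 2 ∣ m) := by
  obtain ⟨a, b, hab, ha⟩ := Nat.sq_mul_squarefree m
  have hm0 := hm.1
  have ha0 : a ≠ 0 := ha.ne_zero
  have hb0 : b ≠ 0 := by rintro rfl; simp at hab; exact hm0 hab.symm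
  have h1 : Real.log m = 2 * Real.log b + Real.log a := by
    rw [← hab]
    push_cast
    rw [Real.log_mul (by positivity) (by positivity), Real.log_pow]
    norm_num
  have hbm : b ≤ m := by
    apply Nat.le_of_dvd (Nat.pos_of_ne_zero hm0)
    rw [← hab]
    exact Dvd.intro (b * a) (by ring)
  have h2 : Real.log b ≤ ∑ c ∈ Icc 1 N, Real.log c * ind (c ^ 2 ∣ m) := by
    have hb : b ∈ Icc 1 N := mem_Icc.2 ⟨Nat.pos_of_ne_zero hb0, hbm.trans hN⟩
    have := single_le_sum (f := fun c : ℕ => Real.log c * ind (c ^ 2 ∣ m))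
      (fun c _ => mul_nonneg (Real.log_natCast_nonneg c) (ind_nonneg _)) hb
    rwa [ind_pos (Dvd.intro a hab), mul_one] at this
  have h3 : Real.log a = ∑ p ∈ a.primeFactors, Real.log p := by
    conv_lhs => rw [← Nat.prod_primeFactors_of_squarefree ha]
    push_cast
    rw [Real.log_prod]
    intro p hp
    exact_mod_cast (Nat.prime_of_mem_primeFactors hp).ne_zero
  have ham : a ∣ m := Dvd.intro_left _ hab
  have h4 : ∑ p ∈ a.primeFactors, Real.log p
      ≤ ∑ p ∈ Icc 1 N, ind (p.Prime ∧ ¬ E p) * Real.log p * ind (p ∣ m) := by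
    have hsub : a.primeFactors ⊆ Icc 1 N := by
      intro p hp
      have hp1 := Nat.prime_of_mem_primeFactors hp
      exact mem_Icc.2 ⟨hp1.pos, (Nat.le_of_dvd (Nat.pos_of_ne_zero hm0)
        ((Nat.dvd_of_mem_primeFactors hp).trans ham)).trans hN⟩
    refine le_trans (le_of_eq (sum_congr rfl fun p hp => ?_))
      (sum_le_sum_of_subset_of_nonneg hsub fun p _ _ => mul_nonneg
        (mul_nonneg (ind_nonneg _) (Real.log_natCast_nonneg p)) (ind_nonneg _))
    have hp1 := Nat.prime_of_mem_primeFactors hp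
    have hpa := Nat.dvd_of_mem_primeFactors hp
    have hE : ¬ E p := by
      intro hE
      have he := hm.2 p hp1 hE
      rw [← hab, Nat.factorization_mul (pow_ne_zero 2 hb0) ha0, Nat.factorization_pow] at he
      have h5 : a.factorization p = 1 := Nat.factorization_eq_one_of_squarefree ha hp1 hpa
      simp only [Finsupp.add_apply, Finsupp.smul_apply, smul_eq_mul, h5] at he
      exact (Nat.not_even_iff_odd.2 (odd_two_mul_add_one _)) he
    rw [ind_pos ⟨hp1, hE⟩, ind_pos (hpa.trans ham)]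
    ring
  linarith

theorem MM_div {E : ℕ → Prop} {p k : ℕ} (hp : p.Prime) (hE : ¬ E p) (h : MM E (p * k)) :
    MM E k := by
  have hk : k ≠ 0 := by rintro rfl; exact h.1 (mul_zero p)
  refine ⟨hk, fun q hq hEq => ?_⟩
  have he := h.2 q hq hEq
  have hne : p ≠ q := by rintro rfl; exact hE hEq
  rw [Nat.factorization_mul hp.ne_zero hk, hp.factorization] at he
  simpa [Finsupp.single_apply, hne] using he

theorem swap_one (E : ℕ → Prop) (N p : ℕ) (hp : p.Prime) (hE : ¬ E p) :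
    ∑ m ∈ Icc 1 N, ind (MM E m) * ind (p ∣ m) ≤ ∑ k ∈ Icc 1 N, ind (MM E k) * ind (p ≤ N / k) := by
  classical
  simp only [← ind_and]
  rw [sum_ind_eq_card, sum_ind_eq_card]
  have : ((Icc 1 N).filter fun m => MM E m ∧ p ∣ m).card
      ≤ ((Icc 1 N).filter fun k => MM E k ∧ p ≤ N / k).card := by
    refine card_le_card_of_injOn (fun m => m / p) ?_ ?_
    · intro m hm
      simp only [coe_filter, mem_Icc, Set.mem_setOf_eq] at hm ⊢
      obtain ⟨⟨h1, h2⟩, h3, k, rfl⟩ := hm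
      rw [Nat.mul_div_cancel_left k hp.pos]
      have hk : 0 < k := Nat.pos_of_ne_zero (by rintro rfl; simp at h1)
      refine ⟨⟨hk, le_trans (Nat.le_mul_of_pos_left k hp.pos) h2⟩, MM_div hp hE h3, ?_⟩
      exact (Nat.le_div_iff_mul_le hk).2 h2
    · intro m hm m' hm' h
      simp only [coe_filter, mem_Icc, Set.mem_setOf_eq] at hm hm'
      obtain ⟨_, _, k, rfl⟩ := hm
      obtain ⟨_, _, k', rfl⟩ := hm'
      simp only [Nat.mul_div_cancel_left _ hp.pos] at h
      rw [h]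
  exact_mod_cast this

/-- The Chebyshev function of the primes without `E`. -/
noncomputable def th (E : ℕ → Prop) (n : ℕ) : ℝ :=
  ∑ p ∈ Icc 1 n, ind (p.Prime ∧ ¬ E p) * Real.log p

theorem th_mono (E : ℕ → Prop) {m n : ℕ} (h : m ≤ n) : th E m ≤ th E n :=
  sum_le_sum_of_subset_of_nonneg (Icc_subset_Icc_right h) fun p _ _ =>
    mul_nonneg (ind_nonneg _) (Real.log_natCast_nonneg p)

theorem th_nonneg (E : ℕ → Prop) (n : ℕ) : 0 ≤ th E n :=
  sum_nonneg fun p _ => mul_nonneg (ind_nonneg _) (Real.log_natCast_nonneg p)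

theorem swap_all (E : ℕ → Prop) (N : ℕ) :
    ∑ m ∈ Icc 1 N, ind (MM E m) * ∑ p ∈ Icc 1 N, ind (p.Prime ∧ ¬ E p) * Real.log p * ind (p ∣ m)
      ≤ ∑ k ∈ Icc 1 N, ind (MM E k) * th E (N / k) := by
  have h1 : ∀ k : ℕ, th E (N / k)
      = ∑ p ∈ Icc 1 N, ind (p.Prime ∧ ¬ E p) * Real.log p * ind (p ≤ N / k) := by
    intro k
    unfold th
    rw [← sum_subset (Icc_subset_Icc_right (Nat.div_le_self N k))]
    · refine sum_congr rfl fun p hp => ?_
      rw [ind_pos (mem_Icc.1 hp).2, mul_one]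
    · intro p hp hp'
      have : ¬ p ≤ N / k := fun h => hp' (mem_Icc.2 ⟨(mem_Icc.1 hp).1, h⟩)
      rw [ind_neg this, mul_zero]
  simp only [h1, mul_sum]
  rw [sum_comm, sum_comm (s := Icc 1 N) (f := fun k p =>
    ind (MM E k) * (ind (p.Prime ∧ ¬ E p) * Real.log p * ind (p ≤ N / k)))]
  refine sum_le_sum fun p _ => ?_
  by_cases hp : p.Prime ∧ ¬ E p
  · have h := mul_le_mul_of_nonneg_left (swap_one E N p hp.1 hp.2) (Real.log_natCast_nonneg p)
    simp only [mul_sum] at h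
    rw [ind_pos hp]
    refine le_trans (le_of_eq (sum_congr rfl fun m _ => by ring))
      (h.trans (le_of_eq (sum_congr rfl fun m _ => by ring)))
  · rw [ind_neg hp]
    simp

theorem sq_part (N : ℕ) :
    ∑ m ∈ Icc 1 N, ∑ c ∈ Icc 1 N, Real.log c * ind (c ^ 2 ∣ m)
      ≤ N * ∑' c : ℕ, Real.log c / (c : ℝ) ^ 2 := by
  rw [sum_comm]
  have h1 : ∑ c ∈ Icc 1 N, Real.log c / (c : ℝ) ^ 2 ≤ ∑' c : ℕ, Real.log c / (c : ℝ) ^ 2 :=
    summable_log.sum_le_tsum _ fun c _ => div_nonneg (Real.log_natCast_nonneg c) (by positivity)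
  refine le_trans ?_ (mul_le_mul_of_nonneg_left h1 (Nat.cast_nonneg N))
  rw [mul_sum]
  refine sum_le_sum fun c hc => ?_
  rw [← mul_sum]
  have h2 := card_dvd N (c ^ 2) (pow_pos (mem_Icc.1 hc).1 2)
  have h3 := mul_le_mul_of_nonneg_left h2 (Real.log_natCast_nonneg c)
  refine h3.trans (le_of_eq ?_)
  push_cast
  ring

theorem main_ineq (E : ℕ → Prop) (η C : ℝ) (hC : 0 ≤ C)
    (hth : ∀ y : ℝ, 0 ≤ y → th E ⌊y⌋₊ ≤ η * y + C) (x : ℝ) (hx : 1 ≤ x) :
    SS E x * Real.log x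
      ≤ η * x * TT E x + (1 + 2 * (∑' c : ℕ, Real.log c / (c : ℝ) ^ 2) + C) * x := by
  set N := ⌊x⌋₊ with hN
  have hx0 : 0 < x := by linarith
  have hNx : (N : ℝ) ≤ x := Nat.floor_le hx0.le
  have hK : 0 ≤ ∑' c : ℕ, Real.log c / (c : ℝ) ^ 2 :=
    tsum_nonneg fun c => div_nonneg (Real.log_natCast_nonneg c) (by positivity)
  have h1 : SS E x * Real.log x ≤ ∑ m ∈ Icc 1 N, (Real.log (x / m)
      + ind (MM E m) * ∑ p ∈ Icc 1 N, ind (p.Prime ∧ ¬ E p) * Real.log p * ind (p ∣ m)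
      + 2 * ∑ c ∈ Icc 1 N, Real.log c * ind (c ^ 2 ∣ m)) := by
    unfold SS
    rw [sum_mul]
    refine sum_le_sum fun m hm => ?_
    have hm1 := mem_Icc.1 hm
    have hm0 : (0 : ℝ) < m := by exact_mod_cast hm1.1
    have hmx : (m : ℝ) ≤ x := le_trans (by exact_mod_cast hm1.2) hNx
    by_cases hM : MM E m
    · have := log_le E N m hM hm1.2
      rw [ind_pos hM, Real.log_div hx0.ne' hm0.ne']
      linarith
    · rw [ind_neg hM]
      have h2 : 0 ≤ Real.log (x / m) := Real.log_nonneg ((one_le_div hm0).2 hmx)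
      have h3 : 0 ≤ ∑ c ∈ Icc 1 N, Real.log c * ind (c ^ 2 ∣ m) :=
        sum_nonneg fun c _ => mul_nonneg (Real.log_natCast_nonneg c) (ind_nonneg _)
      linarith
  rw [sum_add_distrib, sum_add_distrib, ← mul_sum] at h1
  have h2 := sum_log_div_le x hx
  have h3 := swap_all E N
  have h4 := sq_part N
  have h5 : ∑ k ∈ Icc 1 N, ind (MM E k) * th E (N / k) ≤ η * x * TT E x + C * x := by
    have h6 : ∑ k ∈ Icc 1 N, ind (MM E k) * th E (N / k)
        ≤ ∑ k ∈ Icc 1 N, (η * x * (ind (MM E k) / k) + C) := by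
      refine sum_le_sum fun k hk => ?_
      have h7 := hth (x / k) (by positivity)
      rw [Nat.floor_div_natCast] at h7
      by_cases hM : MM E k
      · rw [ind_pos hM]
        have : η * x * (1 / k) = η * (x / k) := by ring
        linarith
      · rw [ind_neg hM]
        simpa using hC
    rw [sum_add_distrib, ← mul_sum, sum_const, Nat.card_Icc, nsmul_eq_mul] at h6
    have h8 : ((N + 1 - 1 : ℕ) : ℝ) * C ≤ C * x := by
      rw [Nat.add_sub_cancel]
      nlinarith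
    unfold TT
    linarith
  have h9 := mul_le_mul_of_nonneg_right hNx hK
  nlinarith

end WIRU

open WIRU in
theorem stWIRU : St_WIRU := by
  intro E B hB hth ε hε
  set η : ℝ := min 1 (ε / (2 * (3 / 2 + 2 * |B|))) with hη
  have hA : 0 < 3 / 2 + 2 * |B| := by positivity
  have hη0 : 0 < η := lt_min one_pos (by positivity)
  have hη1 : η ≤ 1 := min_le_left _ _
  have hη2 : η * (3 / 2 + 2 * |B|) ≤ ε / 2 := by
    have h := mul_le_mul_of_nonneg_right (min_le_right 1 (ε / (2 * (3 / 2 + 2 * |B|)))) hA.le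
    refine h.trans (le_of_eq ?_)
    field_simp
  have hη3 : (1 / 2 + η) * (2 * B + η) ≤ B + ε / 2 := by
    have := le_abs_self B
    nlinarith
  obtain ⟨Y, hY⟩ := eventually_atTop.1 (hth η hη0)
  have hth' : ∀ y : ℝ, 0 ≤ y → th E ⌊y⌋₊ ≤ (1 / 2 + η) * y + th E ⌊Y⌋₊ := by
    intro y hy
    have h0 := th_nonneg E ⌊Y⌋₊
    rcases le_total Y y with h | h
    · have := hY y h
      unfold th at *
      linarith
    · have := th_mono E (Nat.floor_le_floor h)
      have h1 : 0 ≤ (1 / 2 + η) * y := by positivity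
      linarith
  set C : ℝ := 1 + 2 * (∑' c : ℕ, Real.log c / (c : ℝ) ^ 2) + th E ⌊Y⌋₊ with hC
  have hsq : Tendsto (fun x : ℝ => √(Real.log x)) atTop atTop :=
    Real.tendsto_sqrt_atTop.comp Real.tendsto_log_atTop
  have hT : ∀ᶠ x : ℝ in atTop, TT E x / √(Real.log x) ≤ 2 * B + η :=
    hB.eventually (eventually_le_nhds (by linarith))
  filter_upwards [hT, hsq.eventually_ge_atTop (2 * C / ε), eventually_gt_atTop 1] with x h1 h2 hx
  have hl : 0 < Real.log x := Real.log_pos hx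
  have hs : 0 < √(Real.log x) := Real.sqrt_pos.2 hl
  have hss : √(Real.log x) * √(Real.log x) = Real.log x := Real.mul_self_sqrt hl.le
  have h3 := main_ineq E (1 / 2 + η) (th E ⌊Y⌋₊) (th_nonneg E _) hth' x hx.le
  rw [← hC] at h3
  rw [div_le_iff₀ hs] at h1
  rw [div_le_iff₀ hε] at h2
  rw [le_div_iff₀ hs]
  have hx0 : 0 < x := by linarith
  refine le_of_mul_le_mul_right ?_ hs
  rw [mul_assoc, hss]
  have h4 : (1 / 2 + η) * x * TT E x ≤ (1 / 2 + η) * x * ((2 * B + η) * √(Real.log x)) :=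
    mul_le_mul_of_nonneg_left h1 (by positivity)
  have h5 : (1 / 2 + η) * (2 * B + η) * (x * √(Real.log x))
      ≤ (B + ε / 2) * (x * √(Real.log x)) := mul_le_mul_of_nonneg_right hη3 (by positivity)
  have h6 : C * x ≤ ε / 2 * √(Real.log x) * x :=
    mul_le_mul_of_nonneg_right (by linarith) hx0.le
  nlinarith

end Pool.Agent.Lib.DL
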