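import Pool.Agent.Lib.DL.Blue

set_option autoImplicit false

namespace Pool.Agent.Lib.DL

open QuadraticAlgebra Finset Filter Topology
open Pool.Agent.Lib.MP_d48457_nt (ind ind_pos ind_neg LD)

namespace ZETA

theorem term_eq (f : ℕ → ℝ) (h0 : f 0 = 0) (s : ℝ) (n : ℕ) :
    LSeries.term (fun n => (f n : ℂ)) (s : ℂ) n = ((f n / (n : ℝ) ^ s : ℝ) : ℂ) := by
  rcases eq_or_ne n 0 with rfl | hn
  · simp [h0]
  · rw [LSeries.term_of_ne_zero hn, Complex.ofReal_div, Complex.ofReal_cpow (Nat.cast_nonneg n)]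
    simp

theorem summ_iff (f : ℕ → ℝ) (h0 : f 0 = 0) (s : ℝ) :
    LSeriesSummable (fun n => (f n : ℂ)) (s : ℂ) ↔ Summable (fun n : ℕ => f n / (n : ℝ) ^ s) := by
  unfold LSeriesSummable
  rw [show LSeries.term (fun n => (f n : ℂ)) (s : ℂ) =
    fun n : ℕ => ((f n / (n : ℝ) ^ s : ℝ) : ℂ) from funext (term_eq f h0 s)]
  exact Complex.summable_ofReal

theorem ls_eq (f : ℕ → ℝ) (h0 : f 0 = 0) (s : ℝ) :
    LSeries (fun n => (f n : ℂ)) (s : ℂ) = ((∑' n : ℕ, f n / (n : ℝ) ^ s : ℝ) : ℂ) := by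
  unfold LSeries
  rw [Complex.ofReal_tsum]
  exact tsum_congr (term_eq f h0 s)

theorem shift : Tendsto (fun σ : ℝ => 1 + σ) (𝓝[>] 0) (𝓝[>] 1) := by
  refine tendsto_nhdsWithin_iff.2 ⟨?_, ?_⟩
  · have h : Tendsto (fun σ : ℝ => 1 + σ) (𝓝 0) (𝓝 (1 + 0)) :=
      tendsto_const_nhds.add tendsto_id
    rw [add_zero] at h
    exact h.mono_left nhdsWithin_le_nhds
  · filter_upwards [self_mem_nhdsWithin] with σ hσ
    have : 0 < σ := hσ
    show 1 < 1 + σ
    linarith

theorem tend_of (f : ℕ → ℝ) (h0 : f 0 = 0) (l : ℂ)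
    (h : Tendsto (fun s : ℝ => ((s : ℂ) - 1) * LSeries (fun n => (f n : ℂ)) s) (𝓝[>] 1) (𝓝 l)) :
    Tendsto (fun σ : ℝ => σ * ∑' n : ℕ, f n / (n : ℝ) ^ (1 + σ)) (𝓝[>] 0) (𝓝 l.re) := by
  have h1 := (Complex.continuous_re.tendsto l).comp (h.comp shift)
  refine h1.congr (fun σ => ?_)
  simp only [Function.comp]
  rw [ls_eq f h0]
  have : (((1 + σ : ℝ) : ℂ) - 1) = (σ : ℂ) := by push_cast; ring
  rw [this, ← Complex.ofReal_mul, Complex.ofReal_re]

theorem rho_zero (F : IQ) : F.ρ 0 = 0 := by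
  unfold IQ.ρ
  rw [card_eq_zero, eq_empty_iff_forall_notMem]
  intro I hI
  obtain ⟨h1, h2⟩ := F.mem_idN.1 hI
  exact absurd h2 (F.absNorm_pos h1).ne'

theorem aa_eq (F : IQ) : (F.aa (F.Psi0 1) : ℕ → ℂ) = fun n => (((F.ρ n : ℕ) : ℝ) : ℂ) := by
  funext n
  show ∑ I ∈ F.idN n, F.Psi0 1 I = _
  rw [sum_congr rfl (g := fun _ => (1 : ℂ))]
  · simp [IQ.ρ]
  · intro I hI
    have : F.cop 1 I := ⟨(F.mem_idN.1 hI).1, Nat.coprime_one_right _⟩
    simp [IQ.Psi0, ind_pos this]

theorem res (F : IQ) : ∃ κ : ℝ, IsRes F κ := by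
  obtain ⟨H, hH, -⟩ := (F.hk0 1).ld one_ne_zero
  have h0 : (fun n => ((F.ρ n : ℕ) : ℝ)) 0 = 0 := by simp [rho_zero]
  refine ⟨(H 1).re, fun σ hσ => ?_, ?_⟩
  · have h1 := hH.sa ((1 + σ : ℝ) : ℂ) (by rw [Complex.ofReal_re]; linarith)
    rw [aa_eq] at h1
    exact (summ_iff _ h0 _).1 h1
  · refine tend_of _ h0 _ ?_
    have hc : ContinuousAt H 1 := by
      refine (hH.df.differentiableAt ?_).continuousAt
      refine (isOpen_lt continuous_const Complex.continuous_re).mem_nhds ?_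
      simp
    have h2 : Tendsto (fun s : ℝ => (s : ℂ)) (𝓝[>] 1) (𝓝 1) := by
      have := Complex.continuous_ofReal.tendsto 1
      rw [Complex.ofReal_one] at this
      exact this.mono_left nhdsWithin_le_nhds
    refine (hc.tendsto.comp h2).congr' ?_
    filter_upwards [self_mem_nhdsWithin] with s hs
    have hs1 : 1 < s := hs
    simp only [Function.comp]
    rw [hH.he s (by rw [Complex.ofReal_re]; exact hs1), pow_one, aa_eq]

/-- The number of elements of norm `n`, for positive `n`. -/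
noncomputable def rr (F : IQ) (n : ℕ) : ℝ := if n = 0 then 0 else ((F.elN n).card : ℝ)

theorem sum_rr (F : IQ) (n : ℕ) : ∑ k ∈ Icc 1 n, rr F k = ((F.disc n).card : ℝ) - 1 := by
  classical
  have h1 : (F.disc n).card = ∑ k ∈ range (n + 1), (F.elN k).card := by
    rw [card_eq_sum_card_fiberwise (f := fun z : F.O => z.norm.toNat) (t := range (n + 1))]
    · refine sum_congr rfl (fun k hk => ?_)
      congr 1
      ext z
      have hz := F.norm_nonneg' z
      have hk' := mem_range.1 hk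
      rw [mem_filter, F.mem_disc, F.mem_elN]
      constructor
      · rintro ⟨-, h⟩
        omega
      · intro h
        refine ⟨?_, by omega⟩
        rw [h]
        exact_mod_cast (by omega : k ≤ n)
    · intro z hz
      have h1 : (z.norm : ℝ) ≤ n := F.mem_disc.1 (mem_coe.1 hz)
      have h2 : z.norm ≤ (n : ℤ) := by exact_mod_cast h1
      have hz := F.norm_nonneg' z
      rw [coe_range, Set.mem_Iio]
      show z.norm.toNat < n + 1
      omega
  have h2 : (F.elN 0).card = 1 := by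
    rw [card_eq_one]
    refine ⟨0, ?_⟩
    ext z
    rw [F.mem_elN, mem_singleton]
    constructor
    · intro h
      by_contra hz
      exact F.norm_ne_zero hz (by simpa using h)
    · rintro rfl
      simp
  rw [h1, range_eq_Ico, sum_eq_sum_Ico_succ_bot (by omega), h2]
  push_cast
  rw [add_sub_cancel_left]
  refine sum_congr (by ext k; simp) (fun k hk => ?_)
  have := (mem_Ico.1 hk).1
  rw [rr, if_neg (by omega)]

end ZETA

open ZETA in
theorem stZETA (h2 : St_AR2) (hG : St_GAUSS) : St_ZETA := by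
  intro F
  obtain ⟨κ, hκ⟩ := res F
  have hA := h2 F
  have hw : (0 : ℝ) < F.w := by exact_mod_cast F.w_pos
  have hr0 : rr F 0 = 0 := by simp [rr]
  have hnn : ∀ n, 0 ≤ rr F n := fun n => by unfold rr; split_ifs <;> positivity
  have hle : ∀ n, rr F n ≤ F.w * (F.ρ n : ℝ) := fun n => by
    unfold rr
    split_ifs with h
    · positivity
    · exact_mod_cast hA.card_elN n h
  have hlim : Tendsto (fun n : ℕ => (∑ k ∈ Icc 1 n, rr F k) / (n : ℝ)) atTop
      (𝓝 (2 * Real.pi / F.δ)) := by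
    have a1 := (hG F).comp tendsto_natCast_atTop_atTop
    have a2 : Tendsto (fun n : ℕ => 1 / (n : ℝ)) atTop (𝓝 0) := tendsto_one_div_atTop_nhds_zero_nat
    have a3 := a1.sub a2
    rw [sub_zero] at a3
    refine a3.congr (fun n => ?_)
    simp only [Function.comp]
    rw [sum_rr, sub_div]
  have hT := tend_of _ hr0 _
    (LSeries_tendsto_sub_mul_nhds_one_of_tendsto_sum_div_and_nonneg (rr F) hlim hnn)
  rw [Complex.ofReal_re] at hT
  have hW := hκ.2.const_mul (F.w : ℝ)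
  have hform : 2 * Real.pi / (F.w * F.δ) = 2 * Real.pi / F.δ / F.w := by
    rw [div_div, mul_comm F.δ]
  refine ⟨κ, hκ, ?_, fun hP => ?_⟩
  · rw [hform, div_le_iff₀ hw, mul_comm κ]
    refine le_of_tendsto_of_tendsto hT hW ?_
    filter_upwards [self_mem_nhdsWithin] with σ hσ
    have hσ0 : 0 < σ := hσ
    have hs := (hκ.1 σ hσ0).mul_left (F.w : ℝ)
    have hb : ∀ n : ℕ, rr F n / (n : ℝ) ^ (1 + σ) ≤ F.w * ((F.ρ n : ℝ) / (n : ℝ) ^ (1 + σ)) :=
      fun n => by
        rw [← mul_div_assoc]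
        exact div_le_div_of_nonneg_right (hle n) (by positivity)
    have hs' : Summable (fun n : ℕ => rr F n / (n : ℝ) ^ (1 + σ)) :=
      Summable.of_nonneg_of_le (fun n => div_nonneg (hnn n) (by positivity)) hb hs
    have h3 := hs'.tsum_le_tsum hb hs
    rw [tsum_mul_left] at h3
    calc σ * ∑' n : ℕ, rr F n / (n : ℝ) ^ (1 + σ)
        ≤ σ * (F.w * ∑' n : ℕ, (F.ρ n : ℝ) / (n : ℝ) ^ (1 + σ)) :=
          mul_le_mul_of_nonneg_left h3 hσ0.le
      _ = _ := by ring
  · have he : ∀ n, rr F n = F.w * (F.ρ n : ℝ) := fun n => by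
      unfold rr
      split_ifs with h
      · simp [h, rho_zero]
      · exact_mod_cast hA.card_elN_pid hP n h
    have hW' : Tendsto (fun σ : ℝ => σ * ∑' n : ℕ, rr F n / (n : ℝ) ^ (1 + σ)) (𝓝[>] 0)
        (𝓝 (F.w * κ)) := by
      refine hW.congr (fun σ => ?_)
      simp only [he, mul_div_assoc]
      rw [tsum_mul_left]
      ring
    have h4 := tendsto_nhds_unique hW' hT
    rw [hform, eq_div_iff hw.ne', mul_comm κ, h4]

end Pool.Agent.Lib.DL
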